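import Pool.Agent.H92.D2.Wts
import Pool.Agent.H91.D2.TlcA
import Pool.Agent.H23.D2.Bwj

/-!
# The hypothesis `HIm` of the end

`TlW`: the entropy fields of `TL` at four windows, in a class. `NhW`: the velocities are in no
hyperplane of the record. `him_cls`: with the rows of the target not full, the labels of the tubes at
the precision of the balls exist on all the events with the windows `WW`.
-/

set_option autoImplicit false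

namespace Pool.V1E

open Finset Real MvPolynomial
open Pool.KA Pool.KSAT Pool.PB Pool.GEN Pool.D2R Pool.D2G30 Pool.ISO Pool.CHT Pool.CHX
open Pool.PB.Trl (rt rt_mem t_rt)
open Pool.Agent.H49.Ent Pool.Agent.H32.Dense Pool.STK Pool.K2S Pool.LA91 Pool.OWN68
open Pool.UNJ (ceI)
open Pool.S6C Pool.RCD Pool.D2Con

variable {m : ℕ}

/-- **The entropy fields of `TL`** at the windows `b ≤ w ≤ a ≤ oo`, in a class. `fr`: the precision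
of the frame. -/
def TlW (S : PCl m) (c : ℕ → Fin m) (d : ℕ) (nt : ℕ → ℝ) (P₁ P₂ : Fin d → ℝ)
    (b w a oo : ℝ) (fr : ℕ → ℝ) (hT κT : ℝ) : Prop :=
  ∃ k₂ : ℝ, 0 < k₂ ∧ ∀ D : ℕ, ∃ C₁ : ℕ, Bas S (fun J F A =>
    ∀ (s gx : ℕ → ℕ) (e M Q n : ℕ) (qe : Fin d → ℕ) (V V' : Type) (v : F.Ω → V)
      (vL : LnT F → V) (v' : F.Ω → V')
      (G₀ : PtT F → ℕ → MvPolynomial (Option (Fin m)) ℝ)
      (G₁ G₂ : PtT F → MvPolynomial (Option (Fin m)) ℝ)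
      (H₀ : LnT F → ℕ → MvPolynomial (Option (Fin m)) ℝ)
      (H₁ H₂ : LnT F → MvPolynomial (Option (Fin m)) ℝ) (δ : ℝ),
    Mx (fun J F => ptr F J) (vg w) k₂ F A v → Mx (fun J F => ptr F J) (vg a) k₂ F A v' →
    TlM J d C₁ (hT * J) nt P₁ P₂ w a oo s gx e M Q n qe →
    (∀ i < d, fr i * J ≤ gx i) →
    TlI F A c d D e M gx ⌊b * J⌋₊ ⌊w * J⌋₊ ⌊a * J⌋₊ v vL v' G₀ G₁ G₂ H₀ H₁ H₂ →
    TlS F A c s d ⌊w * J⌋₊ Q n qe G₀ δ →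
    TlO F (Pool.Agent.H49.Ent.cond F.p A True) c s d ⌊b * J⌋₊ ⌊w * J⌋₊ Q n qe v vL v'
      G₀ G₁ G₂ H₀ H₁ (κT * J))

/-- A further property of the letters. -/
abbrev Ext (m : ℕ) : Type 1 := ∀ (J : ℕ) (F : Fam m J), (F.Ω → Prop) → (ℕ → ℕ → ℝ) →
  (ℕ → ℕ → ℕ) → (ℕ → ℕ → ℕ) → (ℕ → PtT F → ℕ → MvPolynomial (Option (Fin m)) ℝ) →
  (ℕ → LnT F → ℕ → MvPolynomial (Option (Fin m)) ℝ) → Prop

/-- **The window** `o 4`, a window with balls only, and the radius from the frame to it. -/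
def W4 (c : ℕ → Fin m) (r D Dr : ℕ) (CB a Eb η₀ : ℝ) (o : ℕ → ℝ) (lv : ℕ → ℕ → ℝ) (κ : ℝ) :
    Ext m := fun J F B b z g₀ G H =>
  WinB F c r D Dr 4 3 CB a Eb η₀ o (fun _ => η₀) (fun _ => η₀) lv b κ z B g₀ G H ∧
    z 0 3 = ⌊o 4 * J⌋₊ - ⌊o 0 * J⌋₊

/-- **The velocities are in no hyperplane of the record.** `Φ`: a further property of the
letters. -/
def NhW (S : PCl m) (c : ℕ → Fin m) (r D Dr : ℕ) (C a Eb ε₀ η₀ ζ mb : ℝ) (Pt : ℝ → ℝ → ℝ)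
    (o : ℕ → ℝ) (lv be : ℕ → ℕ → ℝ) (κ : ℝ) (qf : ℕ → Fin r → ℕ) (Φ : Ext m) (δ : ℝ) : Prop :=
  Bas S (fun J F A => ∀ (b : ℕ → ℕ → ℝ) (z : ℕ → ℕ → ℕ) (gc gT g₀ : ℕ → ℕ → ℕ)
    (G : ℕ → PtT F → ℕ → MvPolynomial (Option (Fin m)) ℝ)
    (H : ℕ → LnT F → ℕ → MvPolynomial (Option (Fin m)) ℝ)
    (T : ℕ → PtT F → ℕ → MvPolynomial (Option (Fin m)) ℝ)
    (TH : ℕ → LnT F → ℕ → MvPolynomial (Option (Fin m)) ℝ)
    (Gt : ℕ → PtT F → MvPolynomial (Option (Fin m)) ℝ)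
    (Ht : ℕ → LnT F → MvPolynomial (Option (Fin m)) ℝ),
    WW c r D Dr C a Eb ε₀ η₀ ζ mb Pt o lv be F b κ z (qf J) A gc gT g₀ G H T TH Gt Ht →
    Φ J F A b z g₀ G H → ∀ (V V' : Type) (v : F.Ω → V) (v' : F.Ω → V'), Cl2 (ptr F J) (vg (o 1) J F) A v →
    Cl2 (ptr F J) (vg (o 2) J F) A v' →
    NoHyp (Pool.Agent.H49.Ent.cond F.p A True) (fun ω => Xe r (qf J)
      (eL c (fun l => ⌊lv 1 l * J⌋₊) r ⌊o 1 * J⌋₊ (qf J)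
        (frH F r (⌊o 1 * J⌋₊ - ⌊o 0 * J⌋₊) (H 0) (slam F ⌊o 1 * J⌋₊ ω)) (slam F ⌊o 1 * J⌋₊ ω)))
      (kzF F c (fun l => ⌊lv 1 l * J⌋₊) r ⌊o 1 * J⌋₊ (⌊o 2 * J⌋₊ - ⌊o 1 * J⌋₊) v v' (G 0)
        (fun y => G 1 y r) (fun y => G 2 y r))
      (2 ^ (-(δ * (⌊o 2 * J⌋₊ - ⌊o 1 * J⌋₊ : ℕ)))) δ)

/-- `TlW` from 91's `TlAt`. -/
theorem TlW.of_at {S : PCl m} {c : ℕ → Fin m} {d : ℕ} {sn : ℕ → ℝ → ℝ} {G : Set ℝ} {g : ℝ}
    {C : ℕ} {σ : ℚ} {κ : ℝ} {k : ℕ} (h : TlAt S c d sn G g C σ κ k) {P₁ P₂ : Fin d → ℚ}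
    {b w a oo : ℝ} (h1 : StG d sn g C σ k P₁) (h2 : StG d sn g C σ k P₂) (hb : b ∈ G)
    (hgb : g - C * (1 / 2) ^ k ≤ b) (hbw : b + lagG C d k ≤ w) (hwa : w ≤ a) (hao : a ≤ oo)
    (hog : oo + (1 / 2) ^ k ≤ g + lstG C d k) :
    TlW S c d (fun i => sn i g - g) (fun i => (P₁ i : ℝ)) (fun i => (P₂ i : ℝ)) b w a oo
      (fun i => sn i b - slT d σ κ * (1 / 2) ^ k) (epT d σ κ * (1 / 2) ^ k)
      (κ * (1 / 2) ^ k) := h P₁ P₂ b w a oo h1 h2 hb hgb hbw hwa hao hog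

/-- **The labels of the tubes of the precision of the balls** exist on a part of mass at least
`1 / K₂` of each event with the windows `WW` and the property `Φ`. -/
def HImP (S : PCl m) (c : ℕ → Fin m) (r D Dr K D' : ℕ) (C a Eb ε₀ η₀ ζ mb : ℝ) (Pt : ℝ → ℝ → ℝ)
    (o : ℕ → ℝ) (lv be : ℕ → ℕ → ℝ) (κ : ℝ) (qf : ℕ → Fin r → ℕ) (Φ : Ext m) (δ K₂ : ℝ) : Prop :=
  Bas S (fun J F B => ∀ (b : ℕ → ℕ → ℝ) (z : ℕ → ℕ → ℕ) (gc gT g₀ : ℕ → ℕ → ℕ)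
    (G : ℕ → PtT F → ℕ → MvPolynomial (Option (Fin m)) ℝ)
    (H : ℕ → LnT F → ℕ → MvPolynomial (Option (Fin m)) ℝ)
    (T : ℕ → PtT F → ℕ → MvPolynomial (Option (Fin m)) ℝ)
    (TH : ℕ → LnT F → ℕ → MvPolynomial (Option (Fin m)) ℝ)
    (Gt : ℕ → PtT F → MvPolynomial (Option (Fin m)) ℝ)
    (Ht : ℕ → LnT F → MvPolynomial (Option (Fin m)) ℝ),
    WW c r D Dr C a Eb ε₀ η₀ ζ mb Pt o lv be F b κ z (qf J) B gc gT g₀ G H T TH Gt Ht →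
    Φ J F B b z g₀ G H →
    ∃ (B₂ : F.Ω → Prop) (V V' : Type) (v : F.Ω → V) (v' : F.Ω → V') (ξ : LnT F → Fin r → ℝ)
      (np : LnT F → Polynomial ℝ) (Pn : LnT F → Gr K r → Polynomial ℝ), Sub B₂ B ∧
      Pe F.p B ≤ K₂ * Pe F.p B₂ ∧
      ImC K r D' (⌊o 2 * J⌋₊ - ⌊o 1 * J⌋₊) ⌊mb * J⌋₊ (2 ^ (J - ⌊o 1 * J⌋₊)) δ
        (Pool.Agent.H49.Ent.cond F.p B₂ True) (slam F ⌊o 1 * J⌋₊) (twF F ⌊o 1 * J⌋₊)
        (kzF F c (fun l => ⌊lv 1 l * J⌋₊) r ⌊o 1 * J⌋₊ (⌊o 2 * J⌋₊ - ⌊o 1 * J⌋₊) v v' (G 0)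
          (fun y => G 1 y r) (fun y => G 2 y r))
        (Pfz c (fun l => ⌊lv 1 l * J⌋₊) r (⌊o 2 * J⌋₊ - ⌊o 1 * J⌋₊) J D)
        (scF F c (fun l => ⌊lv 1 l * J⌋₊) r ⌊o 1 * J⌋₊ (⌊o 1 * J⌋₊ - ⌊o 0 * J⌋₊)
          (⌊o 2 * J⌋₊ - ⌊o 1 * J⌋₊) (qf J) (G 0) (H 0)) ξ np Pn)

/-- 73's `HIm` is the case without a further property. -/
theorem HImP.im {S : PCl m} {c : ℕ → Fin m} {r D Dr K D' : ℕ} {C a Eb ε₀ η₀ ζ mb : ℝ}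
    {Pt : ℝ → ℝ → ℝ} {o : ℕ → ℝ} {lv be : ℕ → ℕ → ℝ} {κ : ℝ} {qf : ℕ → Fin r → ℕ} {δ K₂ : ℝ}
    (h : HImP S c r D Dr K D' C a Eb ε₀ η₀ ζ mb Pt o lv be κ qf (fun _ _ _ _ _ _ _ _ => True) δ
      K₂) : HIm S c r D Dr K D' C a Eb ε₀ η₀ ζ mb Pt o lv be κ qf δ K₂ := by
  refine h.mono 0 ?_
  intro J _ F B h1 b z gc gT g₀ G H T TH Gt Ht W
  exact h1 b z gc gT g₀ G H T TH Gt Ht W trivial

/-- **Records exist**, at all windows: the common part. -/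
theorem mx_any {α β : ∀ J : ℕ, Fam m J → Type} (f : ∀ (J : ℕ) (F : Fam m J), F.Ω → α J F)
    (g : ∀ (J : ℕ) (F : Fam m J), F.Ω → β J F) {k : ℝ} (hk : 0 ≤ k) {J : ℕ} {F : Fam m J}
    {A : F.Ω → Prop} (hA : 0 < Pe F.p A) : ∃ (V : Type) (z : F.Ω → V), Mx f g k F A z := by
  classical
  obtain ⟨R, hR⟩ : ∃ R : F.Ω → F.Ω → Prop, R = fun ω ω' => A ω ∧ A ω' ∧
    (f J F ω = f J F ω' ∨ g J F ω = g J F ω') := ⟨_, rfl⟩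
  have hcl : IsLaw (Pool.Agent.H49.Ent.cond F.p A True) := isLaw_cond F.isLaw hA
  obtain ⟨ω₀, -⟩ : ∃ ω, 0 < Pool.Agent.H49.Ent.cond F.p A True ω := by
    by_contra hcon
    push Not at hcon
    have h1 := hcl.sum_one
    have h2 : ∑ ω, Pool.Agent.H49.Ent.cond F.p A True ω ≤ 0 := Finset.sum_nonpos fun ω _ => hcon ω
    linarith
  refine ⟨Quot R, Quot.mk R, ⟨⟨fun y => if h : ∃ ω, A ω ∧ f J F ω = y then
    Quot.mk R (Classical.choose h) else Quot.mk R ω₀, fun ω hω => ?_⟩,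
    ⟨fun y => if h : ∃ ω, A ω ∧ g J F ω = y then
    Quot.mk R (Classical.choose h) else Quot.mk R ω₀, fun ω hω => ?_⟩⟩, ?_⟩
  · have h : ∃ ω', A ω' ∧ f J F ω' = f J F ω := ⟨ω, hω, rfl⟩
    beta_reduce
    rw [dif_pos h]
    obtain ⟨h1, h2⟩ := Classical.choose_spec h
    refine Quot.sound ?_
    rw [hR]
    exact ⟨hω, h1, Or.inl h2.symm⟩
  · have h : ∃ ω', A ω' ∧ g J F ω' = g J F ω := ⟨ω, hω, rfl⟩
    beta_reduce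
    rw [dif_pos h]
    obtain ⟨h1, h2⟩ := Classical.choose_spec h
    refine Quot.sound ?_
    rw [hR]
    exact ⟨hω, h1, Or.inr h2.symm⟩
  · rintro V' z' ⟨⟨φ, hφ⟩, ψ, hψ⟩
    have hqA : ∀ ω, 0 < Pool.Agent.H49.Ent.cond F.p A True ω → A ω := fun ω hω =>
      of_eq_true ((cond_pos_iff F.isLaw.nonneg A True ω).1 hω).2
    refine le_trans (le_of_eq (CH_eq_zero hcl.nonneg fun ω ω' hω hω' h => ?_))
      (mul_nonneg hk (Nat.cast_nonneg J))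
    have hl : ∀ a b, R a b → (if A a then some (z' a) else none) =
        (if A b then some (z' b) else none) := by
      intro a b hab
      rw [hR] at hab
      obtain ⟨h1, h2, h3⟩ := hab
      rw [if_pos h1, if_pos h2]
      rcases h3 with h3 | h3
      · rw [hφ a h1, hφ b h2, h3]
      · rw [hψ a h1, hψ b h2, h3]
    have h4 := congrArg (Quot.lift (fun a => if A a then some (z' a) else none) hl) h
    have h5 : (if A ω then some (z' ω) else none) = (if A ω' then some (z' ω') else none) := h4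
    rw [if_pos (hqA ω hω), if_pos (hqA ω' hω')] at h5
    exact Option.some.inj h5

/-- A linear inequality with room, for large `J`. -/
theorem lin_lt {A B : ℝ} (h : A < B) (k : ℝ) : ∃ J₀ : ℕ, ∀ J : ℕ, J₀ ≤ J → A * J + k ≤ B * J := by
  refine ⟨⌈k / (B - A)⌉₊, fun J hJ => ?_⟩
  have h1 : k / (B - A) ≤ J := (Nat.le_ceil _).trans (by exact_mod_cast hJ)
  rw [div_le_iff₀ (by linarith)] at h1
  linarith

/-- Finitely many linear inequalities. -/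
theorem lin_fam {n : ℕ} {A B : ℕ → ℝ} (h : ∀ i < n, A i < B i) (k : ℝ) :
    ∃ J₀ : ℕ, ∀ J : ℕ, J₀ ≤ J → ∀ i < n, A i * J + k ≤ B i * J := by
  induction n with
  | zero => exact ⟨0, fun J _ i hi => absurd hi (Nat.not_lt_zero i)⟩
  | succ n ih =>
    obtain ⟨J₁, h1⟩ := ih fun i hi => h i (by omega)
    obtain ⟨J₂, h2⟩ := lin_lt (h n (by omega)) k
    refine ⟨max J₁ J₂, fun J hJ i hi => ?_⟩
    rcases Nat.lt_or_ge i n with h3 | h3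
    · exact h1 J ((le_max_left _ _).trans hJ) i h3
    · obtain rfl : i = n := by omega
      exact h2 J ((le_max_right _ _).trans hJ)

/-- The record with the side information. -/
theorem mx_Z {J : ℕ} {F : Fam m J} {A : F.Ω → Prop} (hA : 0 < Pe F.p A) {w k : ℝ} {V : Type}
    {z : F.Ω → V} (h : Mx (fun J F => ptr F J) (vg w) k F A z) :
    Mx (fun J F => ptr F J) (vg w) k F A (fun ω => (F.Z ω, z ω)) := by
  have hZ : Cl2 (ptr F J) (vg w J F) A F.Z := by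
    refine ⟨⟨fun y => y.2.2, fun ω _ => rfl⟩, ⟨fun y => y.2.1, fun ω _ => rfl⟩⟩
  refine ⟨hZ.join h.1, fun V₁ z₁ hz₁ => ?_⟩
  refine le_trans ?_ (h.2 V₁ z₁ hz₁)
  exact CH_mono_cond (isLaw_cond F.isLaw hA).nonneg fun _ _ _ _ hh => (Prod.ext_iff.mp hh).2

/-- **The numbers** of the four windows. -/
structure HiN (r CM : ℕ) (C Eb η₀ ζ mb δ C' : ℝ) (o : ℕ → ℝ) (lv : ℕ → ℕ → ℝ)
    (qf : ℕ → Fin r → ℕ) (nt : ℕ → ℝ) (P₁ P₂ : Fin r → ℝ) (oo : ℝ) (fr : ℕ → ℝ)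
    (hT κT τ p₀ q₁ δ₁ : ℝ) (sa : ℕ → ℝ) : Prop where
  C1 : 1 ≤ C
  η0 : 0 ≤ η₀
  ζ0 : 0 ≤ ζ
  mb0 : 0 ≤ mb
  E0 : 0 ≤ Eb
  o0 : 0 ≤ o 0
  o01 : o 0 ≤ o 1
  o12 : o 1 < o 2
  l0 : ∀ l ≤ r, 0 ≤ lv 1 l
  κT1 : κT < δ * (o 2 - o 1)
  hT0 : 0 < hT
  nt1 : ∀ i < r, |lv 1 i - (nt i + o 1)| ≤ hT / 2
  oo1 : o 2 + mb ≤ oo
  qf1 : ∀ (J : ℕ) (i : Fin r), |(qf J i : ℝ) - (P₁ i - nt i) * J| ≤ 2
  P1 : ∀ i : Fin r, mb + (o 2 - o 1) ≤ P₁ i - nt i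
  P2 : ∀ i : Fin r, nt i + (o 2 - o 1) + mb ≤ P₂ i
  P12 : ∀ i : Fin r, P₁ i ≤ P₂ i
  fr1 : ∀ l < r, fr l ≤ lv 0 l - η₀
  lv1 : ∀ i < r, |lv 0 i - o 0 - (lv 1 i - o 1)| ≤ ζ
  top0 : ∀ l < r, Eb + 3 * η₀ + ζ + lv 0 l + (o 2 - o 0) + mb < 1
  q0 : (o 2 - o 1) + mb + C' * (C * (ζ + η₀)) < o 1 - o 0
  qe0 : ∀ i : Fin r, P₁ i - nt i + C' * (C * (ζ + η₀)) < o 1 - o 0
  o00 : o 0 + C' * (C * (ζ + η₀)) < 1
  sm : C' * (C * (ζ + η₀)) < δ * (o 2 - o 1)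
  τ0 : 0 < τ
  τδ : (2 * CM + r + 5) * τ ≤ δ * (o 2 - o 1)
  τ2 : o 2 + τ ≤ 1
  p0 : 0 ≤ p₀
  pτ : p₀ + τ ≤ lv 1 r
  pq : lv 1 r + CM * (o 2 - o 1) ≤ p₀ + q₁
  δ1 : δ₁ ≤ δ * (o 2 - o 1)
  sa1 : ∀ i < r, sa i ≤ lv 1 i + (o 2 - o 1) + τ / 2
  mb1 : mb < CM * (o 2 - o 1)
  top1 : ∀ l ≤ r, Eb + 2 * η₀ + lv 1 l + (o 2 - o 1) + mb + C' * (C * (ζ + η₀)) < 1

/-- **The hypothesis `HIm` of the end.** -/
theorem him_cls (D r K D' CM : ℕ) (hr : 1 ≤ r) (hK : 1 ≤ K) (hDK : D * (D + 1) ^ r ≤ K)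
    (hD1 : K * (D + 1) ≤ D') (hD2 : D + 1 ≤ D') {h : ℝ} (hh : 0 < h) (hh1 : h ≤ 1) {ε : ℝ}
    (hε : 0 < ε) : ∃ δ C' : ℝ, 0 < δ ∧ δ ≤ 1 ∧ 1 ≤ C' ∧ ∀ {m Dr : ℕ} {S : PCl m}
    {c : ℕ → Fin m} {C a Eb ε₀ η₀ ζ mb : ℝ} {Pt : ℝ → ℝ → ℝ} {o : ℕ → ℝ} {lv be : ℕ → ℕ → ℝ}
    {κ : ℝ} {qf : ℕ → Fin r → ℕ} {nt : ℕ → ℝ} {P₁ P₂ : Fin r → ℝ} {oo : ℝ} {fr : ℕ → ℝ}
    {hT κT τ p₀ q₁ δ₁ : ℝ} {sa : ℕ → ℝ} {Φ : Ext m},
    (∀ ψ : ℝ, 0 < ψ → Bas S (fun J F A => 0 < Pe F.p A ∧ (J : ℝ) * Real.log 2 - ψ * J ≤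
      CH (Pool.Agent.H49.Ent.cond F.p A True) F.T (fun ω => (F.l ω, F.Z ω)))) →
    TlW S c r nt P₁ P₂ (o 0) (o 1) (o 2) oo fr hT κT →
    NhW S c r D Dr C a Eb ε₀ η₀ ζ mb Pt o lv be κ qf Φ δ →
    (∀ q, 0 ≤ q → q ≤ q₁ → RawN S ((range r).image c) (c r) p₀ q h δ₁) →
    FulC S c 0 r (o 2) sa →
    HiN r CM C Eb η₀ ζ mb δ C' o lv qf nt P₁ P₂ oo fr hT κT τ p₀ q₁ δ₁ sa →
    HImP S c r D Dr K D' C a Eb ε₀ η₀ ζ mb Pt o lv be κ qf Φ ε 1 := by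
  obtain ⟨δ, δ0, δ1, C₁, him⟩ := im_cls K D D' CM r hh hh1 hε
  obtain ⟨C₂, htl⟩ := wd_tl D r K D' CM hr hK hDK hD1 hD2
  obtain ⟨C₃, hts⟩ := wd_tls D r
  obtain ⟨C₄, hC₄⟩ : ∃ C₄ : ℕ, C₄ = C₁ + C₂ + C₃ + 3 := ⟨_, rfl⟩
  refine ⟨δ, 8 * C₄, δ0, δ1, by
    rw [hC₄]
    push_cast
    linarith [(Nat.cast_nonneg C₁ : (0 : ℝ) ≤ C₁), (Nat.cast_nonneg C₂ : (0 : ℝ) ≤ C₂),
      (Nat.cast_nonneg C₃ : (0 : ℝ) ≤ C₃)], ?_⟩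
  intro m Dr S c C a Eb ε₀ η₀ ζ mb Pt o lv be κ qf nt P₁ P₂ oo fr hT κT τ p₀ q₁ δ₁ sa Φ htm
    hTl hNh hraw hful N
  obtain ⟨k₂, hk₂, hTl⟩ := hTl
  obtain ⟨C₅, hTl⟩ := hTl D
  have hcl := him (S := S) (c := c) (w := o 1) (a := o 2) (τ := τ) (σr := lv 1 r) (p₀ := p₀)
    (q₁ := q₁) (δ₁ := δ₁) (κ := 1) (sa := sa) htm one_pos (N.o0.trans N.o01) N.τ0 N.τδ N.τ2 N.p0
    N.pτ N.pq N.δ1 hraw hful
  have hC₁4 : C₁ + 3 ≤ C₄ := by omega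
  have hC₂4 : C₂ ≤ C₄ := by omega
  have hC₃4 : C₃ + 3 ≤ C₄ := by omega
  obtain ⟨X, hX⟩ : ∃ X : ℝ, X = C * (ζ + η₀) := ⟨_, rfl⟩
  obtain ⟨k₄, hk₄⟩ : ∃ k₄ : ℝ, k₄ = 22 * C₄ + 4 := ⟨_, rfl⟩
  have Nq0 := N.q0
  have Nqe0 := N.qe0
  have No00 := N.o00
  have Nsm := N.sm
  have Ntop1 := N.top1
  rw [← hX] at Nq0 No00 Nsm
  simp only [← hX] at Nqe0 Ntop1
  obtain ⟨J₁, hJ₁⟩ := lin_lt N.κT1 1
  obtain ⟨J₂, hJ₂⟩ := lin_lt (show (0 : ℝ) < hT / 2 by linarith [N.hT0]) 4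
  obtain ⟨J₃, hJ₃⟩ := lin_fam (A := fun l => Eb + 3 * η₀ + ζ + lv 0 l + (o 2 - o 0) + mb)
    (B := fun _ => 1) N.top0 (C₅ + 3)
  obtain ⟨J₄, hJ₄⟩ := lin_lt Nq0 k₄
  obtain ⟨J₅, hJ₅⟩ := lin_fam (n := r) (A := fun i => if hi : i < r then
    P₁ ⟨i, hi⟩ - nt i + 8 * C₄ * X else 0) (B := fun i => o 1 - o 0) (fun i hi => by
      show (if hi : i < r then P₁ ⟨i, hi⟩ - nt i + 8 * C₄ * X else 0) < _
      rw [dif_pos hi]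
      exact Nqe0 ⟨i, hi⟩) k₄
  obtain ⟨J₆, hJ₆⟩ := lin_lt No00 k₄
  obtain ⟨J₇, hJ₇⟩ := lin_lt Nsm k₄
  obtain ⟨J₈, hJ₈⟩ := lin_fam (n := r + 1) (A := fun l => Eb + 2 * η₀ + lv 1 l + (o 2 - o 1) +
    mb + 8 * C₄ * X) (B := fun _ => 1) (fun l hl => Ntop1 l (by omega)) k₄
  obtain ⟨J₉, hJ₉⟩ := lin_lt N.mb1 CM
  obtain ⟨J₁₀, hJ₁₀⟩ := lin_lt (show (0 : ℝ) < τ / 2 by linarith [N.τ0]) 4
  refine Bas.mono (max (max (max J₁ J₂) (max J₃ J₄)) (max (max J₅ J₆) (max (max J₇ J₈)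
    (max J₉ J₁₀)))) ((hcl.and hTl).and (hNh.and (htm 1 one_pos))) ?_
  rintro J hJ F A ⟨⟨hcl, hTl⟩, hNh, hA, -⟩ b z gc gT g₀ G H T TH Gt Ht W hΦ
  obtain ⟨V₀, v₀, hv₀⟩ := mx_any (fun J F => ptr F J) (vg (o 1)) hk₂.le hA
  obtain ⟨V', v', hv'⟩ := mx_any (fun J F => ptr F J) (vg (o 2)) hk₂.le hA
  have j1 := hJ₁ J (by omega)
  have j2 := hJ₂ J (by omega)
  have j3 := hJ₃ J (by omega)
  have j4 := hJ₄ J (by omega)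
  have j5 := hJ₅ J (by omega)
  have j6 := hJ₆ J (by omega)
  have j7 := hJ₇ J (by omega)
  have j8 := hJ₈ J (by omega)
  have j9 := hJ₉ J (by omega)
  have j10 := hJ₁₀ J (by omega)
  clear hJ₁ hJ₂ hJ₃ hJ₄ hJ₅ hJ₆ hJ₇ hJ₈ hJ₉ hJ₁₀
  have hJ0 : (0 : ℝ) ≤ J := Nat.cast_nonneg J
  have mulJ : ∀ {x y : ℝ}, x ≤ y → x * J ≤ y * J := fun h => mul_le_mul_of_nonneg_right h hJ0
  have hql : IsLaw (Pool.Agent.H49.Ent.cond F.p A True) := isLaw_cond F.isLaw hA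
  have hqA : ∀ ω, 0 < Pool.Agent.H49.Ent.cond F.p A True ω → A ω := fun ω hω =>
    of_eq_true ((cond_pos_iff F.isLaw.nonneg A True ω).1 hω).2
  have hC := N.C1
  have hη := N.η0
  have hζ := N.ζ0
  have hmb := N.mb0
  have hE := N.E0
  have ho0' := N.o0
  have ho01 := N.o01
  have ho12 := N.o12
  have f0 := flo (mul_nonneg ho0' hJ0)
  have f1 := flo (mul_nonneg (ho0'.trans ho01) hJ0)
  have f2 := flo (mul_nonneg ((ho0'.trans ho01).trans ho12.le) hJ0)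
  have l01 : ⌊o 0 * J⌋₊ ≤ ⌊o 1 * J⌋₊ := Nat.floor_le_floor (mulJ ho01)
  have l12 : ⌊o 1 * J⌋₊ ≤ ⌊o 2 * J⌋₊ := Nat.floor_le_floor (mulJ ho12.le)
  have fm := flo (mul_nonneg hmb hJ0)
  have fe := flo (mul_nonneg (by linarith : (0 : ℝ) ≤ Eb + 2 * η₀) hJ0)
  have fs : ∀ l ≤ r, ((⌊lv 1 l * J⌋₊ : ℕ) : ℝ) ≤ lv 1 l * J ∧ lv 1 l * J - 1 ≤ ⌊lv 1 l * J⌋₊ :=
    fun l hl => flo (mul_nonneg (N.l0 l hl) hJ0)
  have hg := fun l (hl : l < r) => W.win.g_num (k := 0) (l := l) (by norm_num) hl.le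
  have Wd := W.wd
  have hNhA := hNh b z gc gT g₀ G H T TH Gt Ht W hΦ
  obtain ⟨Q, hQ⟩ : ∃ Q : ℕ, Q = ⌊o 2 * J⌋₊ - ⌊o 1 * J⌋₊ := ⟨_, rfl⟩
  obtain ⟨q₀, hq₀⟩ : ∃ q₀ : ℕ, q₀ = ⌊o 1 * J⌋₊ - ⌊o 0 * J⌋₊ := ⟨_, rfl⟩
  obtain ⟨x, hx⟩ : ∃ x : ℕ, x = ⌊(2 * (ζ + 3 * (C * η₀)) + η₀) * J⌋₊ + 20 := ⟨_, rfl⟩
  obtain ⟨u, hu⟩ : ∃ u : ℕ, u = ⌊C * (η₀ * J)⌋₊ + 1 := ⟨_, rfl⟩
  obtain ⟨e, he⟩ : ∃ e : ℕ, e = ⌊(Eb + 2 * η₀) * J⌋₊ := ⟨_, rfl⟩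
  obtain ⟨MB, hMB⟩ : ∃ MB : ℕ, MB = ⌊mb * J⌋₊ := ⟨_, rfl⟩
  obtain ⟨s, hs⟩ : ∃ s : ℕ → ℕ, s = fun l => ⌊lv 1 l * J⌋₊ := ⟨_, rfl⟩
  rw [← hs] at Wd hNhA ⊢
  rw [← hQ, ← hq₀] at Wd hNhA ⊢
  rw [← hMB] at Wd fm ⊢
  rw [← hx, ← hu, ← he] at Wd
  rw [← he] at fe
  have hsl : ∀ l ≤ r, (s l : ℝ) ≤ lv 1 l * J ∧ lv 1 l * J - 1 ≤ s l := fun l hl => by
    rw [hs]
    exact fs l hl
  have hQr : (Q : ℝ) = ⌊o 2 * J⌋₊ - ⌊o 1 * J⌋₊ := by rw [hQ, Nat.cast_sub l12]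
  have hQl : (o 2 - o 1) * J - 1 ≤ Q := by rw [hQr]; linarith [f1.2, f2.2, f1.1, f2.1]
  have hQu : (Q : ℝ) ≤ (o 2 - o 1) * J + 1 := by rw [hQr]; linarith [f1.2, f2.2, f1.1, f2.1]
  have hqr : (q₀ : ℝ) = ⌊o 1 * J⌋₊ - ⌊o 0 * J⌋₊ := by rw [hq₀, Nat.cast_sub l01]
  have hql' : (o 1 - o 0) * J - 1 ≤ q₀ := by rw [hqr]; linarith [f1.2, f0.2, f1.1, f0.1]
  -- the loss
  have hX0 : 0 ≤ X := by rw [hX]; positivity
  have huu : (u : ℝ) + x + 1 ≤ 8 * X * J + 22 := by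
    rw [hx, hu]
    push_cast
    have h4 := (flo (mul_nonneg (by positivity : (0 : ℝ) ≤ 2 * (ζ + 3 * (C * η₀)) + η₀) hJ0)).1
    have h8 := (flo (mul_nonneg (by linarith : (0 : ℝ) ≤ C) (mul_nonneg hη hJ0))).1
    have h5 : C * η₀ + (2 * (ζ + 3 * (C * η₀)) + η₀) ≤ 8 * X := by
      have h6 : X = C * ζ + C * η₀ := by rw [hX]; ring
      have h7 : ζ ≤ C * ζ := le_mul_of_one_le_left hζ hC
      have h8 : η₀ ≤ C * η₀ := le_mul_of_one_le_left hη hC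
      have h9 : 0 ≤ C * η₀ := by positivity
      linarith
    have h9 := mulJ h5
    linarith
  have hL : ((C₄ * (u + x + 1) : ℕ) : ℝ) ≤ 8 * C₄ * X * J + 22 * C₄ := by
    push_cast
    have h4 := mul_le_mul_of_nonneg_left huu (Nat.cast_nonneg C₄ : (0 : ℝ) ≤ C₄)
    linarith
  obtain ⟨Λ, hΛ⟩ : ∃ Λ : ℕ, Λ = C₄ * (u + x + 1) := ⟨_, rfl⟩
  rw [← hΛ] at hL
  have hΛ1 : C₁ + 3 * x ≤ Λ := by
    rw [hΛ]
    have h4 : (C₁ + 3) * (u + x + 1) ≤ C₄ * (u + x + 1) := Nat.mul_le_mul_right _ hC₁4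
    have h5 : (C₁ + 3) * (u + x + 1) = C₁ * (u + x) + C₁ + 3 * u + 3 * x + 3 := by ring
    omega
  have hΛ3 : C₃ + u + x ≤ Λ := by
    rw [hΛ]
    have h4 : (C₃ + 3) * (u + x + 1) ≤ C₄ * (u + x + 1) := Nat.mul_le_mul_right _ hC₃4
    have h5 : (C₃ + 3) * (u + x + 1) = C₃ * (u + x) + C₃ + 3 * u + 3 * x + 3 := by ring
    omega
  have hδQ : (Λ : ℝ) ≤ δ * Q := by
    have h4 := mul_le_mul_of_nonneg_left hQl δ0.le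
    rw [hk₄] at j7
    linarith
  have hCu : ∀ {k : ℕ}, k ≤ C₄ → (k : ℝ) * ((u : ℝ) + x + 1) ≤ δ * Q := by
    intro k hk
    have h3 : (k : ℝ) ≤ C₄ := by exact_mod_cast hk
    have h4 : (0 : ℝ) ≤ (u : ℝ) + x + 1 := by positivity
    refine (mul_le_mul_of_nonneg_right h3 h4).trans ?_
    have h5 : (Λ : ℝ) = C₄ * ((u : ℝ) + x + 1) := by rw [hΛ]; push_cast; ring
    rw [← h5]
    exact hδQ
  have hM : MB ≤ CM * Q := by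
    have h4 : (MB : ℝ) ≤ CM * Q := by
      have h5 := mul_le_mul_of_nonneg_left hQl (Nat.cast_nonneg CM : (0 : ℝ) ≤ CM)
      linarith [fm.1]
    exact_mod_cast h4
  have hτJ : 4 ≤ τ / 2 * J := by linarith
  have hTJ : 4 ≤ hT / 2 * J := by linarith
  -- the records
  obtain ⟨v, hv⟩ : ∃ v : F.Ω → F.ζ × V₀, v = fun ω => (F.Z ω, v₀ ω) := ⟨_, rfl⟩
  have hvm : Mx (fun J F => ptr F J) (vg (o 1)) k₂ F A v := by
    rw [hv]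
    exact mx_Z hA hv₀
  obtain ⟨vL, hvL⟩ := hvm.1.2
  have hvL' : ∀ ω, A ω → v ω = vL (slam F ⌊o 1 * J⌋₊ ω) := hvL
  have hvZ : ∀ ω ω', v ω = v ω' → F.Z ω = F.Z ω' := by
    rw [hv]
    intro ω ω' h
    exact (Prod.ext_iff.1 h).1
  -- the numbers of the charts
  have hgl : ∀ l < r, lv 0 l * J - η₀ * J ≤ (g₀ 0 l : ℝ) ∧ (g₀ 0 l : ℝ) ≤ lv 0 l * J :=
    fun l hl => ⟨(hg l hl).2.2.1, (hg l hl).2.2.2.1⟩
  have hlv : ∀ i < r, lv 1 i * J ≤ (lv 0 i - o 0 + o 1 + ζ) * J := fun i hi =>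
    mulJ (by linarith [(abs_le.1 (N.lv1 i hi)).1])
  have hnat : ∀ l < r, ∀ i < r, C₅ + e + g₀ 0 l + (s i + Q + MB) ≤ J + g₀ 0 i := by
    intro l hl i hi
    have h4 : ((C₅ + e + g₀ 0 l + (s i + Q + MB) : ℕ) : ℝ) ≤ ((J + g₀ 0 i : ℕ) : ℝ) := by
      push_cast
      have h5 := j3 l hl
      have h6 := hlv i hi
      have h7 := (hsl i hi.le).1
      have h8 := (hgl l hl).2
      have h9 := (hgl i hi).1
      linarith [fe.1, fm.1]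
    exact_mod_cast h4
  obtain ⟨M, hMd⟩ : ∃ M, M = (range r).sup (g₀ 0) := ⟨_, rfl⟩
  have hgM : ∀ i < r, g₀ 0 i ≤ M := fun i hi => by
    rw [hMd]
    exact Finset.le_sup (f := g₀ 0) (Finset.mem_range.2 hi)
  have hMe : ∀ i < r, C₅ + e + M + (s i + Q + MB) ≤ J + g₀ 0 i := fun i hi => by
    have h4 : M ≤ J + g₀ 0 i - (C₅ + e + (s i + Q + MB)) := by
      rw [hMd]
      refine Finset.sup_le fun l hl => ?_
      have := hnat l (Finset.mem_range.1 hl) i hi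
      omega
    have := hnat i hi i hi
    omega
  have hMJ : e + M + C₅ ≤ J := by
    have h4 : M ≤ J - (C₅ + e) := by
      rw [hMd]
      refine Finset.sup_le fun l hl => ?_
      have := hnat l (Finset.mem_range.1 hl) l (Finset.mem_range.1 hl)
      have h5 : ((C₅ + e + g₀ 0 l : ℕ) : ℝ) ≤ J := by
        push_cast
        have h5 := j3 l (Finset.mem_range.1 hl)
        have h8 := (hgl l (Finset.mem_range.1 hl)).2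
        have h9 : 0 ≤ (η₀ + ζ + (o 2 - o 0) + mb) * J := by
          refine mul_nonneg ?_ hJ0
          linarith
        linarith [fe.1]
      have h6 : C₅ + e + g₀ 0 l ≤ J := by exact_mod_cast h5
      omega
    have h5 : C₅ + e ≤ J := by
      have := hnat 0 (by omega) 0 (by omega)
      omega
    omega
  have hnt : ∀ i < r, |(s i : ℝ) - (nt i + o 1) * J| ≤ hT / 2 * J + 1 := fun i hi => by
    have h4 := abs_le.1 (N.nt1 i hi)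
    have h5 := hsl i hi.le
    have h6 := mulJ h4.1
    have h7 := mulJ h4.2
    rw [abs_le]
    constructor <;> linarith [h5.1, h5.2]
  have hTM : TlM J r C₅ (hT * J) nt P₁ P₂ (o 1) (o 2) oo s (g₀ 0) e M Q MB (qf J) := by
    refine ⟨fun i hi => (hnt i hi).trans (by linarith), ?_, ?_, fun i => ?_, fun i => ?_,
      fun i => ?_, fun i => ?_, hgM, hMJ, hMe⟩
    · rw [abs_le]
      constructor <;> linarith
    · have h4 := mulJ N.oo1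
      linarith [fm.1]
    · have h4 := abs_le.1 (N.qf1 J i)
      have h5 := abs_le.1 (hnt i i.2)
      rw [abs_le]
      constructor <;> linarith [h4.1, h4.2, h5.1, h5.2, f1.1, f1.2]
    · have h4 := (abs_le.1 (N.qf1 J i)).1
      have h5 := mulJ (N.P1 i)
      have h6 : 0 ≤ mb * J := mul_nonneg hmb hJ0
      linarith
    · have h4 := mulJ (N.P2 i)
      have h5 := (abs_le.1 (hnt i i.2)).2
      linarith [fm.1, f1.2]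
    · have h4 := (abs_le.1 (N.qf1 J i)).2
      have h5 := (abs_le.1 (hnt i i.2)).2
      have h6 := mulJ (N.P12 i)
      linarith [f1.2]
  -- the records and the paths
  have hev0 := W.win.evs 0 (by norm_num)
  have hee : (Eb + η₀ + η₀) = Eb + 2 * η₀ := by ring
  have hball := hev0.ball
  rw [hee, ← he] at hball
  have hTI : TlI F A c r D e M (g₀ 0) ⌊o 0 * J⌋₊ ⌊o 1 * J⌋₊ ⌊o 2 * J⌋₊ v vL v' (G 0)
      (fun y => G 1 y r) (fun y => G 2 y r) (H 0) (fun L => H 1 L r) (fun L => H 2 L r) :=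
    ⟨chok_take hball (Nat.le_succ r), fun ω hω l hl => Wd.cl0 ω hω l hl, fun ω hω => Wd.cl1 ω hω,
      fun ω hω => Wd.cl2 ω hω, hvL', fun ω ω' _ _ h => hvZ ω ω' h⟩
  have hqs : Q + MB + (C₃ + u + x) ≤ q₀ := by
    have h4 : ((Q + MB + Λ : ℕ) : ℝ) ≤ q₀ := by
      push_cast
      rw [hk₄] at j4
      linarith [fm.1]
    have h5 : Q + MB + Λ ≤ q₀ := by exact_mod_cast h4
    omega
  have hqes : ∀ i, qf J i + (C₃ + u + x) ≤ q₀ := fun i => by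
    have h4 : ((qf J i + Λ : ℕ) : ℝ) ≤ q₀ := by
      push_cast
      have h5 := j5 i i.2
      rw [dif_pos i.2, hk₄] at h5
      have h6 := (abs_le.1 (N.qf1 J i)).2
      have h7 : ((⟨(i : ℕ), i.2⟩ : Fin r)) = i := rfl
      rw [h7] at h5
      linarith
    have h5 : qf J i + Λ ≤ q₀ := by exact_mod_cast h4
    omega
  have hJs : ⌊o 0 * J⌋₊ + (C₃ + u) ≤ J := by
    have h4 : ((⌊o 0 * J⌋₊ + Λ : ℕ) : ℝ) ≤ J := by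
      push_cast
      rw [hk₄] at j6
      linarith [f0.1]
    have h5 : ⌊o 0 * J⌋₊ + Λ ≤ J := by exact_mod_cast h4
    omega
  have hTS : TlS F A c s r ⌊o 1 * J⌋₊ Q MB (qf J) (G 0) (2 ^ (C₃ + u + x) / 2 ^ q₀) :=
    hts Wd hqs hqes hJs
  have hO := hTl s (g₀ 0) e M Q MB (qf J) _ _ v vL v' (G 0) (fun y => G 1 y r)
    (fun y => G 2 y r) (H 0) (fun L => H 1 L r) (fun L => H 2 L r) _ hvm hv' hTM
    (fun l hl => by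
      have h4 := mulJ (N.fr1 l hl)
      linarith [(hgl l hl).1]) hTI hTS
  have hO' : TlO F (Pool.Agent.H49.Ent.cond F.p A True) c s r ⌊o 0 * J⌋₊ ⌊o 1 * J⌋₊ Q MB (qf J)
      v vL v' (G 0) (fun y => G 1 y r) (fun y => G 2 y r) (H 0) (fun L => H 1 L r) (δ * Q) := by
    have h4 : κT * J ≤ δ * Q := by
      have h5 := mul_le_mul_of_nonneg_left hQl δ0.le
      linarith
    refine ⟨?_, hO.afew.trans h4, hO.fr.trans (by linarith), hO.frT.trans (by linarith), ?_⟩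
    · linarith [hO.Tfull]
    · linarith [hO.full]
  have hJQ : ⌊o 1 * J⌋₊ + Q ≤ J := by
    have h4 : (⌊o 2 * J⌋₊ : ℕ) ≤ J := by
      have h5 : ((⌊o 2 * J⌋₊ : ℕ) : ℝ) ≤ J := by
        have h6 := mulJ (show o 2 ≤ 1 by linarith [N.τ2, N.τ0])
        linarith [f2.1]
      exact_mod_cast h5
    omega
  have hT := htl Wd hql hqA δ0.le (hCu (k := C₂) hC₂4) hM le_rfl hJQ hO'
    (hNhA _ _ v v' hvm.1 hv'.1)
  obtain ⟨P, hP⟩ := hcl A (fun _ h => h) (by rw [one_mul]) _ _ _ _ _ _ _ _ _ _ _ _ _ _ _ _ _ _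
    _ _ _ _ _ _ _ v v' vL MB _ Wd rfl rfl (W.win.evs 2 (by norm_num)).cls hvL'
    (fun ω ω' _ _ h => hvZ ω ω' h) (by
      have h4 := hsl r le_rfl
      rw [abs_le]
      constructor <;> linarith [h4.1, h4.2]) (by
      rw [abs_le]
      constructor <;> linarith) (fun i hi => by
      have h4 := mulJ (N.sa1 i hi)
      have h5 := (hsl i hi.le).2
      linarith) (hCu (k := C₁) (by omega)) hM le_rfl (fun l hl => by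
      have h4 : ((Λ + e + s l + Q + MB : ℕ) : ℝ) ≤ J := by
        push_cast
        have h5 := j8 l hl
        rw [hk₄] at h5
        linarith [(hsl l (by omega)).1, fe.1, fm.1]
      have h5 : Λ + e + s l + Q + MB ≤ J := by exact_mod_cast h4
      omega) hT
  exact ⟨A, _, _, v, v', _, _, P, fun _ h => h, by rw [one_mul], hP⟩

end Pool.V1E
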