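import Pool.Agent.H92.D2.Vel
import Pool.Agent.H87.SLO.Tup
import Pool.Agent.H73.D2.Stq
import Pool.Agent.H98.D2.Shf

/-!
# V1 empty: the letters of one law

Units of the window `w`. `Q` = digits of the radius of the balls, `MB` = digits of the precision of
the balls, `M` = digits of the precision of the tube label, `k` = digits of the position in the tube.

`L` = line with its window, `T` = time in the window (of `N₀`), `Z` = the closed record of the ball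
with the time (and with the corner of the cell of the position), `a` = record of the window, time and
corner, `E` = code of the velocity, `X` = the vector `(1, velocity)`; `Pf (Z ω)` = the chart of the
ball minus the closed chart of the window at the time, in the coordinate `x`: position = corner
`+ 2 ^ (-Q) x`; `Pg (Z ω) 0` = its time derivative, `Pg (Z ω) i.succ` = its derivatives in the
positions. `c` = code of the tube (with the record of the window), `s` = centre of the tube minus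
corner, `ξ` = position of the line in the tube, `n` = own path minus closed chart, `Θ` = the closed
gradients.

`Im`: the tube labels `P`, of the precision `2 ^ (-M)`, few bits.
-/

set_option autoImplicit false

namespace Pool.V1E

open Finset Real
open Pool.Agent.H49.Ent Pool.Agent.H32.Dense Pool.STK Pool.D2A Pool.D2Con
open Pool.BFL (Pb)
open Pool.D2G30
open MvPolynomial (eval pderiv)

/-- The grid. -/
abbrev Gr (K d : ℕ) : Type := Fin d → Fin (K + 1)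

/-- The position in the tube, digits. -/
noncomputable def xd {Ω Λ : Type} {d : ℕ} (k : ℕ) (L : Ω → Λ) (ξ : Λ → Fin d → ℝ) (ω : Ω) :
    Fin d → ℕ := fun i => ⌊2 ^ k * ξ (L ω) i⌋₊

/-- The parameter of the window. -/
noncomputable def uu {Ω : Type} (N₀ : ℕ) (T : Ω → ℕ) (ω : Ω) : ℝ := (T ω : ℝ) / N₀

/-- The key. -/
noncomputable def Key {Ω ζ α : Type} {d : ℕ} (M : ℕ) (Z : Ω → ζ) (a : Ω → α)
    (Pf : ζ → MvPolynomial (Fin d) ℝ) (ω : Ω) : α × ℤ :=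
  (a ω, ⌊2 ^ M * eval (fun _ => 0) (Pf (Z ω))⌋)

/-- The values at the nodes of the tube. -/
noncomputable def vt {Ω ζ : Type} (K : ℕ) {d : ℕ} (Z : Ω → ζ)
    (Pf : ζ → MvPolynomial (Fin d) ℝ) (s : Ω → Fin d → ℝ) (ω : Ω) (β : Gr K d) : ℝ :=
  eval (fun i => s ω i + nd K β i) (Pf (Z ω))

/-- **The letters of one law.** -/
structure TL (K d D CM Q MB k N₀ : ℕ) (δ : ℝ) {Ω Λ ζ α ε κ : Type} [Fintype Ω] (q : Ω → ℝ)
    (L : Ω → Λ) (T : Ω → ℕ) (Z : Ω → ζ) (a : Ω → α) (E : Ω → ε) (X : ε → Fin (d + 1) → ℝ)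
    (Pf : ζ → MvPolynomial (Fin d) ℝ) (Pg : ζ → Fin (d + 1) → MvPolynomial (Fin d) ℝ)
    (c : Λ → κ) (s : Ω → Fin d → ℝ) (ξ : Λ → Fin d → ℝ) (n : Λ → Polynomial ℝ)
    (Θ : Λ → Fin d → Polynomial ℝ) : Prop where
  law : IsLaw q
  hK : 1 ≤ K
  hd : 1 ≤ d
  hQ : Q ≤ MB
  hMB : MB ≤ CM * Q
  hk : MB ≤ k
  hN : 2 ^ Q ≤ N₀
  Tlt : ∀ ω, 0 < q ω → T ω < N₀
  Tfull : Real.log N₀ - δ * Q ≤ CH q T L
  ZT : Det q Z T
  Za : Det q Z a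
  aT : Det q a T
  LE : Det q L E
  Xb : ∀ ω, 0 < q ω → ∀ j, |X (E ω) j| ≤ 2 ^ (δ * Q)
  nh : NoHyp q (fun ω => X (E ω)) Z (2 ^ (-(δ * Q))) δ
  fr : CH q E a ≤ CH q E Z + δ * Q
  afew : CH q a (fun ω => (c (L ω), T ω)) ≤ δ * Q
  dgf : ∀ z, (Pf z).totalDegree ≤ K
  dgg : ∀ z j, (Pg z j).totalDegree ≤ K
  grd : ∀ ω, 0 < q ω → ∀ i : Fin d,
    Pg (Z ω) i.succ = MvPolynomial.C (2 ^ Q) * pderiv i (Pf (Z ω))
  bdf : ∀ ω, 0 < q ω → ∀ β : Gr K d, |eval (nd K β) (Pf (Z ω))| ≤ 2 ^ (δ * Q)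
  bdg : ∀ ω, 0 < q ω → ∀ (β : Gr K d) j, |eval (nd K β) (Pg (Z ω) j)| ≤ 2 ^ (δ * Q)
  s1 : ∀ ω, 0 < q ω → ∀ i, |s ω i| ≤ 1
  sc : Det q (fun ω => (c (L ω), (E ω, a ω))) s
  ξ0 : ∀ l i, 0 ≤ ξ l i
  ξ1 : ∀ l i, ξ l i < 1
  dgn : ∀ l, (n l).natDegree ≤ D
  bdn : ∀ ω, 0 < q ω → ∀ j, |(n (L ω)).coeff j| ≤ 2 ^ (δ * Q)
  val : Pb q (fun ω => 2 ^ (δ * Q) / 2 ^ MB < |(n (L ω)).eval (uu N₀ T ω) -
    eval (fun i => s ω i + ξ (L ω) i) (Pf (Z ω))|) ≤ δ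
  vel : Pb q (fun ω => 2 ^ (δ * Q) / 2 ^ (MB - Q) <
    |(Polynomial.derivative (n (L ω))).eval (uu N₀ T ω) -
      ∑ j, X (E ω) j * eval (fun i => s ω i + ξ (L ω) i) (Pg (Z ω) j)|) ≤ δ
  dgΘ : ∀ l i, (Θ l i).natDegree ≤ D
  cl : Pb q (fun ω => ∃ i : Fin d, 2 ^ (δ * Q) / 2 ^ (MB - Q) < |(Θ (L ω) i).eval (uu N₀ T ω) -
    eval (fun i => s ω i + ξ (L ω) i) (Pg (Z ω) i.succ)|) ≤ δ
  full : d * (k * Real.log 2) - δ * Q ≤ CH q (xd k L ξ) (fun ω => (Z ω, E ω))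

/-- **The tube labels of the precision `2 ^ (-M)`.** -/
structure Im (K d D Q M N₀ : ℕ) (δ : ℝ) {Ω Λ ζ α ε κ : Type} [Fintype Ω] (q : Ω → ℝ)
    (L : Ω → Λ) (T : Ω → ℕ) (Z : Ω → ζ) (a : Ω → α) (E : Ω → ε)
    (Pf : ζ → MvPolynomial (Fin d) ℝ) (c : Λ → κ) (s : Ω → Fin d → ℝ) (ξ : Λ → Fin d → ℝ)
    (n : Λ → Polynomial ℝ) (P : Λ → Gr K d → Polynomial ℝ) : Prop where
  deg : ∀ l β, (P l β).natDegree ≤ D
  bd : ∀ ω, 0 < q ω → ∀ β j, |(P (L ω) β).coeff j| ≤ 2 ^ (δ * Q)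
  own : ∀ l, ∑ β, Polynomial.C (ell K β (ξ l)) * P l β = n l
  cls : Pb q (fun ω => ∃ β : Gr K d, 2 ^ (δ * Q) / 2 ^ M <
    |vt K Z Pf s ω β - (P (L ω) β).eval (uu N₀ T ω)|) ≤ δ
  few : CH q (fun ω => (c (L ω), ((fun (β : Gr K d) (j : Fin (D + 1)) =>
      ⌊2 ^ M * ((P (L ω) β).coeff j - (P (L ω) (fun _ => 0)).coeff j)⌋),
      fun j : Fin (D + 1) => ⌊2 ^ (M - Q) * (P (L ω) (fun _ => 0)).coeff j⌋)))
    (fun ω => (E ω, Key (M - Q) Z a Pf ω)) ≤ δ * Q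

/-- **All jets of the centre**: the output of the path law. -/
def Jets {Ω Λ ζ α ε : Type} [Fintype Ω] (K d D Q M : ℕ) (δ : ℝ) (q : Ω → ℝ) (L : Ω → Λ)
    (Z : Ω → ζ) (a : Ω → α) (E : Ω → ε) (Pf : ζ → MvPolynomial (Fin d) ℝ)
    (P : Λ → Gr K d → Polynomial ℝ) : Prop :=
  CH q (fun ω => fun j : Fin (D + 1) => ⌊2 ^ M * (P (L ω) (fun _ => 0)).coeff j⌋)
    (fun ω => (E ω, Key M Z a Pf ω)) ≤ δ * Q

/-- **The gradients of the balls are few bits given the key.** -/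
def GradF {Ω ζ α : Type} [Fintype Ω] (K d Q M M' : ℕ) (δ : ℝ) (q : Ω → ℝ)
    (Z : Ω → ζ) (a : Ω → α) (Pf : ζ → MvPolynomial (Fin d) ℝ)
    (Pg : ζ → Fin (d + 1) → MvPolynomial (Fin d) ℝ) : Prop :=
  CH q (fun ω => fun b : Gr K d × Fin (d + 1) => ⌊2 ^ (M' - Q) * eval (nd K b.1) (Pg (Z ω) b.2)⌋)
    (Key M Z a Pf) ≤ δ * Q

section mono

variable {K d D CM Q MB k N₀ M : ℕ} {δ δ' : ℝ} {Ω Λ ζ α ε κ : Type} [Fintype Ω] {q : Ω → ℝ}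
  {L : Ω → Λ} {T : Ω → ℕ} {Z : Ω → ζ} {a : Ω → α} {E : Ω → ε} {X : ε → Fin (d + 1) → ℝ}
  {Pf : ζ → MvPolynomial (Fin d) ℝ} {Pg : ζ → Fin (d + 1) → MvPolynomial (Fin d) ℝ}
  {c : Λ → κ} {s : Ω → Fin d → ℝ} {ξ : Λ → Fin d → ℝ} {n : Λ → Polynomial ℝ}
  {Θ : Λ → Fin d → Polynomial ℝ} {P : Λ → Gr K d → Polynomial ℝ}

theorem two_mono (h : δ ≤ δ') (Q : ℕ) : (2 : ℝ) ^ (δ * Q) ≤ 2 ^ (δ' * Q) :=
  Real.rpow_le_rpow_of_exponent_le (by norm_num)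
    (mul_le_mul_of_nonneg_right h (Nat.cast_nonneg Q))

theorem Pb_imp {q : Ω → ℝ} (h0 : ∀ ω, 0 ≤ q ω) {A B : Ω → Prop}
    (h : ∀ ω, 0 < q ω → A ω → B ω) : Pb q A ≤ Pb q B := by
  rw [← Pb_law, ← Pb_law]
  exact law_mono' h0 h

theorem TL.mono (h : TL K d D CM Q MB k N₀ δ q L T Z a E X Pf Pg c s ξ n Θ) (hδ : δ ≤ δ') :
    TL K d D CM Q MB k N₀ δ' q L T Z a E X Pf Pg c s ξ n Θ := by
  have hQ0 : (0 : ℝ) ≤ Q := Nat.cast_nonneg Q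
  have h1 : δ * Q ≤ δ' * Q := mul_le_mul_of_nonneg_right hδ hQ0
  have h2 := two_mono hδ Q
  have h0 := h.law.nonneg
  have h3 : ∀ m : ℕ, (2 : ℝ) ^ (δ * Q) / 2 ^ m ≤ 2 ^ (δ' * Q) / 2 ^ m := fun m =>
    div_le_div_of_nonneg_right h2 (by positivity)
  refine ⟨h.law, h.hK, h.hd, h.hQ, h.hMB, h.hk, h.hN, h.Tlt, by linarith [h.Tfull], h.ZT, h.Za,
    h.aT, h.LE, fun ω hω j => (h.Xb ω hω j).trans h2, ?_, h.fr.trans (by linarith),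
    h.afew.trans h1, h.dgf, h.dgg, h.grd, fun ω hω β => (h.bdf ω hω β).trans h2,
    fun ω hω β j => (h.bdg ω hω β j).trans h2, h.s1, h.sc, h.ξ0, h.ξ1, h.dgn,
    fun ω hω j => (h.bdn ω hω j).trans h2, ?_, ?_, h.dgΘ, ?_, by linarith [h.full]⟩
  · refine (h.nh.mono_le hδ).mono_eta h0 ?_
    exact Real.rpow_le_rpow_of_exponent_le (by norm_num) (by linarith)
  · exact (Pb_imp h0 fun ω _ hh => (h3 _).trans_lt hh).trans (h.val.trans hδ)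
  · exact (Pb_imp h0 fun ω _ hh => (h3 _).trans_lt hh).trans (h.vel.trans hδ)
  · exact (Pb_imp h0 fun ω _ ⟨i, hh⟩ => ⟨i, (h3 _).trans_lt hh⟩).trans (h.cl.trans hδ)

theorem Im.mono (h : Im K d D Q M N₀ δ q L T Z a E Pf c s ξ n P) (h0 : ∀ ω, 0 ≤ q ω)
    (hδ : δ ≤ δ') : Im K d D Q M N₀ δ' q L T Z a E Pf c s ξ n P := by
  have hQ0 : (0 : ℝ) ≤ Q := Nat.cast_nonneg Q
  have h1 : δ * Q ≤ δ' * Q := mul_le_mul_of_nonneg_right hδ hQ0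
  have h2 := two_mono hδ Q
  have h3 : ∀ m : ℕ, (2 : ℝ) ^ (δ * Q) / 2 ^ m ≤ 2 ^ (δ' * Q) / 2 ^ m := fun m =>
    div_le_div_of_nonneg_right h2 (by positivity)
  exact ⟨h.deg, fun ω hω β j => (h.bd ω hω β j).trans h2, h.own,
    (Pb_imp h0 fun ω _ ⟨i, hh⟩ => ⟨i, (h3 _).trans_lt hh⟩).trans (h.cls.trans hδ),
    h.few.trans h1⟩

theorem TL.δ0 (h : TL K d D CM Q MB k N₀ δ q L T Z a E X Pf Pg c s ξ n Θ) : 0 ≤ δ := by
  have h1 : 0 ≤ Pb q (fun ω => 2 ^ (δ * Q) / 2 ^ MB < |(n (L ω)).eval (uu N₀ T ω) -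
    eval (fun i => s ω i + ξ (L ω) i) (Pf (Z ω))|) := by
    rw [← Pb_law]
    exact law_nonneg h.law.nonneg _ _
  exact h1.trans h.val

omit [Fintype Ω] in
/-- The key to fewer digits. -/
theorem key_det (M₁ M₂ : ℕ) (h : M₁ ≤ M₂) {ω ω' : Ω}
    (hk : Key M₂ Z a Pf ω = Key M₂ Z a Pf ω') : Key M₁ Z a Pf ω = Key M₁ Z a Pf ω' := by
  unfold Key at hk ⊢
  obtain ⟨h1, h2⟩ := Prod.ext_iff.mp hk
  refine Prod.ext h1 ?_
  have key : ∀ x : ℝ, ⌊2 ^ M₁ * x⌋ = ⌊2 ^ M₂ * x⌋ / (2 ^ (M₂ - M₁) : ℕ) := by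
    intro x
    have e : (2 : ℝ) ^ M₁ * x = 2 ^ M₂ * x / ((2 ^ (M₂ - M₁) : ℕ) : ℝ) := by
      push_cast
      rw [eq_div_iff (by positivity)]
      calc (2 : ℝ) ^ M₁ * x * 2 ^ (M₂ - M₁) = 2 ^ M₁ * 2 ^ (M₂ - M₁) * x := by ring
        _ = 2 ^ M₂ * x := by rw [← pow_add, Nat.add_sub_cancel' h]
    rw [e, Int.floor_div_natCast]
  have h3 : ⌊2 ^ M₂ * eval (fun _ => 0) (Pf (Z ω))⌋ = ⌊2 ^ M₂ * eval (fun _ => 0) (Pf (Z ω'))⌋ :=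
    h2
  show ⌊2 ^ M₁ * eval (fun _ => 0) (Pf (Z ω))⌋ = ⌊2 ^ M₁ * eval (fun _ => 0) (Pf (Z ω'))⌋
  rw [key, key, h3]

end mono

end Pool.V1E
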