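import Pool.Agent.H92.D2.Gst
import Pool.Agent.H21.RDP.Cfs
import Pool.Agent.H95.D2.Wts

/-!
# V1 empty: the new tube labels

`ImC`: the tube labels without the count of their bits. `imc_new`: from polynomials of the line near
the values at the nodes of the tube to tube labels which contain the own path.
-/

set_option autoImplicit false

namespace Pool.V1E

open Finset Real
open Pool.Agent.H49.Ent Pool.Agent.H32.Dense Pool.STK Pool.D2A Pool.D2Con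
open Pool.BFL (Pb)
open Pool.D2G30
open MvPolynomial (eval pderiv)

/-- **The tube labels**, without the count. -/
structure ImC (K d D Q M N₀ : ℕ) (δ : ℝ) {Ω Λ ζ : Type} [Fintype Ω] (q : Ω → ℝ)
    (L : Ω → Λ) (T : Ω → ℕ) (Z : Ω → ζ) (Pf : ζ → MvPolynomial (Fin d) ℝ) (s : Ω → Fin d → ℝ)
    (ξ : Λ → Fin d → ℝ) (n : Λ → Polynomial ℝ) (P : Λ → Gr K d → Polynomial ℝ) : Prop where
  deg : ∀ l β, (P l β).natDegree ≤ D
  bd : ∀ ω, 0 < q ω → ∀ β j, |(P (L ω) β).coeff j| ≤ 2 ^ (δ * Q)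
  own : ∀ l, ∑ β, Polynomial.C (ell K β (ξ l)) * P l β = n l
  cls : Pb q (fun ω => ∃ β : Gr K d, 2 ^ (δ * Q) / 2 ^ M <
    |vt K Z Pf s ω β - (P (L ω) β).eval (uu N₀ T ω)|) ≤ δ

theorem ImC.mono {K d D Q M N₀ : ℕ} {δ δ' : ℝ} {Ω Λ ζ : Type} [Fintype Ω] {q : Ω → ℝ}
    {L : Ω → Λ} {T : Ω → ℕ} {Z : Ω → ζ} {Pf : ζ → MvPolynomial (Fin d) ℝ} {s : Ω → Fin d → ℝ}
    {ξ : Λ → Fin d → ℝ} {n : Λ → Polynomial ℝ} {P : Λ → Gr K d → Polynomial ℝ}
    (h : ImC K d D Q M N₀ δ q L T Z Pf s ξ n P) (h0 : ∀ ω, 0 ≤ q ω)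
    (hδ : δ ≤ δ') : ImC K d D Q M N₀ δ' q L T Z Pf s ξ n P := by
  have h2 := two_mono hδ Q
  have h3 : ∀ m : ℕ, (2 : ℝ) ^ (δ * Q) / 2 ^ m ≤ 2 ^ (δ' * Q) / 2 ^ m := fun m =>
    div_le_div_of_nonneg_right h2 (by positivity)
  exact ⟨h.deg, fun ω hω β j => (h.bd ω hω β j).trans h2, h.own,
    (Pb_imp h0 fun ω _ ⟨i, hh⟩ => ⟨i, (h3 _).trans_lt hh⟩).trans (h.cls.trans hδ)⟩

theorem ell_sum_one {K d : ℕ} (hK : 1 ≤ K) (x : Fin d → ℝ) : ∑ β : Gr K d, ell K β x = 1 := by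
  have h := ell_interp hK (1 : MvPolynomial (Fin d) ℝ) (by
    rw [MvPolynomial.totalDegree_one]
    exact Nat.zero_le _) x
  simp only [map_one, mul_one] at h
  exact h.symm

theorem Pb_or {Ω : Type} [Fintype Ω] {q : Ω → ℝ} (h0 : ∀ ω, 0 ≤ q ω) {G A B : Ω → Prop}
    (h : ∀ ω, 0 < q ω → G ω → A ω ∨ B ω) : Pb q G ≤ Pb q A + Pb q B := by
  have e := law_or h0 G A B h
  rwa [Pb_law, Pb_law, Pb_law] at e

/-- A constant is at most `2 ^ (ε Q)`. -/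
theorem const_le {C ε : ℝ} (hε : 0 < ε) : ∃ Q₀ : ℕ, ∀ Q : ℕ, Q₀ ≤ Q → C ≤ 2 ^ (ε * Q) := by
  obtain ⟨n, hn⟩ := pow_unbounded_of_one_lt C (show (1 : ℝ) < 2 by norm_num)
  obtain ⟨Q₀, hQ₀⟩ := exists_nat_ge (n / ε)
  refine ⟨Q₀, fun Q hQ => hn.le.trans ?_⟩
  rw [← Real.rpow_natCast]
  refine Real.rpow_le_rpow_of_exponent_le (by norm_num) ?_
  have h1 : (n : ℝ) / ε ≤ Q := hQ₀.trans (by exact_mod_cast hQ)
  rw [div_le_iff₀ hε] at h1
  linarith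

/-- **The new tube labels.** -/
theorem imc_new (K d D CM : ℕ) {ε : ℝ} (hε : 0 < ε) : ∃ δ : ℝ, 0 < δ ∧ δ ≤ ε ∧ ∃ Q₀ : ℕ,
    ∀ {Q MB k N₀ M' : ℕ}, Q₀ ≤ Q → M' ≤ MB → ∀ {Ω Λ ζ α ε' κ : Type} [Fintype Ω]
    {q : Ω → ℝ} {L : Ω → Λ} {T : Ω → ℕ} {Z : Ω → ζ} {a : Ω → α} {E : Ω → ε'}
    {X : ε' → Fin (d + 1) → ℝ} {Pf : ζ → MvPolynomial (Fin d) ℝ}
    {Pg : ζ → Fin (d + 1) → MvPolynomial (Fin d) ℝ} {c : Λ → κ} {s : Ω → Fin d → ℝ}
    {ξ : Λ → Fin d → ℝ} {n : Λ → Polynomial ℝ} {Θ : Λ → Fin d → Polynomial ℝ},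
    TL K d D CM Q MB k N₀ δ q L T Z a E X Pf Pg c s ξ n Θ →
    ∀ Pt : Λ → Gr K d → Polynomial ℝ, (∀ l b, (Pt l b).natDegree ≤ D) →
    (∀ l b j, |(Pt l b).coeff j| ≤ 2 ^ (δ * Q)) →
    Pb q (fun ω => ∃ b, 2 ^ (δ * Q) / 2 ^ M' <
      |vt K Z Pf s ω b - (Pt (L ω) b).eval (uu N₀ T ω)|) ≤ δ →
    ∃ P, ImC K d D Q M' N₀ ε q L T Z Pf s ξ n P := by
  classical
  have hiC := one_le_iC K d
  obtain ⟨C, hC⟩ : ∃ C : ℝ, C = iC K d + 1 := ⟨_, rfl⟩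
  have hC1 : 1 ≤ C := by rw [hC]; linarith
  obtain ⟨δ₁, hδ₁, Q₁, H⟩ := coef_small D (eps := ε / 4) (by positivity)
  obtain ⟨Q₂, hQ₂⟩ := const_le (C := 1 + C) (ε := ε / 4) (by positivity)
  obtain ⟨δ, hδ⟩ : ∃ δ : ℝ, δ = min (δ₁ / 2) (ε / 4) := ⟨_, rfl⟩
  have d1 : δ ≤ δ₁ / 2 := by rw [hδ]; exact min_le_left _ _
  have d2 : δ ≤ ε / 4 := by rw [hδ]; exact min_le_right _ _
  have hδ0 : 0 < δ := by rw [hδ]; exact lt_min (by positivity) (by positivity)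
  refine ⟨δ, hδ0, by linarith, max Q₁ Q₂, ?_⟩
  intro Q MB k N₀ M' hQ hM' Ω Λ ζ α ε' κ _ q L T Z a E X Pf Pg c s ξ n Θ h Pt hPd hPb hP
  have h0 := h.law.nonneg
  have hQ1 := (le_max_left Q₁ Q₂).trans hQ
  have hQ2 := hQ₂ Q ((le_max_right Q₁ Q₂).trans hQ)
  have hQ0 : (0 : ℝ) ≤ Q := Nat.cast_nonneg Q
  have hB0 : (0 : ℝ) < 2 ^ (δ * Q) := Real.rpow_pos_of_pos (by norm_num) _
  have hB1 : (1 : ℝ) ≤ 2 ^ (δ * Q) := rpow_ge_one (by positivity)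
  -- the correction
  obtain ⟨R, hR⟩ : ∃ R : Λ → Polynomial ℝ, R = fun l => n l -
    ∑ γ, Polynomial.C (ell K γ (ξ l)) * Pt l γ := ⟨_, rfl⟩
  have hRd : ∀ l, (R l).natDegree ≤ D := by
    intro l
    rw [hR]
    refine (Polynomial.natDegree_sub_le _ _).trans (max_le (h.dgn l) ?_)
    refine Polynomial.natDegree_sum_le_of_forall_le _ _ fun γ _ => ?_
    exact (Polynomial.natDegree_C_mul_le _ _).trans (hPd l γ)
  obtain ⟨lam, hlam⟩ : ∃ lam : ℝ, lam = C * (2 ^ (δ * Q) / 2 ^ M') := ⟨_, rfl⟩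
  have hlam0 : 0 < lam := by rw [hlam]; positivity
  obtain ⟨B1, hB1'⟩ : ∃ B1 : Ω → Prop, B1 = fun ω => ∃ b, 2 ^ (δ * Q) / 2 ^ M' <
      |vt K Z Pf s ω b - (Pt (L ω) b).eval (uu N₀ T ω)| := ⟨_, rfl⟩
  obtain ⟨B2, hB2'⟩ : ∃ B2 : Ω → Prop, B2 = fun ω => 2 ^ (δ * Q) / 2 ^ MB <
    |(n (L ω)).eval (uu N₀ T ω) - eval (fun i => s ω i + ξ (L ω) i) (Pf (Z ω))| := ⟨_, rfl⟩
  have hRu : ∀ ω, 0 < q ω → ¬ B1 ω → ¬ B2 ω → |(R (L ω)).eval (uu N₀ T ω)| ≤ lam := by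
    intro ω hω b1 b2
    rw [hB1'] at b1
    rw [hB2'] at b2
    push Not at b1 b2
    have e1 := shift_eval h.hK (Pf (Z ω)) (h.dgf _) (s ω) (fun i => s ω i + ξ (L ω) i)
    have e2 : (fun i => s ω i + ξ (L ω) i - s ω i) = ξ (L ω) := by
      funext i
      ring
    rw [e2] at e1
    have e3 : (R (L ω)).eval (uu N₀ T ω) = ((n (L ω)).eval (uu N₀ T ω) -
        eval (fun i => s ω i + ξ (L ω) i) (Pf (Z ω))) +
        (∑ β, ell K β (ξ (L ω)) * vt K Z Pf s ω β -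
          ∑ β, ell K β (ξ (L ω)) * (Pt (L ω) β).eval (uu N₀ T ω)) := by
      rw [e1, hR]
      unfold vt
      simp only [Polynomial.eval_sub, Polynomial.eval_finsetSum, Polynomial.eval_mul,
        Polynomial.eval_C]
      ring
    rw [e3]
    refine (abs_add_le _ _).trans ?_
    have e4 := ell_sum_near (vt K Z Pf s ω) (fun β => (Pt (L ω) β).eval (uu N₀ T ω))
      (δ := 2 ^ (δ * Q) / 2 ^ M') b1 (x := ξ (L ω)) (fun i => by linarith [h.ξ0 (L ω) i])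
      (fun i => by linarith [h.ξ1 (L ω) i])
    have e5 : (2 : ℝ) ^ (δ * Q) / 2 ^ MB ≤ 2 ^ (δ * Q) / 2 ^ M' := by
      refine div_le_div_of_nonneg_left hB0.le (by positivity) ?_
      exact pow_le_pow_right₀ (by norm_num) hM'
    rw [hlam, hC]
    have e6 : (iC K d + 1) * (2 ^ (δ * Q) / 2 ^ M') =
        2 ^ (δ * Q) / 2 ^ M' + iC K d * (2 ^ (δ * Q) / 2 ^ M') := by ring
    rw [e6]
    exact add_le_add (b2.trans e5) e4
  have hbad : Pb q (fun ω => B1 ω ∨ B2 ω) ≤ 2 * δ := by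
    have e1 := Pb_or h0 (G := fun ω => B1 ω ∨ B2 ω) (A := B1) (B := B2) fun ω _ hh => hh
    have e2 : Pb q B1 ≤ δ := by rw [hB1']; exact hP
    have e3 : Pb q B2 ≤ δ := by rw [hB2']; exact h.val
    linarith
  have hsm := H hQ1 h.law h.hN h.Tlt (by
      have := h.Tfull
      have h5 : δ * Q ≤ δ₁ * Q := mul_le_mul_of_nonneg_right (by linarith) hQ0
      linarith) R hRd hlam0
    ((Pb_imp h0 fun ω hω hh => by
      by_contra hcon
      push Not at hcon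
      exact absurd hh (not_lt.mpr (hRu ω hω hcon.1 hcon.2))).trans (hbad.trans (by linarith)))
  obtain ⟨gd, hgd⟩ : ∃ gd : Λ → Prop, gd = fun l => ∀ j ≤ D, |(R l).coeff j| ≤
    2 ^ (ε / 4 * Q) * lam := ⟨_, rfl⟩
  refine ⟨fun l β => if gd l then Pt l β + R l else n l, ?_, ?_, ?_, ?_⟩
  · intro l β
    split_ifs
    · exact (Polynomial.natDegree_add_le _ _).trans (max_le (hPd l β) (hRd l))
    · exact h.dgn l
  · intro ω hω β j
    have hlam' : (2 : ℝ) ^ (ε / 4 * Q) * lam ≤ C * (2 ^ (ε / 4 * Q) * 2 ^ (δ * Q)) := by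
      rw [hlam]
      have e1 : (2 : ℝ) ^ (δ * Q) / 2 ^ M' ≤ 2 ^ (δ * Q) := by
        refine div_le_self hB0.le ?_
        exact one_le_pow₀ (by norm_num)
      have e2 : C * (2 ^ (δ * Q) / 2 ^ M') ≤ C * 2 ^ (δ * Q) :=
        mul_le_mul_of_nonneg_left e1 (by linarith)
      have e3 := mul_le_mul_of_nonneg_left e2
        (show (0 : ℝ) ≤ 2 ^ (ε / 4 * Q) from (Real.rpow_pos_of_pos (by norm_num) _).le)
      refine e3.trans (le_of_eq ?_)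
      ring
    have hG1 : (1 : ℝ) ≤ 2 ^ (ε / 4 * Q) := rpow_ge_one (by positivity)
    have hfin : 2 ^ (δ * Q) + C * (2 ^ (ε / 4 * Q) * 2 ^ (δ * Q)) ≤ (2 : ℝ) ^ (ε * Q) := by
      have e1 : (2 : ℝ) ^ (δ * Q) + C * (2 ^ (ε / 4 * Q) * 2 ^ (δ * Q)) ≤
          (1 + C) * (2 ^ (ε / 4 * Q) * 2 ^ (δ * Q)) := by
        have : (2 : ℝ) ^ (δ * Q) ≤ 2 ^ (ε / 4 * Q) * 2 ^ (δ * Q) :=
          le_mul_of_one_le_left hB0.le hG1
        nlinarith
      have e2 : (1 + C) * (2 ^ (ε / 4 * Q) * 2 ^ (δ * Q)) ≤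
          2 ^ (ε / 4 * Q) * (2 ^ (ε / 4 * Q) * 2 ^ (δ * Q)) :=
        mul_le_mul_of_nonneg_right hQ2 (by positivity)
      refine e1.trans (e2.trans ?_)
      rw [← Real.rpow_add (by norm_num), ← Real.rpow_add (by norm_num)]
      refine Real.rpow_le_rpow_of_exponent_le (by norm_num) ?_
      have : δ * Q ≤ ε / 4 * Q := mul_le_mul_of_nonneg_right d2 hQ0
      nlinarith
    split_ifs with hg
    · rw [Polynomial.coeff_add]
      refine (abs_add_le _ _).trans ?_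
      have e1 := hPb (L ω) β j
      have e2 : |(R (L ω)).coeff j| ≤ 2 ^ (ε / 4 * Q) * lam := by
        by_cases hj : j ≤ D
        · rw [hgd] at hg
          exact hg j hj
        · rw [Polynomial.coeff_eq_zero_of_natDegree_lt (lt_of_le_of_lt (hRd _) (by omega)),
            abs_zero]
          positivity
      linarith
    · refine (h.bdn ω hω j).trans (two_mono (by linarith) Q)
  · intro l
    split_ifs
    · simp only [mul_add]
      rw [Finset.sum_add_distrib, ← Finset.sum_mul]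
      have e1 : ∑ i : Gr K d, Polynomial.C (ell K i (ξ l)) = 1 := by
        rw [← map_sum, ell_sum_one h.hK, map_one]
      rw [e1, one_mul, hR]
      ring
    · rw [← Finset.sum_mul, ← map_sum, ell_sum_one h.hK, map_one, one_mul]
  · have e1 := Pb_or h0 (G := fun ω => ∃ β : Gr K d, 2 ^ (ε * Q) / 2 ^ M' <
      |vt K Z Pf s ω β - ((if gd (L ω) then Pt (L ω) β + R (L ω) else n (L ω)) :
        Polynomial ℝ).eval (uu N₀ T ω)|) (A := fun ω => B1 ω ∨ B2 ω)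
      (B := fun ω => ∃ j, j ≤ D ∧ 2 ^ (ε / 4 * Q) * lam < |(R (L ω)).coeff j|) (by
        rintro ω hω ⟨β, hβ⟩
        by_contra hcon
        push Not at hcon
        obtain ⟨⟨c1, c2⟩, c3⟩ := hcon
        have hg : gd (L ω) := by
          rw [hgd]
          exact fun j hj => c3 j hj
        rw [if_pos hg, Polynomial.eval_add] at hβ
        have e3 := hRu ω hω c1 c2
        rw [hB1'] at c1
        push Not at c1
        have e4 := c1 β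
        have e5 : |vt K Z Pf s ω β - ((Pt (L ω) β).eval (uu N₀ T ω) +
            (R (L ω)).eval (uu N₀ T ω))| ≤ 2 ^ (δ * Q) / 2 ^ M' + lam := by
          rw [← sub_sub]
          exact (abs_sub _ _).trans (add_le_add e4 e3)
        have e6 : (2 : ℝ) ^ (δ * Q) / 2 ^ M' + lam ≤ 2 ^ (ε * Q) / 2 ^ M' := by
          rw [hlam]
          have e7 : (2 : ℝ) ^ (δ * Q) / 2 ^ M' + C * (2 ^ (δ * Q) / 2 ^ M') =
              (1 + C) * 2 ^ (δ * Q) / 2 ^ M' := by ring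
          rw [e7]
          refine div_le_div_of_nonneg_right ?_ (by positivity)
          have e8 : (1 + C) * 2 ^ (δ * Q) ≤ 2 ^ (ε / 4 * Q) * 2 ^ (δ * Q) :=
            mul_le_mul_of_nonneg_right hQ2 hB0.le
          refine e8.trans ?_
          rw [← Real.rpow_add (by norm_num)]
          refine Real.rpow_le_rpow_of_exponent_le (by norm_num) ?_
          have : δ * Q ≤ ε / 4 * Q := mul_le_mul_of_nonneg_right d2 hQ0
          nlinarith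
        linarith)
    refine e1.trans ?_
    linarith

end Pool.V1E
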