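import Pool.Agent.H92.D2.CritV
import Pool.Agent.H92.GN.FullQ

/-!
# First digits behind the natural ones are free: several exponents

`FewC`: at most `c J` bits. `NN.mixed`: the increments of the numbers in the digits decrease with
the window. `free_vec`: at almost every point at which all natural exponents are critical, the mixed
increments on the boxes of size `C r` are `o (r)`. `free_freq`: the same for quantities which depend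
on the scale `r = 2 ^ (-k)`, with the record at the window `w + q k`, for infinitely many `k`.
-/

set_option autoImplicit false

namespace Pool.LA91

open Finset Real
open Pool.Agent.H49.Ent Pool.Agent.H32.Dense Pool.STK Pool.KA Pool.KSAT Pool.K2S Pool.PB Pool.S6C
  Pool.GEN Pool.RCD

variable {m : ℕ} {U U' U₀ U₁ U₀' U₁' : Type} {α β γ α' β' γ' : ∀ J : ℕ, Fam m J → Type}
  {f : ∀ (J : ℕ) (F : Fam m J), F.Ω → α J F} {g : ∀ (J : ℕ) (F : Fam m J), F.Ω → β J F}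
  {f' : ∀ (J : ℕ) (F : Fam m J), F.Ω → α' J F} {g' : ∀ (J : ℕ) (F : Fam m J), F.Ω → β' J F}
  {y : ∀ (J : ℕ) (F : Fam m J), F.Ω → γ J F} {y' : ∀ (J : ℕ) (F : Fam m J), F.Ω → γ' J F}
  {S : PCl m}

/-- **At most `c J` bits**. -/
def FewC (S : PCl m) (f : ∀ (J : ℕ) (F : Fam m J), F.Ω → α J F)
    (g : ∀ (J : ℕ) (F : Fam m J), F.Ω → β J F) (y : ∀ (J : ℕ) (F : Fam m J), F.Ω → γ J F)
    (Q : Qt m U) (Q' : Qt m U') (c : ℝ) : Prop :=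
  ∀ h : ℝ, 0 < h → ∃ e₀ : ℝ, 0 < e₀ ∧ ∀ K : ℕ, Bas S (fun J F A => ∀ u u',
    Q.P K e₀ J F A u → Q'.P K e₀ J F A u' → ∃ (V : Type) (z : F.Ω → V),
      Cl2 (f J F) (g J F) A z ∧ CH (Pool.Agent.H49.Ent.cond F.p A True) u'
        (fun ω => (u ω, (z ω, y J F ω))) ≤ (c + h) * J)

theorem Few.fewC {Q : Qt m U} {Q' : Qt m U'} (h : Few S f g y Q Q') : FewC S f g y Q Q' 0 := by
  intro c hc
  obtain ⟨e, he, H⟩ := h c hc
  refine ⟨e, he, fun K => Bas.mono 0 (H K) ?_⟩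
  rintro J - F A H u u' hu hu'
  obtain ⟨V, z, hz, h1⟩ := H u u' hu hu'
  exact ⟨V, z, hz, by rw [zero_add]; exact h1⟩

theorem FewC.sub {S' : PCl m} (hs : ∀ (τ : ℝ) (J : ℕ) (F : Fam m J) (A : F.Ω → Prop),
    S'.St τ J F A → S.St τ J F A) {Q : Qt m U} {Q' : Qt m U'} {c : ℝ}
    (h : FewC S f g y Q Q' c) : FewC S' f g y Q Q' c := by
  intro a ha
  obtain ⟨e, he, h1⟩ := h a ha
  exact ⟨e, he, fun K => (h1 K).sub hs⟩

theorem FewC.mono {Q : Qt m U} {Q' : Qt m U'} {c c' : ℝ} (hc : c ≤ c')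
    (h : FewC S f g y Q Q' c) : FewC S f g y Q Q' c' := by
  intro a ha
  obtain ⟨e, he, H⟩ := h a ha
  refine ⟨e, he, fun K => Bas.mono 0 (H K) ?_⟩
  rintro J - F A H u u' hu hu'
  obtain ⟨V, z, hz, h1⟩ := H u u' hu hu'
  exact ⟨V, z, hz, h1.trans (mul_le_mul_of_nonneg_right (by linarith) (Nat.cast_nonneg J))⟩

theorem FewC.mx
    (hpos : ∀ (τ : ℝ) (J : ℕ) (F : Fam m J) (A : F.Ω → Prop), S.St τ J F A → 0 < Pe F.p A)
    {Q : Qt m U} {Q₁ : Qt m U₁} {c : ℝ} (hF : FewC S f g y Q Q₁ c) (h : ℝ) (hh : 0 < h) :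
    ∃ e₀ : ℝ, 0 < e₀ ∧ ∀ K : ℕ, Bas S (fun J F A => ∀ (V : Type) (z : F.Ω → V),
      Mx f g (h / 2) F A z → ∀ u u₁, Q.P K e₀ J F A u → Q₁.P K e₀ J F A u₁ →
      CH (Pool.Agent.H49.Ent.cond F.p A True) u₁ (fun ω => (u ω, (z ω, y J F ω))) ≤
        (c + h) * J) := by
  obtain ⟨e₀, he₀, h1⟩ := hF (h / 2) (half_pos hh)
  refine ⟨e₀, he₀, fun K => Bas.mono 0 ((h1 K).and (pos_bas hpos)) ?_⟩
  rintro J - F A ⟨h2, hA⟩ V z ⟨hz, hmax⟩ u u₁ hu hu₁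
  have hcl := isLaw_cond F.isLaw hA
  obtain ⟨V₁, z₁, hz₁, h3⟩ := h2 u u₁ hu hu₁
  have h4 := hmax _ _ hz₁
  have h5 := CH_le_add hcl.nonneg u₁ z₁ (fun ω => (u ω, (z ω, y J F ω)))
  have h6 : CH (Pool.Agent.H49.Ent.cond F.p A True) z₁ (fun ω => (u ω, (z ω, y J F ω))) ≤
      CH (Pool.Agent.H49.Ent.cond F.p A True) z₁ z := by
    refine CH_mono_cond hcl.nonneg fun ω ω' _ _ hh => ?_
    simp only [Prod.mk.injEq] at hh
    exact hh.2.1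
  have h7 : CH (Pool.Agent.H49.Ent.cond F.p A True) u₁
      (fun ω => (z₁ ω, (u ω, (z ω, y J F ω)))) ≤
      CH (Pool.Agent.H49.Ent.cond F.p A True) u₁ (fun ω => (u ω, (z₁ ω, y J F ω))) := by
    refine CH_mono_cond hcl.nonneg fun ω ω' _ _ hh => ?_
    simp only [Prod.mk.injEq] at hh ⊢
    exact ⟨hh.2.1, hh.1, hh.2.2.2⟩
  linarith

/-- **The increment of the numbers** is at most the number of bits. -/
theorem NN.inc (hS : S.Ne)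
    (hpos : ∀ (τ : ℝ) (J : ℕ) (F : Fam m J) (A : F.Ω → Prop), S.St τ J F A → 0 < Pe F.p A)
    {η : ℝ} (hη : RNum S f g η) {Q : Qt m U} {Q' : Qt m U'} {θ θ' c : ℝ}
    (N : NN S f g y Q θ) (N' : NN S f g y Q' θ') (x : Exs S Q) (x' : Exs S Q')
    (hc : FewC S f g y Q Q' c) : θ' ≤ θ + c := by
  refine le_of_bas hS fun h hh => ?_
  obtain ⟨k1, hk1, e1, he1, H1⟩ := N (h / 4) (by positivity)
  obtain ⟨k2, hk2, e2, he2, H2⟩ := N' (h / 4) (by positivity)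
  obtain ⟨e3, he3, H3⟩ := hc.mx hpos (h / 4) (by positivity)
  obtain ⟨e₀, he₀, l1, l2, l3⟩ : ∃ e₀ : ℝ, 0 < e₀ ∧ e₀ ≤ e1 ∧ e₀ ≤ e2 ∧ e₀ ≤ e3 :=
    ⟨min e1 (min e2 e3), by positivity, min_le_left _ _, (min_le_right _ _).trans (min_le_left _ _),
      (min_le_right _ _).trans (min_le_right _ _)⟩
  obtain ⟨k, hk, m1, m2, m3⟩ : ∃ k : ℝ, 0 < k ∧ k ≤ k1 ∧ k ≤ k2 ∧ k ≤ h / 4 / 2 :=
    ⟨min k1 (min k2 (h / 4 / 2)), by positivity, min_le_left _ _,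
      (min_le_right _ _).trans (min_le_left _ _), (min_le_right _ _).trans (min_le_right _ _)⟩
  obtain ⟨K₀, M₀, hx0⟩ := x e₀ he₀
  obtain ⟨K₁, M₁, hx1⟩ := x' e₀ he₀
  refine Bas.mono 0 ((((H1 (max K₀ K₁)).and (H2 (max K₀ K₁))).and (H3 (max K₀ K₁))).and
    ((hx0.and hx1).and ((mx_ex hpos hη k hk).and (pos_bas hpos)))) ?_
  rintro J - F A ⟨⟨⟨H1, H2⟩, H3⟩, ⟨⟨u, hu, -⟩, u', hu', -⟩, ⟨V, z, hz⟩, hA⟩
  have hcl := isLaw_cond F.isLaw hA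
  have hJ0 : (0 : ℝ) ≤ J := Nat.cast_nonneg J
  have a1 := (abs_le.1 (H1 V z (hz.le m1) u (Q.mono (le_max_left _ _) l1 hu))).2
  have a2 := (abs_le.1 (H2 V z (hz.le m2) u' (Q'.mono (le_max_right _ _) l2 hu'))).1
  have a3 := H3 V z (hz.le m3) u u' (Q.mono (le_max_left _ _) l3 hu)
    (Q'.mono (le_max_right _ _) l3 hu')
  have s1 := CH_le_add hcl.nonneg u' u (fun ω => (z ω, y J F ω))
  have s3 : 0 ≤ h * J := by positivity
  nlinarith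

/-- Few bits given the record: the number is `0`. -/
theorem NN.zero (hS : S.Ne)
    (hpos : ∀ (τ : ℝ) (J : ℕ) (F : Fam m J) (A : F.Ω → Prop), S.St τ J F A → 0 < Pe F.p A)
    {η : ℝ} (hη : RNum S f g η) {Q : Qt m U} {θ : ℝ} (N : NN S f g y Q θ) (x : Exs S Q)
    (h0 : Few0 S f g y Q) : θ = 0 := by
  refine le_antisymm ?_ (NN.nonneg hS hpos hη N x)
  refine le_of_bas hS fun h hh => ?_
  obtain ⟨k1, hk1, e1, he1, H1⟩ := N (h / 2) (by positivity)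
  obtain ⟨e3, he3, H3⟩ := h0.mx hpos (h / 2) (by positivity)
  obtain ⟨k, hk, m1, m3⟩ : ∃ k : ℝ, 0 < k ∧ k ≤ k1 ∧ k ≤ h / 2 / 2 :=
    ⟨min k1 (h / 2 / 2), by positivity, min_le_left _ _, min_le_right _ _⟩
  obtain ⟨K₀, M₀, hx0⟩ := x (min e1 e3) (lt_min he1 he3)
  refine Bas.mono 0 (((H1 K₀).and (H3 K₀)).and (hx0.and ((mx_ex hpos hη k hk).and
    (pos_bas hpos)))) ?_
  rintro J - F A ⟨⟨H1, H3⟩, ⟨u, hu, -⟩, ⟨V, z, hz⟩, hA⟩
  have a1 := (abs_le.1 (H1 V z (hz.le m1) u (Q.mono le_rfl (min_le_left _ _) hu))).1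
  have a3 := H3 V z (hz.le m3) u (Q.mono le_rfl (min_le_right _ _) hu)
  nlinarith

/-- Entropies at two records: the increment at the finer record. -/
theorem mixed_law {Ω : Type} [Fintype Ω] {p : Ω → ℝ} (hcl : IsLaw p) {V V' Y Y' : Type}
    (z : Ω → V) (z' : Ω → V') (y : Ω → Y) (y' : Ω → Y') (u₀ : Ω → U₀) (u₁ : Ω → U₁)
    (u₀' : Ω → U₀') (u₁' : Ω → U₁')
    (hz : ∀ ω ω', z' ω = z' ω' → z ω = z ω') (hy : ∀ ω ω', y' ω = y' ω' → y ω = y ω') :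
    CH p u₁' (fun ω => (z' ω, y' ω)) - CH p u₀' (fun ω => (z' ω, y' ω)) ≤
      CH p u₁ (fun ω => (u₀ ω, (z' ω, y' ω))) +
        CH p u₁' (fun ω => (u₁ ω, (z' ω, y' ω))) + CH p u₀ (fun ω => (u₀' ω, (z' ω, y' ω))) ∧
      CH p u₁ (fun ω => (u₀ ω, (z' ω, y' ω))) ≤ CH p u₁ (fun ω => (u₀ ω, (z ω, y ω))) ∧
      CH p u₁ (fun ω => (u₀ ω, (z ω, y ω))) ≤ CH p u₁ (fun ω => (z ω, y ω)) -
        CH p u₀ (fun ω => (z ω, y ω)) + CH p u₀ (fun ω => (u₁ ω, (z ω, y ω))) := by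
  have h0 := hcl.nonneg
  refine ⟨?_, ?_, ?_⟩
  · -- `c1' ≤ c0' + CH (u1' | u0')`
    have s1 := CH_le_add h0 u₁' u₀' (fun ω => (z' ω, y' ω))
    have s2 := CH_le_add h0 u₁' u₁ (fun ω => (u₀' ω, (z' ω, y' ω)))
    have s3 := CH_le_add h0 u₁ u₀ (fun ω => (u₀' ω, (z' ω, y' ω)))
    have s4 : CH p u₁' (fun ω => (u₁ ω, (u₀' ω, (z' ω, y' ω)))) ≤
        CH p u₁' (fun ω => (u₁ ω, (z' ω, y' ω))) := by
      refine CH_mono_cond h0 fun ω ω' _ _ hh => ?_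
      simp only [Prod.mk.injEq] at hh ⊢
      tauto
    have s5 : CH p u₁ (fun ω => (u₀ ω, (u₀' ω, (z' ω, y' ω)))) ≤
        CH p u₁ (fun ω => (u₀ ω, (z' ω, y' ω))) := by
      refine CH_mono_cond h0 fun ω ω' _ _ hh => ?_
      simp only [Prod.mk.injEq] at hh ⊢
      tauto
    linarith
  · refine CH_mono_cond h0 fun ω ω' _ _ hh => ?_
    simp only [Prod.mk.injEq] at hh ⊢
    exact ⟨hh.1, hz _ _ hh.2.1, hy _ _ hh.2.2⟩
  · have s1 := CH_chain h0 u₀ u₁ (fun ω => (z ω, y ω))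
    have s2 := CH_chain h0 u₁ u₀ (fun ω => (z ω, y ω))
    have s3 : CH p (fun ω => (u₀ ω, u₁ ω)) (fun ω => (z ω, y ω)) =
        CH p (fun ω => (u₁ ω, u₀ ω)) (fun ω => (z ω, y ω)) := by
      refine CH_congr h0 ?_ ?_ (fun _ _ _ _ h => h) (fun _ _ _ _ h => h) <;>
      · intro ω ω' _ _ hh
        simp only [Prod.mk.injEq] at hh ⊢
        tauto
    linarith

/-- **The increments in the digits decrease with the window.** -/
theorem NN.mixed (hS : S.Ne)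
    (hpos : ∀ (τ : ℝ) (J : ℕ) (F : Fam m J) (A : F.Ω → Prop), S.St τ J F A → 0 < Pe F.p A)
    (hf : ∀ (J : ℕ) (F : Fam m J), ∃ φ : α' J F → α J F, ∀ ω, f J F ω = φ (f' J F ω))
    (hg : ∀ (J : ℕ) (F : Fam m J), ∃ φ : β' J F → β J F, ∀ ω, g J F ω = φ (g' J F ω))
    (hy : ∀ (J : ℕ) (F : Fam m J), ∃ φ : γ' J F → γ J F, ∀ ω, y J F ω = φ (y' J F ω))
    {η η' : ℝ} (hη : RNum S f g η) (hη' : RNum S f' g' η')
    {Q₀ : Qt m U₀} {Q₁ : Qt m U₁} {Q₀' : Qt m U₀'} {Q₁' : Qt m U₁'} {θ₀ θ₁ θ₀' θ₁' : ℝ}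
    (N₀ : NN S f g y Q₀ θ₀) (N₁ : NN S f g y Q₁ θ₁) (N₀' : NN S f' g' y' Q₀' θ₀')
    (N₁' : NN S f' g' y' Q₁' θ₁') (x₀ : Exs S Q₀) (x₁ : Exs S Q₁) (x₀' : Exs S Q₀')
    (x₁' : Exs S Q₁') (d : Few S f g y Q₁ Q₀) (c₁ : Few S f' g' y' Q₁ Q₁')
    (c₀ : Few S f' g' y' Q₀' Q₀) : θ₁' - θ₀' ≤ θ₁ - θ₀ := by
  refine le_of_bas hS fun h hh => ?_
  obtain ⟨k1, hk1, e1, he1, H1⟩ := N₀ (h / 8) (by positivity)
  obtain ⟨k2, hk2, e2, he2, H2⟩ := N₁ (h / 8) (by positivity)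
  obtain ⟨k3, hk3, e3, he3, H3⟩ := N₀' (h / 8) (by positivity)
  obtain ⟨k4, hk4, e4, he4, H4⟩ := N₁' (h / 8) (by positivity)
  obtain ⟨e5, he5, H5⟩ := d.mx hpos (h / 8) (by positivity)
  obtain ⟨e6, he6, H6⟩ := c₁.mx hpos (h / 8) (by positivity)
  obtain ⟨e7, he7, H7⟩ := c₀.mx hpos (h / 8) (by positivity)
  obtain ⟨e₀, he₀⟩ : ∃ e₀ : ℝ, e₀ = min (min (min e1 e2) (min e3 e4)) (min e5 (min e6 e7)) :=
    ⟨_, rfl⟩
  have he0 : 0 < e₀ := by rw [he₀]; positivity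
  have l1 : e₀ ≤ e1 := by
    rw [he₀]
    exact (min_le_left _ _).trans ((min_le_left _ _).trans (min_le_left _ _))
  have l2 : e₀ ≤ e2 := by
    rw [he₀]
    exact (min_le_left _ _).trans ((min_le_left _ _).trans (min_le_right _ _))
  have l3 : e₀ ≤ e3 := by
    rw [he₀]
    exact (min_le_left _ _).trans ((min_le_right _ _).trans (min_le_left _ _))
  have l4 : e₀ ≤ e4 := by
    rw [he₀]
    exact (min_le_left _ _).trans ((min_le_right _ _).trans (min_le_right _ _))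
  have l5 : e₀ ≤ e5 := by
    rw [he₀]
    exact (min_le_right _ _).trans (min_le_left _ _)
  have l6 : e₀ ≤ e6 := by
    rw [he₀]
    exact (min_le_right _ _).trans ((min_le_right _ _).trans (min_le_left _ _))
  have l7 : e₀ ≤ e7 := by
    rw [he₀]
    exact (min_le_right _ _).trans ((min_le_right _ _).trans (min_le_right _ _))
  obtain ⟨k, hk0⟩ : ∃ k : ℝ, k = min (min k1 k2) (min k3 (min k4 (h / 8 / 2))) := ⟨_, rfl⟩
  have hk : 0 < k := by rw [hk0]; positivity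
  have m1 : k ≤ k1 := by rw [hk0]; exact (min_le_left _ _).trans (min_le_left _ _)
  have m2 : k ≤ k2 := by rw [hk0]; exact (min_le_left _ _).trans (min_le_right _ _)
  have m3 : k ≤ k3 := by rw [hk0]; exact (min_le_right _ _).trans (min_le_left _ _)
  have m4 : k ≤ k4 := by
    rw [hk0]
    exact (min_le_right _ _).trans ((min_le_right _ _).trans (min_le_left _ _))
  have m5 : k ≤ h / 8 / 2 := by
    rw [hk0]
    exact (min_le_right _ _).trans ((min_le_right _ _).trans (min_le_right _ _))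
  obtain ⟨K₁, M₁, hx1⟩ := x₀ e₀ he0
  obtain ⟨K₂, M₂, hx2⟩ := x₁ e₀ he0
  obtain ⟨K₃, M₃, hx3⟩ := x₀' e₀ he0
  obtain ⟨K₄, M₄, hx4⟩ := x₁' e₀ he0
  obtain ⟨K, hK⟩ : ∃ K, K = max (max K₁ K₂) (max K₃ K₄) := ⟨_, rfl⟩
  have n1 : K₁ ≤ K := by rw [hK]; exact (le_max_left _ _).trans (le_max_left _ _)
  have n2 : K₂ ≤ K := by rw [hK]; exact (le_max_right _ _).trans (le_max_left _ _)
  have n3 : K₃ ≤ K := by rw [hK]; exact (le_max_left _ _).trans (le_max_right _ _)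
  have n4 : K₄ ≤ K := by rw [hK]; exact (le_max_right _ _).trans (le_max_right _ _)
  refine Bas.mono 0 ((((((H1 K).and (H2 K)).and ((H3 K).and (H4 K))).and
    ((H5 K).and ((H6 K).and (H7 K)))).and ((hx1.and hx2).and (hx3.and hx4))).and
    (((mx_ex hpos hη k hk).and (mx_ex hpos hη' k hk)).and (pos_bas hpos))) ?_
  rintro J - F A ⟨⟨⟨⟨⟨H1, H2⟩, H3, H4⟩, H5, H6, H7⟩, ⟨⟨u₀, hu₀, -⟩, u₁, hu₁, -⟩,
    ⟨u₀', hu₀', -⟩, u₁', hu₁', -⟩, ⟨⟨V, z, hz⟩, V', z₀, hz₀⟩, hA⟩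
  have hcl := isLaw_cond F.isLaw hA
  have hJ0 : (0 : ℝ) ≤ J := Nat.cast_nonneg J
  have hz' := hz.join hA (hf J F) (hg J F) hz₀
  obtain ⟨χ, hχ⟩ := hy J F
  have a1 := abs_le.1 (H1 V z (hz.le m1) u₀ (Q₀.mono n1 l1 hu₀))
  have a2 := abs_le.1 (H2 V z (hz.le m2) u₁ (Q₁.mono n2 l2 hu₁))
  have a3 := abs_le.1 (H3 _ _ (hz'.le m3) u₀' (Q₀'.mono n3 l3 hu₀'))
  have a4 := abs_le.1 (H4 _ _ (hz'.le m4) u₁' (Q₁'.mono n4 l4 hu₁'))
  have a5 := H5 V z (hz.le m5) u₁ u₀ (Q₁.mono n2 l5 hu₁) (Q₀.mono n1 l5 hu₀)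
  have a6 := H6 _ _ (hz'.le m5) u₁ u₁' (Q₁.mono n2 l6 hu₁) (Q₁'.mono n4 l6 hu₁')
  have a7 := H7 _ _ (hz'.le m5) u₀' u₀ (Q₀'.mono n3 l7 hu₀') (Q₀.mono n1 l7 hu₀)
  obtain ⟨b1, b2, b3⟩ := mixed_law hcl z (fun ω => (z ω, z₀ ω)) (y J F) (y' J F) u₀ u₁ u₀' u₁'
    (fun ω ω' hh => (Prod.ext_iff.mp hh).1) (fun ω ω' hh => by rw [hχ ω, hχ ω', hh])
  have s3 : 0 ≤ h * J := by positivity
  nlinarith [a1.1, a2.2, a3.2, a4.1]

/-! ### Families which depend on the scale -/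

/-- A relation which holds for small steps. -/
theorem rel_steps {R : ℚ → ℚ → Prop} {x z d : ℝ} (hd : 0 < d)
    (h : ∀ w w' : ℚ, x ≤ w → w ≤ w' → (w' : ℝ) ≤ z → (w' : ℝ) ≤ w + d → R w w')
    (tr : ∀ w v w' : ℚ, x ≤ w → w ≤ v → v ≤ w' → (w' : ℝ) ≤ z → R w v → R v w' → R w w') :
    ∀ w w' : ℚ, x ≤ w → w ≤ w' → (w' : ℝ) ≤ z → R w w' := by
  have key : ∀ n : ℕ, ∀ w w' : ℚ, x ≤ w → w ≤ w' → (w' : ℝ) ≤ z →
      (w' : ℝ) ≤ w + (n + 1) * (d / 2) → R w w' := by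
    intro n
    induction n with
    | zero =>
      intro w w' a b c e
      exact h w w' a b c (by push_cast at e; linarith)
    | succ n ih =>
      intro w w' a b c e
      rcases le_or_gt ((w' : ℝ)) (w + d) with h1 | h1
      · exact h w w' a b c h1
      · obtain ⟨v, hv1, hv2⟩ := exists_rat_btwn (show (w' : ℝ) - d < w' - d / 2 by linarith)
        have b1' : (w : ℝ) ≤ v := by linarith
        have b2' : (v : ℝ) ≤ w' := by linarith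
        have b1 : w ≤ v := by exact_mod_cast b1'
        have b2 : v ≤ w' := by exact_mod_cast b2'
        exact tr w v w' a b1 b2 c (ih w v a b1 (by linarith) (by push_cast at e ⊢; linarith))
          (h v w' (by linarith) b2 c (by linarith))
  intro w w' a b c
  obtain ⟨n, hn⟩ := exists_nat_ge (((w' : ℝ) - w) / (d / 2))
  have hd2 : 0 < d / 2 := by linarith
  rw [div_le_iff₀ hd2] at hn
  exact key n w w' a b c (by nlinarith)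

variable {ι : Type}

/-- The digits are near the natural ones. -/
def Rg (N₀ : ι → ℝ → ℝ) (M : ℝ) (k : ℕ) (w : ℝ) (N : ι → ℚ) : Prop :=
  ∀ i, N₀ i w - M * (1 / 2) ^ k ≤ N i ∧ (N i : ℝ) ≤ N₀ i w + M * (1 / 2) ^ k

/-- **Quantities `Q k w N`** over the charts of the window `w`, at the scale `2 ^ (-k)`, to `N`
digits; the record is taken at the window `w + q k`. -/
structure FrQ [Fintype ι] (S : PCl m) (f : ∀ (J : ℕ) (F : Fam m J), F.Ω → α J F)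
    {γ : ℕ → ∀ J : ℕ, Fam m J → Type} (y : ∀ (k J : ℕ) (F : Fam m J), F.Ω → γ k J F)
    (Q : ℕ → ℚ → (ι → ℚ) → Qt m U) (q : ℕ → ℚ) (N₀ : ι → ℝ → ℝ) (A B M δ c : ℝ) (k₁ : ℕ) :
    Prop where
  win : ∀ k ≥ k₁, 0 ≤ q k ∧ B + q k ≤ 1
  exs : ∀ k ≥ k₁, ∀ (w : ℚ) (N : ι → ℚ), A ≤ w → (w : ℝ) ≤ B → Rg N₀ M k w N → Exs S (Q k w N)
  dig : ∀ k ≥ k₁, ∀ (w : ℚ) (N N' : ι → ℚ), A ≤ w → (w : ℝ) ≤ B → Rg N₀ M k w N →
    Rg N₀ M k w N' → (∀ i, N i ≤ N' i) →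
    Few S f (vg ((w + q k : ℚ) : ℝ)) (y k) (Q k w N') (Q k w N)
  inc : ∀ k ≥ k₁, ∀ (w : ℚ) (N N' : ι → ℚ), A ≤ w → (w : ℝ) ≤ B → Rg N₀ M k w N →
    Rg N₀ M k w N' → (∀ i, N i ≤ N' i) →
    FewC S f (vg ((w + q k : ℚ) : ℝ)) (y k) (Q k w N) (Q k w N') (c * ∑ i, ((N' i : ℝ) - N i))
  chg : ∀ k ≥ k₁, ∀ (w w' : ℚ) (N : ι → ℚ), A ≤ w → w ≤ w' → (w' : ℝ) ≤ B →
    (w' : ℝ) ≤ w + δ * (1 / 2) ^ k → Rg N₀ M k w N → Rg N₀ M k w' N →
    Few S f (vg ((w' + q k : ℚ) : ℝ)) (y k) (Q k w N) (Q k w' N) ∧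
    Few S f (vg ((w' + q k : ℚ) : ℝ)) (y k) (Q k w' N) (Q k w N)

section frq

variable [Fintype ι] {γ₁ : ℕ → ∀ J : ℕ, Fam m J → Type}
  {yk : ∀ (k J : ℕ) (F : Fam m J), F.Ω → γ₁ k J F} {Q : ℕ → ℚ → (ι → ℚ) → Qt m U} {q : ℕ → ℚ}
  {N₀ : ι → ℝ → ℝ} {A B M δ c : ℝ} {k₁ : ℕ}

theorem FrQ.sub {S' : PCl m} (hs : ∀ (τ : ℝ) (J : ℕ) (F : Fam m J) (A : F.Ω → Prop),
    S'.St τ J F A → S.St τ J F A) (h : FrQ S f yk Q q N₀ A B M δ c k₁) :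
    FrQ S' f yk Q q N₀ A B M δ c k₁ where
  win := h.win
  exs k hk w N a b r := (h.exs k hk w N a b r).sub hs
  dig k hk w N N' a b r r' l := (h.dig k hk w N N' a b r r' l).sub hs
  inc k hk w N N' a b r r' l := (h.inc k hk w N N' a b r r' l).sub hs
  chg k hk w w' N a b d e r r' :=
    ⟨(h.chg k hk w w' N a b d e r r').1.sub hs, (h.chg k hk w w' N a b d e r r').2.sub hs⟩

/-- **The numbers exist in a subclass.** -/
theorem FrQ.num (hS : S.Ne)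
    (hpos : ∀ (τ : ℝ) (J : ℕ) (F : Fam m J) (A : F.Ω → Prop), S.St τ J F A → 0 < Pe F.p A)
    (h : FrQ S f yk Q q N₀ A B M δ c k₁) :
    ∃ S' : PCl m, S'.Ne ∧
      (∀ (τ : ℝ) (J : ℕ) (F : Fam m J) (A : F.Ω → Prop), S'.St τ J F A → S.St τ J F A) ∧
      ∃ θ : ℕ → ℚ → (ι → ℚ) → ℝ, ∀ k ≥ k₁, ∀ (w : ℚ) (N : ι → ℚ), A ≤ w → (w : ℝ) ≤ B →
        Rg N₀ M k w N → NN S' f (vg ((w + q k : ℚ) : ℝ)) (yk k) (Q k w N) (θ k w N) := by
  classical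
  obtain ⟨S', h1, h2, h3⟩ := nn_ext_ct hS hpos (ι := {x : ℕ × ℚ × (ι → ℚ) // k₁ ≤ x.1 ∧
      A ≤ x.2.1 ∧ (x.2.1 : ℝ) ≤ B ∧ Rg N₀ M x.1 x.2.1 x.2.2}) (fun _ => U)
    (fun _ => α) (fun _ J F => LnT F) (fun x => γ₁ x.1.1) (fun _ => f)
    (fun x => vg ((x.1.2.1 + q x.1.1 : ℚ) : ℝ)) (fun x => yk x.1.1)
    (fun x => Q x.1.1 x.1.2.1 x.1.2.2)
    (fun x => h.exs _ x.2.1 _ _ x.2.2.1 x.2.2.2.1 x.2.2.2.2)
    (fun x => h.dig _ x.2.1 _ _ _ x.2.2.1 x.2.2.2.1 x.2.2.2.2 x.2.2.2.2 (fun _ => le_rfl))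
  choose θ hθ using h3
  refine ⟨S', h1, h2, fun k w N => if hx : k₁ ≤ k ∧ A ≤ w ∧ (w : ℝ) ≤ B ∧ Rg N₀ M k w N then
    θ ⟨(k, w, N), hx⟩ else 0, fun k hk w N a b r => ?_⟩
  have hx : k₁ ≤ k ∧ A ≤ w ∧ (w : ℝ) ≤ B ∧ Rg N₀ M k w N := ⟨hk, a, b, r⟩
  simp only [hx, and_self, dif_pos]
  exact hθ ⟨(k, w, N), hx⟩

/-- **First digits behind the natural ones are free, for infinitely many scales.** At almost every
`g` at which all natural exponents are critical, for every `κ` there are infinitely many scales at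
which the mixed increments of the numbers on the box are at most `κ 2 ^ (-k)`; the charts can be
changed in the box. -/
theorem free_freq (hS : S.Ne)
    (hpos : ∀ (τ : ℝ) (J : ℕ) (F : Fam m J) (A : F.Ω → Prop), S.St τ J F A → 0 < Pe F.p A)
    {C : ℝ} (hc : 0 ≤ c) (hC : 0 < C) (hδ : 0 < δ) (hM : C + 3 ≤ M) {η : ℚ → ℝ}
    (hη : ∀ w : ℚ, A ≤ w → (w : ℝ) ≤ 1 → RNum S f (vg (w : ℝ)) (η w))
    (h : FrQ S f yk Q q N₀ A B M δ c k₁) {θ : ℕ → ℚ → (ι → ℚ) → ℝ}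
    (N : ∀ k ≥ k₁, ∀ (w : ℚ) (N : ι → ℚ), A ≤ w → (w : ℝ) ≤ B →
        Rg N₀ M k w N → NN S f (vg ((w + q k : ℚ) : ℝ)) (yk k) (Q k w N) (θ k w N)) :
    ∀ᵐ g : ℝ, g ∈ Set.Ioo A B → (∀ i, HasDerivAt (N₀ i) 0 g) → ∀ κ : ℝ, 0 < κ → ∀ K : ℕ,
      ∃ k ≥ K, ∀ (P P' : ι → ℚ) (w w' : ℚ), (∀ i, N₀ i g - C * (1 / 2) ^ k ≤ P i) →
      (∀ i, P i ≤ P' i) → (∀ i, (P' i : ℝ) ≤ N₀ i g + C * (1 / 2) ^ k) →
      g - C * (1 / 2) ^ k ≤ w → w ≤ w' → (w' : ℝ) ≤ g + C * (1 / 2) ^ k →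
      (θ k w P' - θ k w P) - (θ k w' P' - θ k w' P) ≤ κ * (1 / 2) ^ k ∧
      Rg N₀ M k w P ∧ Rg N₀ M k w' P ∧ Rg N₀ M k w P' ∧ Rg N₀ M k w' P' ∧
      Few S f (vg ((w' + q k : ℚ) : ℝ)) (yk k) (Q k w P') (Q k w' P') ∧
      Few S f (vg ((w' + q k : ℚ) : ℝ)) (yk k) (Q k w' P') (Q k w P') := by
  classical
  obtain ⟨t, ht⟩ : ∃ t : ℕ → ℚ → (ι → ℚ) → ℝ, t = fun k w P => if k₁ ≤ k then θ k w P else 0 :=
    ⟨_, rfl⟩
  have hη' : ∀ k ≥ k₁, ∀ w : ℚ, A ≤ w → (w : ℝ) ≤ B →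
      RNum S f (vg ((w + q k : ℚ) : ℝ)) (η (w + q k)) := by
    intro k hk w a b
    obtain ⟨q0, q1⟩ := h.win k hk
    have q0' : (0 : ℝ) ≤ q k := by exact_mod_cast q0
    exact hη (w + q k) (by push_cast; linarith) (by push_cast; linarith)
  have hvg : ∀ k ≥ k₁, ∀ w w' : ℚ, w ≤ w' → (w' : ℝ) ≤ B → ∀ (J : ℕ) (F : Fam m J),
      ∃ φ : LnT F → LnT F, ∀ ω, vg ((w + q k : ℚ) : ℝ) J F ω =
        φ (vg ((w' + q k : ℚ) : ℝ) J F ω) := by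
    intro k hk w w' hww b J F
    obtain ⟨q0, q1⟩ := h.win k hk
    have hww' : (w : ℝ) ≤ w' := by exact_mod_cast hww
    exact vg_mono (by push_cast; linarith) (by push_cast; linarith) J F
  have hrg : ∀ (k : ℕ) (w : ℚ) (P P' : ι → ℚ), (∀ i, P i ≤ P' i) →
      (∀ i, N₀ i w - M * (1 / 2) ^ k ≤ P i) → (∀ i, (P' i : ℝ) ≤ N₀ i w + M * (1 / 2) ^ k) →
      Rg N₀ M k w P ∧ Rg N₀ M k w P' := by
    intro k w P P' hPP h1 h2
    have hPP' : ∀ i, (P i : ℝ) ≤ P' i := fun i => by exact_mod_cast hPP i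
    exact ⟨fun i => ⟨h1 i, (hPP' i).trans (h2 i)⟩, fun i => ⟨(h1 i).trans (hPP' i), h2 i⟩⟩
  have key := crit_freq (ι := ι) (t := t) (N₀ := N₀) (c := c) (A := A) (B := B) (C := C)
    (M := M) (δ := δ) hc hC hδ hM (by
      intro k w P P' a b hPP h1 h2
      obtain ⟨r1, r2⟩ := hrg k w P P' hPP h1 h2
      rw [ht]
      simp only
      by_cases hk : k₁ ≤ k
      · rw [if_pos hk, if_pos hk]
        have e1 := NN.inc hS hpos (hη' k hk w a b) (N k hk w P' a b r2) (N k hk w P a b r1)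
          (h.exs k hk w P' a b r2) (h.exs k hk w P a b r1) (h.dig k hk w P P' a b r1 r2 hPP).fewC
        have e2 := NN.inc hS hpos (hη' k hk w a b) (N k hk w P a b r1) (N k hk w P' a b r2)
          (h.exs k hk w P a b r1) (h.exs k hk w P' a b r2) (h.inc k hk w P P' a b r1 r2 hPP)
        constructor <;> linarith
      · rw [if_neg hk, if_neg hk, sub_zero]
        refine ⟨le_rfl, mul_nonneg hc (Finset.sum_nonneg fun i _ => ?_)⟩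
        have : (P i : ℝ) ≤ P' i := by exact_mod_cast hPP i
        linarith) (by
      intro k w w' P P' a hww b hd hPP h1 h2 h3 h4
      obtain ⟨r1, r2⟩ := hrg k w P P' hPP h1 h2
      obtain ⟨r3, r4⟩ := hrg k w' P P' hPP h3 h4
      have hww' : (w : ℝ) ≤ w' := by exact_mod_cast hww
      rw [ht]
      simp only
      by_cases hk : k₁ ≤ k
      · rw [if_pos hk, if_pos hk, if_pos hk, if_pos hk]
        exact NN.mixed hS hpos (fun J F => ⟨fun x => x, fun _ => rfl⟩)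
          (hvg k hk w w' hww b) (fun J F => ⟨fun x => x, fun _ => rfl⟩)
          (hη' k hk w a (by linarith)) (hη' k hk w' (by linarith) b)
          (N k hk w P a (by linarith) r1) (N k hk w P' a (by linarith) r2)
          (N k hk w' P (by linarith) b r3) (N k hk w' P' (by linarith) b r4)
          (h.exs k hk w P a (by linarith) r1) (h.exs k hk w P' a (by linarith) r2)
          (h.exs k hk w' P (by linarith) b r3) (h.exs k hk w' P' (by linarith) b r4)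
          (h.dig k hk w P P' a (by linarith) r1 r2 hPP)
          (h.chg k hk w w' P' a hww b hd r2 r4).1 (h.chg k hk w w' P a hww b hd r1 r3).2
      · rw [if_neg hk, if_neg hk, if_neg hk, if_neg hk])
  filter_upwards [key] with g hg hgAB hd κ hκ K
  -- the exponents are nearly constant on the box
  have hex : ∀ i, ∃ r₀ : ℝ, 0 < r₀ ∧ ∀ w : ℝ, |w - g| < r₀ →
      |N₀ i w - N₀ i g| ≤ 1 / C * |w - g| := by
    intro i
    have hdi := hd i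
    rw [hasDerivAt_iff_isLittleO] at hdi
    have h3 := hdi.def (show 0 < 1 / C by positivity)
    rw [Metric.eventually_nhds_iff] at h3
    obtain ⟨δ', hδ', h3⟩ := h3
    refine ⟨δ', hδ', fun w hw => ?_⟩
    have h4 := h3 (y := w) (by rw [Real.dist_eq]; exact hw)
    simpa using h4
  choose r₀ hr₀ hr₁ using hex
  obtain ⟨ρ, hρ, hρi, hρA, hρB⟩ : ∃ ρ : ℝ, 0 < ρ ∧ (∀ i, ρ ≤ r₀ i) ∧ ρ ≤ g - A ∧ ρ ≤ B - g := by
    obtain ⟨ρ₁, hρ₁, hρ₂⟩ : ∃ ρ : ℝ, 0 < ρ ∧ ∀ i, ρ ≤ r₀ i := by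
      by_cases hem : Nonempty ι
      · refine ⟨Finset.univ.inf' Finset.univ_nonempty r₀, ?_, fun i =>
          Finset.inf'_le r₀ (Finset.mem_univ i)⟩
        rw [Finset.lt_inf'_iff]
        exact fun i _ => hr₀ i
      · exact ⟨1, one_pos, fun i => absurd ⟨i⟩ hem⟩
    refine ⟨min ρ₁ (min (g - A) (B - g)), lt_min hρ₁ (lt_min (by linarith [hgAB.1])
      (by linarith [hgAB.2])), fun i => (min_le_left _ _).trans (hρ₂ i),
      (min_le_right _ _).trans (min_le_left _ _), (min_le_right _ _).trans (min_le_right _ _)⟩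
  obtain ⟨K₂, hK₂⟩ := exists_pow_lt_of_lt_one (show 0 < ρ / C by positivity)
    (show (1 / 2 : ℝ) < 1 by norm_num)
  obtain ⟨k, hk, hgood⟩ := hg hgAB hd κ hκ (max K (max K₂ k₁))
  have hk0 : K ≤ k := (le_max_left _ _).trans hk
  have hk2 : K₂ ≤ k := ((le_max_left _ _).trans (le_max_right _ _)).trans hk
  have hk1 : k₁ ≤ k := ((le_max_right _ _).trans (le_max_right _ _)).trans hk
  obtain ⟨r, hr⟩ : ∃ r : ℝ, r = (1 / 2) ^ k := ⟨_, rfl⟩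
  have hr0 : 0 < r := by rw [hr]; positivity
  have hCr : C * r < ρ := by
    have h3 : r < ρ / C := by
      rw [hr]
      exact lt_of_le_of_lt (pow_le_pow_of_le_one (by norm_num) (by norm_num) hk2) hK₂
    rw [lt_div_iff₀ hC] at h3
    linarith
  have hNr : ∀ i, ∀ w : ℝ, g - C * r ≤ w → w ≤ g + C * r → |N₀ i w - N₀ i g| ≤ r := by
    intro i w a b
    have h3 : |w - g| ≤ C * r := by
      rw [abs_le]
      constructor <;> linarith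
    refine (hr₁ i w (h3.trans_lt (hCr.trans_le (hρi i)))).trans ?_
    calc 1 / C * |w - g| ≤ 1 / C * (C * r) := mul_le_mul_of_nonneg_left h3 (by positivity)
      _ = r := by field_simp
  have hMr : (C + 3) * r ≤ M * r := mul_le_mul_of_nonneg_right hM hr0.le
  have hRg : ∀ (P : ι → ℚ) (w : ℚ), (∀ i, N₀ i g - C * r ≤ P i ∧ (P i : ℝ) ≤ N₀ i g + C * r) →
      g - C * r ≤ w → (w : ℝ) ≤ g + C * r → Rg N₀ M k w P := by
    intro P w hP a b i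
    have h3 := abs_le.1 (hNr i w a b)
    have h4 := hP i
    rw [← hr]
    constructor <;> nlinarith [h3.1, h3.2, h4.1, h4.2]
  refine ⟨k, hk0, fun P P' w w' a1 a2 a3 a4 a5 a6 => ?_⟩
  have g1 := hgood P P' w w' a1 a2 a3 a4 a5 a6
  rw [ht] at g1
  simp only [if_pos hk1] at g1
  rw [← hr] at a1 a3 a4 a6
  have a5' : (w : ℝ) ≤ w' := by exact_mod_cast a5
  have hPP' : ∀ i, (P i : ℝ) ≤ P' i := fun i => by exact_mod_cast a2 i
  have hP : ∀ i, N₀ i g - C * r ≤ P i ∧ (P i : ℝ) ≤ N₀ i g + C * r := fun i =>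
    ⟨a1 i, (hPP' i).trans (a3 i)⟩
  have hP' : ∀ i, N₀ i g - C * r ≤ P' i ∧ (P' i : ℝ) ≤ N₀ i g + C * r := fun i =>
    ⟨(a1 i).trans (hPP' i), a3 i⟩
  have hlo : ∀ v : ℚ, g - C * r ≤ v → A ≤ v := fun v hv => by linarith
  have hhi : ∀ v : ℚ, (v : ℝ) ≤ g + C * r → (v : ℝ) ≤ B := fun v hv => by linarith
  refine ⟨g1, hRg P w hP a4 (a5'.trans a6), hRg P w' hP (a4.trans a5') a6,
    hRg P' w hP' a4 (a5'.trans a6), hRg P' w' hP' (a4.trans a5') a6, ?_⟩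
  -- the change of charts
  refine rel_steps (R := fun w w' => Few S f (vg ((w' + q k : ℚ) : ℝ)) (yk k) (Q k w P')
      (Q k w' P') ∧ Few S f (vg ((w' + q k : ℚ) : ℝ)) (yk k) (Q k w' P') (Q k w P'))
    (x := g - C * r) (z := g + C * r) (d := δ * r) (by positivity) ?_ ?_ w w' a4 a5 a6
  · intro u u' b1 b2 b3 b4
    have b2' : (u : ℝ) ≤ u' := by exact_mod_cast b2
    rw [hr] at b4
    exact h.chg k hk1 u u' P' (hlo u b1) b2 (hhi u' b3) b4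
      (hRg P' u hP' b1 (b2'.trans b3)) (hRg P' u' hP' (b1.trans b2') b3)
  · intro u v u' b1 b2 b3 b4 h1 h2
    have b2' : (u : ℝ) ≤ v := by exact_mod_cast b2
    have b3' : (v : ℝ) ≤ u' := by exact_mod_cast b3
    have hup := hvg k hk1 v u' b3 (hhi u' b4)
    have xv : Exs S (Q k v P') := h.exs k hk1 v P' (hlo v (b1.trans b2'))
      (hhi v (b3'.trans b4)) (hRg P' v hP' (b1.trans b2') (b3'.trans b4))
    have f1 := Few.up (f' := f) (y' := yk k) hpos (fun J F => ⟨fun x => x, fun _ => rfl⟩) hup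
      (fun J F => ⟨fun x => x, fun _ => rfl⟩) h1.1
    have f2 := Few.up (f' := f) (y' := yk k) hpos (fun J F => ⟨fun x => x, fun _ => rfl⟩) hup
      (fun J F => ⟨fun x => x, fun _ => rfl⟩) h1.2
    exact ⟨Few.trans hpos xv f1 h2.1, Few.trans hpos xv h2.2 f2⟩

end frq

/-- **Joint quantities**: the numbers of bits add. -/
theorem FewC.prod {Q₁ : Qt m U₀} {Q₂ : Qt m U₁} {Q₁' : Qt m U₀'} {Q₂' : Qt m U₁'} {c₁ c₂ : ℝ}
    (hpos : ∀ (τ : ℝ) (J : ℕ) (F : Fam m J) (A : F.Ω → Prop), S.St τ J F A → 0 < Pe F.p A)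
    (h₁ : FewC S f g y Q₁ Q₁' c₁) (h₂ : FewC S f g y (Q₁.prod Q₂) Q₂' c₂) :
    FewC S f g y (Q₁.prod Q₂) (Q₁'.prod Q₂') (c₁ + c₂) := by
  intro h hh
  obtain ⟨e₁, he₁, H₁⟩ := h₁ (h / 2) (half_pos hh)
  obtain ⟨e₂, he₂, H₂⟩ := h₂ (h / 2) (half_pos hh)
  refine ⟨min e₁ e₂, lt_min he₁ he₂, fun K => Bas.mono 0 (((H₁ K).and (H₂ K)).and
    (pos_bas hpos)) ?_⟩
  rintro J - F A ⟨⟨H₁, H₂⟩, hA⟩ u u' hu hu'
  have hcl := isLaw_cond F.isLaw hA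
  have l1 : min e₁ e₂ ≤ e₁ := min_le_left _ _
  have l2 : min e₁ e₂ ≤ e₂ := min_le_right _ _
  obtain ⟨V, z, hz, a1⟩ := H₁ (fun ω => (u ω).1) (fun ω => (u' ω).1)
    (Q₁.mono le_rfl l1 hu.1) (Q₁'.mono le_rfl l1 hu'.1)
  obtain ⟨V₁, z₁, hz₁, a2⟩ := H₂ u (fun ω => (u' ω).2)
    ((Q₁.prod Q₂).mono le_rfl l2 hu) (Q₂'.mono le_rfl l2 hu'.2)
  refine ⟨V × V₁, fun ω => (z ω, z₁ ω), hz.join hz₁, ?_⟩
  have s0 := CH_chain hcl.nonneg (fun ω => (u' ω).2) (fun ω => (u' ω).1)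
    (fun ω => (u ω, ((z ω, z₁ ω), y J F ω)))
  have s1 : CH (Pool.Agent.H49.Ent.cond F.p A True) (fun ω => ((u' ω).2, (u' ω).1))
      (fun ω => (u ω, ((z ω, z₁ ω), y J F ω))) = CH (Pool.Agent.H49.Ent.cond F.p A True) u'
      (fun ω => (u ω, ((z ω, z₁ ω), y J F ω))) := by
    refine CH_congr hcl.nonneg ?_ ?_ (fun _ _ _ _ h => h) (fun _ _ _ _ h => h)
    · intro ω ω' _ _ hh
      simp only [Prod.mk.injEq] at hh
      exact Prod.ext hh.1.2 hh.1.1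
    · intro ω ω' _ _ hh
      simp only [Prod.mk.injEq] at hh ⊢
      exact ⟨by rw [hh.1], by rw [hh.1]⟩
  have s2 : CH (Pool.Agent.H49.Ent.cond F.p A True) (fun ω => (u' ω).1)
      (fun ω => (u ω, ((z ω, z₁ ω), y J F ω))) ≤
      CH (Pool.Agent.H49.Ent.cond F.p A True) (fun ω => (u' ω).1)
      (fun ω => ((u ω).1, (z ω, y J F ω))) := by
    refine CH_mono_cond hcl.nonneg fun ω ω' _ _ hh => ?_
    simp only [Prod.mk.injEq] at hh ⊢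
    exact ⟨by rw [hh.1], hh.2.1.1, hh.2.2⟩
  have s3 : CH (Pool.Agent.H49.Ent.cond F.p A True) (fun ω => (u' ω).2)
      (fun ω => ((u' ω).1, (u ω, ((z ω, z₁ ω), y J F ω)))) ≤
      CH (Pool.Agent.H49.Ent.cond F.p A True) (fun ω => (u' ω).2)
      (fun ω => (u ω, (z₁ ω, y J F ω))) := by
    refine CH_mono_cond hcl.nonneg fun ω ω' _ _ hh => ?_
    simp only [Prod.mk.injEq] at hh ⊢
    exact ⟨hh.2.1, hh.2.2.1.2, hh.2.2.2⟩
  linarith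

/-- At most `c J` bits, given a longer product. -/
theorem FewC.fst {Q₁ : Qt m U₀} {Q₂ : Qt m U₁} {Q' : Qt m U'} {c₁ : ℝ}
    (hpos : ∀ (τ : ℝ) (J : ℕ) (F : Fam m J) (A : F.Ω → Prop), S.St τ J F A → 0 < Pe F.p A)
    (h : FewC S f g y Q₁ Q' c₁) : FewC S f g y (Q₁.prod Q₂) Q' c₁ := by
  intro a ha
  obtain ⟨e, he, H⟩ := h a ha
  refine ⟨e, he, fun K => Bas.mono 0 ((H K).and (pos_bas hpos)) ?_⟩
  rintro J - F A ⟨H, hA⟩ u u' hu hu'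
  obtain ⟨V, z, hz, h1⟩ := H (fun ω => (u ω).1) u' hu.1 hu'
  refine ⟨V, z, hz, le_trans (CH_mono_cond (isLaw_cond F.isLaw hA).nonneg ?_) h1⟩
  intro ω ω' _ _ hh
  simp only [Prod.mk.injEq] at hh ⊢
  exact ⟨by rw [hh.1], hh.2⟩

theorem FewC.snd {Q₁ : Qt m U₀} {Q₂ : Qt m U₁} {Q' : Qt m U'} {c₁ : ℝ}
    (hpos : ∀ (τ : ℝ) (J : ℕ) (F : Fam m J) (A : F.Ω → Prop), S.St τ J F A → 0 < Pe F.p A)
    (h : FewC S f g y Q₂ Q' c₁) : FewC S f g y (Q₁.prod Q₂) Q' c₁ := by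
  intro a ha
  obtain ⟨e, he, H⟩ := h a ha
  refine ⟨e, he, fun K => Bas.mono 0 ((H K).and (pos_bas hpos)) ?_⟩
  rintro J - F A ⟨H, hA⟩ u u' hu hu'
  obtain ⟨V, z, hz, h1⟩ := H (fun ω => (u ω).2) u' hu.2 hu'
  refine ⟨V, z, hz, le_trans (CH_mono_cond (isLaw_cond F.isLaw hA).nonneg ?_) h1⟩
  intro ω ω' _ _ hh
  simp only [Prod.mk.injEq] at hh ⊢
  exact ⟨by rw [hh.1], hh.2⟩

/-! ### Families which do not depend on the scale -/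

section vec

variable [Fintype ι] {Qv : ℚ → (ι → ℚ) → Qt m U} {N₀ : ι → ℝ → ℝ} {A B ρ c : ℝ}

/-- The digits are near the natural ones. -/
def Rv (N₀ : ι → ℝ → ℝ) (ρ : ℝ) (w : ℝ) (N : ι → ℚ) : Prop :=
  ∀ i, N₀ i w - ρ ≤ N i ∧ (N i : ℝ) ≤ N₀ i w + ρ

/-- **Quantities `Q w N`** over the charts of the window `w`, to `N` digits; the record is taken at
the window `w`. -/
structure FrV (S : PCl m) (f : ∀ (J : ℕ) (F : Fam m J), F.Ω → α J F)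
    (y : ∀ (J : ℕ) (F : Fam m J), F.Ω → γ J F) (Qv : ℚ → (ι → ℚ) → Qt m U)
    (N₀ : ι → ℝ → ℝ) (A B ρ c : ℝ) : Prop where
  exs : ∀ (w : ℚ) (N : ι → ℚ), A ≤ w → (w : ℝ) ≤ B → Rv N₀ ρ w N → Exs S (Qv w N)
  dig : ∀ (w : ℚ) (N N' : ι → ℚ), A ≤ w → (w : ℝ) ≤ B → Rv N₀ ρ w N →
    Rv N₀ ρ w N' → (∀ i, N i ≤ N' i) → Few S f (vg (w : ℝ)) y (Qv w N') (Qv w N)
  inc : ∀ (w : ℚ) (N N' : ι → ℚ), A ≤ w → (w : ℝ) ≤ B → Rv N₀ ρ w N →
    Rv N₀ ρ w N' → (∀ i, N i ≤ N' i) →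
    FewC S f (vg (w : ℝ)) y (Qv w N) (Qv w N') (c * ∑ i, ((N' i : ℝ) - N i))
  chg : ∀ (w w' : ℚ) (N : ι → ℚ), A ≤ w → w ≤ w' → (w' : ℝ) ≤ B →
    (w' : ℝ) ≤ w + ρ → Rv N₀ ρ w N → Rv N₀ ρ w' N →
    Few S f (vg (w' : ℝ)) y (Qv w N) (Qv w' N) ∧ Few S f (vg (w' : ℝ)) y (Qv w' N) (Qv w N)

theorem FrV.sub {S' : PCl m} (hs : ∀ (τ : ℝ) (J : ℕ) (F : Fam m J) (A : F.Ω → Prop),
    S'.St τ J F A → S.St τ J F A) (h : FrV S f y Qv N₀ A B ρ c) :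
    FrV S' f y Qv N₀ A B ρ c where
  exs w N a b r := (h.exs w N a b r).sub hs
  dig w N N' a b r r' l := (h.dig w N N' a b r r' l).sub hs
  inc w N N' a b r r' l := (h.inc w N N' a b r r' l).sub hs
  chg w w' N a b d e r r' :=
    ⟨(h.chg w w' N a b d e r r').1.sub hs, (h.chg w w' N a b d e r r').2.sub hs⟩

/-- The numbers exist in a subclass. -/
theorem FrV.num (hS : S.Ne)
    (hpos : ∀ (τ : ℝ) (J : ℕ) (F : Fam m J) (A : F.Ω → Prop), S.St τ J F A → 0 < Pe F.p A)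
    (h : FrV S f y Qv N₀ A B ρ c) :
    ∃ S' : PCl m, S'.Ne ∧
      (∀ (τ : ℝ) (J : ℕ) (F : Fam m J) (A : F.Ω → Prop), S'.St τ J F A → S.St τ J F A) ∧
      ∃ θ : ℚ → (ι → ℚ) → ℝ, ∀ (w : ℚ) (N : ι → ℚ), A ≤ w → (w : ℝ) ≤ B →
        Rv N₀ ρ w N → NN S' f (vg (w : ℝ)) y (Qv w N) (θ w N) := by
  classical
  obtain ⟨S', h1, h2, h3⟩ := nn_ext_ct hS hpos (ι := {x : ℚ × (ι → ℚ) // A ≤ x.1 ∧
      (x.1 : ℝ) ≤ B ∧ Rv N₀ ρ x.1 x.2}) (fun _ => U)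
    (fun _ => α) (fun _ J F => LnT F) (fun _ => γ) (fun _ => f)
    (fun x => vg (x.1.1 : ℝ)) (fun _ => y) (fun x => Qv x.1.1 x.1.2)
    (fun x => h.exs _ _ x.2.1 x.2.2.1 x.2.2.2)
    (fun x => h.dig _ _ _ x.2.1 x.2.2.1 x.2.2.2 x.2.2.2 (fun _ => le_rfl))
  choose θ hθ using h3
  refine ⟨S', h1, h2, fun w N => if hx : A ≤ w ∧ (w : ℝ) ≤ B ∧ Rv N₀ ρ w N then
    θ ⟨(w, N), hx⟩ else 0, fun w N a b r => ?_⟩
  have hx : A ≤ w ∧ (w : ℝ) ≤ B ∧ Rv N₀ ρ w N := ⟨a, b, r⟩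
  simp only [hx, and_self, dif_pos]
  exact hθ ⟨(w, N), hx⟩

/-- **First digits behind the natural ones are free.** At almost every `g` at which all natural
exponents are critical the mixed increments of the numbers on the boxes of size `C r` are
`o (r)`. -/
theorem free_vec (hS : S.Ne)
    (hpos : ∀ (τ : ℝ) (J : ℕ) (F : Fam m J) (A : F.Ω → Prop), S.St τ J F A → 0 < Pe F.p A)
    (hc : 0 ≤ c) (hρ : 0 < ρ) (hB : B ≤ 1) {η : ℚ → ℝ}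
    (hη : ∀ w : ℚ, A ≤ w → (w : ℝ) ≤ B → RNum S f (vg (w : ℝ)) (η w))
    (h : FrV S f y Qv N₀ A B ρ c) {θ : ℚ → (ι → ℚ) → ℝ}
    (N : ∀ (w : ℚ) (N : ι → ℚ), A ≤ w → (w : ℝ) ≤ B →
        Rv N₀ ρ w N → NN S f (vg (w : ℝ)) y (Qv w N) (θ w N)) :
    ∀ᵐ g : ℝ, g ∈ Set.Ioo A B → (∀ i, HasDerivAt (N₀ i) 0 g) → ∀ C ε : ℝ, 0 < C → 0 < ε →
      ∃ r₀ : ℝ, 0 < r₀ ∧ ∀ r : ℝ, 0 < r → r < r₀ → ∀ (P P' : ι → ℚ) (w w' : ℚ),
      (∀ i, N₀ i g - C * r ≤ P i) → (∀ i, P i ≤ P' i) → (∀ i, (P' i : ℝ) ≤ N₀ i g + C * r) →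
      g - C * r ≤ w → w ≤ w' → (w' : ℝ) ≤ g + C * r →
      (θ w P' - θ w P) - (θ w' P' - θ w' P) ≤ ε * r := by
  have hrg : ∀ (w : ℚ) (P P' : ι → ℚ), (∀ i, P i ≤ P' i) →
      (∀ i, N₀ i w - ρ ≤ P i) → (∀ i, (P' i : ℝ) ≤ N₀ i w + ρ) →
      Rv N₀ ρ w P ∧ Rv N₀ ρ w P' := by
    intro w P P' hPP h1 h2
    have hPP' : ∀ i, (P i : ℝ) ≤ P' i := fun i => by exact_mod_cast hPP i
    exact ⟨fun i => ⟨h1 i, (hPP' i).trans (h2 i)⟩, fun i => ⟨(h1 i).trans (hPP' i), h2 i⟩⟩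
  refine crit_vec (t := θ) hc hρ ?_ ?_
  · intro w P P' a b hPP h1 h2
    obtain ⟨r1, r2⟩ := hrg w P P' hPP h1 h2
    have e1 := NN.inc hS hpos (hη w a b) (N w P' a b r2) (N w P a b r1)
      (h.exs w P' a b r2) (h.exs w P a b r1) (h.dig w P P' a b r1 r2 hPP).fewC
    have e2 := NN.inc hS hpos (hη w a b) (N w P a b r1) (N w P' a b r2)
      (h.exs w P a b r1) (h.exs w P' a b r2) (h.inc w P P' a b r1 r2 hPP)
    constructor <;> linarith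
  · intro w w' P P' a hww b hd hPP h1 h2 h3 h4
    obtain ⟨r1, r2⟩ := hrg w P P' hPP h1 h2
    obtain ⟨r3, r4⟩ := hrg w' P P' hPP h3 h4
    have hww' : (w : ℝ) ≤ w' := by exact_mod_cast hww
    exact NN.mixed hS hpos (fun J F => ⟨fun x => x, fun _ => rfl⟩)
      (fun J F => vg_mono hww' (by linarith) J F) (fun J F => ⟨fun x => x, fun _ => rfl⟩)
      (hη w a (by linarith)) (hη w' (by linarith) b)
      (N w P a (by linarith) r1) (N w P' a (by linarith) r2)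
      (N w' P (by linarith) b r3) (N w' P' (by linarith) b r4)
      (h.exs w P a (by linarith) r1) (h.exs w P' a (by linarith) r2)
      (h.exs w' P (by linarith) b r3) (h.exs w' P' (by linarith) b r4)
      (h.dig w P P' a (by linarith) r1 r2 hPP)
      (h.chg w w' P' a hww b hd r2 r4).1 (h.chg w w' P a hww b hd r1 r3).2

end vec

end Pool.LA91
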