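import Pool.Agent.H42.D2.Span
import Pool.Agent.H91.LA.Fml

/-!
# V1 empty: the copies of the direction read the gradient

`CH_vecb`: an integer vector which varies little given `W` outside an event of small probability.
`cop_grad`: `X · U β` is few bits given `(A, E)`, `U` a function of `Z`; `A` is a function of `Z`; the
direction `E` is nearly free (`CH E A ≤ CH E Z + δ`), and it is in no hyperplane which is a function of
`Z`. Then `U` is few bits given `A`.
-/

set_option autoImplicit false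

namespace Pool.V1E

open Finset Real
open Pool.Agent.H49.Ent Pool.Agent.H32.Dense Pool.STK Pool.D2A Pool.D2Con
open Pool.BFL (Pb)

section vec

variable {Ω T κ : Type} [Fintype Ω] [Fintype κ]

theorem floor_diff (x y : ℝ) : |((⌊x⌋ - ⌊y⌋ : ℤ) : ℝ)| ≤ |x - y| + 1 := floor_sub_le_pair x y

/-- An integer vector, any finite index. -/
theorem CH_vecκ {p : Ω → ℝ} (hp : ∀ ω, 0 ≤ p ω) (h1 : ∑ ω, p ω = 1)
    (X : Ω → κ → ℤ) (W : Ω → T) (L : Ω → ℝ)
    (hX : ∀ ω ω', 0 < p ω → 0 < p ω' → W ω = W ω' → ∀ k, |((X ω k - X ω' k : ℤ) : ℝ)| ≤ L ω) :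
    CH p X W ≤ Fintype.card κ * Ex p (fun ω => Real.log (2 * L ω + 1)) := by
  have e := Fintype.equivFin κ
  have h2 := CH_le_vec hp h1 (fun ω (i : Fin (Fintype.card κ)) => X ω (e.symm i)) W L
    (fun ω ω' a b h i => hX ω ω' a b h _)
  refine (CH_mono_left hp fun ω ω' _ _ h => ?_).trans h2
  funext k
  have h3 := congrFun (Prod.ext_iff.mp h).1 (e k)
  simpa using h3

/-- **An integer vector which varies little**, outside an event of small probability. -/
theorem CH_vecb {p : Ω → ℝ} (hp : IsLaw p) (X : Ω → κ → ℤ) (W : Ω → T) (Bad : Ω → Prop)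
    {η M D : ℝ} (hη : Pb p Bad ≤ η) (hM : 0 ≤ M) (hD : 0 ≤ D)
    (hX : ∀ ω, 0 < p ω → ∀ k, |(X ω k : ℝ)| ≤ M)
    (hg : ∀ ω ω', 0 < p ω → 0 < p ω' → ¬ Bad ω → ¬ Bad ω' → W ω = W ω' →
      ∀ k, |((X ω k - X ω' k : ℤ) : ℝ)| ≤ D) :
    CH p X W ≤ Real.log 2 + Fintype.card κ * (Real.log (2 * D + 1) +
      η * Real.log (4 * M + 1)) := by
  classical
  have h0 := hp.nonneg
  have s1 := CH_le_add h0 X (fun ω => decide (Bad ω)) W
  have s2 : CH p (fun ω => decide (Bad ω)) W ≤ Real.log 2 := by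
    have := CH_le_card h0 hp.sum_one (fun ω => decide (Bad ω)) W (fun _ => Finset.univ)
      (fun ω _ => Finset.mem_univ _)
    refine this.trans (le_of_eq ?_)
    rw [show (fun ω => Real.log (((Finset.univ : Finset Bool).card : ℕ) : ℝ)) =
      (fun _ : Ω => Real.log 2) from by
        funext ω
        rw [Finset.card_univ, Fintype.card_bool]
        norm_num]
    exact Ex_const hp.sum_one _
  have s3 := CH_vecκ h0 hp.sum_one X (fun ω => (decide (Bad ω), W ω))
    (fun ω => if Bad ω then 2 * M else D) (by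
      intro ω ω' hω hω' h k
      simp only [Prod.mk.injEq] at h
      by_cases hb : Bad ω
      · rw [if_pos hb]
        have h3 := hX ω hω k
        have h4 := hX ω' hω' k
        push_cast
        exact (abs_sub _ _).trans (by linarith)
      · rw [if_neg hb]
        have hb' : ¬ Bad ω' := by
          have h3 := h.1
          simp only [hb, decide_false] at h3
          exact of_decide_eq_false h3.symm
        exact hg ω ω' hω hω' hb hb' h.2 k)
  have hlD : 0 ≤ Real.log (2 * D + 1) := Real.log_nonneg (by linarith)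
  have hlM : 0 ≤ Real.log (4 * M + 1) := Real.log_nonneg (by linarith)
  have s4 : Ex p (fun ω => Real.log (2 * (if Bad ω then 2 * M else D) + 1)) ≤
      Real.log (2 * D + 1) + η * Real.log (4 * M + 1) := by
    have h2 : Ex p (fun ω => Real.log (2 * (if Bad ω then 2 * M else D) + 1)) ≤
        Ex p (fun ω => Real.log (2 * D + 1) + Real.log (4 * M + 1) * (if Bad ω then 1 else 0)) := by
      refine Ex_mono h0 fun ω _ => ?_
      by_cases hb : Bad ω
      · rw [if_pos hb, if_pos hb]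
        have : (2 : ℝ) * (2 * M) + 1 = 4 * M + 1 := by ring
        rw [this]
        linarith
      · rw [if_neg hb, if_neg hb]
        linarith
    refine h2.trans ?_
    rw [Ex_add, Ex_const hp.sum_one, Ex_smul]
    have h3 : Ex p (fun ω => if Bad ω then (1 : ℝ) else 0) = Pb p Bad := by
      unfold Ex Pb
      refine Finset.sum_congr rfl fun ω _ => ?_
      show p ω * (if Bad ω then (1 : ℝ) else 0) = if Bad ω then p ω else 0
      by_cases hb : Bad ω
      · rw [if_pos hb, if_pos hb, mul_one]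
      · rw [if_neg hb, if_neg hb, mul_zero]
    rw [h3]
    have h4 : Real.log (4 * M + 1) * Pb p Bad ≤ Real.log (4 * M + 1) * η :=
      mul_le_mul_of_nonneg_left hη hlM
    linarith
  have s5 := mul_le_mul_of_nonneg_left s4 (Nat.cast_nonneg (α := ℝ) (Fintype.card κ))
  linarith

end vec

theorem Pb_law {Ω : Type} [Fintype Ω] (p : Ω → ℝ) (G : Ω → Prop) : law p G True = Pb p G := by
  classical
  unfold law Pb
  refine Finset.sum_congr rfl fun ω _ => ?_
  by_cases h : G ω
  · rw [if_pos (by simp [h]), if_pos h]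
  · rw [if_neg (by simp [h]), if_neg h]

section grad

variable {Ω ζ α ε ι : Type} [Fintype Ω] [Fintype ι] {n : ℕ}

/-- **The copies of the direction read the gradient.** -/
theorem cop_grad {p : Ω → ℝ} (hp : IsLaw p) (Z : Ω → ζ) (A : Ω → α) (E : Ω → ε)
    (X : ε → Fin n → ℝ) (U : ζ → ι → Fin n → ℝ) {B M c η δ₁ δ₂ : ℝ} (hZA : Det p Z A)
    (hB : 1 ≤ B) (hη : 0 < η) (hM : 0 ≤ M)
    (hX : ∀ ω, 0 < p ω → ∀ j, |X (E ω) j| ≤ B)
    (hU : ∀ ω, 0 < p ω → ∀ β j, |U (Z ω) β j| ≤ M)
    (hnh : NoHyp p (fun ω => X (E ω)) Z η c)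
    (hvel : CH p (fun ω β => ⌊∑ j, X (E ω) j * U (Z ω) β j⌋) (fun ω => (E ω, A ω)) ≤ δ₁)
    (hfree : CH p E A ≤ CH p E Z + δ₂) :
    CH p (fun ω (k : ι × Fin n) => ⌊U (Z ω) k.1 k.2⌋) A ≤ n * (δ₂ + δ₁) + Real.log 2 +
      Fintype.card ι * n * (Real.log (2 * (cK n B (η ^ n) + 1) + 1) +
        n * c * Real.log (4 * (M + 1) + 1)) := by
  classical
  have h0 := hp.nonneg
  have hκ : 0 < η ^ n := pow_pos hη n
  obtain ⟨sd, hsd⟩ : ∃ sd : Fin n → Bool, sd = fun _ => true := ⟨_, rfl⟩
  obtain ⟨Q, hQ⟩ : ∃ Q, Q = PL p Z Z sd := ⟨_, rfl⟩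
  have hQl : IsLaw Q := by
    rw [hQ]
    exact PL_isLaw hp Z Z sd
  have hq := hQl.nonneg
  obtain ⟨b, hb⟩ : ∃ b : Ω → ι → ℤ, b = fun ω β => ⌊∑ j, X (E ω) j * U (Z ω) β j⌋ := ⟨_, rfl⟩
  obtain ⟨V, hV⟩ : ∃ V : Ω → ι × Fin n → ℤ, V = fun ω k => ⌊U (Z ω) k.1 k.2⌋ := ⟨_, rfl⟩
  rw [← hb] at hvel
  rw [← hV]
  -- the copies have the same `Z`
  have hcp : ∀ w, 0 < Q w → ∀ r, 0 < p (cp sd r w) ∧ Z (cp sd r w) = Z w.1.1 := by
    intro w hw r
    rw [hQ] at hw
    obtain ⟨a1, a2, a3, a4⟩ := PL_pos hp Z Z sd hw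
    refine ⟨(a4 r).1, ?_⟩
    rw [← (a4 r).2]
    unfold sm
    rw [hsd]
    rfl
  have hfst : ∀ w, 0 < Q w → 0 < p w.1.1 := by
    intro w hw
    rw [hQ] at hw
    exact (PL_pos hp Z Z sd hw).1
  have e1 : CH p V A = CH Q (fun w => V w.1.1) (fun w => A w.1.1) := by
    rw [hQ]
    exact ((PL_fst hp Z Z sd).CH V A).symm
  -- the budget
  have h1 := pair_budget hp (S := Z) (z := A) (z' := Z) hZA hZA sd E b hfree hvel
    (fun v => V v.1) (fun _ => ())
  rw [← hQ] at h1
  have e2 : CH Q (fun w => V w.1.1) (fun w => A w.1.1) =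
      CH Q (fun w => V w.1.1) (fun w => ((), A w.1.1)) :=
    CH_congr hq (fun _ _ _ _ h => (Prod.ext_iff.mp h).1) (fun _ _ _ _ h => (Prod.ext_iff.mp h).1)
      (fun _ _ _ _ h => Prod.ext rfl h) (fun _ _ _ _ h => (Prod.ext_iff.mp h).2)
  -- reading
  obtain ⟨Bad, hBad⟩ : ∃ Bad : (Ω × Ω) × (Fin n → Ω × Ω) → Prop, Bad = fun w =>
    |(Matrix.of (fun i => X (E (cp sd i w)))).det| < η ^ n := ⟨_, rfl⟩
  have h2 : Pb Q Bad ≤ n * c := by
    rw [← Pb_law, hQ, hBad]
    exact span_PL hp hnh hη Z sd true id Function.injective_id fun _ => by rw [hsd]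
  have hck : 0 ≤ cK n B (η ^ n) := cK_nonneg (by linarith) hκ
  have h3 := CH_vecb hQl (fun w => V w.1.1)
    (fun w => ((), ((fun r => (E (cp sd r w), b (cp sd r w))), A w.1.1))) Bad (M := M + 1)
    (D := cK n B (η ^ n) + 1) h2 (by linarith) (by linarith)
    (by
      intro w hw k
      have h4 := hU _ (hfst w hw) k.1 k.2
      rw [hV]
      have h5 := Int.floor_le (U (Z w.1.1) k.1 k.2)
      have h6 := Int.lt_floor_add_one (U (Z w.1.1) k.1 k.2)
      rw [abs_le] at h4 ⊢
      constructor <;> linarith [h4.1, h4.2])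
    (by
      intro w w' hw hw' hg hg' h k
      simp only [Prod.mk.injEq, true_and] at h
      have hE : ∀ r, E (cp sd r w) = E (cp sd r w') := fun r => (Prod.ext_iff.mp (congrFun h.1 r)).1
      have hbb : ∀ r, b (cp sd r w) = b (cp sd r w') := fun r => (Prod.ext_iff.mp (congrFun h.1 r)).2
      rw [hV]
      refine (floor_diff _ _).trans (add_le_add ?_ le_rfl)
      rw [hBad] at hg
      have h4 := cramer_cK (Matrix.of (fun i => X (E (cp sd i w))))
        (fun j => U (Z w.1.1) k.1 j - U (Z w'.1.1) k.1 j) (τ := 1) hB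
        (fun i j => hX _ (hcp w hw i).1 j) hκ (not_lt.mp hg) (by
          intro i
          have h5 := congrFun (hbb i) k.1
          rw [hb] at h5
          simp only at h5
          rw [(hcp w hw i).2, (hcp w' hw' i).2, ← hE i] at h5
          have h6 := (Int.abs_sub_lt_one_of_floor_eq_floor h5).le
          rw [← Finset.sum_sub_distrib] at h6
          refine le_trans (le_of_eq ?_) h6
          congr 1
          refine Finset.sum_congr rfl fun j _ => ?_
          rw [Matrix.of_apply]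
          ring) k.2
      rw [mul_one] at h4
      exact h4)
  have h6 : (Fintype.card (ι × Fin n) : ℝ) = Fintype.card ι * n := by
    rw [Fintype.card_prod, Fintype.card_fin]
    push_cast
    ring
  rw [h6] at h3
  rw [e1, e2]
  have h7 := h1
  linarith

end grad

end Pool.V1E
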