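import Pool.Agent.H71.TUBE.Jets

/-!
# All jets of the centre of the tube, for any radius

`jets_famQ`: as `jets_fam`, for a number `Q` of digits with `Q ≤ μ J ≤ 2 Q`.
-/

set_option autoImplicit false

namespace Pool.V1E

open Finset Real
open Pool.Agent.H49.Ent Pool.Agent.H32.Dense Pool.STK Pool.KA Pool.KSAT Pool.K2S Pool.GEN
open Pool.OWN68
open Pool.BFL (Pb)
open Pool.D2G30
open MvPolynomial (eval pderiv)

section fam

variable {m J : ℕ}

/-- **All jets of the centre of the tube** on the lines of a family, any radius. -/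
theorem jets_famQ (K d D CM : ℕ) {h : ℝ} (hh : 0 < h) (hh1 : h ≤ 1) {ε : ℝ} (hε : 0 < ε) :
    ∃ δ : ℝ, 0 < δ ∧ ∃ c₀ : ℝ, 0 < c₀ ∧ ∃ N₁ : ℕ, 0 < N₁ ∧
    ∀ {w μ : ℝ} (_ : 0 ≤ w) (_ : 0 < μ) (_ : w + μ ≤ 1), ∃ J₀ : ℕ, ∀ J ≥ J₀, ∀ {m : ℕ}
      (F : Fam m J) (A : F.Ω → Prop) (_ : 0 < Pe F.p A) {MB k M Q : ℕ} {ζ α ε' κ β : Type}
      {Z : F.Ω → ζ} {a : F.Ω → α} {E : F.Ω → ε'} {X : ε' → Fin (d + 1) → ℝ}
      {Pf : ζ → MvPolynomial (Fin d) ℝ} {Pg : ζ → Fin (d + 1) → MvPolynomial (Fin d) ℝ}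
      {c : LnT F → κ} {s : F.Ω → Fin d → ℝ} {ξ : LnT F → Fin d → ℝ} {n : LnT F → Polynomial ℝ}
      {Θ : LnT F → Fin d → Polynomial ℝ} {P : LnT F → Gr K d → Polynomial ℝ} (b : F.Ω → β),
    (Q : ℝ) ≤ μ * J → μ * J ≤ 2 * Q →
    TL K d D CM Q MB k (2 ^ (J - ⌊w * J⌋₊)) δ (Pool.Agent.H49.Ent.cond F.p A True)
      (slam F ⌊w * J⌋₊) (Tm F ⌊w * J⌋₊) Z a E X Pf Pg c s ξ n Θ →
    Im K d D Q M (2 ^ (J - ⌊w * J⌋₊)) δ (Pool.Agent.H49.Ent.cond F.p A True)
      (slam F ⌊w * J⌋₊) (Tm F ⌊w * J⌋₊) Z a E Pf c s ξ n P →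
    Q ≤ M → M ≤ MB →
    (J : ℝ) * Real.log 2 - δ * μ * J ≤
      CH (Pool.Agent.H49.Ent.cond F.p A True) F.T (fun ω => (F.l ω, F.Z ω)) →
    Det (Pool.Agent.H49.Ent.cond F.p A True) a F.W →
    Det (Pool.Agent.H49.Ent.cond F.p A True)
      (fun ω => (xd k (slam F ⌊w * J⌋₊) ξ ω, (c (slam F ⌊w * J⌋₊ ω), F.W ω))) b →
    (∀ B : F.Ω → Prop, Sub B A → c₀ * Pe F.p A ≤ Pe F.p B → ∀ i j : ℕ, i ≤ j → j ≤ N₁ →
      CH (Pool.Agent.H49.Ent.cond F.p B True)
        (fun ω => ⌊2 ^ M * (n (slam F ⌊w * J⌋₊ ω)).eval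
          (uu (2 ^ (J - ⌊w * J⌋₊)) (Tm F ⌊w * J⌋₊) ω) / 2 ^ ((μ * i / N₁) * J)⌋)
        (fun ω => (⌊2 ^ M * (n (slam F ⌊w * J⌋₊ ω)).eval
          (uu (2 ^ (J - ⌊w * J⌋₊)) (Tm F ⌊w * J⌋₊) ω) / 2 ^ ((μ * j / N₁) * J)⌋,
          (b ω, F.W ω))) ≤
        ((1 - h) * (μ * j / N₁ - μ * i / N₁) * Real.log 2 + δ * μ) * J) →
    Jets K d D Q M ε (Pool.Agent.H49.Ent.cond F.p A True) (slam F ⌊w * J⌋₊) Z a E
      Pf P := by
  obtain ⟨ε₁, hε₁⟩ : ∃ ε₁ : ℝ, ε₁ = ε / (4 * (D + 2)) := ⟨_, rfl⟩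
  have hD0 : (0 : ℝ) ≤ D := Nat.cast_nonneg D
  have hε₁0 : 0 < ε₁ := by
    rw [hε₁]
    positivity
  have hε₁a : (D + 2) * ε₁ = ε / 4 := by
    rw [hε₁]
    field_simp
  obtain ⟨δ₀, hδ₀, c₀, hc₀, N₁, hN₁, H⟩ :=
    Pool.AJ18.all_jets (D + 1) (by omega) hh hh1 hε₁0
  obtain ⟨C, hC1, hC⟩ := der_small D
  obtain ⟨C', hC'1, hC'⟩ := cof_small D
  obtain ⟨C'', hC''1, hC''⟩ := der_small (D + 1)
  obtain ⟨c₁, hc₁⟩ : ∃ c₁ : ℝ, c₁ = min c₀ 1 := ⟨_, rfl⟩
  have hc₁0 : 0 < c₁ := by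
    rw [hc₁]
    exact lt_min hc₀ one_pos
  have hc₁1 : c₁ ≤ 1 := by
    rw [hc₁]
    exact min_le_right _ _
  have hc₁₀ : c₁ ≤ c₀ := by
    rw [hc₁]
    exact min_le_left _ _
  have hCM : (0 : ℝ) ≤ CM := Nat.cast_nonneg CM
  obtain ⟨δ, hδ⟩ : ∃ δ : ℝ, δ = min 1 (δ₀ * c₁ / (2 * (CM + 10))) := ⟨_, rfl⟩
  have hδ0 : 0 < δ := by
    rw [hδ]
    exact lt_min one_pos (by positivity)
  have hδ1 : δ ≤ 1 := by
    rw [hδ]
    exact min_le_left _ _
  have hδa : δ / c₁ * (CM + 10) ≤ δ₀ / 2 := by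
    have h1 : δ ≤ δ₀ * c₁ / (2 * (CM + 10)) := by
      rw [hδ]
      exact min_le_right _ _
    rw [le_div_iff₀ (by positivity)] at h1
    rw [div_mul_eq_mul_div, div_le_iff₀ hc₁0]
    linarith
  have hδb : δ * (CM + 5) ≤ δ₀ / 2 := by
    have h1 : δ ≤ δ / c₁ := by
      rw [le_div_iff₀ hc₁0]
      exact mul_le_of_le_one_right hδ0.le hc₁1
    refine le_trans ?_ hδa
    exact mul_le_mul h1 (by linarith) (by positivity) (by positivity)
  refine ⟨δ, hδ0, c₀, hc₀, N₁, hN₁, ?_⟩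
  intro w μ hw hμ hwμ
  obtain ⟨J₁, H⟩ := H hw hμ hwμ
  -- the constants
  obtain ⟨k₁, hk₁⟩ : ∃ k₁ : ℝ, k₁ = Real.log 2 + Real.log (C₁ K d D) + Real.log (C₂ D) +
      Real.log (2 * ((⌈C⌉₊ + 1 : ℕ) : ℝ) + 1) := ⟨_, rfl⟩
  obtain ⟨k₂, hk₂⟩ : ∃ k₂ : ℝ, k₂ = (2 * Real.log 2 + Real.log 7 + Real.log (C₂ D) +
      Real.log 5 + 2 * Real.log (C₃ K d D)) / c₁ := ⟨_, rfl⟩
  obtain ⟨C₅, hC₅⟩ : ∃ C₅ : ℝ, C₅ = C' * (2 ^ (D + 1) * C'') := ⟨_, rfl⟩
  have hC₅1 : 1 ≤ C₅ := by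
    rw [hC₅]
    have h1 : (1 : ℝ) ≤ 2 ^ (D + 1) := one_le_pow₀ (by norm_num)
    exact one_le_mul_of_one_le_of_one_le hC'1 (one_le_mul_of_one_le_of_one_le h1 hC''1)
  obtain ⟨k₃, hk₃⟩ : ∃ k₃ : ℝ, k₃ = (D + 1) * Real.log (2 * C₅ + 3) + ε := ⟨_, rfl⟩
  obtain ⟨J₂, hJ₂⟩ := exists_nat_ge (|k₁| / (δ₀ / 2 * μ) + |k₂| / (δ₀ / 2 * μ) +
    |k₃| / (ε / 4 * μ))
  refine ⟨max J₁ J₂, ?_⟩
  intro J hJ m F A hA MB k M Q ζ α ε' κ β Z a E X Pf Pg c s ξ n Θ P b hQμ hQμ' hT hI hQM hM htim hkey hb hnf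
  have hJ2 : (J₂ : ℝ) ≤ J := by exact_mod_cast (le_max_right _ _).trans hJ
  have hJ0 : (0 : ℝ) ≤ J := Nat.cast_nonneg J
  have hx0 : 0 ≤ μ * J := by positivity
  have a1 : 0 ≤ |k₁| / (δ₀ / 2 * μ) := by positivity
  have a2 : 0 ≤ |k₂| / (δ₀ / 2 * μ) := by positivity
  have a3 : 0 ≤ |k₃| / (ε / 4 * μ) := by positivity
  have q1 : k₁ ≤ δ₀ / 2 * (μ * J) := by
    have h1 : |k₁| / (δ₀ / 2 * μ) ≤ J := by linarith
    rw [div_le_iff₀ (by positivity)] at h1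
    have := le_abs_self k₁
    linarith
  have q2 : k₂ ≤ δ₀ / 2 * (μ * J) := by
    have h1 : |k₂| / (δ₀ / 2 * μ) ≤ J := by linarith
    rw [div_le_iff₀ (by positivity)] at h1
    have := le_abs_self k₂
    linarith
  have q3 : k₃ ≤ ε / 4 * (μ * J) := by
    have h1 : |k₃| / (ε / 4 * μ) ≤ J := by linarith
    rw [div_le_iff₀ (by positivity)] at h1
    have := le_abs_self k₃
    linarith
  have i1 := H J ((le_max_left _ _).trans hJ) F (fun ω => A ω ∧ 0 < F.p ω) (by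
      rw [Pe_pos F.isLaw.nonneg]
      exact hA) (Rc M P) (tC K d D Q M c P) (fun ω => (E ω, Key M Z a Pf ω))
    (ajh hC1 hC hA hδ1 hμ hQμ hQM hM hT hI htim hkey hδb (by
      rw [← hk₁]
      exact q1))
    (nfg_ctr hN₁ hA hδ1 hμ hQμ hM hc₁0 hc₁1 hc₁₀ hT hI hkey hb hnf hδa (by
      rw [← hk₂]
      exact q2))
  rw [cond_pos F.isLaw.nonneg] at i1
  obtain ⟨q, hq⟩ : ∃ q, q = Pool.Agent.H49.Ent.cond F.p A True := ⟨_, rfl⟩
  obtain ⟨W, hW⟩ : ∃ W, W = ⌊w * J⌋₊ := ⟨_, rfl⟩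
  rw [← hq, ← hW] at i1
  rw [← hq, ← hW] at hT hI ⊢
  have hq0 := hT.law.nonneg
  obtain ⟨B, hB⟩ : ∃ B : ℝ, B = 2 ^ (ε₁ * μ * J) := ⟨_, rfl⟩
  have hB0 : 0 < B := by
    rw [hB]
    exact Real.rpow_pos_of_pos (by norm_num) _
  have hex : 0 ≤ ε₁ * μ * J := by positivity
  have hB1 : 1 ≤ B := by
    rw [hB]
    exact Real.one_le_rpow (by norm_num) hex
  rw [← hB] at i1
  obtain ⟨V, hV⟩ : ∃ V : F.Ω → Fin (D + 1 + 1) → ℤ, V = fun ω (j : Fin (D + 1 + 1)) =>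
    ⌊(Rc M P (slam F W ω)).coeff j / B⌋ := ⟨_, rfl⟩
  have i2 : CH q V (fun ω => (E ω, Key M Z a Pf ω)) ≤ ε₁ * μ * J := by
    refine le_trans (CH_mono_left hq0 fun ω ω' _ _ e => ?_) i1
    have e1 := (Prod.ext_iff.mp (Prod.ext_iff.mp e).1).2
    rw [hV]
    exact e1
  obtain ⟨U, hU⟩ : ∃ U : F.Ω → Fin (D + 1) → ℤ, U = fun ω (j : Fin (D + 1)) =>
    ⌊2 ^ M * (P (slam F W ω) (fun _ => 0)).coeff j⌋ := ⟨_, rfl⟩
  have i3 : CH q U (fun ω => (V ω, (E ω, Key M Z a Pf ω))) ≤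
      (D + 1) * Real.log (2 * (C₅ * B + 1) + 1) := by
    have h1 := CH_vecκ hq0 hT.law.sum_one U (fun ω => (V ω, (E ω, Key M Z a Pf ω)))
      (fun _ => C₅ * B + 1) (by
        intro ω ω' hω hω' e j
        rw [hU]
        refine (floor_diff _ _).trans (add_le_add ?_ le_rfl)
        have e1 := (Prod.ext_iff.mp e).1
        simp only at e1
        rw [← mul_sub, ← Polynomial.coeff_sub]
        obtain ⟨G, hG⟩ : ∃ G, G = P (slam F W ω) (fun _ => 0) - P (slam F W ω') (fun _ => 0) :=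
          ⟨_, rfl⟩
        rw [← hG]
        have hGd : G.natDegree ≤ D := by
          rw [hG]
          exact (Polynomial.natDegree_sub_le _ _).trans (max_le (hI.deg _ _) (hI.deg _ _))
        have p0 : (0 : ℝ) < 2 ^ M := by positivity
        have hcf := hC' G j (1 / 2) (2 ^ (D + 1) * C'' * B / 2 ^ M) hGd (by
          rw [abs_of_pos (by norm_num)]
          norm_num) (by
          intro i _
          by_cases hi : i ≤ D
          · have g1 : ∀ x, Polynomial.derivative^[i] (Rc M P x) =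
                Polynomial.C (2 ^ M) * (Polynomial.C ((1 / 2) ^ i) *
                  (Polynomial.derivative^[i] (P x (fun _ => 0))).comp
                  (Polynomial.C (1 / 2) * Polynomial.X + Polynomial.C (1 / 2))) := by
              intro x
              unfold Rc
              rw [Polynomial.iterate_derivative_C_mul, Pool.AJ18.der_aff]
            have g2 := hC'' (Rc M P (slam F W ω) - Rc M P (slam F W ω')) i 0 B
              ((Polynomial.natDegree_sub_le _ _).trans (max_le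
                ((deg_Rc M hI.deg _).trans (Nat.le_succ D))
                ((deg_Rc M hI.deg _).trans (Nat.le_succ D)))) (by simp) (by
                intro i' _
                by_cases hi' : i' ≤ D + 1
                · rw [Polynomial.coeff_sub]
                  rw [hV] at e1
                  exact of_floor_div hB0 (congrFun e1 (⟨i', by omega⟩ : Fin (D + 1 + 1)))
                · rw [Polynomial.coeff_eq_zero_of_natDegree_lt (by
                    have := (Polynomial.natDegree_sub_le (Rc M P (slam F W ω))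
                      (Rc M P (slam F W ω'))).trans (max_le
                      (deg_Rc M hI.deg _) (deg_Rc M hI.deg _))
                    omega), abs_zero]
                  exact hB0.le)
            rw [Polynomial.iterate_derivative_sub, g1, g1, Polynomial.eval_sub] at g2
            simp only [Polynomial.eval_mul, Polynomial.eval_C, Polynomial.eval_comp,
              Polynomial.eval_add, Polynomial.eval_X, mul_zero, zero_add] at g2
            rw [hG, Polynomial.iterate_derivative_sub, Polynomial.eval_sub]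
            rw [← mul_sub, ← mul_sub, abs_mul, abs_mul, abs_of_pos p0,
              abs_of_pos (by positivity : (0 : ℝ) < (1 / 2) ^ i)] at g2
            rw [le_div_iff₀ p0]
            obtain ⟨y, hy⟩ : ∃ y, y = |(Polynomial.derivative^[i]
              (P (slam F W ω) (fun _ => 0))).eval (1 / 2) - (Polynomial.derivative^[i]
              (P (slam F W ω') (fun _ => 0))).eval (1 / 2)| := ⟨_, rfl⟩
            rw [← hy] at g2 ⊢
            have hy0 : 0 ≤ y := by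
              rw [hy]
              exact abs_nonneg _
            have g3 : (2 : ℝ) ^ i * (1 / 2) ^ i = 1 := by
              rw [← mul_pow]
              norm_num
            have g4 : (2 : ℝ) ^ i ≤ 2 ^ (D + 1) :=
              pow_le_pow_right₀ (by norm_num) (by omega)
            calc y * 2 ^ M = 2 ^ i * (1 / 2) ^ i * (2 ^ M * y) := by
                  rw [g3]
                  ring
              _ = 2 ^ i * (2 ^ M * ((1 / 2) ^ i * y)) := by ring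
              _ ≤ 2 ^ (D + 1) * (C'' * B) :=
                  mul_le_mul g4 g2 (by positivity) (by positivity)
              _ = _ := by ring
          · rw [Polynomial.iterate_derivative_eq_zero (by omega), Polynomial.eval_zero, abs_zero]
            positivity)
        rw [abs_mul, abs_of_pos p0]
        calc (2 : ℝ) ^ M * |G.coeff j| ≤ 2 ^ M * (C' * (2 ^ (D + 1) * C'' * B / 2 ^ M)) :=
              mul_le_mul_of_nonneg_left hcf p0.le
          _ = C₅ * B := by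
              rw [hC₅]
              field_simp)
    rw [Ex_const hT.law.sum_one, Fintype.card_fin] at h1
    push_cast at h1
    exact h1
  have i4 : CH q U (fun ω => (E ω, Key M Z a Pf ω)) ≤ CH q V (fun ω => (E ω, Key M Z a Pf ω)) +
      CH q U (fun ω => (V ω, (E ω, Key M Z a Pf ω))) := CH_le_add hq0 U V _
  have i5 : Real.log (2 * (C₅ * B + 1) + 1) ≤ Real.log (2 * C₅ + 3) + ε₁ * μ * J := by
    refine log_c (by linarith) hex (by positivity) ?_
    rw [← hB]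
    nlinarith
  have i6 : (D + 1) * Real.log (2 * (C₅ * B + 1) + 1) ≤
      (D + 1) * (Real.log (2 * C₅ + 3) + ε₁ * μ * J) :=
    mul_le_mul_of_nonneg_left i5 (by positivity)
  show CH q (fun ω => fun j : Fin (D + 1) => ⌊2 ^ M * (P (slam F W ω) (fun _ => 0)).coeff j⌋)
    (fun ω => (E ω, Key M Z a Pf ω)) ≤ ε * Q
  rw [← hU]
  have i7 : (D + 2) * ε₁ * (μ * J) = ε / 4 * (μ * J) := by rw [hε₁a]
  have i8 : ε * (μ * J) ≤ ε * (2 * Q) := mul_le_mul_of_nonneg_left hQμ' hε.le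
  have i9 : (D + 1) * (Real.log (2 * C₅ + 3) + ε₁ * μ * J) + ε₁ * μ * J =
      (D + 1) * Real.log (2 * C₅ + 3) + (D + 2) * ε₁ * (μ * J) := by ring
  linarith

end fam

end Pool.V1E
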