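import Pool.Agent.H92.D2.Lst
import Pool.Agent.H92.D2.Jfq

/-!
# V1 empty: the labels of the tubes at the precision of the balls, for any radius

`FHq`: the hypotheses on the lines of a family, `Q` digits of the radius with `Q ≤ μ J ≤ 2 Q`.
`tube_famQ`: there are tube labels of the precision of the balls.
-/

set_option autoImplicit false

namespace Pool.V1E

open Finset Real
open Pool.Agent.H49.Ent Pool.Agent.H32.Dense Pool.STK Pool.KA Pool.KSAT Pool.K2S Pool.GEN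
open Pool.OWN68
open Pool.BFL (Pb)
open Pool.D2G30
open MvPolynomial (eval pderiv)

/-- **The hypotheses on the lines of a family.** -/
structure FHq (K d D CM : ℕ) (h : ℝ) (w μ : ℝ) {m J : ℕ} (F : Fam m J) (A : F.Ω → Prop)
    (Q MB k : ℕ) (δ c₀ : ℝ) (N₁ : ℕ) {ζ α ε' κ β : Type} (Z : F.Ω → ζ) (a : F.Ω → α)
    (E : F.Ω → ε') (X : ε' → Fin (d + 1) → ℝ) (Pf : ζ → MvPolynomial (Fin d) ℝ)
    (Pg : ζ → Fin (d + 1) → MvPolynomial (Fin d) ℝ) (c : LnT F → κ) (s : F.Ω → Fin d → ℝ)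
    (ξ : LnT F → Fin d → ℝ) (n : LnT F → Polynomial ℝ) (Θ : LnT F → Fin d → Polynomial ℝ)
    (b : F.Ω → β) : Prop where
  tl : TL K d D CM Q MB k (2 ^ (J - ⌊w * J⌋₊)) δ (Pool.Agent.H49.Ent.cond F.p A True)
      (slam F ⌊w * J⌋₊) (Tm F ⌊w * J⌋₊) Z a E X Pf Pg c s ξ n Θ
  hQ1 : (Q : ℝ) ≤ μ * J
  hQ2 : μ * J ≤ 2 * Q
  cfew : CH (Pool.Agent.H49.Ent.cond F.p A True) (fun ω => c (slam F ⌊w * J⌋₊ ω))
    (fun ω => (E ω, a ω)) ≤ δ * Q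
  tf : (J : ℝ) * Real.log 2 - δ * μ * J ≤
      CH (Pool.Agent.H49.Ent.cond F.p A True) F.T (fun ω => (F.l ω, F.Z ω))
  aW : Det (Pool.Agent.H49.Ent.cond F.p A True) a F.W
  hb : Det (Pool.Agent.H49.Ent.cond F.p A True)
      (fun ω => (xd k (slam F ⌊w * J⌋₊) ξ ω, (c (slam F ⌊w * J⌋₊ ω), F.W ω))) b
  rows : ∀ M' : ℕ, 1 ≤ M' → M' * Q ≤ MB → ∀ B : F.Ω → Prop, Sub B A →
    c₀ * Pe F.p A ≤ Pe F.p B → ∀ i j : ℕ, i ≤ j → j ≤ N₁ →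
      CH (Pool.Agent.H49.Ent.cond F.p B True)
        (fun ω => ⌊2 ^ (M' * Q) * (n (slam F ⌊w * J⌋₊ ω)).eval
          (uu (2 ^ (J - ⌊w * J⌋₊)) (Tm F ⌊w * J⌋₊) ω) / 2 ^ ((μ * i / N₁) * J)⌋)
        (fun ω => (⌊2 ^ (M' * Q) * (n (slam F ⌊w * J⌋₊ ω)).eval
          (uu (2 ^ (J - ⌊w * J⌋₊)) (Tm F ⌊w * J⌋₊) ω) / 2 ^ ((μ * j / N₁) * J)⌋,
          (b ω, F.W ω))) ≤
        ((1 - h) * (μ * j / N₁ - μ * i / N₁) * Real.log 2 + δ * μ) * J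

section

variable {K d D CM : ℕ} {h w μ : ℝ} {m J : ℕ} {F : Fam m J} {A : F.Ω → Prop} {Q MB k : ℕ}
    {δ δ' c₀ c₁ : ℝ} {N₁ N₂ : ℕ} {ζ α ε' κ β : Type} {Z : F.Ω → ζ} {a : F.Ω → α}
    {E : F.Ω → ε'} {X : ε' → Fin (d + 1) → ℝ} {Pf : ζ → MvPolynomial (Fin d) ℝ}
    {Pg : ζ → Fin (d + 1) → MvPolynomial (Fin d) ℝ} {c : LnT F → κ} {s : F.Ω → Fin d → ℝ}
    {ξ : LnT F → Fin d → ℝ} {n : LnT F → Polynomial ℝ} {Θ : LnT F → Fin d → Polynomial ℝ}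
    {b : F.Ω → β}

theorem FHq.mono (H : FHq K d D CM h w μ F A Q MB k δ c₀ (N₁ * N₂) Z a E X Pf Pg c s ξ n Θ b)
    (hδ : δ ≤ δ') (hc : c₀ ≤ c₁) (hμ : 0 ≤ μ) (hN : 0 < N₂) :
    FHq K d D CM h w μ F A Q MB k δ' c₁ N₁ Z a E X Pf Pg c s ξ n Θ b := by
  have hQ0 : (0 : ℝ) ≤ Q := Nat.cast_nonneg _
  have hJ0 : (0 : ℝ) ≤ J := Nat.cast_nonneg _
  have hμJ : δ * μ * J ≤ δ' * μ * J :=
    mul_le_mul_of_nonneg_right (mul_le_mul_of_nonneg_right hδ hμ) hJ0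
  have hPA : 0 ≤ Pe F.p A := Pe_nonneg F.isLaw A
  refine ⟨H.tl.mono hδ, H.hQ1, H.hQ2, H.cfew.trans (mul_le_mul_of_nonneg_right hδ hQ0), by linarith [H.tf],
    H.aW, H.hb, ?_⟩
  intro M' hM' hMB B hB hP i j hij hj
  have h1 := H.rows M' hM' hMB B hB ((mul_le_mul_of_nonneg_right hc hPA).trans hP) (i * N₂)
    (j * N₂) (Nat.mul_le_mul_right _ hij) (Nat.mul_le_mul_right _ hj)
  have hN' : (0 : ℝ) < N₂ := by exact_mod_cast hN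
  have e : ∀ x : ℕ, μ * ((x * N₂ : ℕ) : ℝ) / ((N₁ * N₂ : ℕ) : ℝ) = μ * x / N₁ := fun x => by
    push_cast
    rw [← mul_assoc, mul_div_mul_right _ _ hN'.ne']
  rw [e i, e j] at h1
  refine h1.trans (mul_le_mul_of_nonneg_right ?_ hJ0)
  have := mul_le_mul_of_nonneg_right hδ hμ
  linarith

theorem FHq.mono' (H : FHq K d D CM h w μ F A Q MB k δ c₀ (N₁ * N₂) Z a E X Pf Pg c s ξ n Θ b)
    (hδ : δ ≤ δ') (hc : c₀ ≤ c₁) (hμ : 0 ≤ μ) (hN : 0 < N₁) :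
    FHq K d D CM h w μ F A Q MB k δ' c₁ N₂ Z a E X Pf Pg c s ξ n Θ b := by
  rw [mul_comm] at H
  exact H.mono hδ hc hμ hN

end

/-- **The labels at all the precisions `j Q`.** -/
theorem tube_upQ (K d D CM : ℕ) {h : ℝ} (hh : 0 < h) (hh1 : h ≤ 1) (N : ℕ) :
    ∀ {ε : ℝ}, 0 < ε → ∃ δ : ℝ, 0 < δ ∧ ∃ c₀ : ℝ, 0 < c₀ ∧ ∃ N₁ : ℕ, 0 < N₁ ∧
    ∀ {w μ : ℝ} (_ : 0 ≤ w) (_ : 0 < μ) (_ : w + μ ≤ 1), ∃ J₀ : ℕ, ∀ J ≥ J₀, ∀ {m : ℕ}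
      (F : Fam m J) (A : F.Ω → Prop) (_ : 0 < Pe F.p A) {Q MB k : ℕ} {ζ α ε' κ β : Type}
      {Z : F.Ω → ζ} {a : F.Ω → α} {E : F.Ω → ε'} {X : ε' → Fin (d + 1) → ℝ}
      {Pf : ζ → MvPolynomial (Fin d) ℝ} {Pg : ζ → Fin (d + 1) → MvPolynomial (Fin d) ℝ}
      {c : LnT F → κ} {s : F.Ω → Fin d → ℝ} {ξ : LnT F → Fin d → ℝ} {n : LnT F → Polynomial ℝ}
      {Θ : LnT F → Fin d → Polynomial ℝ} {b : F.Ω → β},
    FHq K d D CM h w μ F A Q MB k δ c₀ N₁ Z a E X Pf Pg c s ξ n Θ b →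
    ∀ j ≤ N, (j + 1) * Q ≤ MB → ∃ P : LnT F → Gr K d → Polynomial ℝ,
      Im K d D Q ((j + 1) * Q) (2 ^ (J - ⌊w * J⌋₊)) ε
        (Pool.Agent.H49.Ent.cond F.p A True) (slam F ⌊w * J⌋₊) (Tm F ⌊w * J⌋₊) Z a E Pf c s ξ n
        P := by
  induction N with
  | zero =>
    intro ε hε
    obtain ⟨δ, δ0, δε, Q₀, hb⟩ := im_base K d D CM hε
    refine ⟨δ, δ0, 1, one_pos, 1, one_pos, ?_⟩
    intro w μ hw hμ hwμ
    obtain ⟨J₀, hJ₀⟩ := exists_nat_ge ((2 * Q₀ : ℝ) / μ)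
    refine ⟨J₀, ?_⟩
    intro J hJ m F A hA Q MB k ζ α ε' κ β Z a E X Pf Pg c s ξ n Θ b H j hj hMB
    have hQ : Q₀ ≤ Q := by
      have h1 : (2 * Q₀ : ℝ) / μ ≤ J := hJ₀.trans (by exact_mod_cast hJ)
      rw [div_le_iff₀ hμ] at h1
      have h5 := H.hQ2
      have h6 : (Q₀ : ℝ) ≤ Q := by linarith
      exact_mod_cast h6
    obtain rfl : j = 0 := by omega
    rw [zero_add, one_mul] at hMB ⊢
    exact ⟨_, hb hQ H.tl H.cfew⟩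
  | succ N ih =>
    intro ε hε
    obtain ⟨δ₁, δ₁0, δ₁ε, Q₀, h1⟩ := law_step K d D CM hε
    obtain ⟨δ₂, δ₂0, c₂, c₂0, N₂, N₂0, h2⟩ := jets_famQ K d D CM hh hh1 δ₁0
    obtain ⟨δ₃, δ₃0, c₃, c₃0, N₃, N₃0, h3⟩ := ih (ε := min δ₁ δ₂) (lt_min δ₁0 δ₂0)
    refine ⟨min (min δ₁ δ₂) δ₃, lt_min (lt_min δ₁0 δ₂0) δ₃0, min c₂ c₃, lt_min c₂0 c₃0, N₂ * N₃,
      Nat.mul_pos N₂0 N₃0, ?_⟩
    intro w μ hw hμ hwμ
    obtain ⟨J₂, hJ₂⟩ := h2 hw hμ hwμ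
    obtain ⟨J₃, hJ₃⟩ := h3 hw hμ hwμ
    obtain ⟨J₁, hJ₁⟩ := exists_nat_ge ((2 * Q₀ : ℝ) / μ)
    refine ⟨max J₁ (max J₂ J₃), ?_⟩
    intro J hJ m F A hA Q MB k ζ α ε' κ β Z a E X Pf Pg c s ξ n Θ b H j hj hMB
    have j1 : J₁ ≤ J := (le_max_left _ _).trans hJ
    have j2 : J₂ ≤ J := ((le_max_left _ _).trans (le_max_right _ _)).trans hJ
    have j3 : J₃ ≤ J := ((le_max_right _ _).trans (le_max_right _ _)).trans hJ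
    have hQ : Q₀ ≤ Q := by
      have h4 : (2 * Q₀ : ℝ) / μ ≤ J := hJ₁.trans (by exact_mod_cast j1)
      rw [div_le_iff₀ hμ] at h4
      have h5 := H.hQ2
      have h6 : (Q₀ : ℝ) ≤ Q := by linarith
      exact_mod_cast h6
    have H1 : FHq K d D CM h w μ F A Q MB k δ₁ c₂ N₂ Z a E X Pf Pg c s ξ n Θ b :=
      H.mono ((min_le_left _ _).trans (min_le_left _ _)) (min_le_left _ _) hμ.le N₃0
    have H2 : FHq K d D CM h w μ F A Q MB k δ₂ c₂ N₂ Z a E X Pf Pg c s ξ n Θ b :=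
      H.mono ((min_le_left _ _).trans (min_le_right _ _)) (min_le_left _ _) hμ.le N₃0
    have H3 : FHq K d D CM h w μ F A Q MB k δ₃ c₃ N₃ Z a E X Pf Pg c s ξ n Θ b :=
      H.mono' (min_le_right _ _) (min_le_right _ _) hμ.le N₂0
    have h0 := H.tl.law.nonneg
    rcases Nat.lt_or_ge N j with hNj | hNj
    · -- the last one
      obtain rfl : j = N + 1 := by omega
      have e1 : (N + 1 + 1) * Q = (N + 1) * Q + Q := by ring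
      have hMB' : (N + 1) * Q ≤ MB := by rw [e1] at hMB; omega
      have hQM : Q ≤ (N + 1) * Q := Nat.le_mul_of_pos_left _ (Nat.succ_pos N)
      obtain ⟨P, hP⟩ := hJ₃ J j3 F A hA H3 N le_rfl hMB'
      have hP1 := hP.mono h0 (min_le_left δ₁ δ₂)
      have hP2 := hP.mono h0 (min_le_right δ₁ δ₂)
      have hJt := hJ₂ J j2 F A hA b H2.hQ1 H2.hQ2 H2.tl hP2 hQM hMB' H2.tf H2.aW H2.hb
        (H2.rows (N + 1) (Nat.succ_pos N) hMB')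
      obtain ⟨-, h6⟩ := h1 hQ hQM hMB' H1.tl hP1 hJt
      rw [e1] at hMB ⊢
      exact h6 hMB
    · obtain ⟨P, hP⟩ := hJ₃ J j3 F A hA H3 j hNj hMB
      exact ⟨P, hP.mono h0 ((min_le_left _ _).trans δ₁ε)⟩

/-- **V1 empty: the labels of the tubes at the precision of the balls.** -/
theorem tube_famQ (K d D CM : ℕ) {h : ℝ} (hh : 0 < h) (hh1 : h ≤ 1) {ε : ℝ} (hε : 0 < ε) :
    ∃ δ : ℝ, 0 < δ ∧ ∃ c₀ : ℝ, 0 < c₀ ∧ ∃ N₁ : ℕ, 0 < N₁ ∧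
    ∀ {w μ : ℝ} (_ : 0 ≤ w) (_ : 0 < μ) (_ : w + μ ≤ 1), ∃ J₀ : ℕ, ∀ J ≥ J₀, ∀ {m : ℕ}
      (F : Fam m J) (A : F.Ω → Prop) (_ : 0 < Pe F.p A) {Q MB k : ℕ} {ζ α ε' κ β : Type}
      {Z : F.Ω → ζ} {a : F.Ω → α} {E : F.Ω → ε'} {X : ε' → Fin (d + 1) → ℝ}
      {Pf : ζ → MvPolynomial (Fin d) ℝ} {Pg : ζ → Fin (d + 1) → MvPolynomial (Fin d) ℝ}
      {c : LnT F → κ} {s : F.Ω → Fin d → ℝ} {ξ : LnT F → Fin d → ℝ} {n : LnT F → Polynomial ℝ}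
      {Θ : LnT F → Fin d → Polynomial ℝ} {b : F.Ω → β},
    FHq K d D CM h w μ F A Q MB k δ c₀ N₁ Z a E X Pf Pg c s ξ n Θ b →
    ∃ P : LnT F → Gr K d → Polynomial ℝ,
      ImC K d D Q MB (2 ^ (J - ⌊w * J⌋₊)) ε (Pool.Agent.H49.Ent.cond F.p A True)
        (slam F ⌊w * J⌋₊) (Tm F ⌊w * J⌋₊) Z Pf s ξ n P := by
  obtain ⟨δ₁, δ₁0, δ₁ε, Q₀, h1⟩ := law_step K d D CM hε
  obtain ⟨δ₂, δ₂0, c₂, c₂0, N₂, N₂0, h2⟩ := jets_famQ K d D CM hh hh1 δ₁0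
  obtain ⟨δ₃, δ₃0, c₃, c₃0, N₃, N₃0, h3⟩ := tube_upQ K d D CM hh hh1 CM (ε := min δ₁ δ₂)
    (lt_min δ₁0 δ₂0)
  refine ⟨min (min δ₁ δ₂) δ₃, lt_min (lt_min δ₁0 δ₂0) δ₃0, min c₂ c₃, lt_min c₂0 c₃0, N₂ * N₃,
    Nat.mul_pos N₂0 N₃0, ?_⟩
  intro w μ hw hμ hwμ
  obtain ⟨J₂, hJ₂⟩ := h2 hw hμ hwμ
  obtain ⟨J₃, hJ₃⟩ := h3 hw hμ hwμ
  obtain ⟨J₁, hJ₁⟩ := exists_nat_ge ((2 * (Q₀ + 1 : ℕ) : ℝ) / μ)
  refine ⟨max J₁ (max J₂ J₃), ?_⟩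
  intro J hJ m F A hA Q MB k ζ α ε' κ β Z a E X Pf Pg c s ξ n Θ b H
  have j1 : J₁ ≤ J := (le_max_left _ _).trans hJ
  have j2 : J₂ ≤ J := ((le_max_left _ _).trans (le_max_right _ _)).trans hJ
  have j3 : J₃ ≤ J := ((le_max_right _ _).trans (le_max_right _ _)).trans hJ
  have hQ1 : Q₀ + 1 ≤ Q := by
    have h4 : (2 * (Q₀ + 1 : ℕ) : ℝ) / μ ≤ J := hJ₁.trans (by exact_mod_cast j1)
    rw [div_le_iff₀ hμ] at h4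
    have h5 := H.hQ2
    have h6 : ((Q₀ + 1 : ℕ) : ℝ) ≤ Q := by linarith
    exact_mod_cast h6
  have hQ : Q₀ ≤ Q := by omega
  have H1 : FHq K d D CM h w μ F A Q MB k δ₁ c₂ N₂ Z a E X Pf Pg c s ξ n Θ b :=
    H.mono ((min_le_left _ _).trans (min_le_left _ _)) (min_le_left _ _) hμ.le N₃0
  have H2 : FHq K d D CM h w μ F A Q MB k δ₂ c₂ N₂ Z a E X Pf Pg c s ξ n Θ b :=
    H.mono ((min_le_left _ _).trans (min_le_right _ _)) (min_le_left _ _) hμ.le N₃0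
  have H3 : FHq K d D CM h w μ F A Q MB k δ₃ c₃ N₃ Z a E X Pf Pg c s ξ n Θ b :=
    H.mono' (min_le_right _ _) (min_le_right _ _) hμ.le N₂0
  have h0 := H.tl.law.nonneg
  have hQp : 0 < Q := by omega
  have hQMB : Q ≤ MB := H.tl.hQ
  have hCM : MB ≤ CM * Q := H.tl.hMB
  obtain ⟨e, he⟩ : ∃ e, e = MB / Q := ⟨_, rfl⟩
  have e1 : 1 ≤ e := by rw [he]; exact (Nat.one_le_div_iff hQp).2 hQMB
  have e2 : e ≤ CM := by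
    rw [he]
    exact Nat.div_le_of_le_mul (by rw [mul_comm]; exact hCM)
  have e3 : e * Q ≤ MB := by rw [he]; exact Nat.div_mul_le_self MB Q
  have e4 : MB ≤ e * Q + Q := by
    have h5 := Nat.div_add_mod MB Q
    have h6 := Nat.mod_lt MB hQp
    rw [← he] at h5
    nlinarith
  obtain ⟨P, hP⟩ := hJ₃ J j3 F A hA H3 (e - 1) (by omega) (by
    rw [Nat.sub_add_cancel e1]
    exact e3)
  rw [Nat.sub_add_cancel e1] at hP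
  have hP1 := hP.mono h0 (min_le_left δ₁ δ₂)
  have hP2 := hP.mono h0 (min_le_right δ₁ δ₂)
  have hQM : Q ≤ e * Q := Nat.le_mul_of_pos_left _ e1
  have hT1 := H1.tl
  have hJt := hJ₂ J j2 F A hA (M := e * Q) b H2.hQ1 H2.hQ2 H2.tl hP2
    hQM e3 H2.tf H2.aW H2.hb
    (H2.rows e e1 e3)
  obtain ⟨h6, -⟩ := h1 hQ hQM e3 hT1 hP1 hJt
  exact h6 MB hQMB e4 le_rfl

end Pool.V1E
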