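import Pool.Agent.H92.D2.Rwf
import Pool.Agent.H92.D2.Tfq
import Pool.Agent.H73.D2.Tlq
import Pool.Agent.H91.D2.Tlc5

/-!
# The labels of the tubes at the precision of the balls, on the events of a class

`rwq_cls`: the rows of the coordinate at all the scales of the grid. `im_cls`: from the windows
(`Wdat`) and the letters (`TL`) there are labels of the tubes of the precision of the balls, if the
rows of the target are not full.
-/

set_option autoImplicit false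

namespace Pool.V1E

open Finset Real MvPolynomial
open Pool.KA Pool.KSAT Pool.PB Pool.GEN Pool.D2R Pool.D2G30 Pool.ISO Pool.CHT Pool.CHX
open Pool.PB.Trl (rt rt_mem t_rt)
open Pool.Agent.H49.Ent Pool.Agent.H32.Dense Pool.STK Pool.K2S Pool.LA91 Pool.OWN68
open Pool.UNJ (ceI)
open Pool.S6C

variable {m : ℕ}

/-- The rows of the coordinate at all the scales of a grid. -/
theorem rwq_cls {S : PCl m} {c : ℕ → Fin m} {r CM N₁ : ℕ} {p₀ q₁ h δ₁ σr μ₀ μ : ℝ}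
    (hμ : 0 ≤ μ) (hμ₀ : 0 ≤ μ₀) (hN₁ : 0 < N₁) (h1 : p₀ + μ ≤ σr + μ₀)
    (h2 : σr + CM * μ₀ ≤ p₀ + q₁)
    (hraw : ∀ q, 0 ≤ q → q ≤ q₁ → RawN S ((range r).image c) (c r) p₀ q h δ₁) :
    Bas S (fun J F A => ∀ M' : ℕ, 1 ≤ M' → M' ≤ CM → ∀ i j : ℕ, i ≤ j → j ≤ N₁ →
      CH (Pool.Agent.H49.Ent.cond F.p A True)
        (fun ω => F.X ⌊(σr + M' * μ₀ - μ * i / N₁) * J⌋₊ ω (c r))
        (fun ω => (F.X ⌊(σr + M' * μ₀ - μ * j / N₁) * J⌋₊ ω (c r),
          (ceI ((range r).image c) (fun _ => J) (F.x ω), F.W ω))) ≤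
        ((1 - h) * (μ * j / N₁ - μ * i / N₁) * Real.log 2 + δ₁) * J) := by
  have hN : (0 : ℝ) < N₁ := by exact_mod_cast hN₁
  have key : Bas S (fun J F A => ∀ M' < CM + 1, ∀ i < N₁ + 1, ∀ j < N₁ + 1, 1 ≤ M' → i ≤ j →
      CH (Pool.Agent.H49.Ent.cond F.p A True)
        (fun ω => F.X ⌊(σr + M' * μ₀ - μ * i / N₁) * J⌋₊ ω (c r))
        (fun ω => (F.X ⌊(σr + M' * μ₀ - μ * j / N₁) * J⌋₊ ω (c r),
          (ceI ((range r).image c) (fun _ => J) (F.x ω), F.W ω))) ≤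
        ((1 - h) * (μ * j / N₁ - μ * i / N₁) * Real.log 2 + δ₁) * J) := by
    refine Bas.all (CM + 1) fun M' hM' => Bas.all (N₁ + 1) fun i hi =>
      Bas.all (N₁ + 1) fun j hj => ?_
    by_cases hc : 1 ≤ M' ∧ i ≤ j
    · obtain ⟨hM1, hij⟩ := hc
      have a1 : (1 : ℝ) ≤ M' := by exact_mod_cast hM1
      have a2 : (M' : ℝ) ≤ CM := by exact_mod_cast (by omega : M' ≤ CM)
      have b1 : (i : ℝ) ≤ j := by exact_mod_cast hij
      have b2 : (j : ℝ) ≤ N₁ := by exact_mod_cast (by omega : j ≤ N₁)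
      have b3 : (0 : ℝ) ≤ i := Nat.cast_nonneg i
      have c1 : μ * i / N₁ ≤ μ * j / N₁ :=
        div_le_div_of_nonneg_right (mul_le_mul_of_nonneg_left b1 hμ) hN.le
      have c2 : μ * j / N₁ ≤ μ := by
        rw [div_le_iff₀ hN]
        exact mul_le_mul_of_nonneg_left b2 hμ
      have c3 : 0 ≤ μ * i / N₁ := by positivity
      have d1 : μ₀ ≤ M' * μ₀ := le_mul_of_one_le_left hμ₀ a1
      have d2 : M' * μ₀ ≤ CM * μ₀ := mul_le_mul_of_nonneg_right a2 hμ₀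
      have h3 := hraw (σr + M' * μ₀ - μ * i / N₁ - p₀) (by linarith) (by linarith)
        (σr + M' * μ₀ - μ * j / N₁ - p₀) (by linarith) (by linarith)
      refine h3.mono 0 fun J _ F A h4 _ _ => ?_
      have e1 : p₀ + (σr + M' * μ₀ - μ * i / N₁ - p₀) = σr + M' * μ₀ - μ * i / N₁ := by ring
      have e2 : p₀ + (σr + M' * μ₀ - μ * j / N₁ - p₀) = σr + M' * μ₀ - μ * j / N₁ := by ring
      have e3 : σr + M' * μ₀ - μ * i / N₁ - p₀ - (σr + M' * μ₀ - μ * j / N₁ - p₀) =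
        μ * j / N₁ - μ * i / N₁ := by ring
      rw [e1, e2, e3] at h4
      exact h4
    · exact ⟨1, one_pos, 0, fun J _ F A _ h5 h6 => absurd ⟨h5, h6⟩ hc⟩
  refine key.mono 0 fun J _ F A h3 M' hM1 hM2 i j hij hj => ?_
  exact h3 M' (by omega) i (by omega) j (by omega) hM1 hij

/-- **The labels of the tubes** at the precision of the balls, on the events of a class. -/
theorem im_cls (K D D' CM r : ℕ) {h : ℝ} (hh : 0 < h) (hh1 : h ≤ 1) {ε : ℝ} (hε : 0 < ε) :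
    ∃ δ : ℝ, 0 < δ ∧ δ ≤ 1 ∧ ∃ C : ℕ, ∀ {m : ℕ} {S : PCl m} {c : ℕ → Fin m}
    {w a τ σr p₀ q₁ δ₁ κ : ℝ} {sa : ℕ → ℝ},
    (∀ ψ : ℝ, 0 < ψ → Bas S (fun J F A => 0 < Pe F.p A ∧ (J : ℝ) * Real.log 2 - ψ * J ≤
      CH (Pool.Agent.H49.Ent.cond F.p A True) F.T (fun ω => (F.l ω, F.Z ω)))) →
    0 < κ → 0 ≤ w → 0 < τ → (2 * CM + r + 5) * τ ≤ δ * (a - w) → a + τ ≤ 1 →
    0 ≤ p₀ → p₀ + τ ≤ σr → σr + CM * (a - w) ≤ p₀ + q₁ → δ₁ ≤ δ * (a - w) →
    (∀ q, 0 ≤ q → q ≤ q₁ → RawN S ((range r).image c) (c r) p₀ q h δ₁) →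
    FulC S c 0 r a sa →
    Bas S (fun J F A => ∀ (B : F.Ω → Prop), Sub B A → κ * Pe F.p A ≤ Pe F.p B →
      ∀ (n M ar MB q₀ Q x u p e : ℕ) (s : ℕ → ℕ) (qe : Fin r → ℕ) (o : ℕ → ℕ)
        (z g gc gT g₀ : ℕ → ℕ → ℕ) (G T : ℕ → PtT F → ℕ → MvPolynomial (Option (Fin m)) ℝ)
        (H TH : ℕ → LnT F → ℕ → MvPolynomial (Option (Fin m)) ℝ)
        (Ht : LnT F → MvPolynomial (Option (Fin m)) ℝ) (V V' : Type) (v : F.Ω → V)
        (v' : F.Ω → V') (vL : LnT F → V) (k : ℕ) (Θ : LnT F → Fin r → Polynomial ℝ),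
      Wdat F c r D n M ar MB q₀ Q x u p e s qe o z g gc gT g₀ B G T H TH Ht →
      o 1 = ⌊w * J⌋₊ → o 2 = ⌊a * J⌋₊ →
      (∀ ω, B ω → ∀ l < r + 1, G 2 (ptr F J ω) l = H 2 (slam F (o 2) ω) l) →
      (∀ ω, B ω → v ω = vL (slam F (o 1) ω)) →
      Det (Pool.Agent.H49.Ent.cond F.p B True) v F.Z →
      |(s r : ℝ) - σr * J| ≤ τ * J → |(Q : ℝ) - (a - w) * J| ≤ τ * J →
      (∀ i < r, sa i * J - τ * J ≤ s i + Q) →
      (C : ℝ) * (u + x + 1) ≤ δ * Q → MB ≤ CM * Q → MB ≤ k →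
      (∀ l < r + 1, C + e + s l + Q + MB + 3 * x ≤ J) →
      TL K r D' CM Q MB k (2 ^ (J - o 1)) δ (Pool.Agent.H49.Ent.cond F.p B True)
        (slam F (o 1)) (twF F (o 1))
        (kzF F c s r (o 1) Q v v' (G 0) (fun y => G 1 y r) (fun y => G 2 y r))
        (kaF F c s r (o 1) Q v (G 0) (fun y => G 1 y r))
        (fun ω => eL c s r (o 1) qe (frH F r q₀ (H 0) (slam F (o 1) ω)) (slam F (o 1) ω))
        (Xe r qe) (Pfz c s r Q J D) (Pgz c s r (o 1) Q J D)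
        (ctF F c s r (o 1) q₀ Q qe (H 0) (fun L => H 1 L r) vL)
        (scF F c s r (o 1) q₀ Q qe (G 0) (H 0))
        (fun L => xL c s r (o 1) Q (frH F r q₀ (H 0) L) L)
        (fun L => nL c s r (o 1) (H 1 L r) L) Θ →
      ∃ P : LnT F → Gr K r → Polynomial ℝ,
        ImC K r D' Q MB (2 ^ (J - o 1)) ε (Pool.Agent.H49.Ent.cond F.p B True) (slam F (o 1))
          (twF F (o 1))
          (kzF F c s r (o 1) Q v v' (G 0) (fun y => G 1 y r) (fun y => G 2 y r))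
          (Pfz c s r Q J D) (scF F c s r (o 1) q₀ Q qe (G 0) (H 0))
          (fun L => xL c s r (o 1) Q (frH F r q₀ (H 0) L) L)
          (fun L => nL c s r (o 1) (H 1 L r) L) P) := by
  obtain ⟨δ₂, δ₂0, c₀, c₀0, N₁, N₁0, htub⟩ := tube_famQ K r D' CM hh hh1 hε
  obtain ⟨C₁, hrowf⟩ := row_fam D r
  obtain ⟨C₂, hcf⟩ := wd_cfew D r
  obtain ⟨δ, hδ⟩ : ∃ δ : ℝ, δ = min (δ₂ / 8) 1 := ⟨_, rfl⟩
  have δ0 : 0 < δ := by rw [hδ]; exact lt_min (by positivity) one_pos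
  have δ1 : δ ≤ 1 := by rw [hδ]; exact min_le_right _ _
  have δδ₂ : 8 * δ ≤ δ₂ := by
    have : δ ≤ δ₂ / 8 := by rw [hδ]; exact min_le_left _ _
    linarith
  refine ⟨δ, δ0, δ1, C₁ + C₂, ?_⟩
  intro m S c w a τ σr p₀ q₁ δ₁ κ sa htm hκ hw hτ hτδ haτ hp₀ h1 h2 hδ₁ hraw hful
  have hN : (0 : ℝ) < N₁ := by exact_mod_cast N₁0
  have hl2 : 0 < Real.log 2 := Real.log_pos one_lt_two
  have hl21 : Real.log 2 ≤ 1 := by
    have := Real.log_two_lt_d9
    linarith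
  have hCM0 : (0 : ℝ) ≤ CM := Nat.cast_nonneg _
  have hr0 : (0 : ℝ) ≤ r := Nat.cast_nonneg _
  obtain ⟨μ₀, hμ₀⟩ : ∃ μ₀ : ℝ, μ₀ = a - w := ⟨_, rfl⟩
  rw [← hμ₀] at hτδ h2 hδ₁
  have hexp : (2 * CM + r + 5) * τ = 2 * (CM * τ) + r * τ + 5 * τ := by ring
  have hCMτ : 0 ≤ (CM : ℝ) * τ := by positivity
  have hrτ : 0 ≤ (r : ℝ) * τ := by positivity
  have hδμ : 0 < δ * μ₀ := by linarith
  have μ₀0 : 0 < μ₀ := by
    by_contra hcon
    push Not at hcon
    have := mul_nonpos_of_nonneg_of_nonpos δ0.le hcon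
    linarith
  have hδμ1 : δ * μ₀ ≤ μ₀ := mul_le_of_le_one_left μ₀0.le δ1
  have hτμ : 5 * τ ≤ μ₀ := by linarith
  obtain ⟨μ, hμ⟩ : ∃ μ : ℝ, μ = μ₀ + τ := ⟨_, rfl⟩
  have μ0 : 0 < μ := by linarith
  obtain ⟨ρ, hρ⟩ : ∃ ρ : ℝ, ρ = δ * μ₀ / (r + 1) := ⟨_, rfl⟩
  have ρ0 : 0 < ρ := by rw [hρ]; positivity
  have hρr : r * ρ ≤ δ * μ₀ := by
    rw [hρ, mul_div_assoc', div_le_iff₀ (by positivity)]
    have : 0 ≤ δ * μ₀ := hδμ.le
    linarith
  obtain ⟨J₀, hJ₀⟩ := htub hw μ0 (show w + μ ≤ 1 by linarith)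
  have hrows := rwq_cls (CM := CM) (μ := μ) (μ₀ := μ₀) μ0.le μ₀0.le N₁0 (by linarith) h2 hraw
  have hκc : 0 < κ * c₀ := mul_pos hκ c₀0
  obtain ⟨J₁, hJ₁⟩ := exists_nat_ge (2 * (r * Real.log 13) / (δ₂ * μ₀))
  obtain ⟨J₂, hJ₂⟩ := exists_nat_ge (14 / (δ * μ₀))
  refine Bas.mono (max (max J₀ 1) (max J₁ J₂)) (((Pool.CHT.bas_ev hrows hκc).and
    (Pool.CHT.bas_ev (hful ρ ρ0) hκc)).and ((Pool.CHT.bas_ev (htm (δ₂ * μ) (by positivity)) hκ).and
    (Pool.CHT.bas_ev (htm 1 one_pos) hκc))) ?_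
  rintro J hJ F A ⟨⟨hR, hFu⟩, hT, hP⟩ B hBA hB n M ar MB q₀ Q x u p e s qe o z g gc gT g₀ G T H TH
    Ht V V' v v' vL k Θ W ho1 ho2 hcl2 hvL hvZ hs hQ hsa hC hMB hk hNn hTL
  have j0 : J₀ ≤ J := ((le_max_left _ _).trans (le_max_left _ _)).trans hJ
  have j1 : 1 ≤ J := ((le_max_right _ _).trans (le_max_left _ _)).trans hJ
  have j2 : (J₁ : ℝ) ≤ J := by
    exact_mod_cast ((le_max_left _ _).trans (le_max_right _ _)).trans hJ
  have j3 : (J₂ : ℝ) ≤ J := by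
    exact_mod_cast ((le_max_right _ _).trans (le_max_right _ _)).trans hJ
  have hJ0 : (0 : ℝ) < J := by exact_mod_cast j1
  have k1 : 2 * (r * Real.log 13) ≤ δ₂ * μ₀ * J := by
    have h3 := hJ₁.trans j2
    rw [div_le_iff₀ (by positivity)] at h3
    linarith
  have k2 : 14 ≤ δ * μ₀ * J := by
    have h3 := hJ₂.trans j3
    rw [div_le_iff₀ hδμ] at h3
    linarith
  obtain ⟨hBp, htf⟩ := hT B hBA hB
  have hql : IsLaw (Pool.Agent.H49.Ent.cond F.p B True) := isLaw_cond F.isLaw hBp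
  have hqB : ∀ ω, 0 < Pool.Agent.H49.Ent.cond F.p B True ω → B ω := fun ω hω =>
    of_eq_true ((cond_pos_iff F.isLaw.nonneg B True ω).1 hω).2
  have hQ' := abs_le.1 hQ
  have hs' := abs_le.1 hs
  rw [← hμ₀] at hQ'
  have hτJ : 5 * (τ * J) ≤ μ₀ * J := by
    have := mul_le_mul_of_nonneg_right hτμ hJ0.le
    linarith
  have hμJ0 : 0 < μ₀ * J := by positivity
  have hμJ : μ * J = μ₀ * J + τ * J := by rw [hμ]; ring
  have hQ2 : μ₀ * J ≤ 2 * Q := by linarith [hQ'.1]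
  have hQp : 0 < Q := by
    have : (0 : ℝ) < Q := by linarith
    exact_mod_cast this
  have hQ0 : (0 : ℝ) ≤ Q := Nat.cast_nonneg _
  -- the constants
  have hN0 : (0 : ℝ) ≤ (u : ℝ) + x + 1 := by positivity
  have hC' : ((C₁ + C₂ : ℕ) : ℝ) * ((u : ℝ) + x + 1) ≤ δ * Q := hC
  have hC₁ : (C₁ : ℝ) * ((u : ℝ) + x + 1) ≤ δ * Q := by
    refine (mul_le_mul_of_nonneg_right ?_ hN0).trans hC'
    exact_mod_cast (by omega : C₁ ≤ C₁ + C₂)
  have hC₂ : C₂ * (u + x + 1) ≤ MB := by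
    have h3 : (C₂ : ℝ) * ((u : ℝ) + x + 1) ≤ Q := by
      refine (mul_le_mul_of_nonneg_right ?_ hN0).trans (hC'.trans (mul_le_of_le_one_left hQ0 δ1))
      exact_mod_cast (by omega : C₂ ≤ C₁ + C₂)
    exact (by exact_mod_cast h3 : C₂ * (u + x + 1) ≤ Q).trans W.QM
  -- the numbers of the charts
  obtain ⟨M₁, hM₁⟩ : ∃ M₁, M₁ = (range (r + 1)).sup s + Q + x := ⟨_, rfl⟩
  have hsM : ∀ l < r + 1, s l + Q + x ≤ M₁ := fun l hl => by
    have := Finset.le_sup (f := s) (Finset.mem_range.2 hl)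
    omega
  have hMJ : C₁ + C₂ + e + M₁ + MB + 2 * x ≤ J := by
    have h3 : (range (r + 1)).sup s ≤ J - (C₁ + C₂ + e + Q + MB + 3 * x) :=
      Finset.sup_le fun l hl => by
        have := hNn l (Finset.mem_range.1 hl)
        omega
    have h4 := hNn 0 (by omega)
    omega
  have hM1 : ∀ l < r + 1, g₀ 1 l ≤ M₁ := fun l hl => by
    have h3 := hsM l hl
    rcases Nat.lt_or_ge l r with h4 | h4
    · have := W.n1d l h4
      omega
    · obtain rfl : l = r := by omega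
      have := W.m1u
      omega
  have hM2 : ∀ l < r, g 0 l + (o 2 - o 0) ≤ M₁ := fun l hl => by
    have h3 := hsM l (by omega)
    have := W.n2d l hl
    omega
  obtain ⟨P, hPP⟩ := hJ₀ J j0 F B hBp (Q := Q) (MB := MB) (k := k)
    (Z := kzF F c s r (o 1) Q v v' (G 0) (fun y => G 1 y r) (fun y => G 2 y r))
    (a := kaF F c s r (o 1) Q v (G 0) (fun y => G 1 y r))
    (E := fun ω => eL c s r (o 1) qe (frH F r q₀ (H 0) (slam F (o 1) ω)) (slam F (o 1) ω))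
    (X := Xe r qe) (Pf := Pfz c s r Q J D) (Pg := Pgz c s r (o 1) Q J D)
    (c := ctF F c s r (o 1) q₀ Q qe (H 0) (fun L => H 1 L r) vL)
    (s := scF F c s r (o 1) q₀ Q qe (G 0) (H 0))
    (ξ := fun L => xL c s r (o 1) Q (frH F r q₀ (H 0) L) L)
    (n := fun L => nL c s r (o 1) (H 1 L r) L) (Θ := Θ)
    (b := fun ω => (xd k (slam F (o 1)) (fun L => xL c s r (o 1) Q (frH F r q₀ (H 0) L) L) ω,
      ctF F c s r (o 1) q₀ Q qe (H 0) (fun L => H 1 L r) vL (slam F (o 1) ω))) (by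
    refine ⟨?_, ?_, ?_, ?_, ?_, ?_, ?_, ?_⟩
    · rw [← ho1]
      exact hTL.mono (by linarith)
    · rw [hμJ]
      linarith [hQ'.2]
    · rw [hμJ]
      linarith [hQ'.1]
    · rw [← ho1]
      refine (hcf W hC₂ hvL hql hqB).trans ?_
      have := mul_le_mul_of_nonneg_left hQ2 δ₂0.le
      linarith
    · exact htf
    · intro ω ω' hω hω' hkk
      have k0 : v ω = v ω' := congrArg (fun y => y.1.1) hkk
      have k3 : F.T ω = F.T ω' := congrArg (fun y => y.2.1) hkk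
      exact Prod.ext k3 (hvZ ω ω' hω hω' k0)
    · rw [← ho1]
      intro ω ω' _ _ hkk
      simp only [Prod.mk.injEq] at hkk ⊢
      exact ⟨hkk.1, hkk.2.1⟩
    · intro M' hM' hMQ B' hB' hP' i j hij hj
      have hB'A : Sub B' A := fun ω hω => hBA ω (hB' ω hω)
      have hPB' : κ * c₀ * Pe F.p A ≤ Pe F.p B' := by
        refine le_trans ?_ hP'
        rw [mul_comm κ c₀, mul_assoc]
        exact mul_le_mul_of_nonneg_left hB c₀0.le
      obtain ⟨hB'p, -⟩ := hP B' hB'A hPB'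
      have hM'CM : M' ≤ CM := by
        have h3 : M' * Q ≤ CM * Q := hMQ.trans hMB
        exact Nat.le_of_mul_le_mul_right h3 hQp
      have hraw' := hR B' hB'A hPB' M' hM' hM'CM i j hij hj
      have hfu' := hFu B' hB'A hPB' _ (zB F r G) (zBL F r o H) (fun ω hω => by
        rw [← ho2]
        exact zB_cl (W.sub hB') (fun ω hω => hcl2 ω (hB' ω hω)) hω)
      rw [← ho2] at hfu'
      obtain ⟨n₀, hn₀⟩ : ∃ n₀ : ℕ, n₀ = ⌈(CM + 1) * τ * J⌉₊ + 1 := ⟨_, rfl⟩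
      have hn1 : (CM + 1) * τ * J + 1 ≤ n₀ := by
        rw [hn₀]
        push_cast
        have := Nat.le_ceil ((CM + 1) * τ * (J : ℝ))
        linarith
      have hn2 : (n₀ : ℝ) ≤ (CM + 1) * τ * J + 2 := by
        rw [hn₀]
        push_cast
        have := Nat.ceil_lt_add_one (show 0 ≤ (CM + 1) * τ * (J : ℝ) by positivity)
        linarith
      have hM'R : (1 : ℝ) ≤ M' := by exact_mod_cast hM'
      have hM'R2 : (M' : ℝ) ≤ CM := by exact_mod_cast hM'CM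
      have hb1 : (i : ℝ) ≤ j := by exact_mod_cast hij
      have hb2 : (j : ℝ) ≤ N₁ := by exact_mod_cast hj
      have hc1 : μ * i / N₁ ≤ μ * j / N₁ :=
        div_le_div_of_nonneg_right (mul_le_mul_of_nonneg_left hb1 μ0.le) hN.le
      have hc2 : μ * j / N₁ ≤ μ := by
        rw [div_le_iff₀ hN]
        exact mul_le_mul_of_nonneg_left hb2 μ0.le
      have hc3 : 0 ≤ μ * i / N₁ := by positivity
      have hMQe : |(M' : ℝ) * Q - M' * μ₀ * J| ≤ CM * τ * J := by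
        have h3 : (M' : ℝ) * Q - M' * μ₀ * J = M' * (Q - μ₀ * J) := by ring
        rw [h3, abs_mul, Nat.abs_cast]
        have h4 : |(Q : ℝ) - μ₀ * J| ≤ τ * J := abs_le.2 hQ'
        calc (M' : ℝ) * |(Q : ℝ) - μ₀ * J| ≤ CM * (τ * J) :=
              mul_le_mul hM'R2 h4 (abs_nonneg _) hCM0
          _ = CM * τ * J := by ring
      have hMQe' := abs_le.1 hMQe
      have key := hrowf (vL := vL) (k := k) (M₁ := M₁) (n₀ := n₀) (M' := M')
        (f := fun i => ((1 - sa i) - ρ) * Real.log 2 * J)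
        (a := ⌊(σr + M' * μ₀ - μ * i / N₁) * J⌋₊) (b := ⌊(σr + M' * μ₀ - μ * j / N₁) * J⌋₊)
        (y := μ * j / N₁ * J) (y' := μ * i / N₁ * J) (W.sub hB') hB'p
        (fun ω hω => hcl2 ω (hB' ω hω)) hk (fun i hi => hfu' i (Nat.zero_le _) hi) hM1 hM2
        (by omega) (fun i hi => by have := hNn i (by omega); omega) hMQ (by positivity)
        (mul_le_mul_of_nonneg_right hc1 hJ0.le) (by
          have h3 := (Nat.lt_floor_add_one ((σr + M' * μ₀ - μ * i / N₁) * (J : ℝ))).le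
          push_cast
          have h4 : (σr + M' * μ₀ - μ * i / N₁) * (J : ℝ) = σr * J + M' * μ₀ * J -
            μ * i / N₁ * J := by ring
          have h5 : (CM + 1) * τ * (J : ℝ) = CM * τ * J + τ * J := by ring
          linarith [hs'.2, hMQe'.2]) (by
          have h6 : 0 ≤ (σr + M' * μ₀ - μ * j / N₁) * (J : ℝ) := by
            refine mul_nonneg ?_ hJ0.le
            have h7 : μ₀ ≤ M' * μ₀ := le_mul_of_one_le_left μ₀0.le hM'R
            linarith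
          have h3 := Nat.floor_le h6
          push_cast
          have h4 : (σr + M' * μ₀ - μ * j / N₁) * (J : ℝ) = σr * J + M' * μ₀ * J -
            μ * j / N₁ * J := by ring
          have h5 : (CM + 1) * τ * (J : ℝ) = CM * τ * J + τ * J := by ring
          linarith [hs'.1, hMQe'.1])
      rw [← ho1]
      refine key.trans ?_
      have e1 : ∑ i ∈ range r, (((J : ℝ) - (s i + Q : ℕ)) * Real.log 2 -
          ((1 - sa i) - ρ) * Real.log 2 * J) ≤ r * (τ * J + ρ * J) := by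
        refine (Finset.sum_le_sum (g := fun _ => τ * J + ρ * J) fun i hi => ?_).trans
          (le_of_eq ?_)
        · have h3 := hsa i (Finset.mem_range.1 hi)
          push_cast
          have h4 : ((J : ℝ) - (s i + Q)) * Real.log 2 - ((1 - sa i) - ρ) * Real.log 2 * J =
            (sa i * J - (s i + Q) + ρ * J) * Real.log 2 := by ring
          rw [h4]
          have h5 : sa i * J - (s i + Q) + ρ * J ≤ τ * J + ρ * J := by linarith
          have h6 : 0 ≤ τ * J + ρ * J := by positivity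
          exact (mul_le_mul_of_nonneg_right h5 hl2.le).trans (mul_le_of_le_one_right h6 hl21)
        · rw [Finset.sum_const, Finset.card_range, nsmul_eq_mul]
      have e2 : 2 * (((n₀ : ℝ) + 3) * Real.log 2) ≤ 2 * ((CM + 1) * τ * J) + 10 := by
        have : ((n₀ : ℝ) + 3) * Real.log 2 ≤ (n₀ : ℝ) + 3 :=
          mul_le_of_le_one_right (by positivity) hl21
        linarith
      have e3 : δ * (Q : ℝ) ≤ 2 * (δ * μ₀ * J) := by
        have h3 : (Q : ℝ) ≤ 2 * (μ₀ * J) := by linarith [hQ'.2]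
        have h4 := mul_le_mul_of_nonneg_left h3 δ0.le
        linarith
      have e4 : r * (ρ * J) ≤ δ * μ₀ * J := by
        have := mul_le_mul_of_nonneg_right hρr hJ0.le
        linarith
      have e5 : 2 * ((CM + 1) * τ * J) + r * (τ * J) ≤ δ * μ₀ * J := by
        have h3 := mul_le_mul_of_nonneg_right hτδ hJ0.le
        have h4 : (2 * CM + r + 5) * τ * (J : ℝ) = 2 * ((CM + 1) * τ * J) + r * (τ * J) +
          3 * (τ * J) := by ring
        have h5 : 0 ≤ τ * (J : ℝ) := by positivity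
        linarith
      have e6 : δ₁ * J ≤ δ * μ₀ * J := mul_le_mul_of_nonneg_right hδ₁ hJ0.le
      have e7 : 8 * (δ * μ₀ * J) ≤ δ₂ * μ * J := by
        have h3 : 8 * (δ * μ₀) ≤ δ₂ * μ₀ := by
          have := mul_le_mul_of_nonneg_right δδ₂ μ₀0.le
          linarith
        have h4 : δ₂ * μ₀ ≤ δ₂ * μ := mul_le_mul_of_nonneg_left (by linarith) δ₂0.le
        have h5 := mul_le_mul_of_nonneg_right (h3.trans h4) hJ0.le
        linarith
      have e8 : r * (τ * J + ρ * J) = r * (τ * J) + r * (ρ * J) := by ring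
      have e9 : ((1 - h) * (μ * j / N₁ - μ * i / N₁) * Real.log 2 + δ₂ * μ) * J =
        (1 - h) * (μ * j / N₁ - μ * i / N₁) * Real.log 2 * J + δ₂ * μ * J := by ring
      have e10 : ((1 - h) * (μ * j / N₁ - μ * i / N₁) * Real.log 2 + δ₁) * J =
        (1 - h) * (μ * j / N₁ - μ * i / N₁) * Real.log 2 * J + δ₁ * J := by ring
      rw [e9]
      rw [e10] at hraw'
      linarith)
  refine ⟨P, ?_⟩
  rw [← ho1] at hPP
  exact hPP

end Pool.V1E
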