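import Pool.Agent.H92.D2.Cen
import Pool.Agent.H3.D2G.RecJ
import Pool.Agent.H68.OWN.Jw

/-!
# The record of the end from the record of a window

`RecG.recE`: the record `RecE` from `RecG`, for a target over coordinates of slope one. `RecG.raw`:
the rows which are not full.
-/

set_option autoImplicit false

namespace Pool.PKG

open Finset Real
open Pool.Agent.H49.Ent Pool.Agent.H32.Dense Pool.STK Pool.KA Pool.KSAT Pool.K2S Pool.PB
open Pool.GEN Pool.S6C Pool.STAT Pool.CHT Pool.GRW Pool.ONE Pool.STA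
open Pool.LBT (LSys ThrOf)
open Pool.LEV (Law)
open Pool.ALL (RateOf)
open Pool.ISO (PtD lvN WinD)
open Pool.V1E (RecE vE)
open Pool.OWN68 (RawN rawN_of)
open Pool.D2R (BalD)

section

variable {m : ℕ} {S : PCl m} {al : ℝ} {g₀ : ℝ → ℝ} {P : List (Fin m) × Fin m → ℝ → ℝ → ℝ}
  {θ : ℝ} {P₂ : ℕ → List (Fin m) × Fin m → ℝ → ℝ → ℝ} {θ₂ Eb e₂ : ℕ → ℝ}
  {c : ℕ → Fin m} {Pt : ℝ → ℝ → ℝ} {r : ℝ → ℝ} {h K₀ g : ℝ} {L T : ℕ → ℝ → ℝ → ℝ}
  {Sl : ℕ → ℝ} {κ : ℕ → Kg} {G : Set ℝ} {S₀ N : ℕ} {A V : ℕ → ℝ} {S₂ N' : ℕ} {V' : ℕ → ℝ}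
  {K ε q t : ℝ}
  (R : RecG S al g₀ P θ P₂ θ₂ Eb e₂ c Pt r h K₀ g L T Sl κ G S₀ N A V S₂ N' V' K ε q t)
include R

/-- **The record of the end.** -/
theorem RecG.recE (hm : 2 ≤ m) (hκ : ∀ l < m - 1, κ l = .one) (hκt : κ (m - 1) = .stp) {k₁ : ℝ}
    (hN : 5 ≤ N) (hA : ∀ k ≤ 3, A k = Sl (m - 1) + 1) (hV : ∀ k ≤ 3, V k = vE k₁ k)
    (hA4 : A 4 = 1) (hV4 : V 4 = 0) (hε : 0 ≤ ε) (hkk : Sl (m - 1) + 2 ≤ k₁)
    (hkK : 2 * Sl (m - 1) + k₁ + 6 ≤ K) :
    RecE S P (P₂ (m - 1)) θ (θ₂ (m - 1)) c (m - 1) Pt S₂ (Sl (m - 1)) k₁ K (Eb (m - 1))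
      (e₂ (m - 1)) ε q t := by
  have W := R.tg (m - 1) (by omega) (by omega)
  have hlast := R.lv_last (by omega)
  have hkd := R.kd (m - 1) (by omega)
  rw [hκt] at hkd
  have hs2 : 2 < Sl (m - 1) := hkd.1
  have hq := R.q0
  have hlvL : ∀ l < m, ∀ a w : ℝ, lvN P c (m - 1) Pt l a w = L l a w := fun l hl a w => by
    rw [R.lv l hl]
  have hVb : ∀ k ≤ 3, -k₁ ≤ V k ∧ V k ≤ 3 / 2 := by
    intro k hk
    rw [hV k hk]
    interval_cases k
    · simp only [vE, if_true]
      constructor <;> linarith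
    · norm_num [vE]
      linarith
    · norm_num [vE]
      linarith
    · norm_num [vE]
      linarith
  have hK0 : 0 ≤ K := by linarith
  have hkq : k₁ * q + 2 * (Sl (m - 1) * q) + 6 * q ≤ K * q := by
    have := mul_le_mul_of_nonneg_right hkK hq.le
    linarith
  have hs2q : 2 * q < Sl (m - 1) * q := mul_lt_mul_of_pos_right hs2 hq
  have hk₁q : Sl (m - 1) * q + 2 * q ≤ k₁ * q := by
    have := mul_le_mul_of_nonneg_right hkk hq.le
    linarith
  have hVq : ∀ k ≤ 3, -(k₁ * q) ≤ V k * q ∧ V k * q ≤ 3 / 2 * q := fun k hk => by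
    have h1 := mul_le_mul_of_nonneg_right (hVb k hk).1 hq.le
    have h2 := mul_le_mul_of_nonneg_right (hVb k hk).2 hq.le
    exact ⟨by linarith, h2⟩
  have htt : |t - t| ≤ K * q := by
    rw [sub_self, abs_zero]
    exact mul_nonneg hK0 hq.le
  have ht0 := R.t0
  have ht1 := R.t1
  refine ⟨R.ne, R.thr, R.th0, W.thr₂, R.tmh, R.inj.mono fun x hx => ?_, R.law, W.Eb0.le, hq, hε,
    hkk, hkK, ht0, ht1, fun k hk => ?_, fun l hl x hx => ?_, fun x hx => ?_, fun l hl x hx => ?_,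
    W.eθ, W.Ebe, ?_, fun k hk => ?_, fun e he => ?_⟩
  · rw [Set.mem_Iio] at hx ⊢
    omega
  · have h1 := R.winD (i := m - 1) (by omega) (by omega) (k := k) (by omega)
      (by linarith [(hVb k hk).1]) (by rw [hA k hk]; linarith [(hVb k hk).2])
      (by rw [hA k hk]; linarith) (ε' := 3 * ε * q) le_rfl hε (Rg := fun _ => True)
      (fun l hl _ => Or.inl (hκ l hl))
    rw [hlast, hA k hk, hV k hk] at h1
    exact h1
  · have h1 := R.dL l (by omega) x hx
    have h2 := R.kd l (by omega)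
    rw [hκ l hl] at h2
    have h3 : Sl l = 1 := h2
    rw [h3, one_mul] at h1
    rw [hlvL l (by omega), hlvL l (by omega)]
    exact h1
  · have h1 := R.dL (m - 1) (by omega) x hx
    rw [hlast] at h1
    exact h1
  · have h1 := W.room l hl x hx
    rw [hlvL l (by omega)]
    exact h1
  · have h1 := hkd.2 (t + (Sl (m - 1) + 1) * q) t (by linarith) (by linarith) (by linarith)
    have h2 := (R.TL 1 (by omega) (m - 1) (by omega)).1
    have h3 := abs_le.1 (R.dT (m - 1) (by omega) t htt)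
    have e1 : V 1 = 0 := by
      rw [hV 1 (by norm_num)]
      simp [vE]
    rw [hA 1 (by norm_num), e1, hlast] at h2
    rw [hlast] at h3
    simp only [zero_mul, add_zero] at h2
    linarith [h3.1]
  · have h1 := hVq k hk
    rw [← hV k hk]
    have h2 := R.tgs.low ()
    exact ⟨h2 _ _ (by linarith) le_rfl (by linarith), h2 _ _ (by linarith) (by linarith)
      (by linarith)⟩
  · obtain ⟨d, hd, h1⟩ := W.ratN (k := 4) (by omega) e he
    refine ⟨d, hd, fun a' w' k1 k2 k3 k4 k5 => ?_⟩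
    rw [hA4, hV4, one_mul, zero_mul, add_zero, hlast] at h1
    exact h1 a' w' k1 k2 k3 k4 k5

/-- **The data of a ball window** of the chain. -/
theorem RecG.balD (hm : 2 ≤ m) (hS : S₀ ≤ S₂) {k : ℕ} (hk : k < N') {x : ℝ} (hx : V' k < x)
    (hxK : x - V' k ≤ K) (hVK : |V' k| ≤ K) :
    BalD S P θ c (m - 1) Pt (t + x * q) (t + V' k * q) S₂ (Eb (m - 1)) := by
  have W := R.tg (m - 1) (by omega) (by omega)
  have hlast := R.lv_last (by omega)
  have hq := R.q0
  have h1 : V' k * q < x * q := mul_lt_mul_of_pos_right hx hq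
  have h2 := (W.ptc k hk).mono hS
  rw [hlast] at h2
  obtain ⟨ρ, vs, e, e₀, E, sg, Q, k1, k2, -⟩ := h2
  refine ⟨by linarith, ⟨ρ, vs, e, e₀, E, sg, Q, k1, k2⟩, fun l hl => ?_⟩
  have h3 := W.room l hl (t + V' k * q) (by
    rw [add_sub_cancel_left, abs_mul, abs_of_pos hq]
    exact mul_le_mul_of_nonneg_right hVK hq.le)
  have h4 : lvN P c (m - 1) Pt l (t + V' k * q) (t + V' k * q) =
      L l (t + V' k * q) (t + V' k * q) := by rw [R.lv l (by omega)]
  have h5 : (x - V' k) * q ≤ K * q := mul_le_mul_of_nonneg_right hxK hq.le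
  have h6 : 0 ≤ K * q := by
    have := (abs_nonneg (V' k)).trans hVK
    positivity
  rw [h4]
  linarith

/-- **The rows which are not full.** -/
theorem RecG.raw (hm : 2 ≤ m) (hε : 0 < ε) {x y : ℝ} (hx0 : 0 ≤ x) (hy : 0 ≤ y)
    (hxK : x ≤ K * q) (hyK : y ≤ K * q) (hxL : x ≤ L (m - 1) t t) :
    RawN S ((range (m - 1)).image c) (c (m - 1)) (L (m - 1) t t - x) y h (2 * ε * q) := by
  have W := R.tg (m - 1) (by omega) (by omega)
  have hq := R.q0
  have hK0 : 0 ≤ K * q := hx0.trans hxK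
  have hroom := W.room (m - 1) le_rfl t (by rw [sub_self, abs_zero]; exact hK0)
  have hEb := W.Eb0
  have hεq : 0 < ε * q := mul_pos hε hq
  have hI : (univ.erase (c (m - 1)) : Finset (Fin m)) = (range (m - 1)).image c := by
    have hinj := R.inj
    have h1 : (range (m - 1)).image c ⊆ univ.erase (c (m - 1)) := by
      intro j hj
      obtain ⟨l, hl, rfl⟩ := mem_image.1 hj
      have hl' := mem_range.1 hl
      refine mem_erase.2 ⟨fun h2 => ?_, mem_univ _⟩
      have := hinj (show l ∈ Set.Iio m from Set.mem_Iio.2 (by omega))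
        (show m - 1 ∈ Set.Iio m from Set.mem_Iio.2 (by omega)) h2
      omega
    refine (Finset.eq_of_subset_of_card_le h1 ?_).symm
    rw [card_erase_of_mem (mem_univ _), card_univ, Fintype.card_fin,
      card_image_of_injOn, card_range]
    intro a ha b hb hab
    have ha' := mem_range.1 (mem_coe.1 ha)
    have hb' := mem_range.1 (mem_coe.1 hb)
    exact hinj (Set.mem_Iio.2 (by omega)) (Set.mem_Iio.2 (by omega)) hab
  rw [← hI]
  refine rawN_of R.tmc R.rate (δ := ε * q) (by linarith) (by linarith) (fun z hz0 hzy => ?_)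
    hεq.le (by linarith)
  have h1 := R.row (L (m - 1) t t - x + z) (L (m - 1) t t - x + y) (by
    rw [abs_le]
    constructor <;> linarith) (by
    rw [abs_le]
    constructor <;> linarith) (by linarith)
  have e1 : L (m - 1) t t - x + y - (L (m - 1) t t - x + z) = y - z := by ring
  rw [e1] at h1
  exact h1

end

end Pool.PKG
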