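import Pool.Agent.H92.D2.Ceh
import Pool.Agent.H60.ASM.GnM

/-!
# The cells over coordinates of slope one

`celQG_one`: the class theorem of the cell whose target is over `n - 1` coordinates of slope one.
-/

set_option autoImplicit false

namespace Pool.PKG

open Finset Real
open Pool.Agent.H49.Ent Pool.Agent.H32.Dense Pool.STK Pool.KA Pool.KSAT Pool.K2S Pool.PB
open Pool.GEN Pool.S6C Pool.STAT Pool.CHT Pool.GRW Pool.ONE Pool.STA
open Pool.LBT (LSys ThrOf)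
open Pool.LEV (Law)
open Pool.ALL (RateOf)
open Pool.ISO (PtD lvN WinD)
open Pool.V1E (RecE vE TlW NhW HImP HiN W4)
open Pool.D2R (BalD)
open Pool.LA91 (TlAt ChG StG lagG lstG epT slT FulC)

/-- The windows of the end with the ball window. -/
noncomputable def vE4 (k₁ v₄ : ℝ) (k : ℕ) : ℝ := if k = 4 then v₄ else vE k₁ k

/-- The end at one scale. -/
def X10J : Prop := ∀ (m r S₂ : ℕ) (_ : 1 ≤ r) (_ : 1 ≤ S₂) (s : ℝ) (_ : 2 < s), ∃ D : ℕ, 1 ≤ D ∧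
    ∀ Dr : ℕ, D ≤ Dr → ∃ (K' D' : ℕ) (C CB : ℝ), 1 ≤ K' ∧ 1 ≤ C ∧ C ≤ CB ∧
    D * (D + 1) ^ r ≤ K' ∧
    K' * (D + 1) ≤ D' ∧ D + 1 ≤ D' ∧ ∀ del : ℝ, 0 < del → ∃ δ : ℝ, 0 < δ ∧ δ ≤ 1 / 4 ∧
    ∃ h₀ : ℝ, 0 < h₀ ∧ ∀ h : ℝ, 0 < h → h ≤ h₀ →
    ∀ {S : PCl m} {P P₂ : List (Fin m) × Fin m → ℝ → ℝ → ℝ} {θ θ₂ : ℝ} {c : ℕ → Fin m}
    {Pt : ℝ → ℝ → ℝ} {k₁ K Eb e₂ ε q t κ K₂ v₄ : ℝ} {qf : ℕ → Fin r → ℕ},
    RecE S P P₂ θ θ₂ c r Pt S₂ s k₁ K Eb e₂ ε q t → -k₁ + 1 ≤ v₄ → v₄ ≤ 3 / 2 →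
    BalD S P θ c r Pt (t + (s + 1) * q) (t + v₄ * q) S₂ Eb → 3 * C * ε < h → 2 * ε ≤ h →
    (∀ (J : ℕ) (i : Fin r), ⌊s * q * J⌋₊ + (⌊(t + q) * J⌋₊ - ⌊t * J⌋₊) ≤ qf J i) → 0 < κ →
    0 ≤ K₂ →
    HImP S c r D Dr K' D' C (t + (s + 1) * q) Eb (3 * ε * q) (h * q) (h * q) (s * q) Pt
      (fun k => t + vE4 k₁ v₄ k * q)
      (fun k l => lvN P c r Pt l (t + vE4 k₁ v₄ k * q) (t + vE4 k₁ v₄ k * q))
      (fun k l => bet P c l (t + (s + 1) * q) (t + vE4 k₁ v₄ k * q)) κ qf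
      (W4 c r D Dr CB (t + (s + 1) * q) Eb (h * q) (fun k => t + vE4 k₁ v₄ k * q)
        (fun k l => lvN P c r Pt l (t + vE4 k₁ v₄ k * q) (t + vE4 k₁ v₄ k * q)) κ) δ K₂ →
    Pt (t + q) (t + q) ≤ Pt (t + q) t + del * q

/-- **The numbers** of the hyperplanes. -/
structure NhN (r : ℕ) {m : ℕ} (P : List (Fin m) × Fin m → ℝ → ℝ → ℝ) (c : ℕ → Fin m) (θ C CB Eb
    η₀ ζ δ C' : ℝ) (o : ℕ → ℝ) (lv : ℕ → ℕ → ℝ) (aq : ℚ) (e h gn : ℝ) : Prop where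
  C1 : 1 ≤ C
  η0 : 0 ≤ η₀
  ζ0 : 0 ≤ ζ
  E0 : 0 ≤ Eb
  gn0 : 0 ≤ gn
  o1 : 0 ≤ o 1
  o12 : o 1 < o 2
  δ0 : 0 < δ
  δ1 : δ ≤ 1
  lv1 : ∀ l < r, 0 ≤ lv 1 l
  oa : o 4 ≤ aq
  a1 : (aq : ℝ) ≤ 1
  eθ : e < θ * aq
  h0 : 0 < h
  be1 : ∀ l < r, bet P c l aq aq + h ≤ 1
  gain : ∀ l < r, bet P c l aq aq + h + o 4 < lv 1 l + (o 2 - o 1) + gn + aq
  lv0 : ∀ l < r, lv 1 l - o 1 - (lv 0 l - o 0) ≤ ζ
  lv4 : ∀ l < r, lv 1 l - o 1 - (lv 4 l - o 4) ≤ ζ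
  o24 : ζ + (CB + 1) * η₀ < o 4 - o 2
  sm : C' * (C * (ζ + η₀) + gn) < δ * (o 2 - o 1)
  e2 : Eb + 2 * η₀ + C' * (C * (ζ + η₀) + gn) < e
  top : ∀ l < r, Eb + 2 * η₀ + lv 1 l + (o 2 - o 1) + C' * (C * (ζ + η₀) + gn) < 1

def NHW : Prop := ∀ (D r : ℕ), 1 ≤ r → ∃ C' : ℝ, 1 ≤ C' ∧ ∀ {m Dr : ℕ} {S : PCl m}
    {P : List (Fin m) × Fin m → ℝ → ℝ → ℝ} {θ : ℝ} {c : ℕ → Fin m}
    {C CB a Eb ε₀ η₀ ζ mb : ℝ} {Pt : ℝ → ℝ → ℝ} {o : ℕ → ℝ} {lv be : ℕ → ℕ → ℝ} {κ : ℝ}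
    {qf : ℕ → Fin r → ℕ} {δ : ℝ} {aq : ℚ} {e h gn : ℝ}, ThrOf (chsys m θ) S P →
    (∀ ψ : ℝ, 0 < ψ → Bas S (fun J F A => 0 < Pe F.p A ∧ (J : ℝ) * Real.log 2 - ψ * J ≤
      CH (Pool.Agent.H49.Ent.cond F.p A True) F.T (fun ω => (F.l ω, F.Z ω)))) →
    NhN r P c θ C CB Eb η₀ ζ δ C' o lv aq e h gn →
    NhW S c r D Dr C a Eb ε₀ η₀ ζ mb Pt o lv be κ qf (W4 c r D Dr CB a Eb η₀ o lv κ) δ

/-- The property of the windows. -/
def QTl (n : ℕ) : PropG n (ℕ × ℚ × ℚ) := fun p k₀ S _ _ c _ _ L _ κ G x =>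
  0 < p.2.1 → p.2.1 ≤ 1 → 0 < p.2.2 → (∀ l < n - 1, κ l = .one) →
    ChG S c (n - 1) (fun i w => L i w w) G ∧
    ∀ k ≥ k₀, TlAt S c (n - 1) (fun i w => L i w w) G x p.1 p.2.1 p.2.2 k

/-- The numbers of the hyperplanes at one scale. -/
theorem RecG.nhN {r : ℕ} {S : PCl (r + 1)} {al : ℝ} {g₀ : ℝ → ℝ}
    {P : List (Fin (r + 1)) × Fin (r + 1) → ℝ → ℝ → ℝ} {θ : ℝ}
    {P₂ : ℕ → List (Fin (r + 1)) × Fin (r + 1) → ℝ → ℝ → ℝ} {θ₂ Eb e₂ : ℕ → ℝ}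
    {c : ℕ → Fin (r + 1)} {Pt : ℝ → ℝ → ℝ} {rt : ℝ → ℝ} {h K₀ g : ℝ} {L T : ℕ → ℝ → ℝ → ℝ}
    {Sl : ℕ → ℝ} {κ : ℕ → Kg} {G : Set ℝ} {S₀ N : ℕ} {A V : ℕ → ℝ} {S₂ N' : ℕ} {V' : ℕ → ℝ}
    {K ε q t : ℝ} {C CB k₁ v₀ δ C' ρ : ℝ} {v : ℕ → ℝ}
    (R : RecG S al g₀ P θ P₂ θ₂ Eb e₂ c Pt rt h K₀ g L T Sl κ G S₀ N A V S₂ N' V' K ε q t)
    (hr : 1 ≤ r) (hκ : ∀ l < r, κ l = .one) (hN' : 0 < N') (hV' : V' 0 = 1 + ρ) (hv0 : v 0 = -k₁)
    (hv1 : v 1 = 0) (hv2 : v 2 = 1) (hv4 : v 4 = 1 + ρ) (hC : 1 ≤ C) (hC' : 1 ≤ C')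
    (hδ : 0 < δ) (hδ1 : δ ≤ 1)
    (hv : 0 < v₀) (hρ0 : 0 < ρ) (hρ1 : ρ ≤ 1 / 2) (hρv : (CB + 2) * v₀ < ρ)
    (hs : C' * (2 * (C * v₀) + (ρ + 3 * v₀)) < δ) (hε0 : 0 ≤ ε) (hε : 2 * ε ≤ v₀)
    (hk₁ : 0 ≤ k₁) (hK : k₁ + 6 ≤ K) : ∃ aq : ℚ,
    NhN r (P₂ r) c (θ₂ r) C CB (Eb r) (v₀ * q) (v₀ * q) δ C' (fun k => t + v k * q)
      (fun k l => lvN P c r Pt l (t + v k * q) (t + v k * q)) aq (e₂ r) (v₀ * q)
      ((ρ + 3 * v₀) * q) := by
  have hq := R.q0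
  have W := R.tg r hr (by omega)
  have hv1' : v₀ ≤ 1 / 2 := by
    have h1 : C' * (2 * (C * v₀) + (ρ + 3 * v₀)) ≤ 1 := by linarith
    have h2 : 2 * (C * v₀) + (ρ + 3 * v₀) ≤ C' * (2 * (C * v₀) + (ρ + 3 * v₀)) :=
      le_mul_of_one_le_left (by positivity) hC'
    have h3 : 0 ≤ C * v₀ := by positivity
    linarith
  obtain ⟨X, hX⟩ : ∃ X : ℝ, X = C' * (2 * (C * v₀) + (ρ + 3 * v₀)) := ⟨_, rfl⟩
  have hXq : X * q < δ * q := by
    rw [hX]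
    exact mul_lt_mul_of_pos_right hs hq
  have hXe : C' * (C * (v₀ * q + v₀ * q) + (ρ + 3 * v₀) * q) = X * q := by rw [hX]; ring
  have hδq : δ * q ≤ q := by
    have := mul_le_mul_of_nonneg_right hδ1 hq.le
    linarith
  have hvq : 0 < v₀ * q := mul_pos hv hq
  have hvq1 : v₀ * q ≤ q / 2 := by
    have := mul_le_mul_of_nonneg_right hv1' hq.le
    linarith
  have hεq : 0 ≤ ε * q := mul_nonneg hε0 hq.le
  have hεvq : 2 * (ε * q) ≤ v₀ * q := by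
    have := mul_le_mul_of_nonneg_right hε hq.le
    linarith
  have hρq : 0 < ρ * q := mul_pos hρ0 hq
  have hρq1 : ρ * q ≤ q / 2 := by
    have := mul_le_mul_of_nonneg_right hρ1 hq.le
    linarith
  have hk₁q : 0 ≤ k₁ * q := mul_nonneg hk₁ hq.le
  have hKq : k₁ * q + 6 * q ≤ K * q := by
    have := mul_le_mul_of_nonneg_right hK hq.le
    linarith
  have ht0 := R.t0
  have ht1 := R.t1
  have e0 : t + v 0 * q = t - k₁ * q := by rw [hv0]; ring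
  have e1 : t + v 1 * q = t := by rw [hv1]; ring
  have e2 : t + v 2 * q = t + q := by rw [hv2]; ring
  have e4 : t + v 4 * q = t + q + ρ * q := by rw [hv4]; ring
  have e4' : t + V' 0 * q = t + q + ρ * q := by rw [hV']; ring
  have hlf : ∀ l < r + 1, ∀ y : ℝ, lvN P c r Pt l y y = L l y y := fun l hl y => by
    have := R.lv l hl
    rw [this]
    rfl
  obtain ⟨d, hd, hrat⟩ := W.ratc 0 hN' (ε * q + v₀ * q / 4) (by positivity)
  obtain ⟨aq, ha1, ha2⟩ : ∃ x : ℚ, t + q + ρ * q < x ∧ (x : ℝ) < t + q + ρ * q + min d q :=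
    exists_rat_btwn (by
      have : 0 < min d q := lt_min hd hq
      linarith)
  have m1 := min_le_left d q
  have m2 := min_le_right d q
  rw [e4'] at hrat
  have hb := hrat aq ha1.le (by linarith)
  have hx4 : |t + q + ρ * q - t| ≤ K * q := by
    rw [abs_le]
    constructor <;> linarith
  have hxa : |(aq : ℝ) - t| ≤ K * q := by
    rw [abs_le]
    constructor <;> linarith
  have hx0 : |t - k₁ * q - t| ≤ K * q := by
    rw [abs_le]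
    constructor <;> linarith
  have htt : |t - t| ≤ K * q := by
    rw [sub_self, abs_zero]
    linarith
  have hdL : ∀ l < r, ∀ x : ℝ, |x - t| ≤ K * q → |L l x x - L l t t - (x - t)| ≤ ε * q := by
    intro l hl x hx
    have h1 := R.dL l (by omega) x hx
    have h2 := R.kd l (by omega)
    rw [hκ l hl] at h2
    have h3 : Sl l = 1 := h2
    rw [h3, one_mul] at h1
    exact h1
  have hEb := W.Eb0
  refine ⟨aq, ⟨hC, hvq.le, hvq.le, hEb.le, by positivity, ?_, ?_, hδ, hδ1, fun l hl => ?_, ?_,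
    ?_, ?_, hvq, fun l hl => ?_, fun l hl => ?_, fun l hl => ?_, fun l hl => ?_, ?_, ?_, ?_,
    fun l hl => ?_⟩⟩
  · simp only [e1]; linarith
  · simp only [e1, e2]; linarith
  · simp only [e1, hlf l (by omega)]
    rw [R.lv_lt (l := l) (by omega)]
    have : t ≤ bet P c l t t := R.thr.low _ _ _ (by linarith) le_rfl (by linarith)
    linarith
  · simp only [e4]; linarith
  · linarith
  · exact W.eθ _ hxa
  · have h1 := hb l hl.le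
    have h2 := W.room l hl.le _ hx4
    linarith
  · simp only [e1, e2, e4, hlf l (by omega)]
    have h1 := hb l hl.le
    have h2 := abs_le.1 (hdL l hl _ hx4)
    linarith [h2.2]
  · simp only [e0, e1, hlf l (by omega)]
    have h2 := abs_le.1 (hdL l hl _ hx0)
    linarith [h2.1, h2.2]
  · simp only [e1, e4, hlf l (by omega)]
    have h2 := abs_le.1 (hdL l hl _ hx4)
    linarith [h2.1, h2.2]
  · simp only [e2, e4]
    have := mul_lt_mul_of_pos_right hρv hq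
    linarith
  · simp only [e1, e2, hXe]
    linarith
  · rw [hXe]
    have := W.Ebe
    linarith
  · simp only [e1, e2, hXe, hlf l (by omega)]
    have := W.room l hl.le t htt
    linarith

/-- A scale `2 ^ (-k)`. -/
theorem pow_near {q : ℝ} (hq0 : 0 < q) {k₀ : ℕ} (hq : q < (1 / 2) ^ k₀) :
    ∃ k : ℕ, k₀ ≤ k ∧ q ≤ 2 * (1 / 2) ^ k ∧ (1 / 2 : ℝ) ^ k ≤ q := by
  have h1 : ∃ k : ℕ, (1 / 2 : ℝ) ^ k ≤ q := by
    obtain ⟨k, hk⟩ := exists_pow_lt_of_lt_one hq0 (show (1 / 2 : ℝ) < 1 by norm_num)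
    exact ⟨k, hk.le⟩
  classical
  have h2 := Nat.find_spec h1
  have h3 := fun j (hj : j < Nat.find h1) => Nat.find_min h1 hj
  refine ⟨Nat.find h1, ?_, ?_, h2⟩
  · by_contra hcon
    push Not at hcon
    have h4 : (1 / 2 : ℝ) ^ k₀ ≤ (1 / 2) ^ Nat.find h1 :=
      pow_le_pow_of_le_one (by norm_num) (by norm_num) hcon.le
    linarith
  · rcases Nat.eq_zero_or_pos (Nat.find h1) with h4 | h4
    · rw [h4, pow_zero]
      have : (1 / 2 : ℝ) ^ k₀ ≤ 1 := pow_le_one₀ (by norm_num) (by norm_num)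
      linarith
    · have h5 := h3 (Nat.find h1 - 1) (by omega)
      push Not at h5
      have h6 : (1 / 2 : ℝ) ^ Nat.find h1 = (1 / 2) ^ (Nat.find h1 - 1) * (1 / 2) := by
        rw [← pow_succ]
        congr 1
        omega
      rw [h6]
      linarith

/-- **The class theorem of the cell over coordinates of slope one.** -/
theorem celQG_one (hX : X10J) (hNW : NHW) {r : ℕ} (hr : 1 ≤ r) {h : ℝ} (hh : 0 < h)
    (hh1 : h ≤ 1) {Sl : ℕ → ℝ} {κ : ℕ → Kg} (hκ : ∀ l < r, κ l = .one) (hκt : κ r = .stp)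
    (hs : 2 < Sl r) : CelQG (r + 1) r h Sl κ (QTl (r + 1)) := by
  intro al hal K₀ hK₀ del hdel S₀ hS₀
  obtain ⟨CM, hCM⟩ := exists_nat_gt (Sl r)
  obtain ⟨CT, hCT⟩ := exists_nat_ge (2 * Sl r + 7 * r + 18)
  obtain ⟨k₁, hk₁⟩ : ∃ k₁ : ℝ, k₁ = CT + 7 * r + 13 := ⟨_, rfl⟩
  obtain ⟨K, hK⟩ : ∃ K : ℝ, K = 2 * Sl r + k₁ + CM + 6 := ⟨_, rfl⟩
  have hr0 : (0 : ℝ) ≤ r := Nat.cast_nonneg r
  have hCT0 : (0 : ℝ) ≤ CT := Nat.cast_nonneg CT
  have hCM0 : (0 : ℝ) ≤ CM := Nat.cast_nonneg CM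
  refine ⟨K, 5, fun k => if k = 4 then 1 else Sl r + 1, fun k => if k = 4 then 0 else vE k₁ k,
    by linarith, fun k hk => ?_, fun S₂ hS₂ => ?_⟩
  · have h1 : -k₁ ≤ vE k₁ k ∧ vE k₁ k ≤ 3 / 2 := by
      unfold vE
      split_ifs
      · constructor <;> linarith
      · constructor <;> linarith
      · constructor <;> linarith
      · constructor <;> linarith
      · constructor <;> linarith
    by_cases hk4 : k = 4
    · simp only [hk4, if_true]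
      refine ⟨by linarith, by norm_num, by linarith⟩
    · simp only [hk4, if_false]
      refine ⟨by linarith [h1.1], by linarith [h1.2], by linarith⟩
  obtain ⟨D, hD, hX⟩ := hX (r + 1) r S₂ hr (hS₀.trans hS₂) (Sl r) hs
  obtain ⟨K', D', C, CB, hK', hC, hCB, hDK, hKD, hDD, hX⟩ := hX D le_rfl
  obtain ⟨δ₁, hδ₁, hδ₁4, h₀, hh₀, hX⟩ := hX del hdel
  obtain ⟨δ, C', hδ, hδ1, hC', hH⟩ := him_scale D r K' D' CM hr hK' hDK hKD hDD hh hh1 hδ₁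
  obtain ⟨C₂, hC₂, hN⟩ := hNW D r hr
  have hC0 : 0 < C := by linarith
  have hCB0 : 0 < CB := by linarith
  have hC'0 : 0 < C' := by linarith
  have hC₂0 : 0 < C₂ := by linarith
  obtain ⟨ρ, hρ⟩ : ∃ ρ : ℝ, ρ = min (1 / 2) (δ / (4 * C₂)) := ⟨_, rfl⟩
  have hρ0 : 0 < ρ := by rw [hρ]; positivity
  have hρ1 : ρ ≤ 1 / 2 := by rw [hρ]; exact min_le_left _ _
  have hρ2 : 4 * C₂ * ρ ≤ δ := by
    have : ρ ≤ δ / (4 * C₂) := by rw [hρ]; exact min_le_right _ _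
    rw [le_div_iff₀ (by positivity)] at this
    linarith
  obtain ⟨κT, hκT0, hκTδ⟩ : ∃ x : ℚ, (0 : ℝ) < x ∧ (x : ℝ) < δ := exists_rat_btwn hδ
  have hsl : 0 < slT r 1 κT := by
    unfold slT epT
    push_cast
    positivity
  have hep : 0 < epT r 1 κT := by
    unfold epT
    push_cast
    positivity
  obtain ⟨v₀, hv₀⟩ : ∃ v₀ : ℝ, v₀ = min h₀ (min (δ / (4 * (C' * C))) (min (slT r 1 κT / 2)
      (min (ρ / (2 * (CB + 2))) (δ / (4 * (C₂ * (2 * C + 3))))))) := ⟨_, rfl⟩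
  have hv0 : 0 < v₀ := by rw [hv₀]; positivity
  have hv1 : v₀ ≤ h₀ := by rw [hv₀]; exact min_le_left _ _
  have hv2 : 4 * (C' * C) * v₀ ≤ δ := by
    have : v₀ ≤ δ / (4 * (C' * C)) := by
      rw [hv₀]
      exact (min_le_right _ _).trans (min_le_left _ _)
    rw [le_div_iff₀ (by positivity)] at this
    linarith
  have hv3 : 2 * v₀ ≤ slT r 1 κT := by
    have : v₀ ≤ slT r 1 κT / 2 := by
      rw [hv₀]
      exact (min_le_right _ _).trans ((min_le_right _ _).trans (min_le_left _ _))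
    linarith
  have hv4 : 2 * (CB + 2) * v₀ ≤ ρ := by
    have : v₀ ≤ ρ / (2 * (CB + 2)) := by
      rw [hv₀]
      exact (min_le_right _ _).trans ((min_le_right _ _).trans ((min_le_right _ _).trans
        (min_le_left _ _)))
    rw [le_div_iff₀ (by positivity)] at this
    linarith
  have hv5 : 4 * (C₂ * (2 * C + 3)) * v₀ ≤ δ := by
    have : v₀ ≤ δ / (4 * (C₂ * (2 * C + 3))) := by
      rw [hv₀]
      exact (min_le_right _ _).trans ((min_le_right _ _).trans ((min_le_right _ _).trans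
        (min_le_right _ _)))
    rw [le_div_iff₀ (by positivity)] at this
    linarith
  obtain ⟨ε, hε⟩ : ∃ ε : ℝ, ε = min (v₀ / 2) (min (v₀ / (6 * C)) (min (epT r 1 κT / 4)
      (δ / (2 * (2 * CM + r + 5))))) := ⟨_, rfl⟩
  have hden : 0 < 2 * (CM : ℝ) + r + 5 := by positivity
  have hε0 : 0 < ε := by rw [hε]; positivity
  have hε1 : ε ≤ v₀ / 2 := by rw [hε]; exact min_le_left _ _
  have hε2 : 6 * C * ε ≤ v₀ := by
    have : ε ≤ v₀ / (6 * C) := by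
      rw [hε]
      exact (min_le_right _ _).trans (min_le_left _ _)
    rw [le_div_iff₀ (by positivity)] at this
    linarith
  have hε3 : 4 * ε ≤ epT r 1 κT := by
    have : ε ≤ epT r 1 κT / 4 := by
      rw [hε]
      exact (min_le_right _ _).trans ((min_le_right _ _).trans (min_le_left _ _))
    linarith
  have hε4 : 2 * ((2 * CM + r + 5) * ε) ≤ δ := by
    have : ε ≤ δ / (2 * (2 * CM + r + 5)) := by
      rw [hε]
      exact (min_le_right _ _).trans ((min_le_right _ _).trans (min_le_right _ _))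
    rw [le_div_iff₀ (by positivity)] at this
    linarith
  have hCε : 0 < C * ε := mul_pos hC0 hε0
  refine ⟨K, 1, fun _ => 1 + ρ, le_rfl, fun k _ => ⟨by linarith, by linarith⟩, ε, hε0, ?_⟩
  intro S g₀ P θ P₂ θ₂ Eb e₂ c Pt rt L T G g hG hg
  refine ⟨fun _ => (CT, 1, κT), 1, fun _ => (Sl r + 1) - CT - (7 * r + 11) / 2,
    fun _ => -(CT / 2 + 7 * r + 13), fun _ _ => by linarith, fun k₀ => ?_⟩
  refine ⟨(1 / 2) ^ k₀ 0, by positivity, fun q t x hq hx R => ?_⟩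
  obtain ⟨hxG, hx1, hx2, hxQ⟩ := hx 0 one_pos
  have hq0 := R.q0
  obtain ⟨k, hk0, hk1, hk2⟩ := pow_near hq0 hq
  obtain ⟨hCh, hTl⟩ := hxQ (by norm_num) (by norm_num) (by exact_mod_cast hκT0)
    (fun l hl => hκ l (by omega))
  have hlast : L r = Pt := R.lv_last (by omega)
  have hvE : ∀ k, vE4 k₁ (1 + ρ) k = if k = 4 then 1 + ρ else vE k₁ k := fun k => rfl
  have hmem := R.memG.1
  have hG0 : t + vE4 k₁ (1 + ρ) 0 * q ∈ G := (hmem 0 (by norm_num)).2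
  have hG2 : t + vE4 k₁ (1 + ρ) 2 * q ∈ G := (hmem 2 (by norm_num)).2
  have w0 : vE4 k₁ (1 + ρ) 0 = -k₁ := by simp [vE4, vE]
  have w1 : vE4 k₁ (1 + ρ) 1 = 0 := by simp [vE4, vE]
  have w2 : vE4 k₁ (1 + ρ) 2 = 1 := by simp [vE4, vE]
  have w4 : vE4 k₁ (1 + ρ) 4 = 1 + ρ := by simp [vE4]
  obtain ⟨qf, hqf, hHim⟩ := hH (Dr := D) (C := C) (k₁ := k₁) (κT := κT) (x := x 0) (v₀ := v₀)
    (σ := 1) (CT := CT) (k := k) (v := vE4 k₁ (1 + ρ)) (κ' := 1) 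
    (be := fun k l => bet P c l (t + (Sl r + 1) * q) (t + vE4 k₁ (1 + ρ) k * q))
    (Φ := W4 c r D D CB (t + (Sl r + 1) * q) (Eb r) (v₀ * q)
      (fun k => t + vE4 k₁ (1 + ρ) k * q)
      (fun k l => lvN P c r Pt l (t + vE4 k₁ (1 + ρ) k * q) (t + vE4 k₁ (1 + ρ) k * q)) 1)
    R hκ w0 w1 w2 hG0 hG2 hs hCM hC (by norm_num) (by norm_num) hκT0 hκTδ hv0
    (by linarith) hv3 hε0 (by linarith) hε3 hε4 hk₁ hCT hK.symm.le hk1 hk2 hx1
    (by linarith) hCh (hTl k hk0)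
  obtain ⟨aq, hNN⟩ := R.nhN hr hκ one_pos rfl w0 w1 w2 w4 hC hC₂ hδ hδ1 hv0 hρ0 hρ1
    (CB := CB) (by nlinarith) (by nlinarith) hε0.le (by linarith) (by linarith) (by linarith)
  have hNh := hHim (hN (R.tg r hr (by omega)).thr₂
    (fun ψ hψ => Pool.V1E.tmh_cond R.tmh hψ) hNN)
  have hRE := R.recE (k₁ := k₁) (by omega) (fun l hl => hκ l (by omega)) hκt (by norm_num)
    (fun k hk => if_neg (by omega)) (fun k hk => if_neg (by omega)) rfl rfl hε0.le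
    (by
      show Sl r + 2 ≤ k₁
      linarith) (by
      show 2 * Sl r + k₁ + 6 ≤ K
      linarith)
  have hBal := R.balD (k := 0) (x := Sl r + 1) (by omega) hS₂ one_pos (by linarith)
    (by linarith) (by
      rw [abs_le]
      constructor <;> linarith)
  rw [hlast]
  exact hX v₀ hv0 hv1 hRE (by linarith) (by linarith) hBal (by linarith) (by linarith) hqf
    one_pos zero_le_one hNh

end Pool.PKG

namespace Pool.ASM

open MeasureTheory Set Filter Topology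
open Pool.GEN Pool.PKG Pool.SW
open Pool.ONE (Ext0)
open Pool.MIC6

/-- **The cell over coordinates of slope one.** -/
theorem lCellA_ones {r : ℕ} (hr : 1 ≤ r) (hQ : AePG (r + 1) (QTl (r + 1))) (hX : X10J)
    (hNW : NHW) : LCellA (r + 1) (List.replicate r .one) := by
  refine lCellA_of_gq hQ (by simp) fun h h0 h1 Sl k1 k2 k3 => ?_
  have hlen : (List.replicate r Kd.one).length = r := by simp
  have hg : ∀ l < r, kgL (List.replicate r Kd.one) l = .one := fun l hl => by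
    rw [kgL_lt (by rw [hlen]; exact hl)]
    simp [ofKd]
  have ht : kgL (List.replicate r Kd.one) r = .stp := by
    have := kgL_len (List.replicate r Kd.one)
    rwa [hlen] at this
  rw [hlen] at k2 ⊢
  exact celQG_one hX hNW hr h0 h1 hg ht k2

end Pool.ASM
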