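import Pool.Agent.H73.D2.Tlx
import Pool.Agent.H91.FR.QpG
import Pool.Agent.H42.D2.Nhw

/-!
# The cells over coordinates of slope one

`lCellA_one_all`: for all classes, a target with slope above two and a steep box threshold over
`n - 1` coordinates of slope one has no drop. `lCellM_one_all`: the same for the windows of helper60.
-/

set_option autoImplicit false

namespace Pool.PKG

open Pool.LA91 (aePG_fa)

/-- **The property `QTl` holds at almost every window**, in a subclass. -/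
theorem aePG_tl (n : ℕ) : AePG n (QTl n) := by
  intro hn S P r P' Λ PB PQ H hTop hF o G hG hGs
  obtain ⟨S', h1, h2, h3⟩ := aePG_fa n hn S P r P' Λ PB PQ H hTop hF o G hG hGs
  refine ⟨S', h1, h2, ?_⟩
  filter_upwards [h3] with g h4 hg κ hκ p
  obtain ⟨k₀, h5⟩ := h4 hg κ hκ (n - 1, p)
  exact ⟨k₀, fun k1 k2 k3 k4 => ⟨h5.ch (n - 1) (by omega),
    h5.tl (by show n - 1 < n; omega) k4 k1 k2 k3⟩⟩

/-- **No hyperplanes.** -/
theorem nHW : NHW := by
  intro D r hr
  obtain ⟨C', hC', H⟩ := Pool.NHZ.nhW_cls D r hr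
  refine ⟨C', hC', ?_⟩
  intro m Dr S P θ c C CB a Eb ε₀ η₀ ζ mb Pt o lv be κ qf δ aq e h gn hP htm N
  exact H hP htm ⟨N.C1, N.η0, N.ζ0, N.E0, N.gn0, N.o1, N.o12, N.δ0, N.δ1, N.lv1, N.oa,
    by exact_mod_cast N.a1, N.eθ, N.h0, N.be1, N.gain, N.lv0, N.lv4, N.o24, N.sm, N.e2, N.top⟩

end Pool.PKG

namespace Pool.ASM

open Pool.PKG Pool.SW
open Pool.MIC6

/-- **The cell over coordinates of slope one**, for all classes. -/
theorem lCellA_one_all {n : ℕ} (hn : 2 ≤ n) : LCellA n (List.replicate (n - 1) .one) := by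
  obtain ⟨r, rfl⟩ : ∃ r, n = r + 1 := ⟨n - 1, by omega⟩
  exact lCellA_ones (by omega) (aePG_tl (r + 1)) Pool.V1E.x10J nHW

/-- **The cell over coordinates of slope one**, for the windows of helper60. -/
theorem lCellM_one_all {n : ℕ} (hn : 2 ≤ n) : LCellM n (List.replicate (n - 1) .one) :=
  (lCellA_one_all hn).v.m

end Pool.ASM
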