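import Pool.Agent.H92.D2.Ceg

/-!
# The labels of the tubes at one scale of the record

`RecG.himP`: for a target over coordinates of slope one, at one scale of the record, `HImP` from
`TlAt`, the chain at the windows of the set and `NhW`.
-/

set_option autoImplicit false

namespace Pool.PKG

open Finset Real
open Pool.Agent.H49.Ent Pool.Agent.H32.Dense Pool.STK Pool.KA Pool.KSAT Pool.K2S Pool.PB
open Pool.GEN Pool.S6C Pool.STAT Pool.CHT Pool.GRW Pool.ONE Pool.STA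
open Pool.LBT (LSys ThrOf)
open Pool.LEV (Law)
open Pool.ALL (RateOf)
open Pool.ISO (PtD lvN WinD)
open Pool.V1E (RecE vE TlW NhW HImP HiN him_cls hiN_num stg_ex tmh_cond)
open Pool.OWN68 (RawN rawN_of)
open Pool.LA91 (TlAt ChG StG lagG lstG epT slT FulC)

/-- **The labels of the tubes at one scale.** -/
theorem him_scale (D r K' D' CM : ℕ) (hr : 1 ≤ r) (hK' : 1 ≤ K') (hDK : D * (D + 1) ^ r ≤ K')
    (hKD : K' * (D + 1) ≤ D') (hDD : D + 1 ≤ D') {h : ℝ} (hh : 0 < h) (hh1 : h ≤ 1) {ε₁ : ℝ}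
    (hε₁ : 0 < ε₁) : ∃ δ C' : ℝ, 0 < δ ∧ δ ≤ 1 ∧ 1 ≤ C' ∧
    ∀ {S : PCl (r + 1)} {al : ℝ} {g₀ : ℝ → ℝ}
    {P : List (Fin (r + 1)) × Fin (r + 1) → ℝ → ℝ → ℝ} {θ : ℝ}
    {P₂ : ℕ → List (Fin (r + 1)) × Fin (r + 1) → ℝ → ℝ → ℝ} {θ₂ Eb e₂ : ℕ → ℝ}
    {c : ℕ → Fin (r + 1)} {Pt : ℝ → ℝ → ℝ} {rt : ℝ → ℝ} {K₀ g : ℝ} {L T : ℕ → ℝ → ℝ → ℝ}
    {Sl : ℕ → ℝ} {κ : ℕ → Kg} {G : Set ℝ} {S₀ N : ℕ} {A V : ℕ → ℝ} {S₂ N' : ℕ} {V' : ℕ → ℝ}
    {K ε q t : ℝ} {Dr CT k : ℕ} {C k₁ κT x v₀ : ℝ} {σ : ℚ} {v : ℕ → ℝ} {be : ℕ → ℕ → ℝ} {κ' : ℝ}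
    {Φ : Pool.V1E.Ext (r + 1)},
    RecG S al g₀ P θ P₂ θ₂ Eb e₂ c Pt rt h K₀ g L T Sl κ G S₀ N A V S₂ N' V' K ε q t →
    (∀ l < r, κ l = .one) → v 0 = -k₁ → v 1 = 0 → v 2 = 1 → t + v 0 * q ∈ G → t + v 2 * q ∈ G →
    2 < Sl r → Sl r < CM → 1 ≤ C → 0 < σ → σ ≤ 1 → 0 < κT → κT < δ → 0 < v₀ →
    2 * (C' * (C * v₀)) < δ → 2 * v₀ ≤ slT r σ κT → 0 < ε → ε ≤ v₀ → 4 * ε ≤ epT r σ κT →
    2 * ((2 * CM + r + 5) * ε) ≤ δ → k₁ = CT + 7 * r + 13 → 2 * Sl r + 7 * r + 18 ≤ CT →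
    2 * Sl r + k₁ + CM + 6 ≤ K → q ≤ 2 * (1 / 2) ^ k → (1 / 2) ^ k ≤ q →
    t + ((Sl r + 1) - CT - (7 * r + 11) / 2) * q ≤ x → x ≤ t - (CT / 2 + 7 * r + 13) * q →
    ChG S c r (fun i w => L i w w) G → TlAt S c r (fun i w => L i w w) G x CT σ κT k →
    ∃ qf : ℕ → Fin r → ℕ,
    (∀ (J : ℕ) (i : Fin r), ⌊Sl r * q * J⌋₊ + (⌊(t + q) * J⌋₊ - ⌊t * J⌋₊) ≤ qf J i) ∧
    (NhW S c r D Dr C (t + (Sl r + 1) * q) (Eb r) (3 * ε * q) (v₀ * q) (v₀ * q) (Sl r * q) Pt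
      (fun k => t + v k * q) (fun k l => lvN P c r Pt l (t + v k * q) (t + v k * q)) be κ' qf
      Φ δ →
    HImP S c r D Dr K' D' C (t + (Sl r + 1) * q) (Eb r) (3 * ε * q) (v₀ * q) (v₀ * q) (Sl r * q)
      Pt (fun k => t + v k * q) (fun k l => lvN P c r Pt l (t + v k * q) (t + v k * q)) be κ' qf
      Φ ε₁ 1) := by
  obtain ⟨δ, C', hδ0, hδ1, hC', H⟩ := him_cls D r K' D' CM hr hK' hDK hKD hDD hh hh1 hε₁
  refine ⟨δ, C', hδ0, hδ1, hC', ?_⟩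
  intro S al g₀ P θ P₂ θ₂ Eb e₂ c Pt rt K₀ g L T Sl κ G S₀ N A V S₂ N' V' K ε q t Dr CT k C k₁ κT
    x v₀ σ v be κ' Φ R hκ hv0 hv1 hv2 hG0 hG2 hs hCM hC hσ hσ1 hκT hκδ hv hX hsl hε hεv hεe hεδ
    hk₁ hCT hK hk1 hk2 hx1 hx2 hCh hTl
  have hq := R.q0
  have W := R.tg r hr (by omega)
  obtain ⟨s, hs'⟩ : ∃ s, s = Sl r := ⟨_, rfl⟩
  rw [← hs'] at hs hCM hCT hK hx1 ⊢
  obtain ⟨ρ, hρ⟩ : ∃ ρ : ℝ, ρ = (1 / 2) ^ k := ⟨_, rfl⟩
  have hρ0 : 0 < ρ := by rw [hρ]; positivity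
  have hk1' := hk1
  have hk2' := hk2
  rw [← hρ] at hk1' hk2'
  have hσ0 : (0 : ℝ) < σ := by exact_mod_cast hσ
  have hσ1' : (σ : ℝ) ≤ 1 := by exact_mod_cast hσ1
  have hr0 : (0 : ℝ) ≤ r := Nat.cast_nonneg r
  have hCT0 : (0 : ℝ) ≤ CT := Nat.cast_nonneg CT
  have hCM0 : (0 : ℝ) ≤ CM := Nat.cast_nonneg CM
  -- products
  have hsq : 2 * q < s * q := mul_lt_mul_of_pos_right hs hq
  have hrq : 0 ≤ (r : ℝ) * q := mul_nonneg hr0 hq.le
  have hCMq : 0 ≤ (CM : ℝ) * q := mul_nonneg hCM0 hq.le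
  have hk1q : k₁ * q = CT * q + 7 * (r * q) + 13 * q := by rw [hk₁]; ring
  have hKq : 2 * (s * q) + k₁ * q + CM * q + 6 * q ≤ K * q := by
    have := mul_le_mul_of_nonneg_right hK hq.le
    linarith
  have hCTq : 2 * (s * q) + 7 * (r * q) + 18 * q ≤ CT * q := by
    have := mul_le_mul_of_nonneg_right hCT hq.le
    linarith
  have hCTρ1 : CT * ρ ≤ CT * q := mul_le_mul_of_nonneg_left hk2' hCT0
  have hCTρ2 : CT * q ≤ 2 * (CT * ρ) := by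
    have := mul_le_mul_of_nonneg_left hk1' hCT0
    linarith
  have hrρ1 : (r : ℝ) * ρ ≤ r * q := mul_le_mul_of_nonneg_left hk2' hr0
  have hrρ2 : (r : ℝ) * q ≤ 2 * (r * ρ) := by
    have := mul_le_mul_of_nonneg_left hk1' hr0
    linarith
  have hsρ : (s + 1) * q ≤ 2 * ((s + 1) * ρ) := by
    have := mul_le_mul_of_nonneg_left hk1' (show 0 ≤ s + 1 by linarith)
    linarith
  -- the depths
  obtain ⟨P₁, hP₁, hP₂⟩ := stg_ex (d := r) (sn := fun i w => L i w w) (g := x)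
    (x := (s + 1) * q) (C := CT) hσ hρ (by positivity) (by
      have h1 : σ * ρ ≤ 1 * ρ := mul_le_mul_of_nonneg_right hσ1' hρ0.le
      have h2 : (3 * (r : ℝ) + 1) * (σ * ρ) ≤ (3 * r + 1) * (1 * ρ) :=
        mul_le_mul_of_nonneg_left h1 (by positivity)
      have h3 := mul_le_mul_of_nonneg_right hCT hρ0.le
      have h4 : 0 ≤ (r : ℝ) * ρ := mul_nonneg hr0 hρ0.le
      linarith)
  refine ⟨fun J i => ⌊(P₁ i - (L i x x - x)) * J⌋₊ + 1, fun J i => ?_, fun hNh => ?_⟩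
  · have hJ : (0 : ℝ) ≤ J := Nat.cast_nonneg J
    have ht0 := R.t0
    have h1 := hP₂ i
    have h2 := mul_le_mul_of_nonneg_right h1 hJ
    have f1 := Nat.floor_le (show 0 ≤ s * q * J by positivity)
    have f2 := Nat.floor_le (show 0 ≤ (t + q) * J from mul_nonneg (by linarith) hJ)
    have f3 := Nat.lt_floor_add_one (t * J)
    have f4 := Nat.lt_floor_add_one ((P₁ i - (L i x x - x)) * J)
    have hle : ⌊t * J⌋₊ ≤ ⌊(t + q) * J⌋₊ :=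
      Nat.floor_le_floor (mul_le_mul_of_nonneg_right (by linarith) hJ)
    have h3 : ((⌊s * q * J⌋₊ + (⌊(t + q) * J⌋₊ - ⌊t * J⌋₊) : ℕ) : ℝ) <
        ((⌊(P₁ i - (L i x x - x)) * J⌋₊ + 1 + 1 : ℕ) : ℝ) := by
      push_cast [Nat.cast_sub hle]
      linarith
    have h4 : ⌊s * q * J⌋₊ + (⌊(t + q) * J⌋₊ - ⌊t * J⌋₊) <
        ⌊(P₁ i - (L i x x - x)) * J⌋₊ + 1 + 1 := by exact_mod_cast h3
    show _ ≤ ⌊(P₁ i - (L i x x - x)) * J⌋₊ + 1
    omega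
  -- the class theorem
  have hlf : ∀ l < r + 1, ∀ y : ℝ, L l y y = lvN P c r Pt l y y := fun l hl y => by
    have := R.lv l hl
    rw [this]
    rfl
  have hvG0 : t + v 0 * q = t - k₁ * q := by rw [hv0]; ring
  have hvG1 : t + v 1 * q = t := by rw [hv1]; ring
  have hvG2 : t + v 2 * q = t + q := by rw [hv2]; ring
  have hlow : ∀ l < r + 1, ∀ y : ℝ, 0 ≤ y → y ≤ 1 → y ≤ L l y y := by
    intro l hl y hy hy1
    rcases Nat.lt_or_ge l r with h1 | h1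
    · rw [R.lv_lt (l := l) (by omega)]
      exact R.thr.low _ _ _ hy le_rfl hy1
    · have h2 : l = r := by omega
      rw [h2, show L r = Pt from R.lv_last (by omega)]
      exact R.tgs.low () _ _ hy le_rfl hy1
  have ht0 := R.t0
  have ht1 := R.t1
  have hTW : TlW S c r (fun i => L i x x - x) (fun i => (P₁ i : ℝ)) (fun i => (P₁ i : ℝ))
      (t + v 0 * q) (t + v 1 * q) (t + v 2 * q) (t + (s + 1) * q)
      (fun i => L i (t + v 0 * q) (t + v 0 * q) - slT r σ κT * (1 / 2) ^ k)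
      (epT r σ κT * (1 / 2) ^ k) (κT * (1 / 2) ^ k) := by
    refine TlW.of_at hTl hP₁ hP₁ hG0 ?_ ?_ ?_ ?_ ?_
    · rw [hvG0, ← hρ]
      linarith
    · rw [hvG0, hvG1]
      unfold lagG
      rw [← hρ]
      linarith
    · rw [hvG1, hvG2]
      linarith
    · rw [hvG2]
      linarith
    · unfold lstG
      rw [← hρ]
      linarith
  obtain ⟨u₁, rd, -, hchn⟩ := hCh.ch _ hG2
  have hful : FulC S c 0 r (t + v 2 * q) (fun i => L i (t + q) (t + q)) := by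
    have := hchn.ful
    simp only [hvG2] at this ⊢
    exact this
  obtain ⟨τ, hτ⟩ : ∃ τ : ℝ, τ = δ / (2 * CM + r + 5) := ⟨_, rfl⟩
  have hden : 0 < 2 * (CM : ℝ) + r + 5 := by positivity
  have hτ0 : 0 < τ := by rw [hτ]; positivity
  have hτ1 : τ ≤ 1 := by
    rw [hτ, div_le_one hden]
    linarith
  have hτq : 0 < τ * q := mul_pos hτ0 hq
  have hτq1 : τ * q ≤ q := by
    have := mul_le_mul_of_nonneg_right hτ1 hq.le
    linarith
  refine H (o := fun k => t + v k * q)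
    (lv := fun k l => lvN P c r Pt l (t + v k * q) (t + v k * q))
    (nt := fun i => L i x x - x) (P₁ := fun i => (P₁ i : ℝ)) (P₂ := fun i => (P₁ i : ℝ))
    (oo := t + (s + 1) * q) (hT := epT r σ κT * (1 / 2) ^ k) (κT := κT * (1 / 2) ^ k)
    (fr := fun i => L i (t + v 0 * q) (t + v 0 * q) - slT r σ κT * (1 / 2) ^ k)
    (τ := δ / (2 * CM + r + 5) * q)
    (p₀ := lvN P c r Pt r t t - δ / (2 * CM + r + 5) * q)
    (q₁ := CM * q + δ / (2 * CM + r + 5) * q) (δ₁ := 2 * ε * q)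
    (sa := fun i => L i (t + q) (t + q)) ?_ hTW hNh ?_ hful ?_
  · exact fun ψ hψ => tmh_cond R.tmh hψ
  · intro y hy hyq
    rw [← hlf r (by omega), ← hτ]
    rw [← hτ] at hyq
    refine R.raw (by omega) hε hτq.le hy (by linarith) (by linarith) ?_
    have := hlow r (by omega) t (by linarith) (by linarith)
    show τ * q ≤ L r t t
    linarith
  · refine hiN_num (lf := fun l y => lvN P c r Pt l y y) (sn := fun l y => L l y y) hv0 hv1 hv2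
      (fun l hl y => hlf l (by omega) y) hs hCM hC hC' hδ0 hδ1 hσ hκT hκδ hv hX hsl hε.le hεv hεe
      hεδ hq W.Eb0.le hk₁ hCT hK ht0 ht1 (fun l hl y hy => ?_) (fun l hl y hy => ?_)
      (fun l hl => ?_) hk1 hk2 ?_ hP₁ hP₂
    · have h1 := R.dL l (by omega) y hy
      have h2 := R.kd l (by omega)
      rw [hκ l hl] at h2
      have h3 : Sl l = 1 := h2
      rw [h3, one_mul, hlf l (by omega), hlf l (by omega)] at h1
      exact h1
    · have h1 := W.room l hl y hy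
      rw [hlf l (by omega)] at h1
      exact h1
    · have h1 := hlow l (by omega) t (by linarith) (by linarith)
      rw [hlf l (by omega)] at h1
      exact h1
    · rw [abs_le]
      constructor <;> linarith

end Pool.PKG
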