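import Pool.Agent.H92.D2.VitA

/-!
# All small scales

`crit_all`: numbers `t k w P` (scale `2 ^ (-k)`, window `w`, digits `P`). If at almost every critical
point there are infinitely many good scales, and the mixed increments at a small scale are at most
those at a good scale, then at almost every critical point all small scales are good.
-/

set_option autoImplicit false

namespace Pool.RCD

open MeasureTheory Set Filter Topology

/-- The functions `N₀` are flat at `g` up to the radius `x`. -/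
def FlatAt {ι : Type} (N₀ : ι → ℝ → ℝ) (η x g : ℝ) : Prop :=
  ∀ (i : ι) (y : ℝ), |y - g| ≤ x → |N₀ i y - N₀ i g| ≤ η * |y - g|

theorem FlatAt.mono {ι : Type} {N₀ : ι → ℝ → ℝ} {η x x' g : ℝ} (h : FlatAt N₀ η x g)
    (hx : x' ≤ x) : FlatAt N₀ η x' g := fun i y hy => h i y (hy.trans hx)

/-- Critical points are flat at small radii. -/
theorem flat_of_crit {ι : Type} [Finite ι] {N₀ : ι → ℝ → ℝ} {η g : ℝ} (hη : 0 < η)
    (h : ∀ i, HasDerivAt (N₀ i) 0 g) : ∃ n : ℕ, FlatAt N₀ η (1 / ((n : ℝ) + 1)) g := by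
  have hex : ∀ i, ∃ n : ℕ, ∀ y : ℝ, |y - g| ≤ 1 / ((n : ℝ) + 1) →
      |N₀ i y - N₀ i g| ≤ η * |y - g| := by
    intro i
    have hdi := h i
    rw [hasDerivAt_iff_isLittleO] at hdi
    have h3 := hdi.def hη
    rw [Metric.eventually_nhds_iff] at h3
    obtain ⟨δ, hδ, h3⟩ := h3
    obtain ⟨n, hn⟩ := exists_nat_one_div_lt hδ
    refine ⟨n, fun y hy => ?_⟩
    have h4 := h3 (y := y) (by rw [Real.dist_eq]; exact hy.trans_lt hn)
    simpa using h4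
  choose n hn using hex
  have := Fintype.ofFinite ι
  refine ⟨Finset.univ.sup n, fun i y hy => hn i y (hy.trans ?_)⟩
  have h1 : n i ≤ Finset.univ.sup n := Finset.le_sup (Finset.mem_univ i)
  have h2 : (n i : ℝ) ≤ ((Finset.univ.sup n : ℕ) : ℝ) := by exact_mod_cast h1
  exact one_div_le_one_div_of_le (by positivity) (by linarith)

/-- **The scale `2 ^ (-K)` at `g₀` dominates the small scales**: there is an antitone function of the
windows near `g₀`, of variation at most `κ' 2 ^ (-K)`, such that the mixed increments at small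
scales at flat points near `g₀ + lam₂ 2 ^ (-K)` are at most its increments. `lam₁ 2 ^ (-k)`,
`lam₂ 2 ^ (-K)`: the distances from the windows of the charts to the windows of the records. -/
def Dom {ι : Type} (N₀ : ι → ℝ → ℝ) (t : ℕ → ℚ → (ι → ℚ) → ℝ)
    (Adm : ℕ → ℝ → (ι → ℚ) → (ι → ℚ) → ℚ → ℚ → Prop) (lam₁ lam₂ : ℚ) (η C₃ : ℝ) (k₂ : ℕ)
    (κ' : ℝ) (K : ℕ) (g₀ : ℝ) : Prop :=
  ∃ Φ : ℚ → ℝ, (∀ W W' : ℚ, g₀ - (1 / 2) ^ K ≤ W → W ≤ W' → (W' : ℝ) ≤ g₀ + (1 / 2) ^ K →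
      Φ W' ≤ Φ W ∧ Φ W - Φ W' ≤ κ' * (1 / 2) ^ K) ∧
    ∀ g : ℝ, FlatAt N₀ η (C₃ * (1 / 2) ^ K) g → |g - (g₀ + lam₂ * (1 / 2) ^ K)| ≤ (1 / 2) ^ K / 2 →
      ∀ k ≥ K + k₂, ∀ (P P' : ι → ℚ) (w w' : ℚ), Adm k g P P' w w' →
        (t k w P' - t k w P) - (t k w' P' - t k w' P) ≤
          Φ (w + lam₁ * (1 / 2) ^ k - lam₂ * (1 / 2) ^ K) -
            Φ (w' + lam₁ * (1 / 2) ^ k - lam₂ * (1 / 2) ^ K)

/-- **All small scales are good**, at almost every critical point. -/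
theorem crit_all {ι : Type} [Finite ι] {N₀ : ι → ℝ → ℝ} {t : ℕ → ℚ → (ι → ℚ) → ℝ}
    {Adm : ℕ → ℝ → (ι → ℚ) → (ι → ℚ) → ℚ → ℚ → Prop} {lam₁ lam₂ : ℚ} {η C C₃ κ A B : ℝ} {k₂ : ℕ}
    (hlam₁ : 0 ≤ lam₁) (hlam₂ : 0 ≤ lam₂) (hη : 0 < η) (hC : 0 < C) (hκ : 0 < κ) (hC₃ : 0 < C₃)
    (hAdm : ∀ k g P P' w w', Adm k g P P' w w' → g - C * (1 / 2) ^ k ≤ w ∧ w ≤ w' ∧
      (w' : ℝ) ≤ g + C * (1 / 2) ^ k)
    (h : ∀ᵐ g₀ : ℝ, g₀ ∈ Ioo A B → (∀ i, HasDerivAt (N₀ i) 0 g₀) → ∀ κ' : ℝ, 0 < κ' → ∀ K : ℕ,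
      ∃ k ≥ K, Dom N₀ t Adm lam₁ lam₂ η C₃ k₂ κ' k g₀) :
    ∀ᵐ g : ℝ, g ∈ Ioo A B → (∀ i, HasDerivAt (N₀ i) 0 g) → ∃ K : ℕ, ∀ k ≥ K,
      ∀ (P P' : ι → ℚ) (w w' : ℚ), Adm k g P P' w w' →
        (t k w P' - t k w P) - (t k w' P' - t k w' P) ≤ κ * (1 / 2) ^ k := by
  obtain ⟨s, hs⟩ : ∃ s : ℕ → Set ℝ, s = fun n : ℕ => {g | (g ∈ Ioo A B ∧
      ∀ i, HasDerivAt (N₀ i) 0 g) ∧ FlatAt N₀ η (1 / ((n : ℝ) + 1)) g ∧
      ∀ K : ℕ, ∃ k ≥ K, ∃ (P P' : ι → ℚ) (w w' : ℚ), Adm k g P P' w w' ∧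
        κ * (1 / 2) ^ k < (t k w P' - t k w P) - (t k w' P' - t k w' P)} := ⟨_, rfl⟩
  have hnull : ∀ n, volume (s n) = 0 := by
    intro n
    refine vit_all (lam := lam₂) (κ := κ) (C := C + lam₁) (by exact_mod_cast hlam₂) hκ (by
      have : (0 : ℝ) ≤ lam₁ := by exact_mod_cast hlam₁
      linarith) ?_
    filter_upwards [h] with g₀ hg hgs κ' hκ' K
    rw [hs] at hgs
    obtain ⟨⟨g1, g2⟩, -, -⟩ := hgs
    obtain ⟨K₁, hK₁⟩ := exists_pow_lt_of_lt_one (show 0 < 1 / ((n : ℝ) + 1) / C₃ by positivity)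
      (show (1 / 2 : ℝ) < 1 by norm_num)
    obtain ⟨k, hk, Φ, h1, h2⟩ := hg g1 g2 κ' hκ' (max K K₁)
    refine ⟨k, (le_max_left _ _).trans hk, ?_⟩
    have hflat : C₃ * (1 / 2) ^ k ≤ 1 / ((n : ℝ) + 1) := by
      have h3 : ((1 : ℝ) / 2) ^ k ≤ (1 / 2) ^ K₁ :=
        pow_le_pow_of_le_one (by norm_num) (by norm_num) ((le_max_right _ _).trans hk)
      have h4 := h3.trans_lt hK₁
      rw [lt_div_iff₀ hC₃] at h4
      linarith
    have hr0 : (0 : ℝ) < (1 / 2) ^ k := by positivity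
    refine ⟨fun v => Φ (v - lam₂ * (1 / 2) ^ k), ?_, ?_⟩
    · intro v v' c1 c2 c3
      refine h1 _ _ ?_ (sub_le_sub_right c2 _) ?_
      · push_cast
        linarith
      · push_cast
        linarith
    · intro g hg' c1 c2 ρ hρ
      rw [hs] at hg'
      obtain ⟨-, d2, d3⟩ := hg'
      obtain ⟨K₂, hK₂⟩ := exists_pow_lt_of_lt_one hρ (show (1 / 2 : ℝ) < 1 by norm_num)
      obtain ⟨j, hj, P, P', w, w', e1, e2⟩ := d3 (max (k + k₂) K₂)
      obtain ⟨f1, f2, f3⟩ := hAdm _ _ _ _ _ _ e1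
      have e3 := h2 g (d2.mono hflat) (by
        rw [abs_le]
        constructor <;> linarith) j ((le_max_left _ _).trans hj) P P' w w' e1
      refine ⟨(1 / 2) ^ j, by positivity, ?_, w + lam₁ * (1 / 2) ^ j, w' + lam₁ * (1 / 2) ^ j,
        ?_, by linarith, ?_, ?_⟩
      · refine lt_of_le_of_lt ?_ hK₂
        exact pow_le_pow_of_le_one (by norm_num) (by norm_num) ((le_max_right _ _).trans hj)
      · push_cast
        have : (0 : ℝ) ≤ lam₁ * (1 / 2) ^ j := by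
          have h5 : (0 : ℝ) ≤ lam₁ := by exact_mod_cast hlam₁
          positivity
        rw [add_mul]
        linarith
      · push_cast
        rw [add_mul]
        linarith
      · exact e2.le.trans e3
  have hU : volume (⋃ n, s n) = 0 := measure_iUnion_null hnull
  have hae : ∀ᵐ g : ℝ, g ∉ ⋃ n, s n := by
    rw [ae_iff]
    have e1 : {a | ¬ a ∉ ⋃ n, s n} = ⋃ n, s n := by
      ext x
      simp only [mem_ofPred_eq, not_not]
    rw [e1]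
    exact hU
  filter_upwards [hae] with g hg hAB hd
  by_contra hcon
  push Not at hcon
  obtain ⟨n, hn⟩ := flat_of_crit hη hd
  refine hg (mem_iUnion.2 ⟨n, ?_⟩)
  rw [hs]
  exact ⟨⟨hAB, hd⟩, hn, fun K => by
    obtain ⟨k, h1, P, P', w, w', h2, h3⟩ := hcon K
    exact ⟨k, h1, P, P', w, w', h2, h3⟩⟩

end Pool.RCD
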