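import Pool.Agent.H92.D2.Him
import Pool.Agent.H73.D2.Tlu

/-!
# The numbers of the end at one scale

`stg_ex`: depths for the directions, which decrease along the chain. `hiN_num`: the numbers `HiN` at
the windows of the end.
-/

set_option autoImplicit false

namespace Pool.V1E

open Finset Real
open Pool.LA91 (StG lagG lstG epT slT)

/-- **Depths** for the directions of a chain, which decrease along the chain. -/
theorem stg_ex {d : ℕ} {sn : ℕ → ℝ → ℝ} {g x ρ : ℝ} {C : ℕ} {σ : ℚ} {k : ℕ} (hσ : 0 < σ)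
    (hρ : ρ = (1 / 2) ^ k) (hx0 : 0 ≤ x) (hx : x + (3 * d + 1) * (σ * ρ) ≤ C * ρ) :
    ∃ P : Fin d → ℚ, StG d sn g C σ k P ∧ ∀ i, x ≤ P i - (sn i g - g) := by
  have hρ0 : 0 < ρ := by rw [hρ]; positivity
  have hσ0 : (0 : ℝ) < σ := by exact_mod_cast hσ
  have hσρ : 0 < σ * ρ := mul_pos hσ0 hρ0
  have h1 : ∀ i : Fin d, ∃ P : ℚ, sn i g - g + x + 3 * (d - (i : ℕ)) * (σ * ρ) < P ∧
      (P : ℝ) < sn i g - g + x + 3 * (d - (i : ℕ)) * (σ * ρ) + σ * ρ := fun i =>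
    exists_rat_btwn (by linarith)
  choose P hP1 hP2 using h1
  have hi : ∀ i : Fin d, ((i : ℕ) : ℝ) + 1 ≤ d := fun i => by
    have := i.2
    exact_mod_cast this
  have hm : ∀ i : Fin d, 0 ≤ 3 * ((d : ℝ) - (i : ℕ)) * (σ * ρ) := fun i =>
    mul_nonneg (by linarith [hi i]) hσρ.le
  refine ⟨P, ⟨fun i => ?_, fun i => ?_, fun l i hli => ?_⟩, fun i => ?_⟩
  · linarith [hP1 i, hm i]
  · have h2 : 3 * ((d : ℝ) - (i : ℕ)) * (σ * ρ) ≤ 3 * d * (σ * ρ) := by
      refine mul_le_mul_of_nonneg_right ?_ hσρ.le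
      linarith [(Nat.cast_nonneg (i : ℕ) : (0 : ℝ) ≤ (i : ℕ))]
    rw [← hρ]
    linarith [hP2 i]
  · have h2 : 3 * ((d : ℝ) - (i : ℕ)) * (σ * ρ) + 3 * (σ * ρ) ≤ 3 * ((d : ℝ) - (l : ℕ)) * (σ * ρ) := by
      have h3 : ((l : ℕ) : ℝ) + 1 ≤ (i : ℕ) := by exact_mod_cast hli
      have h4 := mul_le_mul_of_nonneg_right h3 hσρ.le
      linarith
    rw [mul_assoc, ← hρ]
    linarith [hP2 i, hP1 l]
  · linarith [hP1 i, hm i]

/-- **The numbers** of the windows of the end. -/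
theorem hiN_num {r CM CT : ℕ} {s C Eb δ C' h ε q t K k₁ κT : ℝ} {σ : ℚ} {lf sn : ℕ → ℝ → ℝ} {k : ℕ}
    {g : ℝ} {P₁ : Fin r → ℚ} {v : ℕ → ℝ} (hv0 : v 0 = -k₁) (hv1 : v 1 = 0) (hv2 : v 2 = 1)
    (hsn : ∀ l < r, ∀ x : ℝ, sn l x = lf l x) (hs : 2 < s) (hCM : s < CM) (hC : 1 ≤ C) (hC' : 1 ≤ C')
    (hδ0 : 0 < δ) (hδ1 : δ ≤ 1) (hσ : 0 < σ) (hκT : 0 < κT) (hκδ : κT < δ) (hh : 0 < h)
    (h1 : 2 * (C' * (C * h)) < δ) (h2 : 2 * h ≤ slT r σ κT) (hε0 : 0 ≤ ε) (hεh : ε ≤ h)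
    (hε1 : 4 * ε ≤ epT r σ κT) (hε2 : 2 * ((2 * CM + r + 5) * ε) ≤ δ) (hq : 0 < q)
    (hEb : 0 ≤ Eb) (hk₁ : k₁ = CT + 7 * r + 13) (hCT : 2 * s + 7 * r + 18 ≤ CT)
    (hK : 2 * s + k₁ + CM + 6 ≤ K) (ht0 : 0 < t - K * q) (ht1 : t + K * q < 1)
    (hlv : ∀ l < r, ∀ x : ℝ, |x - t| ≤ K * q → |lf l x - lf l t - (x - t)| ≤ ε * q)
    (hroom : ∀ l ≤ r, ∀ x : ℝ, |x - t| ≤ K * q → lf l x + Eb + 3 * K * q < 1)
    (hlow : ∀ l ≤ r, t ≤ lf l t) (hk1 : q ≤ 2 * (1 / 2) ^ k) (hk2 : (1 / 2) ^ k ≤ q)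
    (hg : |g - t| ≤ K * q) (hP₁ : StG r sn g CT σ k P₁)
    (hP₂ : ∀ i, (s + 1) * q ≤ P₁ i - (sn i g - g)) :
    HiN r CM C Eb (h * q) (h * q) (s * q) δ C' (fun k => t + v k * q)
      (fun k l => lf l (t + v k * q)) (fun J i => ⌊(P₁ i - (sn i g - g)) * J⌋₊ + 1)
      (fun i => sn i g - g) (fun i => (P₁ i : ℝ)) (fun i => (P₁ i : ℝ)) (t + (s + 1) * q)
      (fun l => sn l (t + v 0 * q) - slT r σ κT * (1 / 2) ^ k) (epT r σ κT * (1 / 2) ^ k)
      (κT * (1 / 2) ^ k) (δ / (2 * CM + r + 5) * q) (lf r t - δ / (2 * CM + r + 5) * q)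
      (CM * q + δ / (2 * CM + r + 5) * q) (2 * ε * q) (fun i => sn i (t + q)) := by
  have e0 : t + v 0 * q = t - k₁ * q := by rw [hv0]; ring
  have e1 : t + v 1 * q = t := by rw [hv1]; ring
  have e2 : t + v 2 * q = t + q := by rw [hv2]; ring
  obtain ⟨ρ, hρ⟩ : ∃ ρ : ℝ, ρ = (1 / 2) ^ k := ⟨_, rfl⟩
  have hP1' := hP₁.2.1
  rw [← hρ] at hk1 hk2
  rw [← hρ] at hP1'
  have hρ0 : 0 < ρ := by rw [hρ]; positivity
  have hσ0 : (0 : ℝ) < σ := by exact_mod_cast hσ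
  have hep : 0 < epT r σ κT := by
    unfold epT
    positivity
  have hsl : 0 < slT r σ κT := by
    unfold slT
    positivity
  have hr0 : (0 : ℝ) ≤ r := Nat.cast_nonneg r
  have hCM0 : (0 : ℝ) ≤ CM := Nat.cast_nonneg CM
  have hCT0 : (0 : ℝ) ≤ CT := Nat.cast_nonneg CT
  have hden : 0 < 2 * (CM : ℝ) + r + 5 := by positivity
  obtain ⟨τ, hτ⟩ : ∃ τ : ℝ, τ = δ / (2 * CM + r + 5) := ⟨_, rfl⟩
  have hτ0 : 0 < τ := by rw [hτ]; positivity
  have hτd : (2 * CM + r + 5) * τ = δ := by rw [hτ]; field_simp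
  have hτ1 : τ ≤ 1 / 5 := by
    have h3 : 5 * τ ≤ (2 * CM + r + 5) * τ := mul_le_mul_of_nonneg_right (by linarith) hτ0.le
    linarith
  have hετ : 2 * ε ≤ τ := by
    by_contra hcon
    push Not at hcon
    have h3 := mul_lt_mul_of_pos_left hcon hden
    linarith
  -- products with `q`
  have hhq : 0 < h * q := mul_pos hh hq
  have hεq : 0 ≤ ε * q := mul_nonneg hε0 hq.le
  have hεhq : ε * q ≤ h * q := mul_le_mul_of_nonneg_right hεh hq.le
  have hX0 : 0 ≤ C' * (C * (h * q)) := by positivity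
  have hX1 : 2 * (C' * (C * (h * q))) < δ * q := by
    have := mul_lt_mul_of_pos_right h1 hq
    linarith
  have hδq : δ * q ≤ q := by
    have := mul_le_mul_of_nonneg_right hδ1 hq.le
    linarith
  have hhX : h * q ≤ C' * (C * (h * q)) := by
    have h3 : h * q ≤ C * (h * q) := le_mul_of_one_le_left hhq.le hC
    exact h3.trans (le_mul_of_one_le_left (by positivity) hC')
  have hsq : 2 * q < s * q := mul_lt_mul_of_pos_right hs hq
  have hk1q : k₁ * q = CT * q + 7 * (r * q) + 13 * q := by rw [hk₁]; ring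
  have hrq : 0 ≤ (r : ℝ) * q := mul_nonneg hr0 hq.le
  have hCMq : 0 ≤ (CM : ℝ) * q := mul_nonneg hCM0 hq.le
  have hCTq : 2 * (s * q) + 7 * (r * q) + 18 * q ≤ CT * q := by
    have := mul_le_mul_of_nonneg_right hCT hq.le
    linarith
  have hKq : 2 * (s * q) + k₁ * q + CM * q + 6 * q ≤ K * q := by
    have := mul_le_mul_of_nonneg_right hK hq.le
    linarith
  have hK0 : 0 ≤ K * q := by linarith
  have hb0 : |t + v 0 * q - t| ≤ K * q := by
    rw [e0, abs_le]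
    constructor <;> linarith
  have hb2 : |t + q - t| ≤ K * q := by
    rw [abs_le]
    constructor <;> linarith
  have htt : |t - t| ≤ K * q := by
    rw [sub_self, abs_zero]
    exact hK0
  have hCTρ : CT * ρ ≤ CT * q := mul_le_mul_of_nonneg_left hk2 hCT0
  have hτq : 0 < τ * q := mul_pos hτ0 hq
  have hτq1 : τ * q ≤ q / 5 := by
    have := mul_le_mul_of_nonneg_right hτ1 hq.le
    linarith
  have h1' : t - (t - k₁ * q) = k₁ * q := by ring
  rw [← hρ, ← hτ]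
  refine ⟨hC, hhq.le, hhq.le, by positivity, hEb, ?_, ?_, ?_, ?_, ?_, ?_, ?_, ?_, ?_, ?_, ?_,
    fun i => le_rfl, ?_, ?_, ?_, ?_, ?_, ?_, ?_, hτq, ?_, ?_, ?_, ?_, ?_, ?_, ?_, ?_, ?_⟩
  · simp only [e0]; linarith
  · simp only [e0, e1]; linarith
  · simp only [e1, e2]; linarith
  · intro l hl
    simp only [e1]
    linarith [hlow l hl]
  · simp only [e1, e2]
    have h3 : κT * ρ ≤ κT * q := mul_le_mul_of_nonneg_left hk2 hκT.le
    have h4 : κT * q < δ * q := mul_lt_mul_of_pos_right hκδ hq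
    linarith
  · positivity
  · intro i hi
    simp only [e1]
    have h3 := abs_le.1 (hlv i hi g hg)
    have h4 : 4 * ε * q ≤ epT r σ κT * (2 * ρ) :=
      mul_le_mul hε1 hk1 hq.le hep.le
    rw [hsn i hi, abs_le]
    constructor <;> linarith [h3.1, h3.2]
  · simp only [e2]; linarith
  · intro J i
    have hJ : (0 : ℝ) ≤ J := Nat.cast_nonneg J
    have h3 : 0 ≤ (P₁ i - (sn i g - g)) * J := mul_nonneg (by
      have := hP₂ i
      have h4 : 0 ≤ (s + 1) * q := by positivity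
      linarith) hJ
    have h4 := Nat.floor_le h3
    have h5 := Nat.lt_floor_add_one ((P₁ i - (sn i g - g)) * J)
    push_cast
    rw [abs_le]
    constructor <;> linarith
  · intro i
    simp only [e1, e2]
    have := hP₂ i
    linarith
  · intro i
    simp only [e1, e2]
    have := hP₂ i
    linarith
  · intro l hl
    have h3 : 2 * h * q ≤ slT r σ κT * (2 * ρ) := mul_le_mul h2 hk1 hq.le hsl.le
    rw [hsn l hl]
    linarith
  · intro i hi
    have h3 := abs_le.1 (hlv i hi _ hb0)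
    simp only [e0, e1] at h3 ⊢
    rw [abs_le]
    constructor <;> linarith [h3.1, h3.2]
  · intro l hl
    have h3 := hroom l hl.le _ hb0
    simp only [e0, e2] at h3 ⊢
    linarith
  · simp only [e0, e1, e2]
    linarith
  · intro i
    simp only [e0, e1]
    have := hP1' i
    linarith
  · simp only [e0]
    linarith
  · simp only [e1, e2]
    linarith
  · simp only [e1, e2]
    have h3 : (2 * CM + r + 5) * (τ * q) = δ * q := by rw [← mul_assoc, hτd]
    linarith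
  · simp only [e2]
    linarith
  · have := hlow r le_rfl
    linarith
  · simp only [e1]
    linarith
  · simp only [e1, e2]
    linarith
  · simp only [e1, e2]
    have h3 : 2 * ε * q ≤ τ * q := mul_le_mul_of_nonneg_right hετ hq.le
    have h4 : τ * q ≤ δ * q := by
      refine mul_le_mul_of_nonneg_right ?_ hq.le
      have : 1 * τ ≤ (2 * CM + r + 5) * τ := mul_le_mul_of_nonneg_right (by linarith) hτ0.le
      linarith
    linarith
  · intro i hi
    simp only [e1, e2]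
    have h3 := abs_le.1 (hlv i hi _ hb2)
    rw [hsn i hi]
    have h4 : 2 * ε * q ≤ τ * q := mul_le_mul_of_nonneg_right hετ hq.le
    linarith [h3.1, h3.2]
  · simp only [e1, e2]
    have : s * q < CM * q := mul_lt_mul_of_pos_right hCM hq
    linarith
  · intro l hl
    simp only [e1, e2]
    have h3 := hroom l hl _ htt
    linarith

end Pool.V1E
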