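import Pool.Agent.H23.LOV.Sup
import Mathlib

/-!
# Critical points, several exponents

`t w N`, for rational `w` and vectors `N` of rational numbers near `N₀ w`: the increments in `N` are
between `0` and `c ∑ (N' - N)` and they decrease with `w`. At almost every `g` at which all `N₀ i`
are critical the mixed increments on the boxes of size `C r` around `(g, N₀ g)` are `o (r)`
(`crit_vec`). If the functions `t k` depend on the scale `r = 2 ^ (-k)` the same holds for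
infinitely many `k` (`crit_freq`).
-/

set_option autoImplicit false

namespace Pool.RCD

open MeasureTheory Set Filter Topology

/-- Measure from pieces. -/
theorem vol_pieces {Bd : Set ℝ} {A B h M : ℝ} (hBd : Bd ⊆ Ioo A B) (hAB : A < B) (hh : 0 < h)
    (hM : 0 ≤ M) (hp : ∀ x : ℝ, volume (Bd ∩ Icc x (x + h)) ≤ ENNReal.ofReal (M * h)) :
    volume Bd ≤ ENNReal.ofReal ((B - A + h) * M) := by
  obtain ⟨k, hk⟩ : ∃ k : ℕ, k = ⌈(B - A) / h⌉₊ := ⟨_, rfl⟩
  have hk0 : 0 ≤ (B - A) / h := div_nonneg (by linarith) hh.le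
  have hk1 : (B - A) / h ≤ k := by rw [hk]; exact Nat.le_ceil _
  have hk2 : (k : ℝ) ≤ (B - A) / h + 1 := by
    rw [hk]
    exact (Nat.ceil_lt_add_one hk0).le
  have hsub : Bd ⊆ ⋃ i ∈ Finset.range k, (Bd ∩ Icc (A + i * h) (A + i * h + h)) := by
    intro w hw
    have hwM := hBd hw
    obtain ⟨i, hi⟩ : ∃ i : ℕ, i = ⌊(w - A) / h⌋₊ := ⟨_, rfl⟩
    have q0 : 0 ≤ (w - A) / h := div_nonneg (by linarith [hwM.1]) hh.le
    have q1 : (i : ℝ) ≤ (w - A) / h := by rw [hi]; exact Nat.floor_le q0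
    have q2 : (w - A) / h < (i : ℝ) + 1 := by rw [hi]; exact Nat.lt_floor_add_one _
    have q3 : (i : ℝ) * h ≤ w - A := (le_div_iff₀ hh).1 q1
    have q4 : w - A < ((i : ℝ) + 1) * h := (div_lt_iff₀ hh).1 q2
    have q5 : i < k := by
      have : (i : ℝ) < k := by
        refine q1.trans_lt (lt_of_lt_of_le ?_ hk1)
        exact div_lt_div_of_pos_right (by linarith [hwM.2]) hh
      exact_mod_cast this
    refine mem_biUnion (Finset.mem_coe.2 (Finset.mem_range.2 q5)) ⟨hw, ?_, ?_⟩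
    · linarith
    · linarith
  calc volume Bd ≤ volume (⋃ i ∈ Finset.range k, (Bd ∩ Icc (A + i * h) (A + i * h + h))) :=
        measure_mono hsub
    _ ≤ ∑ i ∈ Finset.range k, volume (Bd ∩ Icc (A + i * h) (A + i * h + h)) :=
        measure_biUnion_finset_le _ _
    _ ≤ ∑ _i ∈ Finset.range k, ENNReal.ofReal (M * h) :=
        Finset.sum_le_sum fun i _ => hp _
    _ = ENNReal.ofReal ((k : ℝ) * (M * h)) := by
        rw [Finset.sum_const, Finset.card_range, nsmul_eq_mul,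
          ENNReal.ofReal_mul (p := (k : ℝ)) (Nat.cast_nonneg _), ENNReal.ofReal_natCast]
    _ ≤ ENNReal.ofReal ((B - A + h) * M) := by
        refine ENNReal.ofReal_le_ofReal ?_
        have g1 : (k : ℝ) * h ≤ B - A + h := by
          calc (k : ℝ) * h ≤ ((B - A) / h + 1) * h := mul_le_mul_of_nonneg_right hk2 hh.le
            _ = B - A + h := by field_simp
        calc (k : ℝ) * (M * h) = (k : ℝ) * h * M := by ring
          _ ≤ (B - A + h) * M := mul_le_mul_of_nonneg_right g1 hM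

/-- The points with a large increment on the ball of radius `ρ`. -/
theorem vol_incr {H : ℝ → ℝ} (hH : Monotone H) {u v ρ κ M : ℝ} (hρ : 0 < ρ)
    (hκ : 0 < κ) (hM : ∀ x y, H y - H x ≤ M) :
    volume {g : ℝ | g ∈ Icc u v ∧ κ ≤ H (g + ρ) - H (g - ρ)} ≤
      ENNReal.ofReal (2 * ρ * M / κ) := by
  rcases lt_or_ge v u with huv | huv
  · have : {g : ℝ | g ∈ Icc u v ∧ κ ≤ H (g + ρ) - H (g - ρ)} = ∅ := by
      rw [eq_empty_iff_forall_notMem]
      rintro g ⟨hg, -⟩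
      exact absurd (hg.1.trans hg.2) (not_le.2 huv)
    rw [this, measure_empty]
    exact bot_le
  have m1 : Monotone fun x => H (x + ρ) := fun x y hxy => hH (by linarith)
  have m2 : Monotone fun x => H (x - ρ) := fun x y hxy => hH (by linarith)
  have i1 : IntervalIntegrable (fun x => H (x + ρ)) volume u v := m1.intervalIntegrable
  have i2 : IntervalIntegrable (fun x => H (x - ρ)) volume u v := m2.intervalIntegrable
  have hII : ∀ a b, IntervalIntegrable H volume a b := fun a b => hH.intervalIntegrable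
  obtain ⟨D, hD⟩ : ∃ D : ℝ → ℝ, D = fun x => H (x + ρ) - H (x - ρ) := ⟨_, rfl⟩
  have hD0 : ∀ x, 0 ≤ D x := by
    intro x
    rw [hD]
    simp only
    linarith [hH (show x - ρ ≤ x + ρ by linarith)]
  have hDi : IntervalIntegrable D volume u v := by
    rw [hD]
    exact i1.sub i2
  have hint : ∫ x in u..v, D x ≤ 2 * ρ * M := by
    have e1 : ∫ x in u..v, D x = (∫ x in u..v, H (x + ρ)) - ∫ x in u..v, H (x - ρ) := by
      rw [hD]
      exact intervalIntegral.integral_sub i1 i2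
    have e2 : ∫ x in u..v, H (x + ρ) = ∫ x in (u + ρ)..(v + ρ), H x :=
      intervalIntegral.integral_comp_add_right H ρ
    have e3 : ∫ x in u..v, H (x - ρ) = ∫ x in (u - ρ)..(v - ρ), H x :=
      intervalIntegral.integral_comp_sub_right H ρ
    have e4 := intervalIntegral.integral_add_adjacent_intervals (hII (u - ρ) (u + ρ))
      (hII (u + ρ) (v + ρ))
    have e5 := intervalIntegral.integral_add_adjacent_intervals (hII (u - ρ) (v - ρ))
      (hII (v - ρ) (v + ρ))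
    have e6 : ∫ x in (v - ρ)..(v + ρ), H x ≤ ∫ x in (v - ρ)..(v + ρ), H (v + ρ) :=
      intervalIntegral.integral_mono_on (by linarith) (hII _ _) intervalIntegrable_const
        fun x hx => hH hx.2
    have e7 : ∫ x in (u - ρ)..(u + ρ), H (u - ρ) ≤ ∫ x in (u - ρ)..(u + ρ), H x :=
      intervalIntegral.integral_mono_on (by linarith) intervalIntegrable_const (hII _ _)
        fun x hx => hH hx.1
    rw [intervalIntegral.integral_const, smul_eq_mul] at e6 e7
    have e8 := hM (u - ρ) (v + ρ)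
    have e9 : 2 * ρ * (H (v + ρ) - H (u - ρ)) ≤ 2 * ρ * M :=
      mul_le_mul_of_nonneg_left e8 (by linarith)
    rw [e1, e2, e3]
    nlinarith
  have hDI : Integrable D (volume.restrict (Ioc u v)) :=
    (intervalIntegrable_iff_integrableOn_Ioc_of_le huv).1 hDi
  have hl : ∫⁻ x, ENNReal.ofReal (D x) ∂(volume.restrict (Ioc u v)) ≤
      ENNReal.ofReal (2 * ρ * M) := by
    rw [← ofReal_integral_eq_lintegral_ofReal hDI (Eventually.of_forall fun x => hD0 x)]
    refine ENNReal.ofReal_le_ofReal ?_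
    rw [intervalIntegral.integral_of_le huv] at hint
    exact hint
  have hmeas : Measurable D := by
    rw [hD]
    exact m1.measurable.sub m2.measurable
  have hk := meas_ge_le_lintegral_div (μ := volume.restrict (Ioc u v))
    (f := fun x => ENNReal.ofReal (D x)) hmeas.ennreal_ofReal.aemeasurable
    (ε := ENNReal.ofReal κ) (by simpa using hκ) ENNReal.ofReal_ne_top
  have hset : MeasurableSet {x : ℝ | ENNReal.ofReal κ ≤ ENNReal.ofReal (D x)} :=
    measurableSet_le measurable_const hmeas.ennreal_ofReal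
  rw [Measure.restrict_apply hset] at hk
  have hsub : {g : ℝ | g ∈ Icc u v ∧ κ ≤ H (g + ρ) - H (g - ρ)} ⊆
      {x : ℝ | ENNReal.ofReal κ ≤ ENNReal.ofReal (D x)} ∩ Ioc u v ∪ {u} := by
    rintro g ⟨hg, hg2⟩
    rcases eq_or_lt_of_le hg.1 with h | h
    · exact Or.inr h.symm
    · refine Or.inl ⟨?_, h, hg.2⟩
      show ENNReal.ofReal κ ≤ ENNReal.ofReal (D g)
      refine ENNReal.ofReal_le_ofReal ?_
      rw [hD]
      exact hg2
  calc volume {g : ℝ | g ∈ Icc u v ∧ κ ≤ H (g + ρ) - H (g - ρ)}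
      ≤ volume ({x : ℝ | ENNReal.ofReal κ ≤ ENNReal.ofReal (D x)} ∩ Ioc u v ∪ {u}) :=
        measure_mono hsub
    _ ≤ volume ({x : ℝ | ENNReal.ofReal κ ≤ ENNReal.ofReal (D x)} ∩ Ioc u v) + volume {u} :=
        measure_union_le _ _
    _ = volume ({x : ℝ | ENNReal.ofReal κ ≤ ENNReal.ofReal (D x)} ∩ Ioc u v) := by
        rw [Real.volume_singleton, add_zero]
    _ ≤ (∫⁻ x, ENNReal.ofReal (D x) ∂(volume.restrict (Ioc u v))) / ENNReal.ofReal κ := hk
    _ ≤ ENNReal.ofReal (2 * ρ * M) / ENNReal.ofReal κ := ENNReal.div_le_div_right hl _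
    _ = ENNReal.ofReal (2 * ρ * M / κ) := by
        rw [ENNReal.ofReal_div_of_pos hκ]

/-- A decreasing function on the rational points of a set. -/
theorem ext_anti {f : ℚ → ℝ} {I : Set ℝ} {M : ℝ} (hM : 0 ≤ M)
    (h0 : ∀ w : ℚ, (w : ℝ) ∈ I → 0 ≤ f w ∧ f w ≤ M)
    (ha : ∀ w w' : ℚ, (w : ℝ) ∈ I → (w' : ℝ) ∈ I → w ≤ w' → f w' ≤ f w) :
    ∃ H : ℝ → ℝ, Monotone H ∧ (∀ x y, H y - H x ≤ M) ∧
      ∀ w : ℚ, (w : ℝ) ∈ I → H w = -f w := by
  obtain ⟨T, hT⟩ : ∃ T : ℝ → Set ℝ, T = fun (y : ℝ) => {s : ℝ | s = 0 ∨ ∃ w : ℚ,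
    (w : ℝ) ∈ I ∧ y ≤ (w : ℝ) ∧ s = f w} := ⟨_, rfl⟩
  have hT0 : ∀ y, (0 : ℝ) ∈ T y := fun y => by rw [hT]; exact Or.inl rfl
  have hTb : ∀ y, ∀ s ∈ T y, s ≤ M := by
    intro y s hs
    rw [hT] at hs
    rcases hs with rfl | ⟨w, a1, -, rfl⟩
    · exact hM
    · exact (h0 w a1).2
  have hTbd : ∀ y, BddAbove (T y) := fun y => ⟨_, fun s hs => hTb y s hs⟩
  refine ⟨fun y => -sSup (T y), ?_, ?_, ?_⟩
  · intro u u' huu
    refine neg_le_neg (csSup_le ⟨0, hT0 u'⟩ fun s hs => le_csSup (hTbd u) ?_)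
    rw [hT] at hs ⊢
    rcases hs with rfl | ⟨w, a1, a3, rfl⟩
    · exact Or.inl rfl
    · exact Or.inr ⟨w, a1, huu.trans a3, rfl⟩
  · intro x y
    have e1 : 0 ≤ sSup (T y) := le_csSup (hTbd _) (hT0 _)
    have e2 : sSup (T x) ≤ M := csSup_le ⟨0, hT0 _⟩ (hTb _)
    simp only
    linarith
  · intro w a1
    refine congrArg Neg.neg (le_antisymm (csSup_le ⟨0, hT0 _⟩ ?_) (le_csSup (hTbd _) ?_))
    · intro s hs
      rw [hT] at hs
      rcases hs with rfl | ⟨w', b1, b3, rfl⟩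
      · exact (h0 w a1).1
      · exact ha w w' a1 b1 (by exact_mod_cast b3)
    · rw [hT]
      exact Or.inr ⟨w, a1, le_rfl, rfl⟩

/-- A function which is decreasing with steps at most `d`. -/
theorem anti_steps {f : ℚ → ℝ} {x y d : ℝ} (hd : 0 < d)
    (h : ∀ w w' : ℚ, x ≤ w → w ≤ w' → (w' : ℝ) ≤ y → (w' : ℝ) ≤ w + d → f w' ≤ f w) :
    ∀ w w' : ℚ, x ≤ w → w ≤ w' → (w' : ℝ) ≤ y → f w' ≤ f w := by
  have key : ∀ n : ℕ, ∀ w w' : ℚ, x ≤ w → w ≤ w' → (w' : ℝ) ≤ y →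
      (w' : ℝ) ≤ w + (n + 1) * (d / 2) → f w' ≤ f w := by
    intro n
    induction n with
    | zero =>
      intro w w' a b c e
      exact h w w' a b c (by push_cast at e; linarith)
    | succ n ih =>
      intro w w' a b c e
      rcases le_or_gt ((w' : ℝ)) (w + d) with h1 | h1
      · exact h w w' a b c h1
      · obtain ⟨v, hv1, hv2⟩ := exists_rat_btwn (show (w' : ℝ) - d < w' - d / 2 by linarith)
        have b1 : w ≤ v := by
          have : (w : ℝ) ≤ v := by linarith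
          exact_mod_cast this
        have b2 : v ≤ w' := by
          have : (v : ℝ) ≤ w' := by linarith
          exact_mod_cast this
        have b2' : (v : ℝ) ≤ w' := by linarith
        have b1' : (w : ℝ) ≤ v := by linarith
        have s1 := ih w v a b1 (by linarith) (by push_cast at e ⊢; linarith)
        have s2 := h v w' (by linarith) b2 c (by linarith)
        linarith
  intro w w' a b c
  obtain ⟨n, hn⟩ := exists_nat_ge (((w' : ℝ) - w) / (d / 2))
  have hd2 : 0 < d / 2 := by linarith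
  rw [div_le_iff₀ hd2] at hn
  exact key n w w' a b c (by nlinarith)

section freq

variable {ι : Type} [Fintype ι] {t : ℕ → ℚ → (ι → ℚ) → ℝ} {N₀ : ι → ℝ → ℝ}
  {c A B C M δ : ℝ}

/-- The mixed increments on the box of size `C 2 ^ (-k)` are at most `κ 2 ^ (-k)`. -/
def GoodK (t : ℕ → ℚ → (ι → ℚ) → ℝ) (N₀ : ι → ℝ → ℝ) (C κ : ℝ) (k : ℕ) (g : ℝ) : Prop :=
  ∀ (N N' : ι → ℚ) (w w' : ℚ), (∀ i, N₀ i g - C * (1 / 2) ^ k ≤ N i) → (∀ i, N i ≤ N' i) →
    (∀ i, (N' i : ℝ) ≤ N₀ i g + C * (1 / 2) ^ k) → g - C * (1 / 2) ^ k ≤ w → w ≤ w' →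
    (w' : ℝ) ≤ g + C * (1 / 2) ^ k →
    (t k w N' - t k w N) - (t k w' N' - t k w' N) ≤ κ * (1 / 2) ^ k

/-- **Critical points, for infinitely many scales**, one constant. -/
theorem crit_freq_one (hc : 0 ≤ c) (hC : 0 < C) (hδ : 0 < δ) (hM : C + 3 ≤ M)
    (h1 : ∀ (k : ℕ) (w : ℚ) (N N' : ι → ℚ), A ≤ w → (w : ℝ) ≤ B → (∀ i, N i ≤ N' i) →
      (∀ i, N₀ i w - M * (1 / 2) ^ k ≤ N i) → (∀ i, (N' i : ℝ) ≤ N₀ i w + M * (1 / 2) ^ k) →
      0 ≤ t k w N' - t k w N ∧ t k w N' - t k w N ≤ c * ∑ i, ((N' i : ℝ) - N i))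
    (h2 : ∀ (k : ℕ) (w w' : ℚ) (N N' : ι → ℚ), A ≤ w → w ≤ w' → (w' : ℝ) ≤ B →
      (w' : ℝ) ≤ w + δ * (1 / 2) ^ k → (∀ i, N i ≤ N' i) →
      (∀ i, N₀ i w - M * (1 / 2) ^ k ≤ N i) → (∀ i, (N' i : ℝ) ≤ N₀ i w + M * (1 / 2) ^ k) →
      (∀ i, N₀ i w' - M * (1 / 2) ^ k ≤ N i) → (∀ i, (N' i : ℝ) ≤ N₀ i w' + M * (1 / 2) ^ k) →
      t k w' N' - t k w' N ≤ t k w N' - t k w N) {κ : ℝ} (hκ : 0 < κ) :
    ∀ᵐ g : ℝ, g ∈ Ioo A B → (∀ i, HasDerivAt (N₀ i) 0 g) → ∀ K : ℕ, ∃ k ≥ K,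
      GoodK t N₀ C κ k g := by
  rw [ae_iff]
  obtain ⟨Bd, hBd⟩ : ∃ Bd : Set ℝ, Bd = {g : ℝ | ¬ (g ∈ Ioo A B →
    (∀ i, HasDerivAt (N₀ i) 0 g) → ∀ K : ℕ, ∃ k ≥ K, GoodK t N₀ C κ k g)} := ⟨_, rfl⟩
  rw [← hBd]
  have hBAB : ∀ g ∈ Bd, g ∈ Ioo A B := by
    intro g hg
    rw [hBd] at hg
    by_contra hcon
    exact hg fun h => absurd h hcon
  rcases lt_or_ge A B with hAB | hAB
  swap
  · have : Bd = ∅ := by
      rw [eq_empty_iff_forall_notMem]
      intro g hg
      exact absurd ((hBAB g hg).1.trans (hBAB g hg).2) (not_lt.2 hAB)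
    rw [this, measure_empty]
  refine le_antisymm (ENNReal.le_of_forall_pos_le_add fun e he _ => ?_) bot_le
  rw [zero_add]
  have he' : (0 : ℝ) < e := NNReal.coe_pos.2 he
  -- the constants
  obtain ⟨n₁, hn₁⟩ : ∃ n₁ : ℝ, n₁ = (Fintype.card ι : ℝ) := ⟨_, rfl⟩
  have hn0 : 0 ≤ n₁ := by rw [hn₁]; positivity
  obtain ⟨K₀, hK₀⟩ : ∃ K₀ : ℝ, K₀ = 2 * C + 4 * C * (C + 2) * c * n₁ / κ := ⟨_, rfl⟩
  have hK0 : 0 < K₀ := by
    rw [hK₀]
    positivity
  obtain ⟨η, hη⟩ : ∃ η : ℝ, η = e / ((B - A + 1) * K₀) := ⟨_, rfl⟩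
  have hD : 0 < B - A + 1 := by linarith
  have hη0 : 0 < η := by rw [hη]; positivity
  have hηe : (B - A + 1) * (K₀ * η) = e := by
    rw [hη]
    field_simp
  -- the sets
  obtain ⟨Z, hZ⟩ : ∃ Z : ℕ → Set ℝ, Z = fun (n : ℕ) => {g : ℝ | g ∈ Bd ∧
    (∀ i, ∀ w' : ℝ, |w' - g| ≤ 1 / ((n : ℝ) + 1) → |N₀ i w' - N₀ i g| ≤ η * |w' - g|) ∧
    (A + 1 / ((n : ℝ) + 1) ≤ g ∧ g ≤ B - 1 / ((n : ℝ) + 1)) ∧
    ∀ k ≥ n, ¬ GoodK t N₀ C κ k g} := ⟨_, rfl⟩
  have hcov : Bd ⊆ ⋃ n : ℕ, Z n := by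
    intro g hg
    have hgAB := hBAB g hg
    have hg' := hg
    rw [hBd] at hg'
    simp only [mem_ofPred_eq, not_forall] at hg'
    obtain ⟨-, hd, K, hK⟩ := hg'
    have hex : ∀ i, ∃ n : ℕ, ∀ w' : ℝ, |w' - g| ≤ 1 / ((n : ℝ) + 1) →
        |N₀ i w' - N₀ i g| ≤ η * |w' - g| := by
      intro i
      have hdi := hd i
      rw [hasDerivAt_iff_isLittleO] at hdi
      have h3 := hdi.def hη0
      rw [Metric.eventually_nhds_iff] at h3
      obtain ⟨δ', hδ', h3⟩ := h3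
      obtain ⟨n, hn⟩ := exists_nat_one_div_lt hδ'
      refine ⟨n, fun w' hw' => ?_⟩
      have h4 := h3 (y := w') (by rw [Real.dist_eq]; exact hw'.trans_lt hn)
      simpa using h4
    choose n hn using hex
    obtain ⟨n₂, hn₂⟩ := exists_nat_one_div_lt (show 0 < min (g - A) (B - g) by
      exact lt_min (by linarith [hgAB.1]) (by linarith [hgAB.2]))
    obtain ⟨n', hn'⟩ : ∃ n' : ℕ, n' = max (Finset.univ.sup n) (max n₂ K) := ⟨_, rfl⟩
    have q1 : ∀ i, n i ≤ n' := fun i => by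
      rw [hn']
      exact (Finset.le_sup (f := n) (Finset.mem_univ i)).trans (le_max_left _ _)
    have q2 : n₂ ≤ n' := by rw [hn']; exact (le_max_left _ _).trans (le_max_right _ _)
    have q3 : K ≤ n' := by rw [hn']; exact (le_max_right _ _).trans (le_max_right _ _)
    have q4 : ∀ a : ℕ, a ≤ n' → 1 / ((n' : ℝ) + 1) ≤ 1 / ((a : ℝ) + 1) := fun a ha => by
      have : (a : ℝ) ≤ n' := by exact_mod_cast ha
      exact one_div_le_one_div_of_le (by positivity) (by linarith)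
    refine mem_iUnion.2 ⟨n', ?_⟩
    rw [hZ]
    have q5 := (q4 n₂ q2).trans hn₂.le
    refine ⟨hg, fun i w' hw' => hn i w' (hw'.trans (q4 _ (q1 i))), ⟨?_, ?_⟩, fun k hk hgood => ?_⟩
    · have := q5.trans (min_le_left _ _)
      linarith
    · have := q5.trans (min_le_right _ _)
      linarith
    · exact hK ⟨k, q3.trans hk, hgood⟩
  have hmonZ : Monotone Z := by
    intro n n' hn g hg
    rw [hZ] at hg ⊢
    obtain ⟨g1, g2, g3, g4⟩ := hg
    have : (n : ℝ) ≤ n' := by exact_mod_cast hn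
    have h3 : 1 / ((n' : ℝ) + 1) ≤ 1 / ((n : ℝ) + 1) :=
      one_div_le_one_div_of_le (by positivity) (by linarith)
    exact ⟨g1, fun i w' hw' => g2 i w' (hw'.trans h3), ⟨by linarith [g3.1], by linarith [g3.2]⟩,
      fun k hk => g4 k (hn.trans hk)⟩
  have hZe : ∀ n, volume (Z n) ≤ e := by
    intro n
    obtain ⟨h₀, hh₀⟩ : ∃ h₀ : ℝ, h₀ = 1 / ((n : ℝ) + 1) := ⟨_, rfl⟩
    have hh00 : 0 < h₀ := by rw [hh₀]; positivity
    have hh01 : h₀ ≤ 1 := by
      rw [hh₀, div_le_one (by positivity)]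
      linarith [(Nat.cast_nonneg n : (0 : ℝ) ≤ n)]
    obtain ⟨k₁, hk₁⟩ := exists_pow_lt_of_lt_one (show 0 < min (h₀ * η) (h₀ / C) by
      exact lt_min (mul_pos hh00 hη0) (div_pos hh00 hC)) (show (1 / 2 : ℝ) < 1 by norm_num)
    obtain ⟨k, hk⟩ : ∃ k, k = max n k₁ := ⟨_, rfl⟩
    obtain ⟨r, hr⟩ : ∃ r : ℝ, r = (1 / 2) ^ k := ⟨_, rfl⟩
    have hr0 : 0 < r := by rw [hr]; positivity
    have hrk : r < min (h₀ * η) (h₀ / C) := by
      rw [hr]
      refine lt_of_le_of_lt ?_ hk₁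
      exact pow_le_pow_of_le_one (by norm_num) (by norm_num) (by rw [hk]; exact le_max_right _ _)
    have hr1 : r < h₀ * η := hrk.trans_le (min_le_left _ _)
    have hr2 : r < h₀ / C := hrk.trans_le (min_le_right _ _)
    have hr2' : C * r < h₀ := by
      rw [lt_div_iff₀ hC] at hr2
      linarith
    obtain ⟨h, hh⟩ : ∃ h : ℝ, h = r / η := ⟨_, rfl⟩
    have hh0 : 0 < h := by rw [hh]; positivity
    have hhη : η * h = r := by
      rw [hh]
      field_simp
    have hh1 : h < h₀ := by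
      rw [hh, div_lt_iff₀ hη0]
      exact hr1
    have hpiece : ∀ x, volume (Z n ∩ Icc x (x + h)) ≤ ENNReal.ofReal (K₀ * η * h) := by
      intro x
      by_cases hne : (Z n ∩ Icc x (x + h)).Nonempty
      swap
      · rw [not_nonempty_iff_eq_empty.1 hne, measure_empty]
        exact bot_le
      obtain ⟨v, hvZ, hv⟩ := hne
      have hvs : ∀ i, ∀ w : ℝ, w ∈ Icc x (x + h) → |N₀ i w - N₀ i v| ≤ r := by
        intro i w hw
        rw [hZ] at hvZ
        have hvw : |w - v| ≤ h := by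
          rw [abs_le]
          constructor <;> linarith [hv.1, hv.2, hw.1, hw.2]
        rw [← hhη]
        exact (hvZ.2.1 i w (by rw [← hh₀]; exact hvw.trans hh1.le)).trans
          (mul_le_mul_of_nonneg_left hvw hη0.le)
      have hea : ∀ i, ∃ a : ℚ, N₀ i v - (C + 2) * r < a ∧ (a : ℝ) < N₀ i v - (C + 1) * r :=
        fun i => exists_rat_btwn (by nlinarith)
      have heb : ∀ i, ∃ b : ℚ, N₀ i v + (C + 1) * r < b ∧ (b : ℝ) < N₀ i v + (C + 2) * r :=
        fun i => exists_rat_btwn (by nlinarith)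
      choose a ha1 ha2 using hea
      choose b hb1 hb2 using heb
      have hCr : 0 < C * r := mul_pos hC hr0
      have hMr : (C + 3) * r ≤ M * r := mul_le_mul_of_nonneg_right hM hr0.le
      have hab : ∀ i, a i ≤ b i := by
        intro i
        have : (a i : ℝ) < b i := by
          have h3 := ha2 i
          have h4 := hb1 i
          nlinarith
        exact_mod_cast this.le
      have hwa : ∀ i, ∀ w : ℝ, w ∈ Icc x (x + h) → N₀ i w - M * r ≤ a i ∧
          (b i : ℝ) ≤ N₀ i w + M * r := by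
        intro i w hw
        have h3 := abs_le.1 (hvs i w hw)
        have h4 := ha1 i
        have h5 := hb2 i
        constructor <;> nlinarith [h3.1, h3.2]
      obtain ⟨I, hI⟩ : ∃ I : Set ℝ, I = Icc (max x A) (min (x + h) B) := ⟨_, rfl⟩
      have hIm : ∀ w : ℝ, w ∈ I ↔ w ∈ Icc x (x + h) ∧ w ∈ Icc A B := by
        intro w
        rw [hI]
        simp only [mem_Icc, sup_le_iff, le_inf_iff]
        tauto
      -- all pairs of vectors between `a` and `b`
      have hanti : ∀ P P' : ι → ℚ, (∀ i, a i ≤ P i) → (∀ i, P i ≤ P' i) → (∀ i, P' i ≤ b i) →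
          ∀ w w' : ℚ, (w : ℝ) ∈ I → (w' : ℝ) ∈ I → w ≤ w' →
          t k w' P' - t k w' P ≤ t k w P' - t k w P := by
        intro P P' hP hPP hP' w w' hw hw' hww
        rw [hI] at hw hw'
        refine anti_steps (f := fun w => t k w P' - t k w P) (x := max x A) (y := min (x + h) B)
          (d := δ * r) (mul_pos hδ hr0) ?_ w w' hw.1 hww hw'.2
        intro u u' hu huu hu' hud
        have huu' : (u : ℝ) ≤ u' := by exact_mod_cast huu
        have m1 : (u : ℝ) ∈ I := by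
          rw [hI]
          exact ⟨hu, huu'.trans hu'⟩
        have m2 : (u' : ℝ) ∈ I := by
          rw [hI]
          exact ⟨hu.trans huu', hu'⟩
        rw [hIm] at m1 m2
        have hP1 : ∀ i, (a i : ℝ) ≤ P i := fun i => by exact_mod_cast hP i
        have hP2 : ∀ i, (P' i : ℝ) ≤ b i := fun i => by exact_mod_cast hP' i
        rw [hr] at hud
        refine h2 k u u' P P' m1.2.1 huu m2.2.2 hud hPP ?_ ?_ ?_ ?_ <;> intro i <;>
          rw [← hr]
        · exact (hwa i u m1.1).1.trans (hP1 i)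
        · exact (hP2 i).trans (hwa i u m1.1).2
        · exact (hwa i u' m2.1).1.trans (hP1 i)
        · exact (hP2 i).trans (hwa i u' m2.1).2
      obtain ⟨Mf, hMf⟩ : ∃ Mf : ℝ, Mf = c * (n₁ * (2 * (C + 2) * r)) := ⟨_, rfl⟩
      have hMf0 : 0 ≤ Mf := by rw [hMf]; positivity
      have hf0 : ∀ w : ℚ, (w : ℝ) ∈ I → 0 ≤ t k w b - t k w a ∧ t k w b - t k w a ≤ Mf := by
        intro w hw
        rw [hIm] at hw
        have e1 := h1 k w a b hw.2.1 hw.2.2 hab (fun i => by rw [← hr]; exact (hwa i w hw.1).1)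
          (fun i => by rw [← hr]; exact (hwa i w hw.1).2)
        refine ⟨e1.1, e1.2.trans ?_⟩
        rw [hMf, hn₁]
        refine mul_le_mul_of_nonneg_left ?_ hc
        calc ∑ i, ((b i : ℝ) - a i) ≤ ∑ _i : ι, (2 * (C + 2) * r) := by
              refine Finset.sum_le_sum fun i _ => ?_
              have h3 := ha1 i
              have h4 := hb2 i
              nlinarith
          _ = Fintype.card ι * (2 * (C + 2) * r) := by
              rw [Finset.sum_const, nsmul_eq_mul, Finset.card_univ]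
      obtain ⟨H, hHm, hHb, hHe⟩ := ext_anti (f := fun w => t k w b - t k w a) (I := I) hMf0 hf0
        (fun w w' hw hw' hww => hanti a b (fun _ => le_rfl) hab (fun _ => le_rfl) w w' hw hw' hww)
      have hsub : Z n ∩ Icc x (x + h) ⊆ (Icc x (x + C * r) ∪ Icc (x + h - C * r) (x + h)) ∪
          {g : ℝ | g ∈ Icc (x + C * r) (x + h - C * r) ∧ κ * r ≤ H (g + C * r) - H (g - C * r)} := by
        rintro g ⟨hgZ, hg⟩
        rcases lt_or_ge g (x + C * r) with k1 | k1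
        · exact Or.inl (Or.inl ⟨hg.1, k1.le⟩)
        rcases lt_or_ge (x + h - C * r) g with k2 | k2
        · exact Or.inl (Or.inr ⟨k2.le, hg.2⟩)
        refine Or.inr ⟨⟨k1, k2⟩, ?_⟩
        have hgs := fun i => abs_le.1 (hvs i g hg)
        rw [hZ] at hgZ
        obtain ⟨-, -, ⟨g3, g4⟩, g5⟩ := hgZ
        have hbad := g5 k (by rw [hk]; exact le_max_left _ _)
        unfold GoodK at hbad
        push Not at hbad
        obtain ⟨N, N', w, w', c1, c2, c3, c4, c5, c6, c7⟩ := hbad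
        rw [← hr] at c7
        have c5' : (w : ℝ) ≤ w' := by exact_mod_cast c5
        have m1 : (w : ℝ) ∈ I := by
          rw [hIm]
          rw [← hr] at c4 c6
          rw [← hh₀] at g3 g4
          exact ⟨⟨by linarith, by linarith⟩, ⟨by linarith, by linarith⟩⟩
        have m2 : (w' : ℝ) ∈ I := by
          rw [hIm]
          rw [← hr] at c4 c6
          rw [← hh₀] at g3 g4
          exact ⟨⟨by linarith, by linarith⟩, ⟨by linarith, by linarith⟩⟩
        have l1 : ∀ i, a i ≤ N i := by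
          intro i
          have h3 := c1 i
          rw [← hr] at h3
          have h4 := ha2 i
          have h5 := (hgs i).1
          have : (a i : ℝ) ≤ N i := by nlinarith
          exact_mod_cast this
        have l2 : ∀ i, N' i ≤ b i := by
          intro i
          have h3 := c3 i
          rw [← hr] at h3
          have h4 := hb1 i
          have h5 := (hgs i).2
          have : (N' i : ℝ) ≤ b i := by nlinarith
          exact_mod_cast this
        have n1 := hanti a N (fun _ => le_rfl) l1 (fun i => (c2 i).trans (l2 i)) w w' m1 m2 c5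
        have n2 := hanti N' b (fun i => (l1 i).trans (c2 i)) l2 (fun _ => le_rfl) w w' m1 m2 c5
        have n3 := hHe w m1
        have n4 := hHe w' m2
        have n5 : H (g - C * r) ≤ H w := hHm (by rw [hr]; exact c4)
        have n6 : H w' ≤ H (g + C * r) := hHm (by rw [hr]; exact c6)
        rw [n3] at n5
        rw [n4] at n6
        linarith
      have hv1 := vol_incr hHm (u := x + C * r) (v := x + h - C * r) hCr (mul_pos hκ hr0) hHb
      calc volume (Z n ∩ Icc x (x + h))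
          ≤ volume ((Icc x (x + C * r) ∪ Icc (x + h - C * r) (x + h)) ∪
          {g : ℝ | g ∈ Icc (x + C * r) (x + h - C * r) ∧
            κ * r ≤ H (g + C * r) - H (g - C * r)}) := measure_mono hsub
        _ ≤ volume (Icc x (x + C * r) ∪ Icc (x + h - C * r) (x + h)) +
          volume {g : ℝ | g ∈ Icc (x + C * r) (x + h - C * r) ∧
            κ * r ≤ H (g + C * r) - H (g - C * r)} := measure_union_le _ _
        _ ≤ (volume (Icc x (x + C * r)) + volume (Icc (x + h - C * r) (x + h))) +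
          ENNReal.ofReal (2 * (C * r) * Mf / (κ * r)) := add_le_add (measure_union_le _ _) hv1
        _ = (ENNReal.ofReal (C * r) + ENNReal.ofReal (C * r)) +
          ENNReal.ofReal (2 * (C * r) * Mf / (κ * r)) := by
            rw [Real.volume_Icc, Real.volume_Icc]
            congr 3 <;> ring_nf
        _ = ENNReal.ofReal (C * r + C * r + 2 * (C * r) * Mf / (κ * r)) := by
            rw [← ENNReal.ofReal_add hCr.le hCr.le, ← ENNReal.ofReal_add (by positivity)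
              (by positivity)]
        _ = ENNReal.ofReal (K₀ * η * h) := by
            congr 1
            rw [mul_assoc K₀, hhη, hK₀, hMf]
            field_simp
            ring
    have hvol := vol_pieces (Bd := Z n) (A := A) (B := B) (h := h) (M := K₀ * η)
      (fun g hg => hBAB g (by rw [hZ] at hg; exact hg.1)) hAB hh0 (by positivity) hpiece
    refine hvol.trans ?_
    rw [← ENNReal.ofReal_coe_nnreal]
    refine ENNReal.ofReal_le_ofReal ?_
    rw [← hηe]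
    exact mul_le_mul_of_nonneg_right (by linarith) (by positivity)
  calc volume Bd ≤ volume (⋃ n, Z n) := measure_mono hcov
    _ = ⨆ n, volume (Z n) := hmonZ.measure_iUnion
    _ ≤ e := iSup_le hZe

/-- **Critical points, for infinitely many scales.** -/
theorem crit_freq (hc : 0 ≤ c) (hC : 0 < C) (hδ : 0 < δ) (hM : C + 3 ≤ M)
    (h1 : ∀ (k : ℕ) (w : ℚ) (N N' : ι → ℚ), A ≤ w → (w : ℝ) ≤ B → (∀ i, N i ≤ N' i) →
      (∀ i, N₀ i w - M * (1 / 2) ^ k ≤ N i) → (∀ i, (N' i : ℝ) ≤ N₀ i w + M * (1 / 2) ^ k) →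
      0 ≤ t k w N' - t k w N ∧ t k w N' - t k w N ≤ c * ∑ i, ((N' i : ℝ) - N i))
    (h2 : ∀ (k : ℕ) (w w' : ℚ) (N N' : ι → ℚ), A ≤ w → w ≤ w' → (w' : ℝ) ≤ B →
      (w' : ℝ) ≤ w + δ * (1 / 2) ^ k → (∀ i, N i ≤ N' i) →
      (∀ i, N₀ i w - M * (1 / 2) ^ k ≤ N i) → (∀ i, (N' i : ℝ) ≤ N₀ i w + M * (1 / 2) ^ k) →
      (∀ i, N₀ i w' - M * (1 / 2) ^ k ≤ N i) → (∀ i, (N' i : ℝ) ≤ N₀ i w' + M * (1 / 2) ^ k) →
      t k w' N' - t k w' N ≤ t k w N' - t k w N) :
    ∀ᵐ g : ℝ, g ∈ Ioo A B → (∀ i, HasDerivAt (N₀ i) 0 g) → ∀ κ : ℝ, 0 < κ → ∀ K : ℕ, ∃ k ≥ K,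
      GoodK t N₀ C κ k g := by
  have key : ∀ᵐ g : ℝ, ∀ j : ℕ, g ∈ Ioo A B → (∀ i, HasDerivAt (N₀ i) 0 g) → ∀ K : ℕ, ∃ k ≥ K,
      GoodK t N₀ C (1 / ((j : ℝ) + 1)) k g :=
    ae_all_iff.2 fun j => crit_freq_one hc hC hδ hM h1 h2 (by positivity)
  filter_upwards [key] with g hg hgAB hd κ hκ K
  obtain ⟨j, hj⟩ := exists_nat_one_div_lt hκ
  obtain ⟨k, hk, hgood⟩ := hg j hgAB hd K
  refine ⟨k, hk, fun N N' w w' a1 a2 a3 a4 a5 a6 => ?_⟩
  refine (hgood N N' w w' a1 a2 a3 a4 a5 a6).trans ?_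
  exact mul_le_mul_of_nonneg_right hj.le (by positivity)

end freq

section vec

variable {ι : Type} [Fintype ι] {t : ℚ → (ι → ℚ) → ℝ} {N₀ : ι → ℝ → ℝ} {c A B ρ : ℝ}

/-- **Critical points of several exponents**, scale `1`. -/
theorem crit_vec_one (hc : 0 ≤ c) (hρ : 0 < ρ)
    (h1 : ∀ (w : ℚ) (N N' : ι → ℚ), A ≤ w → (w : ℝ) ≤ B → (∀ i, N i ≤ N' i) →
      (∀ i, N₀ i w - ρ ≤ N i) → (∀ i, (N' i : ℝ) ≤ N₀ i w + ρ) →
      0 ≤ t w N' - t w N ∧ t w N' - t w N ≤ c * ∑ i, ((N' i : ℝ) - N i))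
    (h2 : ∀ (w w' : ℚ) (N N' : ι → ℚ), A ≤ w → w ≤ w' → (w' : ℝ) ≤ B →
      (w' : ℝ) ≤ w + ρ → (∀ i, N i ≤ N' i) →
      (∀ i, N₀ i w - ρ ≤ N i) → (∀ i, (N' i : ℝ) ≤ N₀ i w + ρ) →
      (∀ i, N₀ i w' - ρ ≤ N i) → (∀ i, (N' i : ℝ) ≤ N₀ i w' + ρ) →
      t w' N' - t w' N ≤ t w N' - t w N) {κ : ℝ} (hκ : 0 < κ) :
    ∀ᵐ g : ℝ, g ∈ Ioo A B → (∀ i, HasDerivAt (N₀ i) 0 g) → ∃ r₀ : ℝ, 0 < r₀ ∧
      ∀ r : ℝ, 0 < r → r < r₀ → ∀ (N N' : ι → ℚ) (w w' : ℚ), (∀ i, N₀ i g - r ≤ N i) →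
      (∀ i, N i ≤ N' i) → (∀ i, (N' i : ℝ) ≤ N₀ i g + r) → g - r ≤ w → w ≤ w' →
      (w' : ℝ) ≤ g + r → (t w N' - t w N) - (t w' N' - t w' N) ≤ 3 * κ * r := by
  rw [ae_iff]
  obtain ⟨Bd, hBd⟩ : ∃ Bd : Set ℝ, Bd = {g : ℝ | ¬ (g ∈ Ioo A B →
    (∀ i, HasDerivAt (N₀ i) 0 g) → ∃ r₀ : ℝ, 0 < r₀ ∧
      ∀ r : ℝ, 0 < r → r < r₀ → ∀ (N N' : ι → ℚ) (w w' : ℚ), (∀ i, N₀ i g - r ≤ N i) →
      (∀ i, N i ≤ N' i) → (∀ i, (N' i : ℝ) ≤ N₀ i g + r) → g - r ≤ w → w ≤ w' →
      (w' : ℝ) ≤ g + r → (t w N' - t w N) - (t w' N' - t w' N) ≤ 3 * κ * r)} := ⟨_, rfl⟩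
  rw [← hBd]
  have hBAB : ∀ g ∈ Bd, g ∈ Ioo A B := by
    intro g hg
    rw [hBd] at hg
    by_contra hcon
    exact hg fun h => absurd h hcon
  rcases lt_or_ge A B with hAB | hAB
  swap
  · have : Bd = ∅ := by
      rw [eq_empty_iff_forall_notMem]
      intro g hg
      exact absurd ((hBAB g hg).1.trans (hBAB g hg).2) (not_lt.2 hAB)
    rw [this, measure_empty]
  refine le_antisymm (ENNReal.le_of_forall_pos_le_add fun e he _ => ?_) bot_le
  rw [zero_add]
  have he' : (0 : ℝ) < e := NNReal.coe_pos.2 he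
  obtain ⟨n₁, hn₁⟩ : ∃ n₁ : ℝ, n₁ = (Fintype.card ι : ℝ) := ⟨_, rfl⟩
  have hn0 : 0 ≤ n₁ := by rw [hn₁]; positivity
  have hD : 0 < B - A + 1 := by linarith
  obtain ⟨η, hη, hη1, hηe⟩ : ∃ η : ℝ, 0 < η ∧ η ≤ ρ / 4 ∧
      (B - A + 1) * (c * (n₁ * (4 * η)) / κ) ≤ e := by
    refine ⟨min (ρ / 4) (κ * e / (4 * (B - A + 1) * c * n₁ + 1)), by positivity,
      min_le_left _ _, ?_⟩
    have hd : 0 < 4 * (B - A + 1) * c * n₁ + 1 := by positivity
    have h3 : (B - A + 1) * (c * (n₁ * (4 * min (ρ / 4)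
        (κ * e / (4 * (B - A + 1) * c * n₁ + 1)))) / κ) ≤
        (B - A + 1) * (c * (n₁ * (4 * (κ * e / (4 * (B - A + 1) * c * n₁ + 1)))) / κ) := by
      refine mul_le_mul_of_nonneg_left (div_le_div_of_nonneg_right
        (mul_le_mul_of_nonneg_left (mul_le_mul_of_nonneg_left ?_ hn0) hc) hκ.le) hD.le
      exact mul_le_mul_of_nonneg_left (min_le_right _ _) (by norm_num)
    have h4 : (B - A + 1) * (c * (n₁ * (4 * (κ * e / (4 * (B - A + 1) * c * n₁ + 1)))) / κ) =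
        4 * (B - A + 1) * c * n₁ / (4 * (B - A + 1) * c * n₁ + 1) * e := by
      field_simp
    have h5 : 4 * (B - A + 1) * c * n₁ / (4 * (B - A + 1) * c * n₁ + 1) ≤ 1 := by
      rw [div_le_one hd]
      linarith
    have h6 := mul_le_mul_of_nonneg_right h5 he'.le
    linarith
  obtain ⟨Z, hZ⟩ : ∃ Z : ℕ → Set ℝ, Z = fun (n : ℕ) => {g : ℝ | g ∈ Bd ∧
    ∀ i, ∀ w' : ℝ, |w' - g| ≤ 1 / ((n : ℝ) + 1) → |N₀ i w' - N₀ i g| ≤ η * |w' - g|} := ⟨_, rfl⟩
  have hcov : Bd ⊆ ⋃ n : ℕ, Z n := by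
    intro g hg
    have hd : ∀ i, HasDerivAt (N₀ i) 0 g := by
      have hg' := hg
      rw [hBd] at hg'
      by_contra hcon
      exact hg' fun _ h => absurd h hcon
    have hex : ∀ i, ∃ n : ℕ, ∀ w' : ℝ, |w' - g| ≤ 1 / ((n : ℝ) + 1) →
        |N₀ i w' - N₀ i g| ≤ η * |w' - g| := by
      intro i
      have hdi := hd i
      rw [hasDerivAt_iff_isLittleO] at hdi
      have h3 := hdi.def hη
      rw [Metric.eventually_nhds_iff] at h3
      obtain ⟨δ', hδ', h3⟩ := h3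
      obtain ⟨n, hn⟩ := exists_nat_one_div_lt hδ'
      refine ⟨n, fun w' hw' => ?_⟩
      have h4 := h3 (y := w') (by rw [Real.dist_eq]; exact hw'.trans_lt hn)
      simpa using h4
    choose n hn using hex
    refine mem_iUnion.2 ⟨Finset.univ.sup n, ?_⟩
    rw [hZ]
    refine ⟨hg, fun i w' hw' => hn i w' (hw'.trans ?_)⟩
    have : (n i : ℝ) ≤ (Finset.univ.sup n : ℕ) := by
      exact_mod_cast Finset.le_sup (f := n) (Finset.mem_univ i)
    exact one_div_le_one_div_of_le (by positivity) (by linarith)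
  have hmonZ : Monotone Z := by
    intro n n' hn g hg
    rw [hZ] at hg ⊢
    refine ⟨hg.1, fun i w' hw' => hg.2 i w' (hw'.trans ?_)⟩
    have : (n : ℝ) ≤ n' := by exact_mod_cast hn
    exact one_div_le_one_div_of_le (by positivity) (by linarith)
  have hZe' : ∀ n : ℕ, 1 / ((n : ℝ) + 1) ≤ ρ → volume (Z n) ≤ e := by
    intro n hnρ
    obtain ⟨h, hh⟩ : ∃ h : ℝ, h = 1 / ((n : ℝ) + 1) := ⟨_, rfl⟩
    have hh0 : 0 < h := by rw [hh]; positivity
    have hh2 : h ≤ 1 := by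
      rw [hh, div_le_one (by positivity)]
      linarith [(Nat.cast_nonneg n : (0 : ℝ) ≤ n)]
    have hηh : 0 < η * h := mul_pos hη hh0
    have hηh' : η * h ≤ ρ / 4 := (mul_le_of_le_one_right hη.le hh2).trans hη1
    have hpiece : ∀ x, volume (Z n ∩ Icc x (x + h)) ≤
        ENNReal.ofReal (c * (n₁ * (4 * η)) / κ * h) := by
      intro x
      by_cases hne : (Z n ∩ Icc x (x + h)).Nonempty
      swap
      · rw [not_nonempty_iff_eq_empty.1 hne, measure_empty]
        exact bot_le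
      obtain ⟨v, hvZ, hv⟩ := hne
      have hvs : ∀ i, ∀ w : ℝ, w ∈ Icc x (x + h) → |N₀ i w - N₀ i v| ≤ η * h := by
        intro i w hw
        rw [hZ] at hvZ
        have hvw : |w - v| ≤ h := by
          rw [abs_le]
          constructor <;> linarith [hv.1, hv.2, hw.1, hw.2]
        exact (hvZ.2 i w (by rw [← hh]; exact hvw)).trans (mul_le_mul_of_nonneg_left hvw hη.le)
      have hea : ∀ i, ∃ a : ℚ, N₀ i v - 2 * (η * h) < a ∧ (a : ℝ) < N₀ i v - η * h :=
        fun i => exists_rat_btwn (by linarith)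
      have heb : ∀ i, ∃ b : ℚ, N₀ i v + η * h < b ∧ (b : ℝ) < N₀ i v + 2 * (η * h) :=
        fun i => exists_rat_btwn (by linarith)
      choose a ha1 ha2 using hea
      choose b hb1 hb2 using heb
      have hab : ∀ i, a i ≤ b i := by
        intro i
        have : (a i : ℝ) < b i := by linarith [ha2 i, hb1 i]
        exact_mod_cast this.le
      have hwa : ∀ i, ∀ w : ℝ, w ∈ Icc x (x + h) → N₀ i w - ρ ≤ a i ∧
          (b i : ℝ) ≤ N₀ i w + ρ := by
        intro i w hw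
        have h3 := abs_le.1 (hvs i w hw)
        constructor <;> linarith [h3.1, h3.2, ha1 i, hb2 i]
      obtain ⟨I, hI⟩ : ∃ I : Set ℝ, I = Icc x (x + h) ∩ Icc A B := ⟨_, rfl⟩
      have hanti : ∀ P P' : ι → ℚ, (∀ i, a i ≤ P i) → (∀ i, P i ≤ P' i) → (∀ i, P' i ≤ b i) →
          ∀ w w' : ℚ, (w : ℝ) ∈ I → (w' : ℝ) ∈ I → w ≤ w' →
          t w' P' - t w' P ≤ t w P' - t w P := by
        intro P P' hP hPP hP' w w' hw hw' hww
        rw [hI] at hw hw'
        have hP1 : ∀ i, (a i : ℝ) ≤ P i := fun i => by exact_mod_cast hP i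
        have hP2 : ∀ i, (P' i : ℝ) ≤ b i := fun i => by exact_mod_cast hP' i
        have hwρ : (w' : ℝ) ≤ w + ρ := by
          have := hnρ
          rw [← hh] at this
          linarith [hw.1.1, hw'.1.2]
        exact h2 w w' P P' hw.2.1 hww hw'.2.2 hwρ hPP
          (fun i => (hwa i w hw.1).1.trans (hP1 i)) (fun i => (hP2 i).trans (hwa i w hw.1).2)
          (fun i => (hwa i w' hw'.1).1.trans (hP1 i)) (fun i => (hP2 i).trans (hwa i w' hw'.1).2)
      obtain ⟨Mf, hMf⟩ : ∃ Mf : ℝ, Mf = c * (n₁ * (4 * (η * h))) := ⟨_, rfl⟩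
      have hMf0 : 0 ≤ Mf := by rw [hMf]; positivity
      have hf0 : ∀ w : ℚ, (w : ℝ) ∈ I → 0 ≤ t w b - t w a ∧ t w b - t w a ≤ Mf := by
        intro w hw
        rw [hI] at hw
        have e1 := h1 w a b hw.2.1 hw.2.2 hab (fun i => (hwa i w hw.1).1)
          (fun i => (hwa i w hw.1).2)
        refine ⟨e1.1, e1.2.trans ?_⟩
        rw [hMf, hn₁]
        refine mul_le_mul_of_nonneg_left ?_ hc
        calc ∑ i, ((b i : ℝ) - a i) ≤ ∑ _i : ι, (4 * (η * h)) :=
              Finset.sum_le_sum fun i _ => by linarith [ha1 i, hb2 i]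
          _ = Fintype.card ι * (4 * (η * h)) := by
              rw [Finset.sum_const, nsmul_eq_mul, Finset.card_univ]
      obtain ⟨H, hHm, hHb, hHe⟩ := ext_anti (f := fun w => t w b - t w a) (I := I) hMf0 hf0
        (fun w w' hw hw' hww => hanti a b (fun _ => le_rfl) hab (fun _ => le_rfl) w w' hw hw' hww)
      have hxi : x ≤ x + h := by linarith
      have hvol := Pool.LOV23.volume_deriv_ge hxi (hHm.monotoneOn _) hκ
      obtain ⟨D, hD⟩ : ∃ D : Set ℝ, D = {x : ℝ | ¬ DifferentiableAt ℝ H x} := ⟨_, rfl⟩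
      have hD0 : volume D = 0 := by
        rw [hD, ← ae_iff]
        exact hHm.ae_differentiableAt
      have hsub : Z n ∩ Icc x (x + h) ⊆ ({x} ∪ {x + h}) ∪ D ∪
          {y : ℝ | y ∈ Ioo x (x + h) ∧ κ ≤ deriv H y} := by
        rintro g ⟨hgZ, hg⟩
        by_contra hcon
        simp only [mem_union, mem_singleton_iff, mem_ofPred_eq, not_or, not_and, not_le] at hcon
        obtain ⟨⟨⟨k1, k2⟩, k3⟩, k4⟩ := hcon
        rw [hD, mem_ofPred_eq, not_not] at k3
        have hgI : g ∈ Ioo x (x + h) :=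
          ⟨lt_of_le_of_ne hg.1 (Ne.symm k1), lt_of_le_of_ne hg.2 k2⟩
        have k5 := k4 hgI
        obtain ⟨r₀, hr₀, hr⟩ := Pool.LOV23.incr_of_deriv hgI k3 hκ k5
        rw [hZ] at hgZ
        have hgB := hgZ.1
        rw [hBd] at hgB
        refine hgB fun hgAB _ => ?_
        have k8 := fun i => abs_le.1 (hvs i g hg)
        -- a lower bound for the distances
        obtain ⟨dm, hdm, hdm1⟩ : ∃ dm : ℝ, 0 < dm ∧ ∀ i, dm ≤ N₀ i g - a i ∧
            dm ≤ b i - N₀ i g := by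
          by_cases hem : Nonempty ι
          · refine ⟨Finset.univ.inf' Finset.univ_nonempty
              (fun i => min (N₀ i g - a i) (b i - N₀ i g)), ?_, fun i => ?_⟩
            · rw [Finset.lt_inf'_iff]
              intro i _
              exact lt_min (by linarith [(k8 i).1, ha2 i]) (by linarith [(k8 i).2, hb1 i])
            · have := Finset.inf'_le (fun i => min (N₀ i g - a i) (b i - N₀ i g))
                (Finset.mem_univ i)
              exact ⟨this.trans (min_le_left _ _), this.trans (min_le_right _ _)⟩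
          · exact ⟨1, one_pos, fun i => absurd ⟨i⟩ hem⟩
        refine ⟨min r₀ (min dm (min (g - A) (B - g))),
          lt_min hr₀ (lt_min hdm
            (lt_min (by linarith [hgAB.1]) (by linarith [hgAB.2]))),
          fun r hr1 hr2 N N' w w' hN hNN hN' hw hww hw' => ?_⟩
        have l1 : r < r₀ := hr2.trans_le (min_le_left _ _)
        have l2 : r < dm := hr2.trans_le ((min_le_right _ _).trans (min_le_left _ _))
        have l4 : r < g - A := hr2.trans_le ((min_le_right _ _).trans ((min_le_right _ _).trans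
          (min_le_left _ _)))
        have l5 : r < B - g := hr2.trans_le ((min_le_right _ _).trans ((min_le_right _ _).trans
          (min_le_right _ _)))
        obtain ⟨i1, i2, i3⟩ := hr r hr1 l1
        have m1 : ∀ i, a i ≤ N i := fun i => by
          have : (a i : ℝ) ≤ N i := by linarith [hN i, (hdm1 i).1]
          exact_mod_cast this
        have m2 : ∀ i, N' i ≤ b i := fun i => by
          have : (N' i : ℝ) ≤ b i := by linarith [hN' i, (hdm1 i).2]
          exact_mod_cast this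
        have hww' : (w : ℝ) ≤ w' := by exact_mod_cast hww
        have w1 : (w : ℝ) ∈ I := by
          rw [hI]
          exact ⟨⟨by linarith, by linarith⟩, ⟨by linarith, by linarith⟩⟩
        have w2 : (w' : ℝ) ∈ I := by
          rw [hI]
          exact ⟨⟨by linarith, by linarith⟩, ⟨by linarith, by linarith⟩⟩
        have n1 := hanti a N (fun _ => le_rfl) m1 (fun i => (hNN i).trans (m2 i)) w w' w1 w2 hww
        have n2 := hanti N' b (fun i => (m1 i).trans (hNN i)) m2 (fun _ => le_rfl) w w' w1 w2 hww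
        have n3 := hHe w w1
        have n4 := hHe w' w2
        have n5 := hHm hw
        have n6 := hHm hw'
        rw [n3] at n5
        rw [n4] at n6
        linarith
      calc volume (Z n ∩ Icc x (x + h))
          ≤ volume (({x} ∪ {x + h}) ∪ D ∪
            {y : ℝ | y ∈ Ioo x (x + h) ∧ κ ≤ deriv H y}) := measure_mono hsub
        _ ≤ volume (({x} ∪ {x + h}) ∪ D) +
            volume {y : ℝ | y ∈ Ioo x (x + h) ∧ κ ≤ deriv H y} := measure_union_le _ _
        _ = volume {y : ℝ | y ∈ Ioo x (x + h) ∧ κ ≤ deriv H y} := by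
            have : volume (({x} ∪ {x + h}) ∪ D) = 0 := by
              rw [measure_union_null_iff, measure_union_null_iff]
              exact ⟨⟨Real.volume_singleton, Real.volume_singleton⟩, hD0⟩
            rw [this, zero_add]
        _ ≤ ENNReal.ofReal ((H (x + h) - H x) / κ) := hvol
        _ ≤ ENNReal.ofReal (c * (n₁ * (4 * η)) / κ * h) := by
            refine ENNReal.ofReal_le_ofReal ?_
            rw [div_le_iff₀ hκ]
            have h9 := hHb x (x + h)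
            rw [hMf] at h9
            have : c * (n₁ * (4 * η)) / κ * h * κ = c * (n₁ * (4 * (η * h))) := by
              field_simp
            linarith
    have hvol := vol_pieces (Bd := Z n) (A := A) (B := B) (h := h)
      (M := c * (n₁ * (4 * η)) / κ)
      (fun g hg => hBAB g (by rw [hZ] at hg; exact hg.1)) hAB hh0 (by positivity) hpiece
    refine hvol.trans ?_
    rw [← ENNReal.ofReal_coe_nnreal]
    refine ENNReal.ofReal_le_ofReal (le_trans ?_ hηe)
    exact mul_le_mul_of_nonneg_right (by linarith) (by positivity)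
  have hZe : ∀ n, volume (Z n) ≤ e := by
    intro n
    obtain ⟨n₁, hn₁⟩ := exists_nat_one_div_lt hρ
    have h3 : (n₁ : ℝ) ≤ (max n n₁ : ℕ) := by exact_mod_cast le_max_right n n₁
    refine (measure_mono (hmonZ (le_max_left n n₁))).trans (hZe' (max n n₁) ?_)
    exact (one_div_le_one_div_of_le (by positivity) (by linarith)).trans hn₁.le
  calc volume Bd ≤ volume (⋃ n, Z n) := measure_mono hcov
    _ = ⨆ n, volume (Z n) := hmonZ.measure_iUnion
    _ ≤ e := iSup_le hZe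

/-- **Critical points of several exponents**: the mixed increments on the boxes of size `C r`
around `(g, N₀ g)` are `o (r)` at almost every `g` at which all `N₀ i` are critical. -/
theorem crit_vec (hc : 0 ≤ c) (hρ : 0 < ρ)
    (h1 : ∀ (w : ℚ) (N N' : ι → ℚ), A ≤ w → (w : ℝ) ≤ B → (∀ i, N i ≤ N' i) →
      (∀ i, N₀ i w - ρ ≤ N i) → (∀ i, (N' i : ℝ) ≤ N₀ i w + ρ) →
      0 ≤ t w N' - t w N ∧ t w N' - t w N ≤ c * ∑ i, ((N' i : ℝ) - N i))
    (h2 : ∀ (w w' : ℚ) (N N' : ι → ℚ), A ≤ w → w ≤ w' → (w' : ℝ) ≤ B →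
      (w' : ℝ) ≤ w + ρ → (∀ i, N i ≤ N' i) →
      (∀ i, N₀ i w - ρ ≤ N i) → (∀ i, (N' i : ℝ) ≤ N₀ i w + ρ) →
      (∀ i, N₀ i w' - ρ ≤ N i) → (∀ i, (N' i : ℝ) ≤ N₀ i w' + ρ) →
      t w' N' - t w' N ≤ t w N' - t w N) :
    ∀ᵐ g : ℝ, g ∈ Ioo A B → (∀ i, HasDerivAt (N₀ i) 0 g) → ∀ C ε : ℝ, 0 < C → 0 < ε →
      ∃ r₀ : ℝ, 0 < r₀ ∧ ∀ r : ℝ, 0 < r → r < r₀ → ∀ (N N' : ι → ℚ) (w w' : ℚ),
      (∀ i, N₀ i g - C * r ≤ N i) → (∀ i, N i ≤ N' i) → (∀ i, (N' i : ℝ) ≤ N₀ i g + C * r) →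
      g - C * r ≤ w → w ≤ w' → (w' : ℝ) ≤ g + C * r →
      (t w N' - t w N) - (t w' N' - t w' N) ≤ ε * r := by
  have key : ∀ᵐ g : ℝ, ∀ j : ℕ, g ∈ Ioo A B → (∀ i, HasDerivAt (N₀ i) 0 g) → ∃ r₀ : ℝ, 0 < r₀ ∧
      ∀ r : ℝ, 0 < r → r < r₀ → ∀ (N N' : ι → ℚ) (w w' : ℚ), (∀ i, N₀ i g - r ≤ N i) →
      (∀ i, N i ≤ N' i) → (∀ i, (N' i : ℝ) ≤ N₀ i g + r) → g - r ≤ w → w ≤ w' →
      (w' : ℝ) ≤ g + r → (t w N' - t w N) - (t w' N' - t w' N) ≤ 3 * (1 / ((j : ℝ) + 1)) * r :=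
    ae_all_iff.2 fun j => crit_vec_one hc hρ h1 h2 (by positivity)
  filter_upwards [key] with g hg hgAB hd C ε hC hε
  obtain ⟨j, hj⟩ := exists_nat_one_div_lt (show 0 < ε / (3 * C) by positivity)
  obtain ⟨r₀, hr₀, hr⟩ := hg j hgAB hd
  refine ⟨r₀ / C, by positivity, fun r hr1 hr2 N N' w w' hN hNN hN' a1 a2 a3 => ?_⟩
  have hCr : C * r < r₀ := by
    rw [lt_div_iff₀ hC] at hr2
    linarith
  refine (hr (C * r) (by positivity) hCr N N' w w' hN hNN hN' a1 a2 a3).trans ?_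
  have h4 : 3 * C * (1 / ((j : ℝ) + 1)) ≤ ε := by
    have := mul_le_mul_of_nonneg_left hj.le (show (0 : ℝ) ≤ 3 * C by positivity)
    calc 3 * C * (1 / ((j : ℝ) + 1)) ≤ 3 * C * (ε / (3 * C)) := this
      _ = ε := by field_simp
  calc 3 * (1 / ((j : ℝ) + 1)) * (C * r) = 3 * C * (1 / ((j : ℝ) + 1)) * r := by ring
    _ ≤ ε * r := mul_le_mul_of_nonneg_right h4 hr1.le

end vec

end Pool.RCD
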