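import Pool.Agent.H92.D2.Tub

/-!
# V1 empty: the gradients are few bits given the key

`vel_all`: the velocity at all nodes of the corner grid is few bits given the key and the velocity.
`grad_few`: hence the gradients are few bits given the key (copies of the velocity).
-/

set_option autoImplicit false

namespace Pool.V1E

open Finset Real
open Pool.Agent.H49.Ent Pool.Agent.H32.Dense Pool.STK Pool.D2A Pool.D2Con
open Pool.BFL (Pb)
open Pool.D2G30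
open MvPolynomial (eval pderiv)

/-! ### Polynomials in one variable -/

theorem eval_near {D : ℕ} {p p' : Polynomial ℝ} (hp : p.natDegree ≤ D) (hp' : p'.natDegree ≤ D)
    {δ u : ℝ} (hu : |u| ≤ 1) (h : ∀ j ≤ D, |p.coeff j - p'.coeff j| ≤ δ) :
    |p.eval u - p'.eval u| ≤ (D + 1) * δ := by
  rw [Polynomial.eval_eq_sum_range' (n := D + 1) (Nat.lt_succ_of_le hp),
    Polynomial.eval_eq_sum_range' (n := D + 1) (Nat.lt_succ_of_le hp'), ← Finset.sum_sub_distrib]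
  refine (Finset.abs_sum_le_sum_abs _ _).trans ?_
  calc ∑ i ∈ range (D + 1), |p.coeff i * u ^ i - p'.coeff i * u ^ i|
      ≤ ∑ _i ∈ range (D + 1), δ := by
        refine Finset.sum_le_sum fun i hi => ?_
        rw [← sub_mul, abs_mul, abs_pow]
        have h1 := h i (Nat.lt_succ_iff.1 (Finset.mem_range.1 hi))
        have h2 : |u| ^ i ≤ 1 := pow_le_one₀ (abs_nonneg _) hu
        have h3 : 0 ≤ δ := (abs_nonneg _).trans h1
        calc |p.coeff i - p'.coeff i| * |u| ^ i ≤ δ * 1 :=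
              mul_le_mul h1 h2 (by positivity) h3
          _ = δ := mul_one δ
    _ = _ := by
        rw [Finset.sum_const, Finset.card_range, nsmul_eq_mul]
        push_cast
        ring

theorem eval_bd {D : ℕ} {p : Polynomial ℝ} (hp : p.natDegree ≤ D) {B u : ℝ} (hu : |u| ≤ 1)
    (h : ∀ j ≤ D, |p.coeff j| ≤ B) : |p.eval u| ≤ (D + 1) * B := by
  have := eval_near (p' := 0) hp (by simp) hu (fun j hj => by simpa using h j hj)
  simpa using this

theorem der_coeff {D : ℕ} {p : Polynomial ℝ} (hp : p.natDegree ≤ D) {B : ℝ} (hB : 0 ≤ B)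
    (h : ∀ j ≤ D, |p.coeff j| ≤ B) (j : ℕ) : |(Polynomial.derivative p).coeff j| ≤ (D + 1) * B := by
  rw [Polynomial.coeff_derivative, abs_mul]
  by_cases hj : j + 1 ≤ D
  · have h1 := h (j + 1) hj
    have h2 : |((j : ℝ) + 1)| ≤ D + 1 := by
      rw [abs_of_nonneg (by positivity)]
      have : ((j : ℝ) + 1) ≤ D := by exact_mod_cast hj
      linarith
    calc |p.coeff (j + 1)| * |(j : ℝ) + 1| ≤ B * (D + 1) :=
          mul_le_mul h1 h2 (abs_nonneg _) hB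
      _ = _ := by ring
  · rw [Polynomial.coeff_eq_zero_of_natDegree_lt (by omega), abs_zero, zero_mul]
    positivity

theorem der_near {D : ℕ} {p p' : Polynomial ℝ} (hp : p.natDegree ≤ D) (hp' : p'.natDegree ≤ D)
    {δ u : ℝ} (hδ : 0 ≤ δ) (hu : |u| ≤ 1) (h : ∀ j ≤ D, |p.coeff j - p'.coeff j| ≤ δ) :
    |(Polynomial.derivative p).eval u - (Polynomial.derivative p').eval u| ≤
      (D + 1) * ((D + 1) * δ) := by
  have h1 : (p - p').natDegree ≤ D := (Polynomial.natDegree_sub_le _ _).trans (max_le hp hp')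
  have h2 := der_coeff h1 hδ (fun j hj => by rw [Polynomial.coeff_sub]; exact h j hj)
  have h3 : (Polynomial.derivative (p - p')).natDegree ≤ D :=
    (Polynomial.natDegree_derivative_le _).trans (by omega)
  have h4 := eval_bd h3 hu (fun j _ => h2 j)
  rw [Polynomial.derivative_sub, Polynomial.eval_sub] at h4
  exact h4

theorem der_bd {D : ℕ} {p : Polynomial ℝ} (hp : p.natDegree ≤ D) {B u : ℝ} (hB : 0 ≤ B)
    (hu : |u| ≤ 1) (h : ∀ j ≤ D, |p.coeff j| ≤ B) :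
    |(Polynomial.derivative p).eval u| ≤ (D + 1) * ((D + 1) * B) := by
  have := der_near (p' := 0) hp (by simp) hB hu (fun j hj => by simpa using h j hj)
  simpa using this

/-- The combinations at two near points. -/
theorem itp_pt {K d : ℕ} {G : Gr K d → ℝ} {B δ : ℝ} (hB : ∀ β, |G β| ≤ B) {x y : Fin d → ℝ}
    (h0 : ∀ i, -1 ≤ x i) (h1 : ∀ i, x i ≤ 2) (k0 : ∀ i, -1 ≤ y i) (k1 : ∀ i, y i ≤ 2)
    (hδ : 0 ≤ δ) (h : ∀ i, |x i - y i| ≤ δ) :
    |itp G x - itp G y| ≤ (K + 1) ^ d * (d * K ^ 2 * lgC K ^ (d + 1)) * (δ * B) := by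
  have hC := one_le_lgC K
  unfold itp
  rw [← Finset.sum_sub_distrib]
  refine (Finset.abs_sum_le_sum_abs _ _).trans ?_
  calc ∑ β : Gr K d, |ell K β x * G β - ell K β y * G β|
      ≤ ∑ _β : Gr K d, (d * K ^ 2 * lgC K ^ (d + 1) * δ) * B := by
        refine Finset.sum_le_sum fun β _ => ?_
        rw [← sub_mul, abs_mul]
        exact mul_le_mul (ell_lip β h0 h1 k0 k1 hδ h) (hB β) (abs_nonneg _) (by positivity)
    _ = _ := by
        rw [Finset.sum_const, Finset.card_univ, card_grid, nsmul_eq_mul]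
        push_cast
        ring

/-- The velocity, as a polynomial in the position. -/
noncomputable def Gv {d : ℕ} (X : Fin (d + 1) → ℝ) (P : Fin (d + 1) → MvPolynomial (Fin d) ℝ) :
    MvPolynomial (Fin d) ℝ := ∑ j, MvPolynomial.C (X j) * P j

theorem eval_Gv {d : ℕ} (X : Fin (d + 1) → ℝ) (P : Fin (d + 1) → MvPolynomial (Fin d) ℝ)
    (x : Fin d → ℝ) : eval x (Gv X P) = ∑ j, X j * eval x (P j) := by
  unfold Gv
  rw [map_sum]
  exact Finset.sum_congr rfl fun j _ => by rw [map_mul, MvPolynomial.eval_C]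

theorem deg_Gv {K d : ℕ} (X : Fin (d + 1) → ℝ) {P : Fin (d + 1) → MvPolynomial (Fin d) ℝ}
    (h : ∀ j, (P j).totalDegree ≤ K) : (Gv X P).totalDegree ≤ K := by
  unfold Gv
  refine (MvPolynomial.totalDegree_finsetSum _ _).trans (Finset.sup_le fun j _ => ?_)
  refine (MvPolynomial.totalDegree_mul _ _).trans ?_
  rw [MvPolynomial.totalDegree_C, zero_add]
  exact h j

section one

variable {K d D CM Q MB k N₀ M M' : ℕ} {δ : ℝ} {Ω Λ ζ α ε κ : Type} [Fintype Ω] {q : Ω → ℝ}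
  {L : Ω → Λ} {T : Ω → ℕ} {Z : Ω → ζ} {a : Ω → α} {E : Ω → ε} {X : ε → Fin (d + 1) → ℝ}
  {Pf : ζ → MvPolynomial (Fin d) ℝ} {Pg : ζ → Fin (d + 1) → MvPolynomial (Fin d) ℝ}
  {c : Λ → κ} {s : Ω → Fin d → ℝ} {ξ : Λ → Fin d → ℝ} {n : Λ → Polynomial ℝ}
  {Θ : Λ → Fin d → Polynomial ℝ} {P : Λ → Gr K d → Polynomial ℝ}

theorem TL.uu_bd (h : TL K d D CM Q MB k N₀ δ q L T Z a E X Pf Pg c s ξ n Θ) {ω : Ω}
    (hω : 0 < q ω) : |uu N₀ T ω| ≤ 1 := by
  have h1 := h.Tlt ω hω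
  have h2 : (0 : ℝ) < N₀ := by
    have : 0 < N₀ := by omega
    exact_mod_cast this
  unfold uu
  rw [abs_of_nonneg (by positivity), div_le_one h2]
  exact_mod_cast h1.le

theorem TL.Zkey (h : TL K d D CM Q MB k N₀ δ q L T Z a E X Pf Pg c s ξ n Θ) (M : ℕ) :
    Det q Z (Key M Z a Pf) := by
  intro ω ω' hω hω' e
  unfold Key
  rw [h.Za ω ω' hω hω' e, e]

theorem TL.keyT (h : TL K d D CM Q MB k N₀ δ q L T Z a E X Pf Pg c s ξ n Θ) {M : ℕ} {ω ω' : Ω}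
    (hω : 0 < q ω) (hω' : 0 < q ω') (e : Key M Z a Pf ω = Key M Z a Pf ω') : T ω = T ω' :=
  h.aT ω ω' hω hω' (Prod.ext_iff.mp e).1

/-- The velocities of the closed polynomials. -/
noncomputable def Pdv (N₀ : ℕ) (L : Ω → Λ) (T : Ω → ℕ) (P : Λ → Gr K d → Polynomial ℝ) (ω : Ω)
    (β : Gr K d) : ℝ := (Polynomial.derivative (P (L ω) β)).eval (uu N₀ T ω)

/-- The velocities at the nodes of the tube. -/
noncomputable def Gtv (K : ℕ) (Z : Ω → ζ) (E : Ω → ε) (X : ε → Fin (d + 1) → ℝ)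
    (Pg : ζ → Fin (d + 1) → MvPolynomial (Fin d) ℝ) (s : Ω → Fin d → ℝ) (ω : Ω) (β : Gr K d) : ℝ :=
  eval (fun i => s ω i + nd K β i) (Gv (X (E ω)) (Pg (Z ω)))

/-- (A1) The velocities of the closed polynomials are few bits given the key. -/
theorem pdv_few (h : TL K d D CM Q MB k N₀ δ q L T Z a E X Pf Pg c s ξ n Θ)
    (hI : Im K d D Q M N₀ δ q L T Z a E Pf c s ξ n P) (hJ : Jets K d D Q M δ q L Z a E Pf P)
    (hM' : M' - Q ≤ M) :
    CH q (fun ω => (c (L ω), fun β => ⌊2 ^ (M' - Q) * Pdv N₀ L T P ω β⌋))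
      (fun ω => (E ω, Key M Z a Pf ω)) ≤ 2 * (δ * Q) +
        (K + 1) ^ d * Real.log (2 * (2 * (D + 1) * (D + 1) + 1) + 1) := by
  classical
  have h0 := h.law.nonneg
  obtain ⟨Y, hY⟩ : ∃ Y : Ω → κ × ((Gr K d → Fin (D + 1) → ℤ) × (Fin (D + 1) → ℤ)), Y = fun ω =>
    (c (L ω), ((fun (β : Gr K d) (j : Fin (D + 1)) =>
      ⌊2 ^ M * ((P (L ω) β).coeff j - (P (L ω) (fun _ => 0)).coeff j)⌋),
      fun j : Fin (D + 1) => ⌊2 ^ M * (P (L ω) (fun _ => 0)).coeff j⌋)) := ⟨_, rfl⟩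
  have h1 : CH q Y (fun ω => (E ω, Key M Z a Pf ω)) ≤ δ * Q + δ * Q := by
    have e1 : CH q Y (fun ω => (E ω, Key M Z a Pf ω)) ≤ CH q (fun ω =>
        ((c (L ω), ((fun (β : Gr K d) (j : Fin (D + 1)) =>
          ⌊2 ^ M * ((P (L ω) β).coeff j - (P (L ω) (fun _ => 0)).coeff j)⌋),
          fun j : Fin (D + 1) => ⌊2 ^ (M - Q) * (P (L ω) (fun _ => 0)).coeff j⌋)),
          fun j : Fin (D + 1) => ⌊2 ^ M * (P (L ω) (fun _ => 0)).coeff j⌋))
        (fun ω => (E ω, Key M Z a Pf ω)) := by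
      refine CH_mono_left h0 fun ω ω' _ _ e => ?_
      rw [hY]
      simp only [Prod.mk.injEq] at e ⊢
      exact ⟨e.1.1.1, e.1.1.2.1, e.1.2⟩
    refine e1.trans ((CH_subadd h0 _ _ _).trans (add_le_add ?_ hJ))
    refine (CH_mono_cond h0 fun ω ω' _ _ e => ?_).trans hI.few
    simp only [Prod.mk.injEq] at e ⊢
    exact ⟨e.1, key_det (M - Q) M (Nat.sub_le _ _) e.2⟩
  have h2 := CH_le_add h0 (fun ω => (c (L ω), fun β => ⌊2 ^ (M' - Q) * Pdv N₀ L T P ω β⌋)) Y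
    (fun ω => (E ω, Key M Z a Pf ω))
  have h3 : CH q (fun ω => (c (L ω), fun β => ⌊2 ^ (M' - Q) * Pdv N₀ L T P ω β⌋))
      (fun ω => (Y ω, (E ω, Key M Z a Pf ω))) ≤
      CH q (fun ω β => ⌊2 ^ (M' - Q) * Pdv N₀ L T P ω β⌋)
      (fun ω => (Y ω, (E ω, Key M Z a Pf ω))) := by
    refine CH_mono_left h0 fun ω ω' _ _ e => ?_
    rw [hY] at e
    simp only [Prod.mk.injEq] at e ⊢
    exact ⟨e.2.1.1, e.1⟩
  have h4 := CH_vec_le h0 h.law.sum_one (fun ω β => ⌊2 ^ (M' - Q) * Pdv N₀ L T P ω β⌋)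
    (fun ω => (Y ω, (E ω, Key M Z a Pf ω))) (L := 2 * (D + 1) * (D + 1) + 1) (by
      intro ω ω' hω hω' e β
      rw [hY] at e
      simp only [Prod.mk.injEq] at e
      obtain ⟨⟨e1, e2, e3⟩, e4, e5⟩ := e
      have eT : T ω = T ω' := h.keyT hω hω' e5
      refine (floor_diff _ _).trans (add_le_add ?_ le_rfl)
      have hm : (0 : ℝ) < 2 ^ M := by positivity
      have hc : ∀ j ≤ D, |(P (L ω) β).coeff j - (P (L ω') β).coeff j| ≤ 2 / 2 ^ M := by
        intro j hj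
        have a1 := (Int.abs_sub_lt_one_of_floor_eq_floor
          (congrFun (congrFun e2 β) ⟨j, Nat.lt_succ_of_le hj⟩)).le
        have a2 := (Int.abs_sub_lt_one_of_floor_eq_floor
          (congrFun e3 ⟨j, Nat.lt_succ_of_le hj⟩)).le
        simp only at a1 a2
        rw [le_div_iff₀ hm]
        have e6 : |(P (L ω) β).coeff j - (P (L ω') β).coeff j| * 2 ^ M =
            |(2 ^ M * ((P (L ω) β).coeff j - (P (L ω) (fun _ => 0)).coeff j) -
              2 ^ M * ((P (L ω') β).coeff j - (P (L ω') (fun _ => 0)).coeff j)) +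
              (2 ^ M * (P (L ω) (fun _ => 0)).coeff j -
                2 ^ M * (P (L ω') (fun _ => 0)).coeff j)| := by
          rw [← abs_of_pos hm, ← abs_mul, abs_of_pos hm]
          congr 1
          ring
        rw [e6]
        refine (abs_add_le _ _).trans ?_
        linarith
      have h5 := der_near (hI.deg (L ω) β) (hI.deg (L ω') β) (δ := 2 / 2 ^ M) (by positivity)
        (h.uu_bd hω) hc
      have e7 : Pdv N₀ L T P ω' β = (Polynomial.derivative (P (L ω') β)).eval (uu N₀ T ω) := by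
        unfold Pdv uu
        rw [eT]
      rw [e7, ← mul_sub, abs_mul, abs_of_pos (by positivity : (0 : ℝ) < 2 ^ (M' - Q))]
      have h6 : (2 : ℝ) ^ (M' - Q) ≤ 2 ^ M := pow_le_pow_right₀ (by norm_num) hM'
      calc (2 : ℝ) ^ (M' - Q) * |Pdv N₀ L T P ω β -
            (Polynomial.derivative (P (L ω') β)).eval (uu N₀ T ω)|
          ≤ 2 ^ M * ((D + 1) * ((D + 1) * (2 / 2 ^ M))) :=
            mul_le_mul h6 h5 (abs_nonneg _) hm.le
        _ = 2 * (D + 1) * (D + 1) := by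
            field_simp)
  have h5 : (Fintype.card (Gr K d) : ℝ) = (K + 1) ^ d := by
    rw [card_grid]
    push_cast
    ring
  rw [h5] at h4
  linarith

/-- The velocity at a point, bound. -/
theorem Gv_bd (h : TL K d D CM Q MB k N₀ δ q L T Z a E X Pf Pg c s ξ n Θ) {ω : Ω}
    (hω : 0 < q ω) {x : Fin d → ℝ} (h0 : ∀ i, -1 ≤ x i) (h1 : ∀ i, x i ≤ 2) :
    |eval x (Gv (X (E ω)) (Pg (Z ω)))| ≤
      iC K d * ((d + 1) * (2 ^ (δ * Q) * 2 ^ (δ * Q))) := by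
  have hb : ∀ β : Gr K d, |eval (nd K β) (Gv (X (E ω)) (Pg (Z ω)))| ≤
      (d + 1) * (2 ^ (δ * Q) * 2 ^ (δ * Q)) := by
    intro β
    rw [eval_Gv]
    refine (Finset.abs_sum_le_sum_abs _ _).trans ?_
    calc ∑ j, |X (E ω) j * eval (nd K β) (Pg (Z ω) j)|
        ≤ ∑ _j : Fin (d + 1), (2 : ℝ) ^ (δ * Q) * 2 ^ (δ * Q) := by
          refine Finset.sum_le_sum fun j _ => ?_
          rw [abs_mul]
          exact mul_le_mul (h.Xb ω hω j) (h.bdg ω hω β j) (abs_nonneg _) (by positivity)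
      _ = _ := by
          rw [Finset.sum_const, Finset.card_univ, Fintype.card_fin, nsmul_eq_mul]
          push_cast
          ring
  exact val_small h.hK _ (deg_Gv _ fun j => h.dgg _ j) hb h0 h1

theorem log_two_le_one : Real.log 2 ≤ 1 := by
  have := Real.log_two_lt_d9
  linarith

/-- `log (c 2 ^ x) ≤ log c + x`. -/
theorem log_pow_le {c x : ℝ} (hc : 0 < c) (hx : 0 ≤ x) :
    Real.log (c * 2 ^ x) ≤ Real.log c + x := by
  have h2 : (0 : ℝ) < 2 ^ x := Real.rpow_pos_of_pos (by norm_num) x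
  rw [Real.log_mul hc.ne' h2.ne', Real.log_rpow (by norm_num)]
  have := log_two_le_one
  nlinarith

theorem log_le_of {y c x : ℝ} (hy : 0 < y) (hc : 0 < c) (hx : 0 ≤ x) (h : y ≤ c * 2 ^ x) :
    Real.log y ≤ Real.log c + x := (Real.log_le_log hy h).trans (log_pow_le hc hx)

/-- The bound of the differences of the velocities. -/
noncomputable def vB (K d D : ℕ) (B : ℝ) : ℝ :=
  iC K d * ((d + 1) * (B * B)) + (D + 1) * ((D + 1) * B)

/-- The smallness of the combination. -/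
noncomputable def vL (K d D : ℕ) (B : ℝ) : ℝ :=
  (K + 1) ^ d * (d * K ^ 2 * lgC K ^ (d + 1)) * vB K d D B + B

/-- (A2)-(A4) **The velocities at the nodes of the tube** are those of the closed polynomials. -/
theorem vel_read (h : TL K d D CM Q MB k N₀ δ q L T Z a E X Pf Pg c s ξ n Θ)
    (hI : Im K d D Q M N₀ δ q L T Z a E Pf c s ξ n P) (hJ : Jets K d D Q M δ q L Z a E Pf P)
    (hM' : M' - Q ≤ M) (hMB' : M' ≤ MB) {g : ℕ} (hg : g ≤ k) {A : ℝ}
    (hA : (vL K d D (2 ^ (δ * Q)) + (K + 1) ^ d * lgC K ^ d) *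
      (2 * 2 ^ ((K * g + K + 1) * d)) + 1 ≤ A)
    (hw : 0 ≤ g * Real.log 2 - Real.log (d * K)) :
    (Pb q (fun ω => ∃ β, A < |2 ^ (M' - Q) * Gtv K Z E X Pg s ω β -
      2 ^ (M' - Q) * Pdv N₀ L T P ω β|) - δ) * (g * Real.log 2 - Real.log (d * K)) ≤
      3 * (δ * Q) + (2 * ((K + 1) ^ d * Real.log (2 * (2 * (D + 1) * (D + 1) + 1) + 1)) +
        Real.log 2) := by
  classical
  have h0 := h.law.nonneg
  have hσ : (0 : ℝ) < 2 ^ (M' - Q) := by positivity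
  have hB0 : (0 : ℝ) < 2 ^ (δ * Q) := Real.rpow_pos_of_pos (by norm_num) _
  obtain ⟨G, hG⟩ : ∃ G : Ω → Gr K d → ℝ, G = fun ω β =>
    Gtv K Z E X Pg s ω β - Pdv N₀ L T P ω β := ⟨_, rfl⟩
  have hsm : ∀ ω, 0 < q ω → ∀ β : Gr K d, (∀ i, -1 ≤ s ω i + nd K β i) ∧
      ∀ i, s ω i + nd K β i ≤ 2 := fun ω hω β =>
    ⟨fun i => (sh_mem (h.s1 ω hω) β i).1, fun i => (sh_mem (h.s1 ω hω) β i).2⟩
  -- the size
  have hGb : ∀ ω, 0 < q ω → ∀ β, |G ω β| ≤ vB K d D (2 ^ (δ * Q)) := by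
    intro ω hω β
    rw [hG]
    refine (abs_sub _ _).trans (add_le_add ?_ ?_)
    · exact Gv_bd h hω (hsm ω hω β).1 (hsm ω hω β).2
    · exact der_bd (hI.deg _ _) hB0.le (h.uu_bd hω) fun j _ => hI.bd ω hω β j
  -- (A2)
  have hcell : CH q (fun ω => cel (2 ^ (M' - Q)) (G ω)) (fun ω => (Z ω, E ω)) ≤
      2 * (δ * Q) + 2 * ((K + 1) ^ d * Real.log (2 * (2 * (D + 1) * (D + 1) + 1) + 1)) := by
    have e1 := CH_le_add h0 (fun ω => cel (2 ^ (M' - Q)) (G ω))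
      (fun ω => (c (L ω), fun β => ⌊2 ^ (M' - Q) * Pdv N₀ L T P ω β⌋)) (fun ω => (Z ω, E ω))
    have e2 : CH q (fun ω => (c (L ω), fun β => ⌊2 ^ (M' - Q) * Pdv N₀ L T P ω β⌋))
        (fun ω => (Z ω, E ω)) ≤ CH q (fun ω => (c (L ω), fun β =>
          ⌊2 ^ (M' - Q) * Pdv N₀ L T P ω β⌋)) (fun ω => (E ω, Key M Z a Pf ω)) := by
      refine CH_mono_cond h0 fun ω ω' hω hω' e => ?_
      simp only [Prod.mk.injEq] at e ⊢
      exact ⟨e.2, h.Zkey M ω ω' hω hω' e.1⟩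
    have e3 := pdv_few h hI hJ (M' := M') hM'
    have e4 := CH_vec_le h0 h.law.sum_one (fun ω => cel (2 ^ (M' - Q)) (G ω))
      (fun ω => ((c (L ω), fun β => ⌊2 ^ (M' - Q) * Pdv N₀ L T P ω β⌋), (Z ω, E ω)))
      (L := 2) (by
        intro ω ω' hω hω' e β
        simp only [Prod.mk.injEq] at e
        obtain ⟨⟨e5, e6⟩, e7, e8⟩ := e
        have es : s ω = s ω' := h.sc ω ω' hω hω' (by
          show (c (L ω), (E ω, a ω)) = (c (L ω'), (E ω', a ω'))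
          rw [e5, e8, h.Za ω ω' hω hω' e7])
        have e9 : Gtv K Z E X Pg s ω β = Gtv K Z E X Pg s ω' β := by
          unfold Gtv
          rw [es, e8, e7]
        unfold cel
        refine (floor_diff _ _).trans ?_
        have e10 := (Int.abs_sub_lt_one_of_floor_eq_floor (congrFun e6 β)).le
        rw [hG]
        simp only
        rw [e9]
        have e11 : (2 : ℝ) ^ (M' - Q) * (Gtv K Z E X Pg s ω' β - Pdv N₀ L T P ω β) -
            2 ^ (M' - Q) * (Gtv K Z E X Pg s ω' β - Pdv N₀ L T P ω' β) =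
            -(2 ^ (M' - Q) * Pdv N₀ L T P ω β - 2 ^ (M' - Q) * Pdv N₀ L T P ω' β) := by ring
        rw [e11, abs_neg]
        linarith)
    have h5 : (Fintype.card (Gr K d) : ℝ) = (K + 1) ^ d := by
      rw [card_grid]
      push_cast
      ring
    rw [h5] at e4
    have h6 : Real.log (2 * 2 + 1) ≤ Real.log (2 * (2 * (D + 1) * (D + 1) + 1) + 1) := by
      refine Real.log_le_log (by norm_num) ?_
      have : (0 : ℝ) ≤ D := Nat.cast_nonneg D
      nlinarith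
    have h7 : ((K : ℝ) + 1) ^ d * Real.log (2 * 2 + 1) ≤
        (K + 1) ^ d * Real.log (2 * (2 * (D + 1) * (D + 1) + 1) + 1) :=
      mul_le_mul_of_nonneg_left h6 (by positivity)
    linarith
  -- the event
  obtain ⟨Ev, hEv⟩ : ∃ Ev : Ω → Prop, Ev = fun ω => ¬ (2 ^ (δ * Q) / 2 ^ (MB - Q) <
    |(Polynomial.derivative (n (L ω))).eval (uu N₀ T ω) -
      ∑ j, X (E ω) j * eval (fun i => s ω i + ξ (L ω) i) (Pg (Z ω) j)|) := ⟨_, rfl⟩
  have hxd : ∀ ω i, |ξ (L ω) i - pt k (xd k L ξ ω) i| ≤ 1 / 2 ^ k ∧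
      (xd k L ξ ω i < 2 ^ k) := by
    intro ω i
    have hk0 : (0 : ℝ) < 2 ^ k := by positivity
    have a1 := h.ξ0 (L ω) i
    have a2 := h.ξ1 (L ω) i
    have a3 : 0 ≤ 2 ^ k * ξ (L ω) i := by positivity
    have a4 := Nat.floor_le a3
    have a5 := Nat.lt_floor_add_one (2 ^ k * ξ (L ω) i)
    constructor
    · unfold Pool.D2G30.pt xd
      have e : ξ (L ω) i - (⌊2 ^ k * ξ (L ω) i⌋₊ : ℝ) / 2 ^ k =
          (2 ^ k * ξ (L ω) i - ⌊2 ^ k * ξ (L ω) i⌋₊) / 2 ^ k := by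
        field_simp
      rw [e, abs_div, abs_of_pos hk0]
      refine div_le_div_of_nonneg_right ?_ hk0.le
      rw [abs_of_nonneg (by linarith)]
      linarith
    · unfold xd
      rw [Nat.floor_lt a3]
      push_cast
      nlinarith
  have hev : ∀ ω, 0 < q ω → Ev ω → 2 ^ (M' - Q) * |itp (G ω) (pt k (xd k L ξ ω))| ≤
      vL K d D (2 ^ (δ * Q)) := by
    intro ω hω hE
    rw [hEv] at hE
    simp only [not_lt] at hE
    have hx0 : ∀ i, -1 ≤ ξ (L ω) i := fun i => by linarith [h.ξ0 (L ω) i]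
    have hx1 : ∀ i, ξ (L ω) i ≤ 2 := fun i => by linarith [h.ξ1 (L ω) i]
    have hp : ∀ i, xd k L ξ ω i < 2 ^ k := fun i => (hxd ω i).2
    -- the exact combination
    have b1 : itp (G ω) (ξ (L ω)) = ∑ j, X (E ω) j *
        eval (fun i => s ω i + ξ (L ω) i) (Pg (Z ω) j) -
        (Polynomial.derivative (n (L ω))).eval (uu N₀ T ω) := by
      have c1 := shift_eval h.hK (Gv (X (E ω)) (Pg (Z ω))) (deg_Gv _ fun j => h.dgg _ j) (s ω)
        (fun i => s ω i + ξ (L ω) i)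
      have c2 : (fun i => s ω i + ξ (L ω) i - s ω i) = ξ (L ω) := by
        funext i
        ring
      rw [c2] at c1
      rw [← eval_Gv, c1]
      have c3 : (Polynomial.derivative (n (L ω))).eval (uu N₀ T ω) =
          ∑ β, ell K β (ξ (L ω)) * Pdv N₀ L T P ω β := by
        rw [← hI.own (L ω), Polynomial.derivative_sum, Polynomial.eval_finsetSum]
        refine Finset.sum_congr rfl fun β _ => ?_
        rw [Polynomial.derivative_C_mul, Polynomial.eval_mul, Polynomial.eval_C]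
        rfl
      rw [c3, ← Finset.sum_sub_distrib, hG]
      unfold itp
      exact Finset.sum_congr rfl fun β _ => by
        unfold Gtv
        ring
    have b2 : |itp (G ω) (ξ (L ω))| ≤ 2 ^ (δ * Q) / 2 ^ (MB - Q) := by
      rw [b1, abs_sub_comm]
      exact hE
    have b3 := itp_pt (G := G ω) (hGb ω hω) (x := pt k (xd k L ξ ω)) (y := ξ (L ω))
      (δ := 1 / 2 ^ k) (fun i => by linarith [(pt_mem hp i).1])
      (fun i => by linarith [(pt_mem hp i).2]) hx0 hx1 (by positivity)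
      (fun i => by rw [abs_sub_comm]; exact (hxd ω i).1)
    have b4 : |itp (G ω) (pt k (xd k L ξ ω))| ≤ (K + 1) ^ d * (d * K ^ 2 * lgC K ^ (d + 1)) *
        (1 / 2 ^ k * vB K d D (2 ^ (δ * Q))) + 2 ^ (δ * Q) / 2 ^ (MB - Q) := by
      have := abs_add_le (itp (G ω) (pt k (xd k L ξ ω)) - itp (G ω) (ξ (L ω)))
        (itp (G ω) (ξ (L ω)))
      rw [sub_add_cancel] at this
      linarith
    have b5 : (2 : ℝ) ^ (M' - Q) ≤ 2 ^ (MB - Q) :=
      pow_le_pow_right₀ (by norm_num) (Nat.sub_le_sub_right hMB' Q)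
    have b6 : (2 : ℝ) ^ (M' - Q) * (1 / 2 ^ k) ≤ 1 := by
      rw [mul_one_div, div_le_one (by positivity)]
      exact pow_le_pow_right₀ (by norm_num) ((Nat.sub_le _ _).trans (hMB'.trans h.hk))
    have b7 : (2 : ℝ) ^ (M' - Q) * (2 ^ (δ * Q) / 2 ^ (MB - Q)) ≤ 2 ^ (δ * Q) := by
      rw [mul_div_assoc', div_le_iff₀ (by positivity), mul_comm]
      exact mul_le_mul_of_nonneg_left b5 hB0.le
    have hC := one_le_lgC K
    have hiC := one_le_iC K d
    have hvB : 0 ≤ vB K d D (2 ^ (δ * Q)) := by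
      unfold vB
      positivity
    have b8 : 0 ≤ ((K : ℝ) + 1) ^ d * (d * K ^ 2 * lgC K ^ (d + 1)) * vB K d D (2 ^ (δ * Q)) := by
      positivity
    calc (2 : ℝ) ^ (M' - Q) * |itp (G ω) (pt k (xd k L ξ ω))|
        ≤ 2 ^ (M' - Q) * ((K + 1) ^ d * (d * K ^ 2 * lgC K ^ (d + 1)) *
          (1 / 2 ^ k * vB K d D (2 ^ (δ * Q))) + 2 ^ (δ * Q) / 2 ^ (MB - Q)) :=
          mul_le_mul_of_nonneg_left b4 hσ.le
      _ = (2 ^ (M' - Q) * (1 / 2 ^ k)) * ((K + 1) ^ d * (d * K ^ 2 * lgC K ^ (d + 1)) *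
          vB K d D (2 ^ (δ * Q))) + 2 ^ (M' - Q) * (2 ^ (δ * Q) / 2 ^ (MB - Q)) := by ring
      _ ≤ 1 * ((K + 1) ^ d * (d * K ^ 2 * lgC K ^ (d + 1)) *
          vB K d D (2 ^ (δ * Q))) + 2 ^ (δ * Q) :=
          add_le_add (mul_le_mul_of_nonneg_right b6 b8) b7
      _ = _ := by
          unfold vL
          ring
  have hrd := read_grid h.hK h.hd hg h.law (fun ω => (Z ω, E ω)) (xd k L ξ)
    (fun ω _ i => (hxd ω i).2) G (σ := 2 ^ (M' - Q)) (A := A) h.full hcell Ev hev hσ hA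
  -- the union
  have hun : Pb q (fun ω => ∃ β, A < |2 ^ (M' - Q) * Gtv K Z E X Pg s ω β -
      2 ^ (M' - Q) * Pdv N₀ L T P ω β|) ≤
      Pb q (fun ω => Ev ω ∧ ∃ β, A ≤ 2 ^ (M' - Q) * |G ω β|) + δ := by
    have e1 := law_or h0 (fun ω => ∃ β, A < |2 ^ (M' - Q) * Gtv K Z E X Pg s ω β -
      2 ^ (M' - Q) * Pdv N₀ L T P ω β|) (fun ω => Ev ω ∧ ∃ β, A ≤ 2 ^ (M' - Q) * |G ω β|)
      (fun ω => 2 ^ (δ * Q) / 2 ^ (MB - Q) <
        |(Polynomial.derivative (n (L ω))).eval (uu N₀ T ω) -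
        ∑ j, X (E ω) j * eval (fun i => s ω i + ξ (L ω) i) (Pg (Z ω) j)|) (by
        rintro ω hω ⟨β, hβ⟩
        by_cases hE : Ev ω
        · refine Or.inl ⟨hE, β, ?_⟩
          rw [← mul_sub, abs_mul, abs_of_pos hσ] at hβ
          rw [hG]
          exact hβ.le
        · right
          rw [hEv] at hE
          simp only [not_not] at hE
          exact hE)
    rw [Pb_law, Pb_law, Pb_law] at e1
    exact e1.trans (add_le_add le_rfl h.vel)
  have h8 := mul_le_mul_of_nonneg_right (show Pb q (fun ω => ∃ β, A <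
    |2 ^ (M' - Q) * Gtv K Z E X Pg s ω β - 2 ^ (M' - Q) * Pdv N₀ L T P ω β|) - δ ≤
    Pb q (fun ω => Ev ω ∧ ∃ β, A ≤ 2 ^ (M' - Q) * |G ω β|) by linarith) hw
  linarith

/-- The bound `A`. -/
noncomputable def vA (K d D : ℕ) (B : ℝ) (g : ℕ) : ℝ :=
  (vL K d D B + (K + 1) ^ d * lgC K ^ d) * (2 * 2 ^ ((K * g + K + 1) * d)) + 1

/-- **The velocities at the corner grid are few bits given the key and the velocity.** -/
theorem vel_all (h : TL K d D CM Q MB k N₀ δ q L T Z a E X Pf Pg c s ξ n Θ)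
    (hI : Im K d D Q M N₀ δ q L T Z a E Pf c s ξ n P) (hJ : Jets K d D Q M δ q L Z a E Pf P)
    (hM' : M' - Q ≤ M) (hMB' : M' ≤ MB) {g : ℕ} {η : ℝ}
    (hη : Pb q (fun ω => ∃ β, vA K d D (2 ^ (δ * Q)) g < |2 ^ (M' - Q) * Gtv K Z E X Pg s ω β -
      2 ^ (M' - Q) * Pdv N₀ L T P ω β|) ≤ η) :
    CH q (fun ω (β : Gr K d) => ⌊2 ^ (M' - Q) * eval (nd K β) (Gv (X (E ω)) (Pg (Z ω)))⌋)
      (fun ω => (E ω, Key M Z a Pf ω)) ≤
      2 * (δ * Q) + (K + 1) ^ d * Real.log (2 * (2 * (D + 1) * (D + 1) + 1) + 1) +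
        (Real.log 2 + (K + 1) ^ d * (Real.log (2 * (iC K d *
          (2 * vA K d D (2 ^ (δ * Q)) g + 1) + 1) + 1) +
        η * Real.log (4 * (2 ^ MB * (iC K d * ((d + 1) * (2 ^ (δ * Q) * 2 ^ (δ * Q)))) + 1) +
          1))) := by
  have hB0 : (0 : ℝ) < 2 ^ (δ * Q) := Real.rpow_pos_of_pos (by norm_num) _
  have hC := one_le_lgC K
  have hiC := one_le_iC K d
  have hA0 : 0 ≤ vA K d D (2 ^ (δ * Q)) g := by
    unfold vA vL vB
    positivity
  refine vel_few h.law h.hK E (Key M Z a Pf) (fun ω => c (L ω)) s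
    (fun ω => Gv (X (E ω)) (Pg (Z ω))) (Pdv N₀ L T P) hA0 (by positivity)
    (fun ω => deg_Gv _ fun j => h.dgg _ j) ?_ h.s1 ?_ hη (pdv_few h hI hJ hM')
  · intro ω ω' hω hω' e
    simp only [Prod.mk.injEq] at e
    have ea : a ω = a ω' := (Prod.ext_iff.mp e.2.2).1
    refine h.sc ω ω' hω hω' ?_
    show (c (L ω), (E ω, a ω)) = (c (L ω'), (E ω', a ω'))
    rw [e.1, e.2.1, ea]
  · intro ω hω β
    have h1 := Gv_bd h hω (x := nd K β) (fun i => by linarith [nd_nonneg β i])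
      (fun i => by linarith [nd_le_one β i])
    rw [abs_mul, abs_of_pos (by positivity : (0 : ℝ) < 2 ^ (M' - Q))]
    refine mul_le_mul ?_ h1 (abs_nonneg _) (by positivity)
    exact pow_le_pow_right₀ (by norm_num) ((Nat.sub_le _ _).trans hMB')

end one

/-! ### The asymptotic form -/

theorem rpow_ge_one {x : ℝ} (hx : 0 ≤ x) : (1 : ℝ) ≤ 2 ^ x := Real.one_le_rpow (by norm_num) hx

/-- The constant of `vA`. -/
theorem vA_le (K d D : ℕ) : ∃ C : ℝ, 1 ≤ C ∧ ∀ (x : ℝ) (g : ℕ), 0 ≤ x →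
    0 ≤ vA K d D (2 ^ x) g ∧ vA K d D (2 ^ x) g ≤ C * 2 ^ (2 * x + K * d * g) := by
  have hC := one_le_lgC K
  have hiC := one_le_iC K d
  obtain ⟨C1, hC1⟩ : ∃ C1 : ℝ, C1 = (K + 1) ^ d * (d * K ^ 2 * lgC K ^ (d + 1)) *
    (iC K d * (d + 1) + (D + 1) * (D + 1)) + 1 + (K + 1) ^ d * lgC K ^ d := ⟨_, rfl⟩
  have hC1' : 1 ≤ C1 := by
    rw [hC1]
    have : 0 ≤ ((K : ℝ) + 1) ^ d * (d * K ^ 2 * lgC K ^ (d + 1)) *
      (iC K d * (d + 1) + (D + 1) * (D + 1)) := by positivity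
    have : 0 ≤ ((K : ℝ) + 1) ^ d * lgC K ^ d := by positivity
    linarith
  refine ⟨C1 * (2 * 2 ^ ((K + 1) * d)) + 1, ?_, fun x g hx => ⟨?_, ?_⟩⟩
  · have : 0 ≤ C1 * (2 * 2 ^ ((K + 1) * d)) := by positivity
    linarith
  · unfold vA vL vB
    have : (0 : ℝ) < 2 ^ x := Real.rpow_pos_of_pos (by norm_num) _
    positivity
  · obtain ⟨B, hB⟩ : ∃ B : ℝ, B = 2 ^ x := ⟨_, rfl⟩
    have hB1 : 1 ≤ B := by rw [hB]; exact rpow_ge_one hx
    have hBB : B ≤ B * B := by nlinarith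
    have hBB1 : 1 ≤ B * B := hB1.trans hBB
    have e1 : vL K d D B + (K + 1) ^ d * lgC K ^ d ≤ C1 * (B * B) := by
      unfold vL vB
      rw [hC1]
      have a1 : 0 ≤ ((K : ℝ) + 1) ^ d * (d * K ^ 2 * lgC K ^ (d + 1)) := by positivity
      have a2 : (D + 1 : ℝ) * ((D + 1) * B) ≤ (D + 1) * (D + 1) * (B * B) := by
        have : (0 : ℝ) ≤ (D + 1) * (D + 1) := by positivity
        nlinarith
      have a3 : iC K d * ((d + 1) * (B * B)) + (D + 1) * ((D + 1) * B) ≤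
          (iC K d * (d + 1) + (D + 1) * (D + 1)) * (B * B) := by nlinarith
      have a4 := mul_le_mul_of_nonneg_left a3 a1
      have a5 : 0 ≤ ((K : ℝ) + 1) ^ d * lgC K ^ d := by positivity
      have a6 : ((K : ℝ) + 1) ^ d * lgC K ^ d ≤ (K + 1) ^ d * lgC K ^ d * (B * B) := by nlinarith
      nlinarith
    have e2 : (2 : ℝ) ^ (2 * x + K * d * g) = (B * B) * 2 ^ (K * d * g) := by
      rw [Real.rpow_add (by norm_num), two_mul, Real.rpow_add (by norm_num), ← hB]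
      congr 1
      rw [← Real.rpow_natCast]
      push_cast
      rfl
    have e3 : (2 : ℝ) ^ ((K * g + K + 1) * d) = 2 ^ (K * d * g) * 2 ^ ((K + 1) * d) := by
      rw [← pow_add]
      congr 1
      ring
    rw [e2]
    unfold vA
    rw [← hB, e3]
    have e4 : (1 : ℝ) ≤ B * B * 2 ^ (K * d * g) := by
      have : (1 : ℝ) ≤ 2 ^ (K * d * g) := one_le_pow₀ (by norm_num)
      nlinarith
    calc (vL K d D B + (K + 1) ^ d * lgC K ^ d) *
          (2 * (2 ^ (K * d * g) * 2 ^ ((K + 1) * d))) + 1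
        ≤ C1 * (B * B) * (2 * (2 ^ (K * d * g) * 2 ^ ((K + 1) * d))) +
          B * B * 2 ^ (K * d * g) :=
          add_le_add (mul_le_mul_of_nonneg_right e1 (by positivity)) e4
      _ = _ := by ring

/-- **The velocities, asymptotic form.** -/
theorem vel_step (K d D CM : ℕ) {ε : ℝ} (hε : 0 < ε) : ∃ δ : ℝ, 0 < δ ∧ δ ≤ ε ∧ ∃ Q₀ : ℕ,
    ∀ {Q MB k N₀ M M' : ℕ}, Q₀ ≤ Q → M' - Q ≤ M → M' ≤ MB → ∀ {Ω Λ ζ α ε' κ : Type} [Fintype Ω]
    {q : Ω → ℝ} {L : Ω → Λ} {T : Ω → ℕ} {Z : Ω → ζ} {a : Ω → α} {E : Ω → ε'}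
    {X : ε' → Fin (d + 1) → ℝ} {Pf : ζ → MvPolynomial (Fin d) ℝ}
    {Pg : ζ → Fin (d + 1) → MvPolynomial (Fin d) ℝ} {c : Λ → κ} {s : Ω → Fin d → ℝ}
    {ξ : Λ → Fin d → ℝ} {n : Λ → Polynomial ℝ} {Θ : Λ → Fin d → Polynomial ℝ}
    {P : Λ → Gr K d → Polynomial ℝ},
    TL K d D CM Q MB k N₀ δ q L T Z a E X Pf Pg c s ξ n Θ →
    Im K d D Q M N₀ δ q L T Z a E Pf c s ξ n P → Jets K d D Q M δ q L Z a E Pf P →
    CH q (fun ω (β : Gr K d) => ⌊2 ^ (M' - Q) * eval (nd K β) (Gv (X (E ω)) (Pg (Z ω)))⌋)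
      (fun ω => (E ω, Key M Z a Pf ω)) ≤ ε * Q := by
  obtain ⟨C, hC1, hC⟩ := vA_le K d D
  have hiC := one_le_iC K d
  obtain ⟨G, hG⟩ : ∃ G : ℝ, G = (K + 1) ^ d := ⟨_, rfl⟩
  have hG1 : 1 ≤ G := by
    rw [hG]
    exact one_le_pow₀ (by have : (0 : ℝ) ≤ K := Nat.cast_nonneg _; linarith)
  have hG0 : 0 < G := by linarith
  have hKd : (0 : ℝ) ≤ K * d := by positivity
  have hCM : (0 : ℝ) ≤ CM := Nat.cast_nonneg _
  obtain ⟨c1, hc1⟩ : ∃ c1 : ℝ, c1 = G * Real.log (2 * (2 * (D + 1) * (D + 1) + 1) + 1) := ⟨_, rfl⟩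
  have hc10 : 0 ≤ c1 := by
    rw [hc1]
    refine mul_nonneg (by linarith) (Real.log_nonneg ?_)
    have : (0 : ℝ) ≤ 2 * (D + 1) * (D + 1) := by positivity
    linarith
  obtain ⟨ε1, hε1⟩ : ∃ ε1 : ℝ, ε1 = min 1 (ε / (16 * G * (K * d + 1))) := ⟨_, rfl⟩
  obtain ⟨ε2, hε2⟩ : ∃ ε2 : ℝ, ε2 = ε / (16 * G * (CM + 3)) := ⟨_, rfl⟩
  have hε10 : 0 < ε1 := by rw [hε1]; exact lt_min one_pos (by positivity)
  have hε11 : ε1 ≤ 1 := by rw [hε1]; exact min_le_left _ _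
  have hε12 : ε1 ≤ ε / (16 * G * (K * d + 1)) := by rw [hε1]; exact min_le_right _ _
  have hε20 : 0 < ε2 := by rw [hε2]; positivity
  have k1 : G * (K * d * ε1) ≤ ε / 16 := by
    have h1 : G * (K * d * ε1) ≤ G * (K * d * (ε / (16 * G * (K * d + 1)))) := by gcongr
    refine h1.trans ?_
    rw [← sub_nonneg]
    have : ε / 16 - G * (K * d * (ε / (16 * G * (K * d + 1)))) = ε / (16 * (K * d + 1)) := by
      field_simp
      ring
    rw [this]
    positivity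
  have k2 : G * (ε2 * (CM + 3)) = ε / 16 := by
    rw [hε2]
    field_simp
  obtain ⟨δ, hδ⟩ : ∃ δ : ℝ, δ = min (min 1 (ε2 / 4)) (min (ε / (64 * G)) (ε2 * ε1 / 64)) :=
    ⟨_, rfl⟩
  have d1 : δ ≤ 1 := by rw [hδ]; exact (min_le_left _ _).trans (min_le_left _ _)
  have d5 : δ ≤ ε2 / 4 := by rw [hδ]; exact (min_le_left _ _).trans (min_le_right _ _)
  have d2 : δ ≤ ε / (64 * G) := by rw [hδ]; exact (min_le_right _ _).trans (min_le_left _ _)
  have d3 : δ ≤ ε2 * ε1 / 64 := by rw [hδ]; exact (min_le_right _ _).trans (min_le_right _ _)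
  have hδ0 : 0 < δ := by
    rw [hδ]
    exact lt_min (lt_min one_pos (by linarith)) (lt_min (by positivity) (by positivity))
  have d2' : G * δ ≤ ε / 64 := by
    have := mul_le_mul_of_nonneg_left d2 hG0.le
    refine this.trans (le_of_eq ?_)
    field_simp
  have d4 : δ ≤ ε / 64 := by nlinarith
  -- the constants
  obtain ⟨c2, hc2⟩ : ∃ c2 : ℝ, c2 = 2 * c1 + Real.log 2 := ⟨_, rfl⟩
  obtain ⟨c3, hc3⟩ : ∃ c3 : ℝ, c3 = |Real.log (d * K)| := ⟨_, rfl⟩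
  obtain ⟨c5, hc5⟩ : ∃ c5 : ℝ, c5 = Real.log (4 * (iC K d * C) + 2 * iC K d + 3) := ⟨_, rfl⟩
  obtain ⟨c6, hc6⟩ : ∃ c6 : ℝ, c6 = Real.log (4 * (iC K d * (d + 1)) + 5) := ⟨_, rfl⟩
  have hc20 : 0 ≤ c2 := by
    rw [hc2]
    have := Real.log_nonneg (show (1 : ℝ) ≤ 2 by norm_num)
    linarith
  obtain ⟨Q₀, hQ₀⟩ := exists_nat_ge (1 + (2 + 4 * c3) / ε1 + 16 * c2 / (ε1 * ε2) +
    2 * (c1 + 1 + G * (|c5| + ε2 * |c6|)) / ε)
  refine ⟨δ, hδ0, by linarith, Q₀, ?_⟩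
  intro Q MB k N₀ M M' hQ hM' hMB' Ω Λ ζ α ε' κ _ q L T Z a E X Pf Pg c s ξ n Θ P h hI hJ
  have hQr : (Q₀ : ℝ) ≤ Q := by exact_mod_cast hQ
  have hc30 : 0 ≤ c3 := by rw [hc3]; exact abs_nonneg _
  have r1 : 0 ≤ (2 + 4 * c3) / ε1 := by positivity
  have r2 : 0 ≤ 16 * c2 / (ε1 * ε2) := by positivity
  have r3 : 0 ≤ 2 * (c1 + 1 + G * (|c5| + ε2 * |c6|)) / ε := by positivity
  have hQ1 : 1 ≤ (Q : ℝ) := by linarith
  have q1 : (2 + 4 * c3) / ε1 ≤ Q := by linarith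
  have q2 : 16 * c2 / (ε1 * ε2) ≤ Q := by linarith
  have q3 : 2 * (c1 + 1 + G * (|c5| + ε2 * |c6|)) / ε ≤ Q := by linarith
  rw [div_le_iff₀ hε10] at q1
  rw [div_le_iff₀ (by positivity)] at q2
  rw [div_le_iff₀ hε] at q3
  -- the number of digits
  obtain ⟨g, hg⟩ : ∃ g : ℕ, g = ⌊ε1 * Q⌋₊ := ⟨_, rfl⟩
  have hεQ : 0 ≤ ε1 * Q := by positivity
  have hg1 : (g : ℝ) ≤ ε1 * Q := by rw [hg]; exact Nat.floor_le hεQ
  have hg2 : ε1 * Q - 1 ≤ g := by
    rw [hg]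
    have := Nat.lt_floor_add_one (ε1 * Q)
    linarith
  have hgk : g ≤ k := by
    have h1 : (g : ℝ) ≤ Q := hg1.trans (mul_le_of_le_one_left (by linarith) hε11)
    have h2 : g ≤ Q := by exact_mod_cast h1
    exact h2.trans (h.hQ.trans h.hk)
  have l2 : (1 : ℝ) / 2 ≤ Real.log 2 := by
    have := Real.log_two_gt_d9
    linarith
  have hlog : Real.log (d * K) ≤ c3 := by rw [hc3]; exact le_abs_self _
  have hw0 : ε1 * Q / 4 ≤ g * Real.log 2 - Real.log (d * K) := by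
    have h1 : (ε1 * Q - 1) / 2 ≤ g * Real.log 2 := by
      rcases le_or_gt (ε1 * Q - 1) 0 with h2 | h2
      · have : 0 ≤ (g : ℝ) * Real.log 2 := by positivity
        linarith
      · have h3 : (0 : ℝ) ≤ g := Nat.cast_nonneg _
        nlinarith
    linarith
  have hw : 0 ≤ g * Real.log 2 - Real.log (d * K) := by
    have : 0 ≤ ε1 * Q / 4 := by positivity
    linarith
  have hrd := vel_read h hI hJ hM' hMB' hgk (A := vA K d D (2 ^ (δ * Q)) g) le_rfl hw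
  rw [← hG, ← hc1, ← hc2] at hrd
  obtain ⟨pb, hpb⟩ : ∃ pb : ℝ, pb = Pb q (fun ω => ∃ β, vA K d D (2 ^ (δ * Q)) g <
    |2 ^ (M' - Q) * Gtv K Z E X Pg s ω β - 2 ^ (M' - Q) * Pdv N₀ L T P ω β|) := ⟨_, rfl⟩
  rw [← hpb] at hrd
  have hη : pb ≤ ε2 := by
    rcases le_or_gt (pb - δ) 0 with h1 | h1
    · linarith
    · have h2 : (pb - δ) * (ε1 * Q / 4) ≤ 3 * (δ * Q) + c2 :=
        (mul_le_mul_of_nonneg_left hw0 h1.le).trans hrd
      have h3 : 3 * (δ * Q) + c2 ≤ (ε2 / 2) * (ε1 * Q / 4) := by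
        have h4 : δ * Q ≤ ε2 * ε1 / 64 * Q := mul_le_mul_of_nonneg_right d3 (by linarith)
        have h5 : 16 * c2 ≤ Q * (ε1 * ε2) := q2
        nlinarith
      have h4 : 0 < ε1 * Q / 4 := by positivity
      have h5 : pb - δ ≤ ε2 / 2 := le_of_mul_le_mul_right (h2.trans h3) h4
      linarith
  have hfin := vel_all h hI hJ hM' hMB' (g := g) (η := ε2) (by rw [← hpb]; exact hη)
  rw [← hG, ← hc1] at hfin
  refine hfin.trans ?_
  -- the logarithms
  have hδQ : 0 ≤ δ * Q := by positivity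
  obtain ⟨hA0, hA1⟩ := hC (δ * Q) g hδQ
  have hy0 : 0 ≤ 2 * (δ * Q) + K * d * g := by positivity
  have t1 : Real.log (2 * (iC K d * (2 * vA K d D (2 ^ (δ * Q)) g + 1) + 1) + 1) ≤
      |c5| + (2 * (δ * Q) + K * d * g) := by
    have h1 := log_le_of (y := 2 * (iC K d * (2 * vA K d D (2 ^ (δ * Q)) g + 1) + 1) + 1)
      (c := 4 * (iC K d * C) + 2 * iC K d + 3) (x := 2 * (δ * Q) + K * d * g) (by positivity)
      (by positivity) hy0 (by
        have h2 := rpow_ge_one hy0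
        have h3 := mul_le_mul_of_nonneg_left hA1 (show 0 ≤ 4 * iC K d by linarith)
        have h4 : 2 * iC K d + 3 ≤ (2 * iC K d + 3) * 2 ^ (2 * (δ * Q) + K * d * g) := by
          nlinarith
        nlinarith)
    rw [← hc5] at h1
    exact h1.trans (by linarith [le_abs_self c5])
  have t2 : Real.log (4 * (2 ^ MB * (iC K d * ((d + 1) * (2 ^ (δ * Q) * 2 ^ (δ * Q)))) + 1) + 1) ≤
      |c6| + (CM + 2) * Q := by
    have e1 : (2 : ℝ) ^ ((MB : ℝ) + 2 * (δ * Q)) = 2 ^ MB * (2 ^ (δ * Q) * 2 ^ (δ * Q)) := by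
      rw [Real.rpow_add (by norm_num), Real.rpow_natCast, two_mul, Real.rpow_add (by norm_num)]
    have hy1 : 0 ≤ (MB : ℝ) + 2 * (δ * Q) := by positivity
    have h1 := log_le_of (y := 4 * (2 ^ MB * (iC K d * ((d + 1) *
      (2 ^ (δ * Q) * 2 ^ (δ * Q)))) + 1) + 1)
      (c := 4 * (iC K d * (d + 1)) + 5) (x := (MB : ℝ) + 2 * (δ * Q)) (by positivity)
      (by positivity) hy1 (by
        have h2 := rpow_ge_one hy1
        rw [e1] at h2 ⊢
        nlinarith)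
    rw [← hc6] at h1
    have h2 : (MB : ℝ) ≤ CM * Q := by exact_mod_cast h.hMB
    have h3 : δ * Q ≤ 1 * Q := mul_le_mul_of_nonneg_right d1 (by linarith)
    linarith [le_abs_self c6]
  have t3 : G * (Real.log (2 * (iC K d * (2 * vA K d D (2 ^ (δ * Q)) g + 1) + 1) + 1) +
      ε2 * Real.log (4 * (2 ^ MB * (iC K d * ((d + 1) *
        (2 ^ (δ * Q) * 2 ^ (δ * Q)))) + 1) + 1)) ≤
      G * ((|c5| + (2 * (δ * Q) + K * d * g)) + ε2 * (|c6| + (CM + 2) * Q)) := by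
    gcongr
  have t4 : G * (K * d * g) ≤ ε / 16 * Q := by
    have h1 : G * (K * d * g) ≤ G * (K * d * (ε1 * Q)) := by gcongr
    have h2 := mul_le_mul_of_nonneg_right k1 (show (0 : ℝ) ≤ Q by linarith)
    nlinarith
  have t5 : G * (ε2 * ((CM + 2) * Q)) ≤ ε / 16 * Q := by
    have h1 : G * (ε2 * ((CM + 2) * Q)) ≤ G * (ε2 * ((CM + 3) * Q)) := by gcongr; norm_num
    have h2 : G * (ε2 * ((CM + 3) * Q)) = ε / 16 * Q := by
      rw [← k2]
      ring
    linarith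
  have t6 : G * (2 * (δ * Q)) ≤ ε / 32 * Q := by
    have := mul_le_mul_of_nonneg_right d2' (show (0 : ℝ) ≤ Q by linarith)
    nlinarith
  have t7 : 2 * (δ * Q) ≤ ε / 32 * Q := by
    have := mul_le_mul_of_nonneg_right d4 (show (0 : ℝ) ≤ Q by linarith)
    nlinarith
  have t8 := log_two_le_one
  have t9 : 2 * (c1 + 1 + G * (|c5| + ε2 * |c6|)) ≤ Q * ε := q3
  have t10 : G * ((|c5| + (2 * (δ * Q) + K * d * g)) + ε2 * (|c6| + (CM + 2) * Q)) =
      G * (|c5| + ε2 * |c6|) + G * (2 * (δ * Q)) + G * (K * d * g) +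
        G * (ε2 * ((CM + 2) * Q)) := by ring
  rw [t10] at t3
  have t11 : 0 < ε * Q := by positivity
  linarith

end Pool.V1E
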