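import Pool.Agent.H92.D2.Gst

/-!
# V1 empty: the gradients are few bits given the key, asymptotic form
-/

set_option autoImplicit false

namespace Pool.V1E

open Finset Real
open Pool.Agent.H49.Ent Pool.Agent.H32.Dense Pool.STK Pool.D2A Pool.D2Con
open Pool.BFL (Pb)
open Pool.D2G30
open MvPolynomial (eval pderiv)

/-- **The gradients of the balls are few bits given the key.** -/
theorem grad_step (K d D CM : ℕ) {ε : ℝ} (hε : 0 < ε) : ∃ δ : ℝ, 0 < δ ∧ δ ≤ ε ∧ ∃ Q₀ : ℕ,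
    ∀ {Q MB k N₀ M M' : ℕ}, Q₀ ≤ Q → M' - Q ≤ M → M' ≤ MB → ∀ {Ω Λ ζ α ε' κ : Type} [Fintype Ω]
    {q : Ω → ℝ} {L : Ω → Λ} {T : Ω → ℕ} {Z : Ω → ζ} {a : Ω → α} {E : Ω → ε'}
    {X : ε' → Fin (d + 1) → ℝ} {Pf : ζ → MvPolynomial (Fin d) ℝ}
    {Pg : ζ → Fin (d + 1) → MvPolynomial (Fin d) ℝ} {c : Λ → κ} {s : Ω → Fin d → ℝ}
    {ξ : Λ → Fin d → ℝ} {n : Λ → Polynomial ℝ} {Θ : Λ → Fin d → Polynomial ℝ}
    {P : Λ → Gr K d → Polynomial ℝ},
    TL K d D CM Q MB k N₀ δ q L T Z a E X Pf Pg c s ξ n Θ →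
    Im K d D Q M N₀ δ q L T Z a E Pf c s ξ n P → Jets K d D Q M δ q L Z a E Pf P →
    GradF K d Q M M' ε q Z a Pf Pg := by
  obtain ⟨G, hG⟩ : ∃ G : ℝ, G = (K + 1) ^ d * (d + 1) := ⟨_, rfl⟩
  have hG1 : 1 ≤ G := by
    rw [hG]
    have h1 : (1 : ℝ) ≤ (K + 1) ^ d :=
      one_le_pow₀ (by have : (0 : ℝ) ≤ K := Nat.cast_nonneg _; linarith)
    have h2 : (0 : ℝ) ≤ d := Nat.cast_nonneg _
    nlinarith
  have hG0 : 0 < G := by linarith
  have hd0 : (0 : ℝ) < d + 1 := by positivity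
  have hCM : (0 : ℝ) ≤ CM := Nat.cast_nonneg _
  obtain ⟨δ₁, hδ₁, hδ₁ε, Q₁, H⟩ := vel_step K d D CM (ε := ε / (4 * (d + 1))) (by positivity)
  obtain ⟨δ, hδ⟩ : ∃ δ : ℝ, δ = min (min 1 δ₁)
      (min (ε / (16 * (d + 1))) (ε / (16 * G * (d + 1) * (CM + 3)))) := ⟨_, rfl⟩
  have d1 : δ ≤ 1 := by rw [hδ]; exact (min_le_left _ _).trans (min_le_left _ _)
  have d2 : δ ≤ δ₁ := by rw [hδ]; exact (min_le_left _ _).trans (min_le_right _ _)
  have d3 : δ ≤ ε / (16 * (d + 1)) := by rw [hδ]; exact (min_le_right _ _).trans (min_le_left _ _)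
  have d4 : δ ≤ ε / (16 * G * (d + 1) * (CM + 3)) := by
    rw [hδ]; exact (min_le_right _ _).trans (min_le_right _ _)
  have hδ0 : 0 < δ := by
    rw [hδ]
    exact lt_min (lt_min one_pos hδ₁) (lt_min (by positivity) (by positivity))
  have d3' : (d + 1) * δ ≤ ε / 16 := by
    have := mul_le_mul_of_nonneg_left d3 hd0.le
    refine this.trans (le_of_eq ?_)
    field_simp
  have d4' : G * ((d + 1) * δ * (CM + 3)) ≤ ε / 16 := by
    have h1 : G * ((d + 1) * δ * (CM + 3)) ≤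
        G * ((d + 1) * (ε / (16 * G * (d + 1) * (CM + 3))) * (CM + 3)) := by gcongr
    refine h1.trans (le_of_eq ?_)
    field_simp
  have dε : δ ≤ ε := by
    have h1 : ε / (16 * (d + 1)) ≤ ε := by
      rw [div_le_iff₀ (by positivity)]
      have : (0 : ℝ) ≤ d := Nat.cast_nonneg _
      nlinarith
    exact d3.trans h1
  -- the constants
  obtain ⟨c5, hc5⟩ : ∃ c5 : ℝ, c5 = Real.log (2 * ((d + 1 : ℕ) * (d + 1).factorial) + 3) := ⟨_, rfl⟩
  obtain ⟨c6, hc6⟩ : ∃ c6 : ℝ, c6 = Real.log 9 := ⟨_, rfl⟩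
  obtain ⟨Q₀, hQ₀⟩ := exists_nat_ge (1 + 4 * (1 + G * (|c5| + (d + 1) * |c6|)) / ε)
  refine ⟨δ, hδ0, dε, max Q₀ Q₁, ?_⟩
  intro Q MB k N₀ M M' hQ hM' hMB' Ω Λ ζ α ε' κ _ q L T Z a E X Pf Pg c s ξ n Θ P h hI hJ
  have h0 := h.law.nonneg
  have hQr : (Q₀ : ℝ) ≤ Q := by exact_mod_cast (le_max_left Q₀ Q₁).trans hQ
  have r3 : 0 ≤ 4 * (1 + G * (|c5| + (d + 1) * |c6|)) / ε := by positivity
  have hQ1 : 1 ≤ (Q : ℝ) := by linarith
  have q3 : 4 * (1 + G * (|c5| + (d + 1) * |c6|)) / ε ≤ Q := by linarith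
  rw [div_le_iff₀ hε] at q3
  have hvel := H ((le_max_right Q₀ Q₁).trans hQ) hM' hMB' (h.mono d2) (hI.mono h0 d2)
    (le_trans hJ (mul_le_mul_of_nonneg_right d2 (Nat.cast_nonneg Q)))
  have hδQ : 0 ≤ δ * Q := by positivity
  have hB1 : (1 : ℝ) ≤ 2 ^ (δ * Q) := rpow_ge_one hδQ
  have hB0 : (0 : ℝ) < 2 ^ (δ * Q) := by linarith
  have hσ : (0 : ℝ) < 2 ^ (M' - Q) := by positivity
  have hη : (0 : ℝ) < 2 ^ (-(δ * Q)) := Real.rpow_pos_of_pos (by norm_num) _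
  have hfree : CH q E (Key M Z a Pf) ≤ CH q E Z + δ * Q := by
    refine (CH_mono_cond (W := a) h0 fun ω ω' _ _ e => (Prod.ext_iff.mp e).1).trans h.fr
  have hcop := cop_grad h.law Z (Key M Z a Pf) E X
    (fun z (β : Gr K d) j => 2 ^ (M' - Q) * eval (nd K β) (Pg z j)) (h.Zkey M) hB1 hη
    (M := 2 ^ MB * 2 ^ (δ * Q)) (by positivity) h.Xb
    (by
      intro ω hω β j
      rw [abs_mul, abs_of_pos hσ]
      refine mul_le_mul ?_ (h.bdg ω hω β j) (abs_nonneg _) (by positivity)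
      exact pow_le_pow_right₀ (by norm_num) ((Nat.sub_le _ _).trans hMB')) h.nh
    (δ₁ := ε / (4 * (d + 1)) * Q) (by
      refine (le_of_eq ?_).trans hvel
      congr 1
      funext ω β
      rw [eval_Gv, Finset.mul_sum]
      congr 1
      exact Finset.sum_congr rfl fun j _ => by ring) hfree
  unfold GradF
  refine (le_of_eq rfl).trans (hcop.trans ?_)
  have hcard : (Fintype.card (Gr K d) : ℝ) * ((d + 1 : ℕ) : ℝ) = G := by
    rw [hG, card_grid]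
    push_cast
    ring
  rw [hcard]
  -- the logarithms
  have t1 : Real.log (2 * (cK (d + 1) (2 ^ (δ * Q)) ((2 ^ (-(δ * Q))) ^ (d + 1)) + 1) + 1) ≤
      |c5| + 2 * ((d + 1) * (δ * Q)) := by
    have hy0 : 0 ≤ 2 * ((d + 1) * (δ * Q)) := by positivity
    have e1 : cK (d + 1) (2 ^ (δ * Q)) ((2 ^ (-(δ * Q))) ^ (d + 1)) =
        ((d + 1 : ℕ) * (d + 1).factorial) * 2 ^ (2 * ((d + 1) * (δ * Q))) := by
      unfold cK
      have e2 : ((2 : ℝ) ^ (-(δ * Q))) ^ (d + 1) = (2 ^ ((d + 1) * (δ * Q)))⁻¹ := by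
        rw [← Real.rpow_natCast, ← Real.rpow_mul (by norm_num), ← Real.rpow_neg (by norm_num)]
        congr 1
        push_cast
        ring
      have e3 : ((2 : ℝ) ^ (δ * Q)) ^ (d + 1) = 2 ^ ((d + 1) * (δ * Q)) := by
        rw [← Real.rpow_natCast, ← Real.rpow_mul (by norm_num)]
        congr 1
        push_cast
        ring
      rw [e2, e3, div_inv_eq_mul, two_mul, Real.rpow_add (by norm_num)]
      ring
    have h1 := log_le_of
      (y := 2 * (cK (d + 1) (2 ^ (δ * Q)) ((2 ^ (-(δ * Q))) ^ (d + 1)) + 1) + 1)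
      (c := 2 * ((d + 1 : ℕ) * (d + 1).factorial) + 3) (x := 2 * ((d + 1) * (δ * Q)))
      (by rw [e1]; positivity) (by positivity) hy0 (by
        rw [e1]
        have h2 := rpow_ge_one hy0
        nlinarith)
    rw [← hc5] at h1
    exact h1.trans (by linarith [le_abs_self c5])
  have t2 : Real.log (4 * (2 ^ MB * 2 ^ (δ * Q) + 1) + 1) ≤ |c6| + (CM + 1) * Q := by
    have hy1 : 0 ≤ (MB : ℝ) + δ * Q := by positivity
    have e1 : (2 : ℝ) ^ ((MB : ℝ) + δ * Q) = 2 ^ MB * 2 ^ (δ * Q) := by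
      rw [Real.rpow_add (by norm_num), Real.rpow_natCast]
    have h1 := log_le_of (y := 4 * (2 ^ MB * 2 ^ (δ * Q) + 1) + 1) (c := 9)
      (x := (MB : ℝ) + δ * Q) (by positivity) (by norm_num) hy1 (by
        have h2 := rpow_ge_one hy1
        rw [e1] at h2 ⊢
        linarith)
    rw [← hc6] at h1
    have h2 : (MB : ℝ) ≤ CM * Q := by exact_mod_cast h.hMB
    have h3 : δ * Q ≤ 1 * Q := mul_le_mul_of_nonneg_right d1 (by linarith)
    linarith [le_abs_self c6]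
  have t3 : G * (Real.log (2 * (cK (d + 1) (2 ^ (δ * Q)) ((2 ^ (-(δ * Q))) ^ (d + 1)) + 1) + 1) +
      ((d + 1 : ℕ) : ℝ) * δ * Real.log (4 * (2 ^ MB * 2 ^ (δ * Q) + 1) + 1)) ≤
      G * ((|c5| + 2 * ((d + 1) * (δ * Q))) + (d + 1) * δ * (|c6| + (CM + 1) * Q)) := by
    push_cast
    gcongr
  have hQ0 : (0 : ℝ) ≤ Q := Nat.cast_nonneg Q
  have t4 : G * ((d + 1) * δ * ((CM + 1) * Q)) + G * (2 * ((d + 1) * (δ * Q))) ≤ ε / 16 * Q := by
    have h1 := mul_le_mul_of_nonneg_right d4' hQ0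
    have e1 : G * ((d + 1) * δ * ((CM + 1) * Q)) + G * (2 * ((d + 1) * (δ * Q))) =
        G * ((d + 1) * δ * (CM + 3)) * Q := by ring
    linarith
  have t5 : G * ((d + 1) * δ * |c6|) ≤ G * ((d + 1) * |c6|) := by
    have h1 : (d + 1) * δ * |c6| ≤ (d + 1) * |c6| := by
      have : (d + 1) * δ ≤ ((d : ℝ) + 1) * 1 := mul_le_mul_of_nonneg_left d1 hd0.le
      have h2 := mul_le_mul_of_nonneg_right this (abs_nonneg c6)
      linarith
    exact mul_le_mul_of_nonneg_left h1 hG0.le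
  have t6 : G * ((|c5| + 2 * ((d + 1) * (δ * Q))) + (d + 1) * δ * (|c6| + (CM + 1) * Q)) =
      G * |c5| + G * ((d + 1) * δ * |c6|) +
        (G * ((d + 1) * δ * ((CM + 1) * Q)) + G * (2 * ((d + 1) * (δ * Q)))) := by ring
  have t7 : ((d + 1 : ℕ) : ℝ) * (δ * Q + ε / (4 * (d + 1)) * Q) ≤ ε / 16 * Q + ε / 4 * Q := by
    have h1 := mul_le_mul_of_nonneg_right d3' hQ0
    have e1 : ((d + 1 : ℕ) : ℝ) * (δ * Q + ε / (4 * (d + 1)) * Q) =
        (d + 1) * δ * Q + ε / 4 * Q := by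
      push_cast
      field_simp
    linarith
  have t8 := log_two_le_one
  have t9 : G * (|c5| + (d + 1) * |c6|) = G * |c5| + G * ((d + 1) * |c6|) := by ring
  have t10 : 0 ≤ ε * Q := by positivity
  linarith

end Pool.V1E
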