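import Pool.Agent.H92.D2.Imc
import Pool.Agent.H98.D2.Tgr
import Pool.Agent.H95.D2.Nod
import Pool.Agent.H21.RDP.Cfs
import Pool.Agent.H68.OWN.Jd

/-!
# V1 empty: the new tube labels are few bits

`few_new`: the count for the new labels of the precision `2 ^ (-(M + Q))`.
-/

set_option autoImplicit false

namespace Pool.V1E

open Finset Real
open Pool.Agent.H49.Ent Pool.Agent.H32.Dense Pool.STK Pool.D2A Pool.D2Con
open Pool.BFL (Pb)
open Pool.D2G30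
open MvPolynomial (eval pderiv)

/-- Differences of the values at two points, from the gradients at the nodes. -/
theorem dif_small {K d : ℕ} (hK : 1 ≤ K) (P : MvPolynomial (Fin d) ℝ) (hP : P.totalDegree ≤ K)
    {ε : ℝ} (hε : 0 ≤ ε) (h : ∀ (β : Gr K d) (i : Fin d), |eval (nd K β) (pderiv i P)| ≤ ε)
    {x y : Fin d → ℝ} (h0 : ∀ i, -1 ≤ x i) (h1 : ∀ i, x i ≤ 2) (k0 : ∀ i, -1 ≤ y i)
    (k1 : ∀ i, y i ≤ 2) : |eval x P - eval y P| ≤ cbC K d * ε := by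
  have h2 := grd_small hK (P - MvPolynomial.C (eval y P)) (by
    refine (MvPolynomial.totalDegree_sub _ _).trans (max_le hP ?_)
    rw [MvPolynomial.totalDegree_C]
    exact Nat.zero_le _) (ε := ε) (fun β i => by
      rw [map_sub, MvPolynomial.pderiv_C, sub_zero]
      exact h β i) h0 h1 k0 k1 (by
      rw [map_sub, MvPolynomial.eval_C, sub_self, abs_zero]
      exact hε)
  rw [map_sub, MvPolynomial.eval_C] at h2
  exact h2

theorem pderiv_shift {d : ℕ} (s : Fin d → ℝ) (i : Fin d) (P : MvPolynomial (Fin d) ℝ) :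
    pderiv i (MvPolynomial.aeval (fun i => MvPolynomial.C (s i) + MvPolynomial.X i :
      Fin d → MvPolynomial (Fin d) ℝ) P) =
      MvPolynomial.aeval (fun i => MvPolynomial.C (s i) + MvPolynomial.X i :
        Fin d → MvPolynomial (Fin d) ℝ) (pderiv i P) := by
  classical
  induction P using MvPolynomial.induction_on with
  | C r => simp [MvPolynomial.algebraMap_eq]
  | add p q hp hq => rw [map_add, map_add, hp, hq, map_add, map_add]
  | mul_X p j hp =>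
    rw [map_mul, MvPolynomial.aeval_X, Derivation.leibniz, smul_eq_mul, smul_eq_mul, hp,
      Derivation.leibniz, smul_eq_mul, smul_eq_mul]
    simp only [map_add, map_mul, MvPolynomial.aeval_X, MvPolynomial.pderiv_C, zero_add,
      MvPolynomial.pderiv_X]
    by_cases h : i = j
    · subst h
      simp
    · rw [Pi.single_eq_of_ne (fun hh => h hh.symm), map_zero]

section few

variable {K d D CM Q MB k N₀ M : ℕ} {δ δ' : ℝ} {Ω Λ ζ α ε κ : Type} [Fintype Ω] {q : Ω → ℝ}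
  {L : Ω → Λ} {T : Ω → ℕ} {Z : Ω → ζ} {a : Ω → α} {E : Ω → ε} {X : ε → Fin (d + 1) → ℝ}
  {Pf : ζ → MvPolynomial (Fin d) ℝ} {Pg : ζ → Fin (d + 1) → MvPolynomial (Fin d) ℝ}
  {c : Λ → κ} {s : Ω → Fin d → ℝ} {ξ : Λ → Fin d → ℝ} {n : Λ → Polynomial ℝ}
  {Θ : Λ → Fin d → Polynomial ℝ} {P P' : Λ → Gr K d → Polynomial ℝ}

/-- The scaled difference of two labels. -/
noncomputable def dfp (M : ℕ) (P : Λ → Gr K d → Polynomial ℝ) (β : Gr K d) (l : Λ) :
    Polynomial ℝ := Polynomial.C (2 ^ M) * (P l β - P l (fun _ => 0))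

/-- The values of the differences at the time, given the data of the tube, the velocity and the
time. -/
theorem dif_few (hT : TL K d D CM Q MB k N₀ δ q L T Z a E X Pf Pg c s ξ n Θ)
    (hI : Im K d D Q M N₀ δ q L T Z a E Pf c s ξ n P)
    (hG : GradF K d Q M (M + Q) δ q Z a Pf Pg)
    (hC : ImC K d D Q (M + Q) N₀ δ q L T Z Pf s ξ n P') (β : Gr K d) :
    CH q (fun ω => ⌊(dfp (M + Q) P' β (L ω)).eval (uu N₀ T ω)⌋)
      (fun ω => (Cfl D M c P (L ω), (E ω, T ω))) ≤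
      (2 * (δ * Q) + (Real.log 2 + (Real.log (2 * gE K d D δ Q + 1) +
        δ * Real.log (4 * (2 ^ M * 2 ^ (δ * Q) + 1) + 1))) +
      (K + 1) ^ d * d * Real.log (2 * (iC K d + 1) + 1)) + δ * Q + (Real.log 2 +
        (Real.log (2 * (cbC K d * 2 + 4 * 2 ^ (δ * Q) + 1) + 1) +
          δ * Real.log (4 * (2 ^ (M + Q) * (2 * ((D + 1) * 2 ^ (δ * Q))) + 1) + 1))) := by
  classical
  have hq := hT.law
  have h0 := hq.nonneg
  have hK := hT.hK
  have hiC := one_le_iC K d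
  have hcb := one_le_cbC K d
  have hB0 : (0 : ℝ) < 2 ^ (δ * Q) := Real.rpow_pos_of_pos (by norm_num) _
  have pM : (0 : ℝ) < 2 ^ (M + Q) := by positivity
  have hMQ : M + Q - Q = M := Nat.add_sub_cancel M Q
  obtain ⟨W, hW⟩ : ∃ W : Ω → (κ × ((Gr K d → Fin (D + 1) → ℤ) × (Fin (D + 1) → ℤ))) × (ε × ℕ),
    W = fun ω => (Cfl D M c P (L ω), (E ω, T ω)) := ⟨_, rfl⟩
  obtain ⟨X3, hX3⟩ : ∃ X3 : Ω → Gr K d × Fin d → ℤ, X3 = fun ω => cel (2 ^ (M + Q - Q))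
    (fun b : Gr K d × Fin d => eval (fun i' => s ω i' + nd K b.1 i') (Pg (Z ω) b.2.succ)) :=
    ⟨_, rfl⟩
  have c1 := grad_one hT hI hG
  rw [← hW, ← hX3] at c1
  rw [← hW]
  have c2 : CH q a W ≤ δ * Q := by
    refine (CH_mono_cond h0 fun ω ω' _ _ h => ?_).trans hT.afew
    rw [hW] at h
    obtain ⟨e1, e2⟩ := Prod.ext_iff.1 h
    exact Prod.ext (Prod.ext_iff.1 e1).1 (Prod.ext_iff.1 e2).2
  obtain ⟨Y, hY⟩ : ∃ Y : Ω → Unit → ℤ,
    Y = fun ω _ => ⌊(dfp (M + Q) P' β (L ω)).eval (uu N₀ T ω)⌋ := ⟨_, rfl⟩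
  have c3 : CH q (fun ω => ⌊(dfp (M + Q) P' β (L ω)).eval (uu N₀ T ω)⌋) W ≤ CH q Y W :=
    CH_mono_left h0 fun ω ω' _ _ h => by
      rw [hY] at h
      exact congrFun (Prod.ext_iff.1 h).1 ()
  have c4 := CH_le_add h0 Y (fun ω => (X3 ω, a ω)) W
  have c5 := CH_subadd h0 X3 a W
  have sm := fun ω (hω : 0 < q ω) (β : Gr K d) => sh_mem (hT.s1 ω hω) β
  have c6 := CH_vecb hq Y (fun ω => ((X3 ω, a ω), W ω)) (fun ω => ∃ β : Gr K d,
      2 ^ (δ * Q) / 2 ^ (M + Q) < |vt K Z Pf s ω β - (P' (L ω) β).eval (uu N₀ T ω)|)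
    (M := 2 ^ (M + Q) * (2 * ((D + 1) * 2 ^ (δ * Q))) + 1)
    (D := cbC K d * 2 + 4 * 2 ^ (δ * Q) + 1) hC.cls (by positivity) (by positivity)
    (by
      intro ω hω _
      have e1 : |(dfp (M + Q) P' β (L ω)).eval (uu N₀ T ω)| ≤
          2 ^ (M + Q) * (2 * ((D + 1) * 2 ^ (δ * Q))) := by
        unfold dfp
        rw [Polynomial.eval_mul, Polynomial.eval_C, abs_mul, abs_of_pos pM, Polynomial.eval_sub]
        refine mul_le_mul_of_nonneg_left ?_ pM.le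
        have a1 := eval_bd (hC.deg (L ω) β) (hT.uu_bd hω) (fun j _ => hC.bd ω hω β j)
        have a2 := eval_bd (hC.deg (L ω) (fun _ => 0)) (hT.uu_bd hω)
          (fun j _ => hC.bd ω hω (fun _ => 0) j)
        exact (abs_sub _ _).trans (by linarith)
      rw [hY]
      have h4 := Int.floor_le ((dfp (M + Q) P' β (L ω)).eval (uu N₀ T ω))
      have h5 := Int.lt_floor_add_one ((dfp (M + Q) P' β (L ω)).eval (uu N₀ T ω))
      rw [abs_le] at e1 ⊢
      constructor <;> linarith [e1.1, e1.2])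
    (by
      intro ω ω' hω hω' hg hg' h _
      simp only [Prod.mk.injEq] at h
      obtain ⟨⟨e1, e2⟩, e3⟩ := h
      have e4 := e3
      rw [hW] at e4
      simp only [Prod.mk.injEq] at e4
      obtain ⟨e5, e6, e7⟩ := e4
      have es : s ω = s ω' := hT.sc ω ω' hω hω'
        (Prod.ext (Prod.ext_iff.1 e5).1 (Prod.ext e6 e2))
      have eu : uu N₀ T ω' = uu N₀ T ω := by
        unfold uu
        rw [e7]
      push Not at hg hg'
      rw [hY]
      refine (floor_diff _ _).trans (add_le_add ?_ le_rfl)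
      -- the difference of the two charts, in the coordinates of the tube
      obtain ⟨Pd, hPd⟩ : ∃ Pd : MvPolynomial (Fin d) ℝ, Pd =
          MvPolynomial.aeval (fun i => MvPolynomial.C (s ω i) + MvPolynomial.X i :
            Fin d → MvPolynomial (Fin d) ℝ) (Pf (Z ω) - Pf (Z ω')) := ⟨_, rfl⟩
      have hPe : ∀ x, eval x Pd = eval (fun i => s ω i + x i) (Pf (Z ω)) -
          eval (fun i => s ω i + x i) (Pf (Z ω')) := by
        intro x
        rw [hPd, eval_comp, map_sub]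
      have hPg : ∀ (γ : Gr K d) (i : Fin d), |eval (nd K γ) (pderiv i Pd)| ≤ 1 / 2 ^ (M + Q) := by
        intro γ i
        have f1 : pderiv i Pd = MvPolynomial.aeval (fun i => MvPolynomial.C (s ω i) +
            MvPolynomial.X i : Fin d → MvPolynomial (Fin d) ℝ)
              (pderiv i (Pf (Z ω) - Pf (Z ω'))) := by
          rw [hPd]
          exact pderiv_shift (s ω) i _
        rw [f1, eval_comp, map_sub, map_sub]
        have f2 := congrFun e1 (γ, i)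
        rw [hX3] at f2
        have f3 : ⌊2 ^ (M + Q - Q) * eval (fun i' => s ω i' + nd K γ i') (Pg (Z ω) i.succ)⌋ =
            ⌊2 ^ (M + Q - Q) * eval (fun i' => s ω' i' + nd K γ i') (Pg (Z ω') i.succ)⌋ := f2
        rw [← es, hMQ, hT.grd ω hω i, hT.grd ω' hω' i, map_mul, map_mul,
          MvPolynomial.eval_C] at f3
        have f4 := (Int.abs_sub_lt_one_of_floor_eq_floor f3).le
        rw [le_div_iff₀ pM]
        have f5 : |eval (fun i' => s ω i' + nd K γ i') (pderiv i (Pf (Z ω))) -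
            eval (fun i' => s ω i' + nd K γ i') (pderiv i (Pf (Z ω')))| * 2 ^ (M + Q) =
            |2 ^ M * (2 ^ Q * eval (fun i' => s ω i' + nd K γ i') (pderiv i (Pf (Z ω)))) -
            2 ^ M * (2 ^ Q * eval (fun i' => s ω i' + nd K γ i') (pderiv i (Pf (Z ω'))))| := by
          have f6 : ∀ x : ℝ, |x| * 2 ^ (M + Q) = |x * 2 ^ (M + Q)| := fun x => by
            rw [abs_mul, abs_of_pos pM]
          rw [f6]
          congr 1
          rw [pow_add]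
          ring
        rw [f5]
        exact f4
      have hPdg : Pd.totalDegree ≤ K := by
        rw [hPd]
        refine (tdeg_comp _ _).trans ((MvPolynomial.totalDegree_sub _ _).trans
          (max_le (hT.dgf _) (hT.dgf _)))
      have g1 := dif_small hK Pd hPdg (by positivity) hPg (x := nd K β)
        (y := nd K (fun _ => 0)) (fun i => by linarith [nd_nonneg β i])
        (fun i => by linarith [nd_le_one β i])
        (fun i => by linarith [nd_nonneg (K := K) (fun _ : Fin d => (0 : Fin (K + 1))) i])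
        (fun i => by linarith [nd_le_one (K := K) (fun _ : Fin d => (0 : Fin (K + 1))) i])
      rw [hPe, hPe] at g1
      -- the values
      have v1 := hg β
      have v2 := hg (fun _ => 0)
      have v3 := hg' β
      have v4 := hg' (fun _ => 0)
      rw [eu] at v3 v4
      unfold vt at v1 v2 v3 v4
      rw [← es] at v3 v4
      unfold dfp
      rw [eu]
      simp only [Polynomial.eval_mul, Polynomial.eval_C, Polynomial.eval_sub]
      obtain ⟨w1, hw1⟩ : ∃ w, w = eval (fun i => s ω i + nd K β i) (Pf (Z ω)) := ⟨_, rfl⟩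
      obtain ⟨w2, hw2⟩ : ∃ w, w = eval (fun i => s ω i + nd K (fun _ => 0) i) (Pf (Z ω)) :=
        ⟨_, rfl⟩
      obtain ⟨w3, hw3⟩ : ∃ w, w = eval (fun i => s ω i + nd K β i) (Pf (Z ω')) := ⟨_, rfl⟩
      obtain ⟨w4, hw4⟩ : ∃ w, w = eval (fun i => s ω i + nd K (fun _ => 0) i) (Pf (Z ω')) :=
        ⟨_, rfl⟩
      obtain ⟨p1, hp1⟩ : ∃ w, w = (P' (L ω) β).eval (uu N₀ T ω) := ⟨_, rfl⟩
      obtain ⟨p2, hp2⟩ : ∃ w, w = (P' (L ω) (fun _ => 0)).eval (uu N₀ T ω) := ⟨_, rfl⟩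
      obtain ⟨p3, hp3⟩ : ∃ w, w = (P' (L ω') β).eval (uu N₀ T ω) := ⟨_, rfl⟩
      obtain ⟨p4, hp4⟩ : ∃ w, w = (P' (L ω') (fun _ => 0)).eval (uu N₀ T ω) := ⟨_, rfl⟩
      rw [← hw1, ← hw2, ← hw3, ← hw4] at g1
      rw [← hw1, ← hp1] at v1
      rw [← hw2, ← hp2] at v2
      rw [← hw3, ← hp3] at v3
      rw [← hw4, ← hp4] at v4
      rw [← hp1, ← hp2, ← hp3, ← hp4]
      have k1 : ∀ x : ℝ, |x| ≤ 2 ^ (δ * Q) / 2 ^ (M + Q) → |2 ^ (M + Q) * x| ≤ 2 ^ (δ * Q) := by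
        intro x hx
        rw [abs_mul, abs_of_pos pM]
        calc _ ≤ 2 ^ (M + Q) * (2 ^ (δ * Q) / 2 ^ (M + Q)) := mul_le_mul_of_nonneg_left hx pM.le
          _ = _ := by field_simp
      have k2 := k1 _ v1
      have k3 := k1 _ v2
      have k4 := k1 _ v3
      have k5 := k1 _ v4
      have k6 : |2 ^ (M + Q) * (w1 - w3 - (w2 - w4))| ≤ cbC K d := by
        rw [abs_mul, abs_of_pos pM]
        calc _ ≤ 2 ^ (M + Q) * (cbC K d * (1 / 2 ^ (M + Q))) :=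
              mul_le_mul_of_nonneg_left g1 pM.le
          _ = _ := by field_simp
      have k7 : (2 : ℝ) ^ (M + Q) * (p1 - p2) - 2 ^ (M + Q) * (p3 - p4) =
          2 ^ (M + Q) * (w1 - w3 - (w2 - w4)) - 2 ^ (M + Q) * (w1 - p1) + 2 ^ (M + Q) * (w2 - p2) +
            2 ^ (M + Q) * (w3 - p3) - 2 ^ (M + Q) * (w4 - p4) := by ring
      rw [k7]
      rw [abs_le] at k2 k3 k4 k5 k6 ⊢
      constructor <;> linarith [k2.1, k2.2, k3.1, k3.2, k4.1, k4.2, k5.1, k5.2, k6.1, k6.2])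
  rw [Fintype.card_unit] at c6
  push_cast at c6
  linarith

/-- **The count of the new labels**, raw form. -/
theorem few_raw (hT : TL K d D CM Q MB k N₀ δ q L T Z a E X Pf Pg c s ξ n Θ)
    (hI : Im K d D Q M N₀ δ q L T Z a E Pf c s ξ n P) (hJ : Jets K d D Q M δ q L Z a E Pf P)
    (hG : GradF K d Q M (M + Q) δ q Z a Pf Pg)
    (hC : ImC K d D Q (M + Q) N₀ δ q L T Z Pf s ξ n P') (hMB : M + Q ≤ MB) (hδ1 : δ ≤ 1)
    (hQ1 : 1 ≤ Q) {w η : ℝ} (hw : 1 ≤ w)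
    (hη : Pb q (fun ω => ∃ j, j ≤ D ∧ w * (2 * 2 ^ (δ * Q) / 2 ^ M) <
      |(P' (L ω) (fun _ => 0) - P (L ω) (fun _ => 0)).coeff j|) ≤ η)
    {C V : ℝ}
    (hN : ∀ {Ω Λ Γ : Type} [Fintype Ω] {p : Ω → ℝ}
      (_ : IsLaw p) {N₀ : ℕ} (_ : 0 < N₀) (L : Ω → Λ) (T : Ω → ℕ) (_ : ∀ ω, 0 < p ω → T ω < N₀)
      (c : Λ → Γ) (R : Λ → Polynomial ℝ) (_ : ∀ l, (R l).natDegree ≤ D)
      (_ : ∀ ω, 0 < p ω → ∀ j, |(R (L ω)).coeff j| ≤ (N₀ : ℝ) ^ (CM + 2)) {d e : ℝ}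
      (_ : CH p (fun ω => ⌊(R (L ω)).eval ((T ω : ℝ) / N₀)⌋) (fun ω => (c (L ω), T ω)) ≤ d)
      (_ : Real.log N₀ - e ≤ CH p T L),
      CH p (fun ω (j : Fin (D + 1)) => ⌊(R (L ω)).coeff j⌋) (fun ω => c (L ω)) ≤
        C * (d + e + 1))
    (hV : (2 * (δ * Q) + (Real.log 2 + (Real.log (2 * gE K d D δ Q + 1) +
        δ * Real.log (4 * (2 ^ M * 2 ^ (δ * Q) + 1) + 1))) +
      (K + 1) ^ d * d * Real.log (2 * (iC K d + 1) + 1)) + δ * Q + (Real.log 2 +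
        (Real.log (2 * (cbC K d * 2 + 4 * 2 ^ (δ * Q) + 1) + 1) +
          δ * Real.log (4 * (2 ^ (M + Q) * (2 * ((D + 1) * 2 ^ (δ * Q))) + 1) + 1))) ≤ V) :
    CH q (fun ω => (c (L ω), ((fun (β : Gr K d) (j : Fin (D + 1)) =>
        ⌊2 ^ (M + Q) * ((P' (L ω) β).coeff j - (P' (L ω) (fun _ => 0)).coeff j)⌋),
        fun j : Fin (D + 1) => ⌊2 ^ (M + Q - Q) * (P' (L ω) (fun _ => 0)).coeff j⌋)))
      (fun ω => (E ω, Key (M + Q - Q) Z a Pf ω)) ≤
      2 * (δ * Q) + (Real.log 2 + (D + 1) * (Real.log (2 * (4 * w * 2 ^ (δ * Q) + 2) + 1) +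
        η * Real.log (4 * (2 ^ M * 2 ^ (δ * Q) + 1) + 1))) +
      (K + 1) ^ d * (C * (V + δ * Q + 1)) := by
  classical
  have hq := hT.law
  have h0 := hq.nonneg
  have hK := hT.hK
  have hB0 : (0 : ℝ) < 2 ^ (δ * Q) := Real.rpow_pos_of_pos (by norm_num) _
  have hδ0 := hT.δ0
  have hB1 : (1 : ℝ) ≤ 2 ^ (δ * Q) :=
    Real.one_le_rpow (by norm_num) (mul_nonneg hδ0 (Nat.cast_nonneg Q))
  have pM : (0 : ℝ) < 2 ^ M := by positivity
  rw [Nat.add_sub_cancel M Q]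
  obtain ⟨Y, hY⟩ : ∃ Y : Ω → κ × ((Gr K d → Fin (D + 1) → ℤ) × (Fin (D + 1) → ℤ)),
    Y = fun ω => Cfl D M c P (L ω) := ⟨_, rfl⟩
  obtain ⟨W, hW⟩ : ∃ W : Ω → ε × (α × ℤ), W = fun ω => (E ω, Key M Z a Pf ω) := ⟨_, rfl⟩
  obtain ⟨D', hD'⟩ : ∃ D' : Ω → Gr K d → Fin (D + 1) → ℤ, D' = fun ω β (j : Fin (D + 1)) =>
    ⌊2 ^ (M + Q) * ((P' (L ω) β).coeff j - (P' (L ω) (fun _ => 0)).coeff j)⌋ := ⟨_, rfl⟩
  obtain ⟨J', hJ'⟩ : ∃ J' : Ω → Fin (D + 1) → ℤ, J' = fun ω (j : Fin (D + 1)) =>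
    ⌊2 ^ M * (P' (L ω) (fun _ => 0)).coeff j⌋ := ⟨_, rfl⟩
  have g0 : CH q (fun ω => (c (L ω), ((fun (β : Gr K d) (j : Fin (D + 1)) =>
        ⌊2 ^ (M + Q) * ((P' (L ω) β).coeff j - (P' (L ω) (fun _ => 0)).coeff j)⌋),
        fun j : Fin (D + 1) => ⌊2 ^ M * (P' (L ω) (fun _ => 0)).coeff j⌋)))
      (fun ω => (E ω, Key M Z a Pf ω)) = CH q (fun ω => (c (L ω), (D' ω, J' ω))) W := by
    rw [hD', hJ', hW]
  rw [g0]
  have g1 := CH_le_add h0 (fun ω => (c (L ω), (D' ω, J' ω))) Y W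
  have g2 : CH q Y W ≤ 2 * (δ * Q) := by
    rw [hY, hW]
    exact cf_few h0 hI hJ
  have g3 : CH q (fun ω => (c (L ω), (D' ω, J' ω))) (fun ω => (Y ω, W ω)) ≤
      CH q (fun ω => (D' ω, J' ω)) (fun ω => (Y ω, W ω)) :=
    CH_mono_left h0 fun ω ω' _ _ h => by
      obtain ⟨e1, e2⟩ := Prod.ext_iff.1 h
      have e3 := (Prod.ext_iff.1 e2).1
      rw [hY] at e3
      exact Prod.ext (Prod.ext_iff.1 e3).1 e1
  have g4 := CH_subadd h0 D' J' (fun ω => (Y ω, W ω))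
  -- the labels at the corner
  have g5 := CH_vecb hq J' (fun ω => (Y ω, W ω)) (fun ω => ∃ j, j ≤ D ∧
      w * (2 * 2 ^ (δ * Q) / 2 ^ M) <
        |(P' (L ω) (fun _ => 0) - P (L ω) (fun _ => 0)).coeff j|)
    (M := 2 ^ M * 2 ^ (δ * Q) + 1) (D := 4 * w * 2 ^ (δ * Q) + 2) hη (by positivity)
    (by positivity)
    (by
      intro ω hω j
      rw [hJ']
      have e1 : |2 ^ M * (P' (L ω) (fun _ => 0)).coeff j| ≤ 2 ^ M * 2 ^ (δ * Q) := by
        rw [abs_mul, abs_of_pos pM]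
        exact mul_le_mul_of_nonneg_left (hC.bd ω hω _ j) pM.le
      have h4 := Int.floor_le (2 ^ M * (P' (L ω) (fun _ => 0)).coeff j)
      have h5 := Int.lt_floor_add_one (2 ^ M * (P' (L ω) (fun _ => 0)).coeff j)
      rw [abs_le] at e1 ⊢
      constructor <;> linarith [e1.1, e1.2])
    (by
      intro ω ω' hω hω' hg hg' h j
      have e1 := (Prod.ext_iff.1 h).1
      rw [hY] at e1
      have e2 := congrFun (Prod.ext_iff.1 (Prod.ext_iff.1 e1).2).2 j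
      have e3 : ⌊2 ^ M * (P (L ω) (fun _ => 0)).coeff j⌋ =
        ⌊2 ^ M * (P (L ω') (fun _ => 0)).coeff j⌋ := e2
      have e4 := Int.abs_sub_lt_one_of_floor_eq_floor e3
      push Not at hg hg'
      have e5 := hg j (Nat.lt_succ_iff.1 j.2)
      have e6 := hg' j (Nat.lt_succ_iff.1 j.2)
      rw [Polynomial.coeff_sub] at e5 e6
      rw [hJ']
      refine (floor_diff _ _).trans ?_
      have k1 : ∀ x : ℝ, |x| ≤ w * (2 * 2 ^ (δ * Q) / 2 ^ M) →
          |2 ^ M * x| ≤ 2 * w * 2 ^ (δ * Q) := by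
        intro x hx
        rw [abs_mul, abs_of_pos pM]
        calc _ ≤ 2 ^ M * (w * (2 * 2 ^ (δ * Q) / 2 ^ M)) := mul_le_mul_of_nonneg_left hx pM.le
          _ = _ := by field_simp
      have k2 := abs_le.1 (k1 _ e5)
      have k3 := abs_le.1 (k1 _ e6)
      have k4 := abs_lt.1 e4
      have k5 : |2 ^ M * (P' (L ω) (fun _ => 0)).coeff j -
          2 ^ M * (P' (L ω') (fun _ => 0)).coeff j| ≤ 4 * w * 2 ^ (δ * Q) + 1 := by
        rw [abs_le]
        constructor <;> nlinarith [k2.1, k2.2, k3.1, k3.2, k4.1, k4.2]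
      linarith)
  rw [Fintype.card_fin] at g5
  push_cast at g5
  -- the differences
  obtain ⟨e, he⟩ : ∃ e : Λ → Option ε, ∀ ω, 0 < q ω → e (L ω) = some (E ω) := by
    refine ⟨fun l => if h : ∃ ω, 0 < q ω ∧ L ω = l then some (E h.choose) else none, ?_⟩
    intro ω hω
    have hex : ∃ ω', 0 < q ω' ∧ L ω' = L ω := ⟨ω, hω, rfl⟩
    show (if h : ∃ ω', 0 < q ω' ∧ L ω' = L ω then some (E h.choose) else none) = _
    rw [dif_pos hex]
    congr 1
    exact hT.LE _ _ hex.choose_spec.1 hω hex.choose_spec.2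
  obtain ⟨c'', hc''⟩ : ∃ c'' : Λ → (κ × ((Gr K d → Fin (D + 1) → ℤ) × (Fin (D + 1) → ℤ))) ×
    Option ε, c'' = fun l => (Cfl D M c P l, e l) := ⟨_, rfl⟩
  have hN0 : 0 < N₀ := lt_of_lt_of_le (by positivity) hT.hN
  have hN0' : (2 : ℝ) ^ Q ≤ N₀ := by exact_mod_cast hT.hN
  have g6 : CH q D' (fun ω => (Y ω, W ω)) ≤ ∑ β : Gr K d, CH q (fun ω => D' ω β)
      (fun ω => (Y ω, W ω)) := Pool.OWN68.CH_pis h0 D' _
  have g7 : ∀ β : Gr K d, CH q (fun ω => D' ω β) (fun ω => (Y ω, W ω)) ≤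
      C * (V + δ * Q + 1) := by
    intro β
    have h1 : CH q (fun ω => D' ω β) (fun ω => (Y ω, W ω)) ≤
        CH q (fun ω => D' ω β) (fun ω => c'' (L ω)) := by
      refine CH_mono_cond h0 fun ω ω' hω hω' h => ?_
      obtain ⟨e1, e2⟩ := Prod.ext_iff.1 h
      rw [hY] at e1
      rw [hW] at e2
      rw [hc'']
      refine Prod.ext e1 ?_
      show e (L ω) = e (L ω')
      rw [he ω hω, he ω' hω']
      exact congrArg some (Prod.ext_iff.1 e2).1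
    refine h1.trans ?_
    have h2 := hN hq hN0 L T hT.Tlt c'' (dfp (M + Q) P' β) (fun l => by
        unfold dfp
        refine (Polynomial.natDegree_C_mul_le _ _).trans ?_
        exact (Polynomial.natDegree_sub_le _ _).trans (max_le (hC.deg _ _) (hC.deg _ _)))
      (fun ω hω j => by
        unfold dfp
        rw [Polynomial.coeff_C_mul, Polynomial.coeff_sub, abs_mul,
          abs_of_pos (by positivity : (0 : ℝ) < 2 ^ (M + Q))]
        have k1 : |(P' (L ω) β).coeff j - (P' (L ω) fun _ => 0).coeff j| ≤ 2 * 2 ^ (δ * Q) := by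
          have := abs_sub ((P' (L ω) β).coeff j) ((P' (L ω) fun _ => 0).coeff j)
          linarith [hC.bd ω hω β j, hC.bd ω hω (fun _ => 0) j]
        have k2 : (2 : ℝ) ^ (M + Q) ≤ N₀ ^ CM := by
          calc (2 : ℝ) ^ (M + Q) ≤ 2 ^ (CM * Q) :=
                pow_le_pow_right₀ (by norm_num) (hMB.trans hT.hMB)
            _ = (2 ^ Q) ^ CM := by rw [← pow_mul, mul_comm]
            _ ≤ _ := pow_le_pow_left₀ (by positivity) hN0' _
        have k3 : 2 * (2 : ℝ) ^ (δ * Q) ≤ N₀ ^ 2 := by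
          have k4 : (2 : ℝ) ^ (δ * Q) ≤ 2 ^ Q := by
            calc (2 : ℝ) ^ (δ * Q) ≤ 2 ^ (1 * (Q : ℝ)) := two_mono hδ1 Q
              _ = 2 ^ Q := by rw [one_mul, Real.rpow_natCast]
          have k5 : (2 : ℝ) ≤ 2 ^ Q := by
            calc (2 : ℝ) = 2 ^ 1 := (pow_one _).symm
              _ ≤ _ := pow_le_pow_right₀ (by norm_num) hQ1
          calc 2 * (2 : ℝ) ^ (δ * Q) ≤ 2 ^ Q * 2 ^ Q :=
                mul_le_mul k5 k4 hB0.le (by positivity)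
            _ ≤ N₀ * N₀ := mul_le_mul hN0' hN0' (by positivity) (by positivity)
            _ = _ := by ring
        calc (2 : ℝ) ^ (M + Q) * |(P' (L ω) β).coeff j - (P' (L ω) fun _ => 0).coeff j| ≤
              N₀ ^ CM * N₀ ^ 2 := mul_le_mul k2 (k1.trans k3) (abs_nonneg _) (by positivity)
          _ = _ := by rw [pow_add])
      (d := V) (e := δ * Q) (by
        refine le_trans ?_ ((dif_few hT hI hG hC β).trans hV)
        refine CH_mono_cond h0 fun ω ω' hω hω' h => ?_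
        obtain ⟨e1, e2⟩ := Prod.ext_iff.1 h
        rw [hc''] at e1
        obtain ⟨e3, e4⟩ := Prod.ext_iff.1 e1
        have e5 : e (L ω) = e (L ω') := e4
        rw [he ω hω, he ω' hω'] at e5
        exact Prod.ext e3 (Prod.ext (Option.some_injective _ e5) e2)) hT.Tfull
    have h3 : (fun ω => D' ω β) = fun ω (j : Fin (D + 1)) => ⌊(dfp (M + Q) P' β (L ω)).coeff j⌋ := by
      funext ω j
      rw [hD']
      unfold dfp
      rw [Polynomial.coeff_C_mul, Polynomial.coeff_sub]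
    rw [h3]
    exact h2
  have g8 : ∑ β : Gr K d, CH q (fun ω => D' ω β) (fun ω => (Y ω, W ω)) ≤
      (K + 1) ^ d * (C * (V + δ * Q + 1)) := by
    refine (Finset.sum_le_sum fun β _ => g7 β).trans (le_of_eq ?_)
    rw [Finset.sum_const, Finset.card_univ, Fintype.card_fun, Fintype.card_fin,
      Fintype.card_fin, nsmul_eq_mul]
    push_cast
    ring
  linarith

end few

/-- Numbers: the value entropy of the differences. -/
theorem num_V (K d D CM : ℕ) : ∃ A : ℝ, 0 ≤ A ∧ ∀ (δ : ℝ), 0 ≤ δ → δ ≤ 1 → ∀ Q M : ℕ,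
    M + Q ≤ CM * Q →
    (2 * (δ * Q) + (Real.log 2 + (Real.log (2 * gE K d D δ Q + 1) +
        δ * Real.log (4 * (2 ^ M * 2 ^ (δ * Q) + 1) + 1))) +
      (K + 1) ^ d * d * Real.log (2 * (iC K d + 1) + 1)) + δ * Q + (Real.log 2 +
        (Real.log (2 * (cbC K d * 2 + 4 * 2 ^ (δ * Q) + 1) + 1) +
          δ * Real.log (4 * (2 ^ (M + Q) * (2 * ((D + 1) * 2 ^ (δ * Q))) + 1) + 1))) ≤
      A + (7 + 2 * CM) * (δ * Q) := by
  have hiC := one_le_iC K d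
  have hcb := one_le_cbC K d
  have hD : (0 : ℝ) ≤ D := Nat.cast_nonneg D
  obtain ⟨c1, hc1⟩ : ∃ c1 : ℝ, c1 = 2 * (iC K d * (2 + 2 * (D + 1)) + 1) + 1 := ⟨_, rfl⟩
  obtain ⟨c3, hc3⟩ : ∃ c3 : ℝ, c3 = 4 * cbC K d + 11 := ⟨_, rfl⟩
  obtain ⟨c4, hc4⟩ : ∃ c4 : ℝ, c4 = 8 * (D + 1) + 5 := ⟨_, rfl⟩
  have c11 : 1 ≤ c1 := by
    rw [hc1]
    nlinarith [mul_nonneg (by linarith : (0 : ℝ) ≤ iC K d) hD]
  have c31 : 1 ≤ c3 := by rw [hc3]; linarith
  have c41 : 1 ≤ c4 := by rw [hc4]; linarith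
  have l1 := Real.log_nonneg c11
  have l3 := Real.log_nonneg c31
  have l4 := Real.log_nonneg c41
  have l9 : (0 : ℝ) ≤ Real.log 9 := Real.log_nonneg (by norm_num)
  have l2 : (0 : ℝ) ≤ Real.log 2 := Real.log_nonneg (by norm_num)
  have l5 : (0 : ℝ) ≤ Real.log (2 * (iC K d + 1) + 1) := Real.log_nonneg (by linarith)
  refine ⟨2 * Real.log 2 + Real.log c1 + Real.log 9 + (K + 1) ^ d * d *
    Real.log (2 * (iC K d + 1) + 1) + Real.log c3 + Real.log c4, by positivity, ?_⟩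
  intro δ δ0 δ1 Q M hM
  have hQ0 : (0 : ℝ) ≤ Q := Nat.cast_nonneg Q
  have hM0 : (0 : ℝ) ≤ M := Nat.cast_nonneg M
  have hx : 0 ≤ δ * Q := mul_nonneg δ0 hQ0
  have hMQ : (M : ℝ) + Q ≤ CM * Q := by exact_mod_cast hM
  have w1 : (1 : ℝ) ≤ 2 ^ (δ * Q) := rpow_ge_one hx
  have w0 : (0 : ℝ) < 2 ^ (δ * Q) := by linarith
  have e1 : Real.log (2 * gE K d D δ Q + 1) ≤ Real.log c1 + δ * Q := by
    refine log_le_of (by unfold gE; positivity) (by linarith) hx ?_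
    unfold gE
    rw [hc1]
    have h2 : (0 : ℝ) ≤ (4 * iC K d * (D + 1) + 3) * (2 ^ (δ * Q) - 1) :=
      mul_nonneg (by positivity) (by linarith)
    nlinarith
  have e2 : Real.log (4 * (2 ^ M * 2 ^ (δ * Q) + 1) + 1) ≤ Real.log 9 + (M + δ * Q) := by
    refine log_le_of (by positivity) (by norm_num) (by positivity) ?_
    rw [Real.rpow_add (by norm_num), Real.rpow_natCast]
    have h1 : (1 : ℝ) ≤ 2 ^ M * 2 ^ (δ * Q) := by
      have : (1 : ℝ) ≤ 2 ^ M := one_le_pow₀ (by norm_num)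
      nlinarith
    linarith
  have e3 : Real.log (2 * (cbC K d * 2 + 4 * 2 ^ (δ * Q) + 1) + 1) ≤ Real.log c3 + δ * Q := by
    refine log_le_of (by positivity) (by linarith) hx ?_
    rw [hc3]
    nlinarith
  have e4 : Real.log (4 * (2 ^ (M + Q) * (2 * ((D + 1) * 2 ^ (δ * Q))) + 1) + 1) ≤
      Real.log c4 + (M + Q + δ * Q) := by
    refine log_le_of (by positivity) (by linarith) (by positivity) ?_
    rw [Real.rpow_add (by norm_num), hc4]
    have h0 : (2 : ℝ) ^ ((M : ℝ) + Q) = 2 ^ (M + Q) := by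
      rw [← Real.rpow_natCast]
      push_cast
      rfl
    rw [h0]
    have h1 : (1 : ℝ) ≤ 2 ^ (M + Q) * 2 ^ (δ * Q) := by
      have : (1 : ℝ) ≤ 2 ^ (M + Q) := one_le_pow₀ (by norm_num)
      nlinarith
    nlinarith
  have e5 : δ * Real.log (4 * (2 ^ M * 2 ^ (δ * Q) + 1) + 1) ≤
      Real.log 9 + CM * (δ * Q) + δ * Q := by
    have h1 := mul_le_mul_of_nonneg_left e2 δ0
    have h2 : δ * Real.log 9 ≤ Real.log 9 := mul_le_of_le_one_left l9 δ1
    have h3 : δ * (δ * Q) ≤ δ * Q := mul_le_of_le_one_left hx δ1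
    have h4 : δ * M ≤ δ * (CM * Q) := mul_le_mul_of_nonneg_left (by linarith) δ0
    calc _ ≤ δ * (Real.log 9 + (M + δ * Q)) := h1
      _ = δ * Real.log 9 + δ * M + δ * (δ * Q) := by ring
      _ ≤ Real.log 9 + δ * (CM * Q) + δ * Q := by linarith
      _ = _ := by ring
  have e6 : δ * Real.log (4 * (2 ^ (M + Q) * (2 * ((D + 1) * 2 ^ (δ * Q))) + 1) + 1) ≤
      Real.log c4 + CM * (δ * Q) + δ * Q := by
    have h1 := mul_le_mul_of_nonneg_left e4 δ0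
    have h2 : δ * Real.log c4 ≤ Real.log c4 := mul_le_of_le_one_left l4 δ1
    have h3 : δ * (δ * Q) ≤ δ * Q := mul_le_of_le_one_left hx δ1
    have h4 : δ * (M + Q) ≤ δ * (CM * Q) := mul_le_mul_of_nonneg_left hMQ δ0
    calc _ ≤ δ * (Real.log c4 + (M + Q + δ * Q)) := h1
      _ = δ * Real.log c4 + δ * (M + Q) + δ * (δ * Q) := by ring
      _ ≤ Real.log c4 + δ * (CM * Q) + δ * Q := by linarith
      _ = _ := by ring
  linarith

/-- **The new labels of the precision `2 ^ (-(M + Q))` are tube labels.** -/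
theorem few_new (K d D CM : ℕ) {ε : ℝ} (hε : 0 < ε) : ∃ δ : ℝ, 0 < δ ∧ δ ≤ ε ∧ ∃ Q₀ : ℕ,
    ∀ {Q MB k N₀ M : ℕ}, Q₀ ≤ Q → M + Q ≤ MB →
    ∀ {Ω Λ ζ α ε' κ : Type} [Fintype Ω] {q : Ω → ℝ} {L : Ω → Λ} {T : Ω → ℕ} {Z : Ω → ζ}
      {a : Ω → α} {E : Ω → ε'} {X : ε' → Fin (d + 1) → ℝ} {Pf : ζ → MvPolynomial (Fin d) ℝ}
      {Pg : ζ → Fin (d + 1) → MvPolynomial (Fin d) ℝ} {c : Λ → κ} {s : Ω → Fin d → ℝ}
      {ξ : Λ → Fin d → ℝ} {n : Λ → Polynomial ℝ} {Θ : Λ → Fin d → Polynomial ℝ}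
      {P P' : Λ → Gr K d → Polynomial ℝ},
    TL K d D CM Q MB k N₀ δ q L T Z a E X Pf Pg c s ξ n Θ →
    Im K d D Q M N₀ δ q L T Z a E Pf c s ξ n P → Jets K d D Q M δ q L Z a E Pf P →
    GradF K d Q M (M + Q) δ q Z a Pf Pg →
    ImC K d D Q (M + Q) N₀ δ q L T Z Pf s ξ n P' →
    Im K d D Q (M + Q) N₀ ε q L T Z a E Pf c s ξ n P' := by
  obtain ⟨C, hC1, hN⟩ := Pool.D2N.nodes D (CM + 2)
  obtain ⟨A, hA0, hA⟩ := num_V K d D CM
  have hD : (0 : ℝ) ≤ D := Nat.cast_nonneg D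
  have hCM : (0 : ℝ) ≤ CM := Nat.cast_nonneg CM
  obtain ⟨ε', hε'⟩ : ∃ ε' : ℝ, ε' = min ε 1 := ⟨_, rfl⟩
  have hε'0 : 0 < ε' := by rw [hε']; exact lt_min hε one_pos
  have hε'1 : ε' ≤ 1 := by rw [hε']; exact min_le_right _ _
  have hε'ε : ε' ≤ ε := by rw [hε']; exact min_le_left _ _
  obtain ⟨e1, he1⟩ : ∃ e1 : ℝ, e1 = ε' / (3 * ((D + 1) * (1 + CM))) := ⟨_, rfl⟩
  have hden1 : (0 : ℝ) < 3 * ((D + 1) * (1 + CM)) := by positivity
  have e10 : 0 < e1 := by rw [he1]; exact div_pos hε'0 hden1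
  have e1D : e1 * (3 * ((D + 1) * (1 + CM))) = ε' := by
    rw [he1]
    field_simp
  have e11 : e1 ≤ 1 := by
    have : (1 : ℝ) ≤ 3 * ((D + 1) * (1 + CM)) := by nlinarith
    nlinarith
  obtain ⟨dl, hdl0, Q₁, hcf⟩ := Pool.V1E.coef_small D e10
  obtain ⟨B2, hB2⟩ : ∃ B2 : ℝ, B2 = 2 + 2 * (D + 1) + (K + 1) ^ d * (C * (8 + 2 * CM)) :=
    ⟨_, rfl⟩
  have hB20 : 1 ≤ B2 := by
    rw [hB2]
    have : (0 : ℝ) ≤ (K + 1) ^ d * (C * (8 + 2 * CM)) := by positivity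
    linarith
  obtain ⟨B0, hB0⟩ : ∃ B0 : ℝ, B0 = Real.log 2 + (D + 1) * (Real.log 13 + Real.log 9) +
    (K + 1) ^ d * (C * (A + 1)) := ⟨_, rfl⟩
  obtain ⟨δ, hδ⟩ : ∃ δ : ℝ, δ = min (dl / 2) (ε' / (3 * B2)) := ⟨_, rfl⟩
  have δ0 : 0 < δ := by
    rw [hδ]
    exact lt_min (by positivity) (by positivity)
  have δa : δ ≤ dl / 2 := by rw [hδ]; exact min_le_left _ _
  have δb : δ * (3 * B2) ≤ ε' := by
    have : δ ≤ ε' / (3 * B2) := by rw [hδ]; exact min_le_right _ _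
    rwa [le_div_iff₀ (by positivity)] at this
  have δε : δ ≤ ε' := by nlinarith
  have δ1 : δ ≤ 1 := δε.trans hε'1
  obtain ⟨Q₂, hQ₂⟩ := exists_nat_ge (3 * B0 / ε')
  refine ⟨δ, δ0, δε.trans hε'ε, max (max Q₁ Q₂) 1, ?_⟩
  intro Q MB k N₀ M hQ hMB Ω Λ ζ α ε'' κ _ q L T Z a E X Pf Pg c s ξ n Θ P P' hT hI hJ hG hC
  have q1 : Q₁ ≤ Q := ((le_max_left _ _).trans (le_max_left _ _)).trans hQ
  have q2 : Q₂ ≤ Q := ((le_max_right _ _).trans (le_max_left _ _)).trans hQ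
  have q3 : 1 ≤ Q := (le_max_right _ _).trans hQ
  have hq := hT.law
  have h0 := hq.nonneg
  have hQ0 : (0 : ℝ) ≤ Q := Nat.cast_nonneg Q
  have hx : 0 ≤ δ * Q := mul_nonneg δ0.le hQ0
  have w1 : (1 : ℝ) ≤ 2 ^ (δ * Q) := rpow_ge_one hx
  have w0 : (0 : ℝ) < 2 ^ (δ * Q) := by linarith
  -- the labels at the corner
  have p1 : Pb q (fun ω => 2 * 2 ^ (δ * Q) / 2 ^ M <
      |((fun l => P' l (fun _ => 0) - P l (fun _ => 0)) (L ω)).eval (uu N₀ T ω)|) ≤ dl := by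
    have h1 : Pb q (fun ω => 2 * 2 ^ (δ * Q) / 2 ^ M <
        |((fun l => P' l (fun _ => 0) - P l (fun _ => 0)) (L ω)).eval (uu N₀ T ω)|) ≤
        Pb q (fun ω => (∃ β : Gr K d, 2 ^ (δ * Q) / 2 ^ (M + Q) <
          |vt K Z Pf s ω β - (P' (L ω) β).eval (uu N₀ T ω)|) ∨ ∃ β : Gr K d,
            2 ^ (δ * Q) / 2 ^ M < |vt K Z Pf s ω β - (P (L ω) β).eval (uu N₀ T ω)|) := by
      refine Pb_imp h0 fun ω _ hh => ?_
      by_contra hcon
      push Not at hcon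
      obtain ⟨k1, k2⟩ := hcon
      have k3 := k1 (fun _ => 0)
      have k4 := k2 (fun _ => 0)
      have k5 : (2 : ℝ) ^ (δ * Q) / 2 ^ (M + Q) ≤ 2 ^ (δ * Q) / 2 ^ M := by
        refine div_le_div_of_nonneg_left w0.le (by positivity) ?_
        exact pow_le_pow_right₀ (by norm_num) (by omega)
      have k6 : ((fun l => P' l (fun _ => 0) - P l (fun _ => 0)) (L ω)).eval (uu N₀ T ω) =
          (vt K Z Pf s ω (fun _ => 0) - (P (L ω) (fun _ => 0)).eval (uu N₀ T ω)) -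
          (vt K Z Pf s ω (fun _ => 0) - (P' (L ω) (fun _ => 0)).eval (uu N₀ T ω)) := by
        show (P' (L ω) (fun _ => 0) - P (L ω) (fun _ => 0)).eval (uu N₀ T ω) = _
        rw [Polynomial.eval_sub]
        ring
      rw [k6] at hh
      have k7 := abs_sub (vt K Z Pf s ω (fun _ => 0) - (P (L ω) (fun _ => 0)).eval (uu N₀ T ω))
        (vt K Z Pf s ω (fun _ => 0) - (P' (L ω) (fun _ => 0)).eval (uu N₀ T ω))
      have k8 : 2 * (2 : ℝ) ^ (δ * Q) / 2 ^ M = 2 ^ (δ * Q) / 2 ^ M + 2 ^ (δ * Q) / 2 ^ M := by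
        ring
      linarith
    refine h1.trans ?_
    have h2 := Pb_or (q := q) h0 (G := fun ω => (∃ β : Gr K d, 2 ^ (δ * Q) / 2 ^ (M + Q) <
      |vt K Z Pf s ω β - (P' (L ω) β).eval (uu N₀ T ω)|) ∨ ∃ β : Gr K d,
        2 ^ (δ * Q) / 2 ^ M < |vt K Z Pf s ω β - (P (L ω) β).eval (uu N₀ T ω)|)
      (A := fun ω => ∃ β : Gr K d, 2 ^ (δ * Q) / 2 ^ (M + Q) <
        |vt K Z Pf s ω β - (P' (L ω) β).eval (uu N₀ T ω)|)
      (B := fun ω => ∃ β : Gr K d, 2 ^ (δ * Q) / 2 ^ M <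
        |vt K Z Pf s ω β - (P (L ω) β).eval (uu N₀ T ω)|) (fun _ _ h => h)
    have h3 := hC.cls
    have h4 := hI.cls
    linarith
  have p2 := hcf q1 hq hT.hN hT.Tlt (by
      have := mul_le_mul_of_nonneg_right (by linarith : δ ≤ dl) hQ0
      linarith [hT.Tfull]) (fun l => P' l (fun _ => 0) - P l (fun _ => 0)) (fun l =>
      (Polynomial.natDegree_sub_le _ _).trans (max_le (hC.deg _ _) (hI.deg _ _)))
    (lam := 2 * 2 ^ (δ * Q) / 2 ^ M) (by positivity) p1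
  have hw : (1 : ℝ) ≤ 2 ^ (e1 * Q) := rpow_ge_one (mul_nonneg e10.le hQ0)
  have hMC : M + Q ≤ CM * Q := hMB.trans hT.hMB
  have main := few_raw hT hI hJ hG hC hMB δ1 q3 hw p2 hN (hA δ δ0.le δ1 Q M hMC)
  refine ⟨hC.deg, fun ω hω β j => (hC.bd ω hω β j).trans (two_mono (δε.trans hε'ε) Q), hC.own,
    ((Pb_imp h0 fun ω _ ⟨i, hh⟩ => ⟨i, (div_le_div_of_nonneg_right
      (two_mono (δε.trans hε'ε) Q) (by positivity)).trans_lt hh⟩).trans hC.cls).trans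
      (δε.trans hε'ε), main.trans ?_⟩
  -- numbers
  have hMQ : (M : ℝ) + Q ≤ CM * Q := by exact_mod_cast hMC
  have hM0 : (0 : ℝ) ≤ M := Nat.cast_nonneg M
  have l9 : (0 : ℝ) ≤ Real.log 9 := Real.log_nonneg (by norm_num)
  have n1 : Real.log (2 * (4 * 2 ^ (e1 * Q) * 2 ^ (δ * Q) + 2) + 1) ≤
      Real.log 13 + (e1 * Q + δ * Q) := by
    refine log_le_of (by positivity) (by norm_num) (by positivity) ?_
    rw [Real.rpow_add (by norm_num)]
    have : (1 : ℝ) ≤ 2 ^ (e1 * Q) * 2 ^ (δ * Q) := by nlinarith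
    nlinarith
  have n2 : Real.log (4 * (2 ^ M * 2 ^ (δ * Q) + 1) + 1) ≤ Real.log 9 + (M + δ * Q) := by
    refine log_le_of (by positivity) (by norm_num) (by positivity) ?_
    rw [Real.rpow_add (by norm_num), Real.rpow_natCast]
    have h1 : (1 : ℝ) ≤ 2 ^ M * 2 ^ (δ * Q) := by
      have : (1 : ℝ) ≤ 2 ^ M := one_le_pow₀ (by norm_num)
      nlinarith
    linarith
  have n3 : e1 * Real.log (4 * (2 ^ M * 2 ^ (δ * Q) + 1) + 1) ≤
      Real.log 9 + e1 * CM * Q + δ * Q := by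
    have h1 := mul_le_mul_of_nonneg_left n2 e10.le
    have h2 : e1 * Real.log 9 ≤ Real.log 9 := mul_le_of_le_one_left l9 e11
    have h3 : e1 * (δ * Q) ≤ δ * Q := mul_le_of_le_one_left hx e11
    have h4 : e1 * M ≤ e1 * (CM * Q) := mul_le_mul_of_nonneg_left (by linarith) e10.le
    calc _ ≤ e1 * (Real.log 9 + (M + δ * Q)) := h1
      _ = e1 * Real.log 9 + e1 * M + e1 * (δ * Q) := by ring
      _ ≤ Real.log 9 + e1 * (CM * Q) + δ * Q := by linarith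
      _ = _ := by ring
  have n4 : (D + 1) * (Real.log (2 * (4 * 2 ^ (e1 * Q) * 2 ^ (δ * Q) + 2) + 1) +
      e1 * Real.log (4 * (2 ^ M * 2 ^ (δ * Q) + 1) + 1)) ≤
      (D + 1) * (Real.log 13 + Real.log 9) + ε' / 3 * Q + 2 * (D + 1) * (δ * Q) := by
    have h1 : (D + 1) * (Real.log (2 * (4 * 2 ^ (e1 * Q) * 2 ^ (δ * Q) + 2) + 1) +
        e1 * Real.log (4 * (2 ^ M * 2 ^ (δ * Q) + 1) + 1)) ≤
        (D + 1) * (Real.log 13 + (e1 * Q + δ * Q) + (Real.log 9 + e1 * CM * Q + δ * Q)) :=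
      mul_le_mul_of_nonneg_left (by linarith) (by positivity)
    refine h1.trans (le_of_eq ?_)
    rw [← e1D]
    ring
  have n5 : B0 ≤ ε' / 3 * Q := by
    have h1 : 3 * B0 / ε' ≤ Q := hQ₂.trans (by exact_mod_cast q2)
    rw [div_le_iff₀ hε'0] at h1
    linarith
  have n6 : B2 * (δ * Q) ≤ ε' / 3 * Q := by
    calc B2 * (δ * Q) = δ * (3 * B2) / 3 * Q := by ring
      _ ≤ _ := mul_le_mul_of_nonneg_right (by linarith) hQ0
  have n7 : (K + 1) ^ d * (C * (A + (7 + 2 * CM) * (δ * Q) + δ * Q + 1)) =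
      (K + 1) ^ d * (C * (A + 1)) + (K + 1) ^ d * (C * (8 + 2 * CM)) * (δ * Q) := by ring
  have n8 : ε' * Q ≤ ε * Q := mul_le_mul_of_nonneg_right hε'ε hQ0
  rw [hB0] at n5
  rw [hB2] at n6
  rw [n7]
  nlinarith

end Pool.V1E
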