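import Pool.Agent.H92.D2.Gsu
import Pool.Agent.H92.D2.Imf
import Pool.Agent.H73.D2.Tsl

/-!
# V1 empty: one step, and the base

`law_step`: from the labels of the precision `2 ^ (-M)` with all jets of the centre to the labels of
the precision `2 ^ (-(M + Q))`. `im_base`: the own path at the precision `2 ^ (-Q)`.
-/

set_option autoImplicit false

namespace Pool.V1E

open Finset Real
open Pool.Agent.H49.Ent Pool.Agent.H32.Dense Pool.STK Pool.D2A Pool.D2Con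
open Pool.BFL (Pb)
open Pool.D2G30
open MvPolynomial (eval pderiv)

/-- **One step.** -/
theorem law_step (K d D CM : ℕ) {ε : ℝ} (hε : 0 < ε) : ∃ δ : ℝ, 0 < δ ∧ δ ≤ ε ∧ ∃ Q₀ : ℕ,
    ∀ {Q MB k N₀ M : ℕ}, Q₀ ≤ Q → Q ≤ M → M ≤ MB → ∀ {Ω Λ ζ α ε' κ : Type} [Fintype Ω]
    {q : Ω → ℝ} {L : Ω → Λ} {T : Ω → ℕ} {Z : Ω → ζ} {a : Ω → α} {E : Ω → ε'}
    {X : ε' → Fin (d + 1) → ℝ} {Pf : ζ → MvPolynomial (Fin d) ℝ}
    {Pg : ζ → Fin (d + 1) → MvPolynomial (Fin d) ℝ} {c : Λ → κ} {s : Ω → Fin d → ℝ}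
    {ξ : Λ → Fin d → ℝ} {n : Λ → Polynomial ℝ} {Θ : Λ → Fin d → Polynomial ℝ}
    {P : Λ → Gr K d → Polynomial ℝ},
    TL K d D CM Q MB k N₀ δ q L T Z a E X Pf Pg c s ξ n Θ →
    Im K d D Q M N₀ δ q L T Z a E Pf c s ξ n P → Jets K d D Q M δ q L Z a E Pf P →
    (∀ M', Q ≤ M' → M' ≤ M + Q → M' ≤ MB →
      ∃ P', ImC K d D Q M' N₀ ε q L T Z Pf s ξ n P') ∧
    (M + Q ≤ MB → ∃ P', Im K d D Q (M + Q) N₀ ε q L T Z a E Pf c s ξ n P') := by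
  obtain ⟨δ₁, δ₁0, δ₁ε, Q₁, h1⟩ := few_new K d D CM hε
  obtain ⟨δ₂, δ₂0, δ₂ε, Q₂, h2⟩ := imc_new K d D CM δ₁0
  obtain ⟨δ₃, δ₃0, Q₃, h3⟩ := ball_wts K d D CM δ₂0
  obtain ⟨δ₄, δ₄0, δ₄ε, Q₄, h4⟩ := grad_step K d D CM (ε := min δ₁ δ₃) (lt_min δ₁0 δ₃0)
  obtain ⟨δ, hδ⟩ : ∃ δ : ℝ, δ = min δ₄ δ₂ := ⟨_, rfl⟩
  have d4 : δ ≤ δ₄ := by rw [hδ]; exact min_le_left _ _
  have d2 : δ ≤ δ₂ := by rw [hδ]; exact min_le_right _ _
  have d3 : δ ≤ δ₃ := d4.trans (δ₄ε.trans (min_le_right _ _))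
  have d1 : δ ≤ δ₁ := d4.trans (δ₄ε.trans (min_le_left _ _))
  refine ⟨δ, by rw [hδ]; exact lt_min δ₄0 δ₂0, d1.trans δ₁ε, max (max Q₁ Q₂) (max Q₃ Q₄), ?_⟩
  intro Q MB k N₀ M hQ hQM hMB Ω Λ ζ α ε' κ _ q L T Z a E X Pf Pg c s ξ n Θ P hT hI hJ
  have q1 : Q₁ ≤ Q := ((le_max_left _ _).trans (le_max_left _ _)).trans hQ
  have q2 : Q₂ ≤ Q := ((le_max_right _ _).trans (le_max_left _ _)).trans hQ
  have q3 : Q₃ ≤ Q := ((le_max_left _ _).trans (le_max_right _ _)).trans hQ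
  have q4 : Q₄ ≤ Q := ((le_max_right _ _).trans (le_max_right _ _)).trans hQ
  have h0 := hT.law.nonneg
  have hQ0 : (0 : ℝ) ≤ Q := Nat.cast_nonneg Q
  have mJ : ∀ {δ'' : ℝ}, δ ≤ δ'' → Jets K d D Q M δ'' q L Z a E Pf P := fun hd =>
    hJ.trans (mul_le_mul_of_nonneg_right hd hQ0)
  -- the gradients and the labels
  have key : ∀ M', Q ≤ M' → M' ≤ M + Q → M' ≤ MB →
      GradF K d Q M M' (min δ₁ δ₃) q Z a Pf Pg ∧
        ∃ P', ImC K d D Q M' N₀ δ₁ q L T Z Pf s ξ n P' := by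
    intro M' e1 e2 e3
    have g := h4 q4 (by omega) e3 (hT.mono d4) (hI.mono h0 d4) (mJ d4)
    have g3 : GradF K d Q M M' δ₃ q Z a Pf Pg :=
      g.trans (mul_le_mul_of_nonneg_right (min_le_right _ _) hQ0)
    obtain ⟨Pt, p1, p2, p3⟩ := h3 q3 hQM hMB e1 e2 e3 (hT.mono d3) (hI.mono h0 d3) (mJ d3) g3
    exact ⟨g, h2 q2 e3 (hT.mono d2) Pt p1 p2 p3⟩
  refine ⟨fun M' e1 e2 e3 => ?_, fun e3 => ?_⟩
  · obtain ⟨_, P', hP'⟩ := key M' e1 e2 e3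
    exact ⟨P', hP'.mono h0 δ₁ε⟩
  · obtain ⟨g, P', hP'⟩ := key (M + Q) (Nat.le_add_left _ _) le_rfl e3
    exact ⟨P', h1 q1 e3 (hT.mono d1) (hI.mono h0 d1) (mJ d1)
      (g.trans (mul_le_mul_of_nonneg_right (min_le_left _ _) hQ0)) hP'⟩

/-- **The base**: the own path. -/
theorem im_base (K d D CM : ℕ) {ε : ℝ} (hε : 0 < ε) : ∃ δ : ℝ, 0 < δ ∧ δ ≤ ε ∧ ∃ Q₀ : ℕ,
    ∀ {Q MB k N₀ : ℕ}, Q₀ ≤ Q → ∀ {Ω Λ ζ α ε' κ : Type} [Fintype Ω]
    {q : Ω → ℝ} {L : Ω → Λ} {T : Ω → ℕ} {Z : Ω → ζ} {a : Ω → α} {E : Ω → ε'}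
    {X : ε' → Fin (d + 1) → ℝ} {Pf : ζ → MvPolynomial (Fin d) ℝ}
    {Pg : ζ → Fin (d + 1) → MvPolynomial (Fin d) ℝ} {c : Λ → κ} {s : Ω → Fin d → ℝ}
    {ξ : Λ → Fin d → ℝ} {n : Λ → Polynomial ℝ} {Θ : Λ → Fin d → Polynomial ℝ},
    TL K d D CM Q MB k N₀ δ q L T Z a E X Pf Pg c s ξ n Θ →
    CH q (fun ω => c (L ω)) (fun ω => (E ω, a ω)) ≤ δ * Q →
    Im K d D Q Q N₀ ε q L T Z a E Pf c s ξ n (fun l _ => n l) := by
  have hcb := one_le_cbC K d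
  have hD : (0 : ℝ) ≤ D := Nat.cast_nonneg D
  obtain ⟨Q₁, hQ₁⟩ := const_le (C := cbC K d + 1) (ε := ε / 2) (by linarith)
  obtain ⟨δ, hδ⟩ : ∃ δ : ℝ, δ = ε / (2 * (D + 2)) := ⟨_, rfl⟩
  have δ0 : 0 < δ := by rw [hδ]; positivity
  have δe : δ * (2 * (D + 2)) = ε := by
    rw [hδ]
    field_simp
  have δ2 : δ ≤ ε / 2 := by nlinarith
  have δε : δ ≤ ε := by linarith
  obtain ⟨Q₂, hQ₂⟩ := exists_nat_ge ((Real.log 2 + (D + 1) * Real.log 7) / (ε / 2))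
  refine ⟨δ, δ0, δε, max Q₁ Q₂, ?_⟩
  intro Q MB k N₀ hQ Ω Λ ζ α ε' κ _ q L T Z a E X Pf Pg c s ξ n Θ hT hc
  have q1 : Q₁ ≤ Q := (le_max_left _ _).trans hQ
  have q2 : Q₂ ≤ Q := (le_max_right _ _).trans hQ
  have hq := hT.law
  have h0 := hq.nonneg
  have hQ0 : (0 : ℝ) ≤ Q := Nat.cast_nonneg Q
  have hx : 0 ≤ δ * Q := mul_nonneg δ0.le hQ0
  have w1 : (1 : ℝ) ≤ 2 ^ (δ * Q) := rpow_ge_one hx
  have w0 : (0 : ℝ) < 2 ^ (δ * Q) := by linarith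
  refine ⟨fun l _ => hT.dgn l, fun ω hω _ j => (hT.bdn ω hω j).trans (two_mono δε Q),
    fun l => ?_, ?_, ?_⟩
  · rw [← Finset.sum_mul, ← map_sum, ell_sum_one hT.hK, map_one, one_mul]
  · refine le_trans (Pb_imp h0 fun ω hω hh => ?_) (hT.val.trans δε)
    obtain ⟨β, hβ⟩ := hh
    by_contra hcon
    push Not at hcon
    -- the chart in the coordinates of the tube
    obtain ⟨Pd, hPd⟩ : ∃ Pd : MvPolynomial (Fin d) ℝ, Pd = Pf (Z ω) := ⟨_, rfl⟩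
    have hsv : ∀ i, -1 ≤ s ω i ∧ s ω i ≤ 1 := fun i => abs_le.1 (hT.s1 ω hω i)
    have hg : ∀ (γ : Gr K d) (i : Fin d), |eval (nd K γ) (pderiv i Pd)| ≤
        2 ^ (δ * Q) / 2 ^ Q := by
      intro γ i
      have f1 := hT.bdg ω hω γ i.succ
      rw [hT.grd ω hω i, map_mul, MvPolynomial.eval_C, abs_mul,
        abs_of_pos (by positivity : (0 : ℝ) < 2 ^ Q), ← hPd] at f1
      rw [le_div_iff₀ (by positivity), mul_comm]
      exact f1
    have g1 := dif_small hT.hK Pd (by rw [hPd]; exact hT.dgf _) (by positivity) hg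
      (x := fun i => s ω i + nd K β i) (y := fun i => s ω i + ξ (L ω) i)
      (fun i => by linarith [(hsv i).1, nd_nonneg β i])
      (fun i => by linarith [(hsv i).2, nd_le_one β i])
      (fun i => by linarith [(hsv i).1, hT.ξ0 (L ω) i])
      (fun i => by linarith [(hsv i).2, hT.ξ1 (L ω) i])
    rw [hPd] at g1
    have k1 : |vt K Z Pf s ω β - (n (L ω)).eval (uu N₀ T ω)| ≤
        (cbC K d + 1) * (2 ^ (δ * Q) / 2 ^ Q) := by
      have e1 : vt K Z Pf s ω β - (n (L ω)).eval (uu N₀ T ω) =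
          (eval (fun i => s ω i + nd K β i) (Pf (Z ω)) -
            eval (fun i => s ω i + ξ (L ω) i) (Pf (Z ω))) -
          ((n (L ω)).eval (uu N₀ T ω) - eval (fun i => s ω i + ξ (L ω) i) (Pf (Z ω))) := by
        unfold vt
        ring
      rw [e1]
      refine (abs_sub _ _).trans ?_
      have e2 : (2 : ℝ) ^ (δ * Q) / 2 ^ MB ≤ 2 ^ (δ * Q) / 2 ^ Q :=
        div_le_div_of_nonneg_left w0.le (by positivity)
          (pow_le_pow_right₀ (by norm_num) hT.hQ)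
      linarith
    have k2 : (cbC K d + 1) * (2 ^ (δ * Q) / 2 ^ Q) ≤ 2 ^ (ε * Q) / 2 ^ Q := by
      have e3 : (2 : ℝ) ^ (ε * Q) = 2 ^ (ε / 2 * Q) * 2 ^ (ε / 2 * Q) := by
        rw [← Real.rpow_add (by norm_num)]
        congr 1
        ring
      have e4 : (cbC K d + 1) * 2 ^ (δ * Q) ≤ 2 ^ (ε * Q) := by
        rw [e3]
        exact mul_le_mul (hQ₁ Q q1) (two_mono δ2 Q) w0.le (by positivity)
      calc (cbC K d + 1) * (2 ^ (δ * Q) / 2 ^ Q) = (cbC K d + 1) * 2 ^ (δ * Q) / 2 ^ Q := by ring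
        _ ≤ _ := div_le_div_of_nonneg_right e4 (by positivity)
    linarith
  · rw [Nat.sub_self]
    have h1 : CH q (fun ω => (c (L ω), ((fun (_ : Gr K d) (j : Fin (D + 1)) =>
        ⌊2 ^ Q * ((n (L ω)).coeff j - (n (L ω)).coeff j)⌋),
        fun j : Fin (D + 1) => ⌊2 ^ 0 * (n (L ω)).coeff j⌋)))
        (fun ω => (E ω, Key 0 Z a Pf ω)) ≤
        CH q (fun ω => (c (L ω), fun j : Fin (D + 1) => ⌊(n (L ω)).coeff j⌋))
          (fun ω => (E ω, Key 0 Z a Pf ω)) := by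
      refine CH_mono_left h0 fun ω ω' _ _ h => ?_
      obtain ⟨e1, _⟩ := Prod.ext_iff.1 h
      obtain ⟨e2, e3⟩ := Prod.ext_iff.1 e1
      refine Prod.ext e2 (Prod.ext ?_ ?_)
      · funext _ j
        show ⌊2 ^ Q * ((n (L ω)).coeff j - (n (L ω)).coeff j)⌋ =
          ⌊2 ^ Q * ((n (L ω')).coeff j - (n (L ω')).coeff j)⌋
        rw [sub_self, sub_self]
      · funext j
        show ⌊2 ^ 0 * (n (L ω)).coeff j⌋ = ⌊2 ^ 0 * (n (L ω')).coeff j⌋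
        rw [pow_zero, one_mul, one_mul]
        exact congrFun e3 j
    refine h1.trans ?_
    have h2 := CH_subadd h0 (fun ω => c (L ω)) (fun ω (j : Fin (D + 1)) => ⌊(n (L ω)).coeff j⌋)
      (fun ω => (E ω, Key 0 Z a Pf ω))
    have h3 : CH q (fun ω => c (L ω)) (fun ω => (E ω, Key 0 Z a Pf ω)) ≤ δ * Q := by
      refine (CH_mono_cond h0 fun ω ω' _ _ h => ?_).trans hc
      obtain ⟨e1, e2⟩ := Prod.ext_iff.1 h
      exact Prod.ext e1 (Prod.ext_iff.1 e2).1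
    have h4 := CH_vecb hq (fun ω (j : Fin (D + 1)) => ⌊(n (L ω)).coeff j⌋)
      (fun ω => (E ω, Key 0 Z a Pf ω)) (fun _ => False) (η := 0)
      (M := 2 ^ (δ * Q) + 1) (D := 2 * 2 ^ (δ * Q) + 1) (by
        rw [← Pb_law]
        refine le_of_eq ?_
        unfold law
        simp) (by positivity) (by positivity)
      (fun ω hω j => by
        have e1 := abs_le.1 (hT.bdn ω hω j)
        have e2 := Int.floor_le ((n (L ω)).coeff j)
        have e3 := Int.lt_floor_add_one ((n (L ω)).coeff j)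
        rw [abs_le]
        constructor <;> linarith [e1.1, e1.2])
      (fun ω ω' hω hω' _ _ _ j => by
        refine (floor_diff _ _).trans ?_
        have e1 := abs_le.1 (hT.bdn ω hω j)
        have e2 := abs_le.1 (hT.bdn ω' hω' j)
        have e3 : |(n (L ω)).coeff j - (n (L ω')).coeff j| ≤ 2 * 2 ^ (δ * Q) := by
          rw [abs_le]
          constructor <;> linarith [e1.1, e1.2, e2.1, e2.2]
        linarith)
    rw [Fintype.card_fin, zero_mul, add_zero] at h4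
    push_cast at h4
    have h5 : Real.log (2 * (2 * 2 ^ (δ * Q) + 1) + 1) ≤ Real.log 7 + δ * Q := by
      refine log_le_of (by positivity) (by norm_num) hx ?_
      linarith
    have h6 : (D + 1 : ℝ) * Real.log (2 * (2 * 2 ^ (δ * Q) + 1) + 1) ≤
        (D + 1) * (Real.log 7 + δ * Q) := mul_le_mul_of_nonneg_left h5 (by positivity)
    have h7 : (Real.log 2 + (D + 1) * Real.log 7) ≤ ε / 2 * Q := by
      have e1 : (Real.log 2 + (D + 1) * Real.log 7) / (ε / 2) ≤ Q :=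
        hQ₂.trans (by exact_mod_cast q2)
      rw [div_le_iff₀ (by linarith)] at e1
      linarith
    have h8 : ε / 2 * Q = (D + 2) * (δ * Q) := by
      rw [← δe]
      ring
    nlinarith

end Pool.V1E
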