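import Pool.Agent.H73.D2.Tmk
import Pool.Agent.H73.D2.Tlq
import Pool.Agent.H18.D2.Enw

/-!
# The end for the target `N - P(p, u)`: tube, boxes

`F_tube`: the heights of a frame in the tube. `NwE`: `NwD` and the closed charts of the ball, the
re-centred frame. `nw_lip`: the gradients of the closed charts of the window on the boxes of the frame.
-/

set_option autoImplicit false

namespace Pool.V1E

open Finset Real MvPolynomial
open Pool.KA Pool.KSAT Pool.PB Pool.GEN Pool.D2R Pool.D2G30 Pool.ISO Pool.CHT Pool.CHX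
open Pool.PB.Trl (rt rt_mem t_rt)
open Pool.K2S (Sub)

/-- **The own heights against the cell of the tube**, for `|v| ≤ 2`; **the corner and the centre.** -/
theorem F_tube (D : ℕ) : ∃ C : ℕ, ∀ {m J : ℕ} {F : Fam m J} {c : ℕ → Fin m}
    {r MB q₀ Q x : ℕ} {s : ℕ → ℕ} {qe : Fin r → ℕ} {o gf g2 : ℕ → ℕ} {B : F.Ω → Prop}
    {Gf G2 : PtT F → ℕ → MvPolynomial (Option (Fin m)) ℝ}
    {Hf : LnT F → ℕ → MvPolynomial (Option (Fin m)) ℝ},
    FrD F c r D MB q₀ Q x s qe o gf g2 B Gf G2 Hf → ∀ ω, B ω →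
    ∀ i : Fin r, (∀ v : ℝ, |v| ≤ 2 →
      |2 ^ Q * (hL c s r (o 1) (frH F r q₀ Hf (slam F (o 1) ω)) (slam F (o 1) ω) (some i)).eval v -
        (cL c s r (o 1) Q (frH F r q₀ Hf (slam F (o 1) ω)) (slam F (o 1) ω) 0 i +
          2 ^ Q * (v * ((eL c s r (o 1) qe (frH F r q₀ Hf (slam F (o 1) ω))
            (slam F (o 1) ω) i : ℝ) / 2 ^ qe i))) -
        xL c s r (o 1) Q (frH F r q₀ Hf (slam F (o 1) ω)) (slam F (o 1) ω) i| ≤
        2 ^ (C * (x + 1)) / 2 ^ MB) ∧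
    |(crF F c s r (o 1) Q Gf ω i : ℝ) + scF F c s r (o 1) q₀ Q qe Gf Hf ω i -
      (cL c s r (o 1) Q (frH F r q₀ Hf (slam F (o 1) ω)) (slam F (o 1) ω) 0 i +
        2 ^ Q * (rt F (o 1) ω * ((eL c s r (o 1) qe (frH F r q₀ Hf (slam F (o 1) ω))
          (slam F (o 1) ω) i : ℝ) / 2 ^ qe i)))| ≤ 2 ^ (C * (x + 1)) / 2 ^ MB := by
  obtain ⟨C₃, hC₃, hhl⟩ := hL_near2 D
  obtain ⟨C₄, hC₄⟩ := pow_unbounded_of_one_lt C₃ (one_lt_two (α := ℝ))
  refine ⟨C₄ + 3, ?_⟩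
  intro m J F c r MB q₀ Q x s qe o gf g2 B Gf G2 Hf W ω hω i
  have h1J : o 1 ≤ J := by have := W.oJ; have := W.o2; omega
  have hfr := W.fr hω
  obtain ⟨L, hL'⟩ : ∃ L, L = slam F (o 1) ω := ⟨_, rfl⟩
  have hco : co q₀ L = slam F (o 0) ω := by
    have h2 := co_slam F (w := o 0) (a := o 1) (by rw [W.o1]; omega) h1J ω
    rw [hL']
    rwa [W.o1, Nat.add_sub_cancel_left, ← W.o1] at h2
  have hu := rt_mem F (o 1) ω
  have hfs := fun v hv => hhl (c := c) (s := s) (d := r) (wb := o 0) (q₀ := q₀) (H₀ := Hf) (L := L)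
    (M := 2 ^ x / 2 ^ gf i) (i := i) (W.dH0 _ _) (fun τ hτ => by
      rw [hco]
      exact W.own0 ω hω i i.2 τ hτ) v hv
  rw [← W.o1, hL', hfr] at hfs
  rw [hfr]
  obtain ⟨Λ, hΛ⟩ : ∃ Λ : ℝ, Λ = C₃ * (2 ^ s i * (2 ^ x / 2 ^ gf i) / 2 ^ q₀) := ⟨_, rfl⟩
  have hΛ1 : Λ ≤ 2 ^ (C₄ + x + x) := by
    have h2 : (2 : ℝ) ^ s i / 2 ^ (gf i + q₀) ≤ 2 ^ x := p2_div (W.n0 i i.2)
    have e1 : Λ = C₃ * (2 ^ x * (2 ^ s i / 2 ^ (gf i + q₀))) := by
      rw [hΛ, pow_add]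
      field_simp
    have e2 : (2 : ℝ) ^ (C₄ + x + x) = 2 ^ C₄ * (2 ^ x * 2 ^ x) := by
      rw [pow_add, pow_add, mul_assoc]
    rw [e1, e2]
    exact mul_le_mul hC₄.le (mul_le_mul_of_nonneg_left h2 (by positivity)) (by positivity)
      (by positivity)
  have hq0 : Λ / 2 ^ q₀ ≤ 2 ^ (C₄ + x + x) / 2 ^ (MB + Q) :=
    div_le_div₀ (by positivity) hΛ1 (by positivity) (pow_le_pow_right₀ (by norm_num) W.q0M)
  have hqe : (1 : ℝ) / 2 ^ qe i ≤ 1 / 2 ^ (MB + Q) :=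
    one_div_le_one_div_of_le (by positivity) (pow_le_pow_right₀ (by norm_num) (W.qeM i))
  have hsum : Λ / 2 ^ q₀ + 2 * (1 / 2 ^ qe i) ≤ 2 ^ (C₄ + x + x + 2) / 2 ^ (MB + Q) := by
    refine (add_le_add hq0 (mul_le_mul_of_nonneg_left hqe (by norm_num))).trans ?_
    rw [mul_one_div, ← add_div]
    refine div_le_div_of_nonneg_right ?_ (by positivity)
    have h1 : (1 : ℝ) ≤ 2 ^ (C₄ + x + x) := one_le_pow₀ (by norm_num)
    rw [pow_add 2 (C₄ + x + x) 2]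
    linarith
  have hexp : C₄ + x + x + 2 ≤ (C₄ + 3) * (x + 1) := by nlinarith
  have hY : (2 : ℝ) ^ (C₄ + x + x + 2) ≤ 2 ^ ((C₄ + 3) * (x + 1)) :=
    pow_le_pow_right₀ (by norm_num) hexp
  have hQ : (0 : ℝ) < 2 ^ Q := by positivity
  have hfin : ∀ {y : ℝ}, y ≤ 2 ^ Q * (Λ / 2 ^ q₀ + 2 * (1 / 2 ^ qe i)) →
      y ≤ 2 ^ ((C₄ + 3) * (x + 1)) / 2 ^ MB := by
    intro y hy
    refine hy.trans ((mul_le_mul_of_nonneg_left hsum hQ.le).trans ?_)
    have e1 : (2 : ℝ) ^ Q * (2 ^ (C₄ + x + x + 2) / 2 ^ (MB + Q)) =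
        2 ^ (C₄ + x + x + 2) / 2 ^ MB := by
      rw [pow_add 2 MB Q]
      field_simp
    rw [e1]
    exact div_le_div_of_nonneg_right hY (by positivity)
  obtain ⟨h, hh⟩ : ∃ h, h = hL c s r (o 1) (trn r (Gf (ptr F J ω))) (slam F (o 1) ω) (some i) :=
    ⟨_, rfl⟩
  rw [← hh] at hfs ⊢
  obtain ⟨v0, hv0⟩ : ∃ v0 : ℝ, v0 = (Polynomial.derivative h).eval 0 := ⟨_, rfl⟩
  rw [← hv0] at hfs
  have hfs' : ∀ v : ℝ, |v| ≤ 2 → |h.eval v - h.eval 0 - v * v0| ≤ Λ / 2 ^ q₀ := by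
    intro v hv
    refine (hfs v hv).trans (le_of_eq ?_)
    rw [hΛ]
    ring
  have hcL : (cL c s r (o 1) Q (trn r (Gf (ptr F J ω))) (slam F (o 1) ω) 0 i : ℝ) =
      ((⌊2 ^ Q * h.eval 0⌋ : ℤ) : ℝ) := by rw [hh]; rfl
  have hxL : xL c s r (o 1) Q (trn r (Gf (ptr F J ω))) (slam F (o 1) ω) i =
      Int.fract (2 ^ Q * h.eval 0) := by rw [hh]; rfl
  have heL : (eL c s r (o 1) qe (trn r (Gf (ptr F J ω))) (slam F (o 1) ω) i : ℝ) =
      ((⌊2 ^ qe i * v0⌋ : ℤ) : ℝ) := by rw [hv0, hh]; rfl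
  rw [hcL, hxL, heL]
  have hv : |((⌊2 ^ qe i * v0⌋ : ℤ) : ℝ) / 2 ^ qe i - v0| ≤ 1 / 2 ^ qe i := by
    have h1 := Int.floor_le ((2 : ℝ) ^ qe i * v0)
    have h2 := Int.lt_floor_add_one ((2 : ℝ) ^ qe i * v0)
    have hp : (0 : ℝ) < 2 ^ qe i := by positivity
    have e1 : ((⌊2 ^ qe i * v0⌋ : ℤ) : ℝ) / 2 ^ qe i - v0 =
        (((⌊2 ^ qe i * v0⌋ : ℤ) : ℝ) - 2 ^ qe i * v0) / 2 ^ qe i := by
      field_simp
    rw [e1, abs_div, abs_of_pos hp]
    refine div_le_div_of_nonneg_right ?_ hp.le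
    rw [abs_le]
    constructor <;> linarith
  have f0 := Int.floor_add_fract ((2 : ℝ) ^ Q * h.eval 0)
  have key : ∀ v : ℝ, |v| ≤ 2 → |2 ^ Q * h.eval v - (((⌊2 ^ Q * h.eval 0⌋ : ℤ) : ℝ) +
      2 ^ Q * (v * (((⌊2 ^ qe i * v0⌋ : ℤ) : ℝ) / 2 ^ qe i))) - Int.fract (2 ^ Q * h.eval 0)| ≤
      2 ^ Q * (Λ / 2 ^ q₀ + 2 * (1 / 2 ^ qe i)) := by
    intro v hv'
    have e1 : 2 ^ Q * h.eval v - (((⌊2 ^ Q * h.eval 0⌋ : ℤ) : ℝ) +
        2 ^ Q * (v * (((⌊2 ^ qe i * v0⌋ : ℤ) : ℝ) / 2 ^ qe i))) - Int.fract (2 ^ Q * h.eval 0) =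
        2 ^ Q * ((h.eval v - h.eval 0 - v * v0) - v * (((⌊2 ^ qe i * v0⌋ : ℤ) : ℝ) / 2 ^ qe i -
          v0)) := by
      linear_combination -f0
    rw [e1, abs_mul, abs_of_pos hQ]
    refine mul_le_mul_of_nonneg_left ((abs_sub _ _).trans (add_le_add (hfs' v hv') ?_)) hQ.le
    rw [abs_mul]
    exact mul_le_mul hv' hv (abs_nonneg _) (by norm_num)
  refine ⟨fun v hv' => hfin (key v hv'), ?_⟩
  -- the corner
  have hrt2 : |rt F (o 1) ω| ≤ 2 := by rw [abs_of_nonneg hu.1]; linarith [hu.2]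
  have k1 := key (rt F (o 1) ω) hrt2
  have hcr : (crF F c s r (o 1) Q Gf ω i : ℝ) = ((⌊2 ^ Q * h.eval (rt F (o 1) ω)⌋ : ℤ) : ℝ) := by
    rw [hh]; rfl
  have hsc : scF F c s r (o 1) q₀ Q qe Gf Hf ω i = max (-1) (min 1
      (((⌊2 ^ Q * h.eval 0⌋ : ℤ) : ℝ) + 2 ^ Q * (rt F (o 1) ω *
        (((⌊2 ^ qe i * v0⌋ : ℤ) : ℝ) / 2 ^ qe i)) -
        ((⌊2 ^ Q * h.eval (rt F (o 1) ω)⌋ : ℤ) : ℝ))) := by
    rw [hh, hv0, hh]
    unfold scF sC
    rw [hfr]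
    rfl
  rw [hcr, hsc]
  have fu := Int.floor_add_fract ((2 : ℝ) ^ Q * h.eval (rt F (o 1) ω))
  have g0 := Int.fract_nonneg ((2 : ℝ) ^ Q * h.eval 0)
  have g1 := (Int.fract_lt_one ((2 : ℝ) ^ Q * h.eval 0)).le
  have g2 := Int.fract_nonneg ((2 : ℝ) ^ Q * h.eval (rt F (o 1) ω))
  have g3 := (Int.fract_lt_one ((2 : ℝ) ^ Q * h.eval (rt F (o 1) ω))).le
  obtain ⟨η, hη⟩ : ∃ η : ℝ, η = 2 ^ Q * (Λ / 2 ^ q₀ + 2 * (1 / 2 ^ qe i)) := ⟨_, rfl⟩
  rw [← hη] at k1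
  obtain ⟨y, hy⟩ : ∃ y : ℝ, y = ((⌊2 ^ Q * h.eval 0⌋ : ℤ) : ℝ) + 2 ^ Q * (rt F (o 1) ω *
      (((⌊2 ^ qe i * v0⌋ : ℤ) : ℝ) / 2 ^ qe i)) := ⟨_, rfl⟩
  rw [← hy] at k1 ⊢
  refine hfin ?_
  rw [← hη]
  have hη0 : 0 ≤ η := (abs_nonneg _).trans k1
  rw [abs_le] at k1
  obtain ⟨k1a, k1b⟩ := k1
  obtain ⟨w, hw⟩ : ∃ w : ℝ, w = y - ((⌊2 ^ Q * h.eval (rt F (o 1) ω)⌋ : ℤ) : ℝ) := ⟨_, rfl⟩
  have e2 : ((⌊2 ^ Q * h.eval (rt F (o 1) ω)⌋ : ℤ) : ℝ) +
      max (-1) (min 1 (y - ((⌊2 ^ Q * h.eval (rt F (o 1) ω)⌋ : ℤ) : ℝ))) - y =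
      max (-1) (min 1 w) - w := by
    rw [← hw]
    linarith
  rw [e2]
  rcases le_total w 1 with hx1 | hx1
  · rw [min_eq_right hx1]
    rcases le_total (-1) w with hx2 | hx2
    · rw [max_eq_right hx2, sub_self, abs_zero]
      exact hη0
    · rw [max_eq_left hx2, abs_le]
      constructor <;> linarith
  · rw [min_eq_left hx1, max_eq_right (by norm_num), abs_le]
    constructor <;> linarith

section structs

/-- **`NwD` with the closed charts of the ball and the re-centred frame.** -/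
structure NwE {m J : ℕ} (F : Fam m J) (c : ℕ → Fin m) (r D n M ar MB q₀ Q x p e su : ℕ)
    (s : ℕ → ℕ) (qe : Fin r → ℕ) (o : ℕ → ℕ) (z g gc gT g₀ : ℕ → ℕ → ℕ) (B : F.Ω → Prop)
    (G T : ℕ → PtT F → ℕ → MvPolynomial (Option (Fin m)) ℝ)
    (H TH : ℕ → LnT F → ℕ → MvPolynomial (Option (Fin m)) ℝ)
    (Ht CL : LnT F → MvPolynomial (Option (Fin m)) ℝ)
    (Cp : PtT F → MvPolynomial (Option (Fin m)) ℝ) : Prop extends
    NwD F c r D n M ar MB q₀ Q x p e su s qe o z g gc gT g₀ B G T H TH Ht CL Cp where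
  cl2 : ∀ ω, B ω → ∀ l ≤ r + 1, G 2 (ptr F J ω) l = H 2 (slam F (o 2) ω) l
  rad0 : ChOK F c r (fun _ => D) (o 2) (o 0) e (fun l => g 0 l + (o 2 - o 0)) B
    (fun y l => Gno (c l) J J (fun y => G 0 y l) y) (fun s l => Hno (c l) (fun s => H 0 s l) s)
  z01 : ∃ q ≤ M, z 0 q = o 1 - o 0

end structs

/-- **The gradients of the closed charts of the window** on the boxes of the frame of the ball. -/
theorem nw_lip (D r : ℕ) : ∃ C : ℕ, ∀ {m J : ℕ} {F : Fam m J} {c : ℕ → Fin m}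
    {n M ar MB q₀ Q x p e su : ℕ} {s : ℕ → ℕ} {qe : Fin r → ℕ} {o : ℕ → ℕ}
    {z g gc gT g₀ : ℕ → ℕ → ℕ} {B : F.Ω → Prop}
    {G T : ℕ → PtT F → ℕ → MvPolynomial (Option (Fin m)) ℝ}
    {H TH : ℕ → LnT F → ℕ → MvPolynomial (Option (Fin m)) ℝ}
    {Ht CL : LnT F → MvPolynomial (Option (Fin m)) ℝ}
    {Cp : PtT F → MvPolynomial (Option (Fin m)) ℝ},
    NwE F c r D n M ar MB q₀ Q x p e su s qe o z g gc gT g₀ B G T H TH Ht CL Cp → 4 * x ≤ Q →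
    ∀ ω, B ω →
    (∀ b, NBx c (fun l => Gno (c l) J J (fun y => G 0 y l) (ptr F J ω))
        (fun l => g 0 l + (o 2 - o 0)) (o 2) (F.t ω) r b →
      (∀ l < r, |b (some (c l)) - eval b (G 1 (ptr F J ω) l)| ≤
        2 ^ (C * (x + 1)) / 2 ^ g₀ 1 l) ∧
      ∀ l < r, |eval b (pderiv (some (c l)) (G 1 (ptr F J ω) r))| ≤
        2 ^ (C * (x + 1)) * 2 ^ (e + nlp (g₀ 1) l r)) ∧
    ∀ b, NBx c (fun j => if j < r then Gno (c j) J J (fun y => G 0 y j) (ptr F J ω) else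
          G 1 (ptr F J ω) r)
        (fun j => if j < r then g 0 j + (o 2 - o 0) else g₀ 1 r) (o 2) (F.t ω) (r + 1) b →
      ∀ l < r + 1, |eval b (pderiv (some (c l)) (G 1 (ptr F J ω) (r + 1)))| ≤
        2 ^ (C * (x + 1)) * 2 ^ (e + nlp (g₀ 1) l (r + 1)) := by
  obtain ⟨C₁, hf1⟩ := frm_box D r
  obtain ⟨C₂, hf2⟩ := frm_box D (r + 1)
  obtain ⟨C₃, hbs⟩ := box_swap D (r + 1)
  refine ⟨4 * (C₁ + C₂ + C₃), ?_⟩
  intro m J F c n M ar MB q₀ Q x p e su s qe o z g gc gT g₀ B G T H TH Ht CL Cp W hxQ ω hω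
  have h01 : o 0 ≤ o 1 := by have := W.o1; omega
  have h12 : o 1 ≤ o 2 := by have := W.o2; omega
  obtain ⟨q, hq, hz⟩ := W.z01
  have h4 : ∀ i : ℕ, DepC c i (Gno (c i) J J (fun y => G 0 y i) (ptr F J ω)) := fun i =>
    W.rad0.depG (ptr F J ω) i
  have hgl : ∀ l < r, g₀ 1 l ≤ g 0 l + (o 2 - o 0) := fun i hi => by
    have := W.n1d i hi
    have := W.n2b i hi
    have := W.n2c i hi
    omega
  have hpw : ∀ {k : ℕ}, k ≤ 4 * (C₁ + C₂ + C₃) * (x + 1) →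
      (2 : ℝ) ^ k ≤ 2 ^ (4 * (C₁ + C₂ + C₃) * (x + 1)) := fun h =>
    pow_le_pow_right₀ (by norm_num) h
  have hnear : ∀ i < r, ∀ b', NBx c (G 1 (ptr F J ω)) (g₀ 1) (o 1) (F.t ω) i b' →
      |eval b' (Gno (c i) J J (fun y => G 0 y i) (ptr F J ω)) -
        eval b' (G 1 (ptr F J ω) i)| ≤ 2 ^ (4 * x) / 2 ^ g₀ 1 i := fun i hi b' hb' => by
    refine (W.bal.bal 0 (by have := W.n3; omega) 1 (by have := W.n3; omega) q hq h01 hz ω hω i
      (by omega) b' hb').trans ?_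
    rw [div_le_div_iff₀ (by positivity) (by positivity), ← pow_add, ← pow_add]
    refine pow_le_pow_right₀ (by norm_num) ?_
    have := W.n1d i hi
    have := W.n2b i hi
    have := W.n2c i hi
    have := W.o1
    have := W.o2
    omega
  refine ⟨fun b hb => ?_, fun b hb l hl => ?_⟩
  · have hb1 : NBx c (fun l => Gno (c l) J J (fun y => G 0 y l) (ptr F J ω)) (g₀ 1) (o 1)
        (F.t ω) r b := ⟨hb.1.trans (one_div_le_one_div_of_le (by positivity)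
      (pow_le_pow_right₀ (by norm_num) h12)), fun i hi => (hb.2 i hi).trans
      (one_div_le_one_div_of_le (by positivity) (pow_le_pow_right₀ (by norm_num) (hgl i hi)))⟩
    refine ⟨fun l hl => ?_, fun l hl => ?_⟩
    · refine (hbs (c := c) (i := r) (p := 4 * x + 1) (q := 0) (a := o 1) (t := F.t ω)
        (G := G 1 (ptr F J ω)) (G' := fun l => Gno (c l) J J (fun y => G 0 y l) (ptr F J ω))
        (g := g₀ 1) (g' := g₀ 1) (Nat.lt_succ_self r) W.hcr (fun i => W.dG 1 _ i)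
        (fun i => W.pG 1 _ i) (fun i => W.rad0.degG (ptr F J ω) i) h4 (fun i _ => le_rfl)
        (fun b' hb' j hj => ?_) b hb1 l hl).trans ?_
      · have e1 := hb'.2 j hj
        have e2 := hnear j hj b' (hb'.mono le_rfl hj.le)
        have e3 : b' (some (c j)) - eval b' (Gno (c j) J J (fun y => G 0 y j) (ptr F J ω)) =
            (b' (some (c j)) - eval b' (G 1 (ptr F J ω) j)) -
            (eval b' (Gno (c j) J J (fun y => G 0 y j) (ptr F J ω)) -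
              eval b' (G 1 (ptr F J ω) j)) := by ring
        show |b' (some (c j)) - eval b' (Gno (c j) J J (fun y => G 0 y j) (ptr F J ω))| ≤ _
        rw [e3]
        refine (abs_sub _ _).trans ((add_le_add e1 e2).trans ?_)
        rw [← add_div]
        refine div_le_div_of_nonneg_right ?_ (by positivity)
        have h7 : (1 : ℝ) ≤ 2 ^ (4 * x) := one_le_pow₀ (by norm_num)
        rw [pow_succ]
        linarith
      · exact div_le_div_of_nonneg_right (hpw (by nlinarith)) (by positivity)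
    · have h1 := hf1 (c := c) (a := o 1) (p := 4 * x) (q := 0) (t := F.t ω)
        (Gb := G 1 (ptr F J ω)) (ψ := fun l => Gno (c l) J J (fun y => G 0 y l) (ptr F J ω))
        (gb := g₀ 1) (g' := g₀ 1) (R := pderiv (some (c l)) (G 1 (ptr F J ω) r))
        (M := 2 ^ (e + nlp (g₀ 1) l r)) W.hcr (fun i => W.dG 1 _ i) (fun i => W.pG 1 _ i)
        (fun i => W.rad0.degG (ptr F J ω) i) h4 ((W.pG 1 _ r).pderiv l)
        ((pd_deg _ _).trans (W.dG 1 _ r)) (by positivity) (fun i _ => le_rfl)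
        (fun i _ => le_rfl) (fun i hi b' hb' => hnear i hi b' hb')
        (fun b' hb' => W.ch1.lip ω hω r (by omega) b' hb' l hl) b hb1
      exact h1.trans (mul_le_mul_of_nonneg_right (hpw (by nlinarith)) (by positivity))
  · have h1 := hf2 (c := c) (a := o 1) (p := 4 * x) (q := 0) (t := F.t ω)
      (Gb := G 1 (ptr F J ω)) (ψ := fun j => if j < r then
        Gno (c j) J J (fun y => G 0 y j) (ptr F J ω) else G 1 (ptr F J ω) r)
      (gb := g₀ 1) (g' := g₀ 1) (R := pderiv (some (c l)) (G 1 (ptr F J ω) (r + 1)))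
      (M := 2 ^ (e + nlp (g₀ 1) l (r + 1))) W.hc1 (fun i => W.dG 1 _ i) (fun i => W.pG 1 _ i)
      (fun i => by
        split_ifs
        · exact W.rad0.degG (ptr F J ω) i
        · exact W.dG 1 _ r)
      (fun i => by
        split_ifs with h
        · exact h4 i
        · exact (W.pG 1 _ r).mono (by omega))
      ((W.pG 1 _ (r + 1)).pderiv l)
      ((pd_deg _ _).trans (W.dG 1 _ (r + 1))) (by positivity) (fun i _ => le_rfl)
      (fun i _ => le_rfl) (fun i hi b' hb' => by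
        split_ifs with h
        · exact hnear i h b' hb'
        · have hir : i = r := by omega
          rw [hir, sub_self, abs_zero]
          positivity)
      (fun b' hb' => W.ch1.lip ω hω (r + 1) (by omega) b' hb' l hl) b
      ⟨hb.1.trans (one_div_le_one_div_of_le (by positivity)
        (pow_le_pow_right₀ (by norm_num) h12)), fun i hi => (hb.2 i hi).trans
        (one_div_le_one_div_of_le (by positivity) (pow_le_pow_right₀ (by norm_num) (by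
          beta_reduce
          split_ifs with h
          · exact hgl i h
          · have hir : i = r := by omega
            rw [hir])))⟩
    exact h1.trans (mul_le_mul_of_nonneg_right (hpw (by nlinarith)) (by positivity))

end Pool.V1E
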