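import Pool.Agent.H92.D2.Nwb

/-!
# The end for the target `N - P(p, u)`

`nw_end`: from the labels of the tubes of the precision of the balls to a label of `N` over the frame
and `u`.
-/

set_option autoImplicit false

namespace Pool.V1E

open Finset Real MvPolynomial
open Pool.KA Pool.KSAT Pool.PB Pool.GEN Pool.D2R Pool.D2G30 Pool.ISO Pool.CHT Pool.CHX
open Pool.PB.Trl (rt rt_mem t_rt)
open Pool.Agent.H49.Ent Pool.K2S Pool.END18
open Pool.NLB46 (Lab)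

/-- **The end for the target `N - P(p, u)`.** -/
theorem nw_end (D r K D' : ℕ) (hr : 1 ≤ r) (hK : 1 ≤ K)
    (hDK : (D + 1) * (D + 1) * ((D + 1) * (D + 1) + 1) ^ r ≤ K) (hD' : (D + 1) ^ (r + 4) ≤ D')
    {ε : ℝ} (hε : 0 < ε) :
    ∃ C₀ C₁ : ℕ, ∃ δ : ℝ, 0 < δ ∧ δ ≤ ε ∧ ∃ Q₀ : ℕ, ∀ {m J : ℕ} {F : Fam m J} {c : ℕ → Fin m}
    {n M ar MB q₀ Q x p e su : ℕ} {s : ℕ → ℕ} {qe : Fin r → ℕ} {o : ℕ → ℕ}
    {z g gc gT g₀ : ℕ → ℕ → ℕ} {A : F.Ω → Prop}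
    {G T : ℕ → PtT F → ℕ → MvPolynomial (Option (Fin m)) ℝ}
    {H TH : ℕ → LnT F → ℕ → MvPolynomial (Option (Fin m)) ℝ}
    {Ht CL : LnT F → MvPolynomial (Option (Fin m)) ℝ}
    {Cp : PtT F → MvPolynomial (Option (Fin m)) ℝ}
    {V V' : Type} {v : F.Ω → V} {v' : F.Ω → V'}
    {ξ : LnT F → Fin r → ℝ} {np : LnT F → Polynomial ℝ} {Pt : LnT F → Gr K r → Polynomial ℝ}
    {e' p' : ℕ},
    NwE F c r D n M ar MB q₀ Q x p e su s qe o z g gc gT g₀ A G T H TH Ht CL Cp → Q₀ ≤ Q →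
    (C₁ : ℝ) * (x + 1) ≤ δ * Q → o 1 + 2 * Q ≤ J → 0 < Pe F.p A →
    ImC K r D' Q MB (2 ^ (J - o 1)) δ (Pool.Agent.H49.Ent.cond F.p A True) (slam F (o 1))
      (twF F (o 1)) (kzF F c s r (o 1) Q v v' (G 0) (fun y => nW c r (G 1 y) (Cp y))
        (fun y => nW c r (G 2 y) (Cp y)))
      (Pfz c s r Q J ((D + 1) * (D + 1))) (scF F c s r (o 1) q₀ Q qe (G 0) (H 0)) ξ np Pt →
    (J : ℝ) * Real.log 2 - δ * Q ≤ CH (Pool.Agent.H49.Ent.cond F.p A True) F.T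
      (fun ω => (F.l ω, F.Z ω)) →
    e + C₁ * (x + 1) + (p' - g₀ 1 (r + 1)) + 1 ≤ e' →
    (p' : ℝ) + (2 * x * K * r + C₀ : ℕ) + ε * Q ≤ s r + MB →
    ((e + C₁ * (x + 1) + (p' - g₀ 1 (r + 1)) : ℕ) : ℝ) + p' +
      (2 * x * K * r + C₀ + C₁ * (x + 1) : ℕ) + ε * Q ≤ e' + s r →
    ∃ B : F.Ω → Prop, Sub B A ∧ Pe F.p A ≤ 2 * Pe F.p B ∧
      ChOK F c (r + 1) (fun _ => (D + 1) * (D + 1)) (o 1 + Q + 1) (o 1) e'
        (fun j => if j < r then g 0 j + (o 2 - o 0) else g₀ 1 r) B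
        (fun y j => if j < r then Gf F c (G 0) y j else G 1 y r)
        (fun L j => if j < r then Hf F c (H 0) (co q₀ L) j else H 1 L r) ∧
      Lab F c (r + 1) ((D + 1) * (D + 1) + r * (K * ((D + 1) * (D + 1))) + D') (o 1 + Q + 1) (o 1)
        e' p' (fun j => if j < r then g 0 j + (o 2 - o 0) else g₀ 1 r)
        (fun y j => if j < r then Gf F c (G 0) y j else G 1 y r) B
        (adW Cp (fun y => nW c r (G 2 y) (Cp y)))
        (adW CL (Pool.END18.Ht F c s K r (o 1) q₀ Q (H 0) (fun L => nW c r (H 1 L) (CL L))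
          (fun L => z0L c s r (o 1) Q (frH F r q₀ (H 0) L) L)
          (fun L => z1L c s r (o 1) Q qe (frH F r q₀ (H 0) L) L) Pt)) := by
  obtain ⟨C₂, hen⟩ := nw_en D r
  obtain ⟨C₃, htl⟩ := nw_tld D r K hK hDK
  have hε1 : 0 < min ε 1 := lt_min hε one_pos
  obtain ⟨C₀, δ, hδ0, hδε, Q₀, hend⟩ := end_w r ((D + 1) * (D + 1)) ((D + 1) * (D + 1)) K D'
    le_rfl hK hDK hε1
  refine ⟨C₀ + 1, C₂ + C₃ + 4, δ, hδ0, hδε.trans (min_le_left _ _), Q₀, ?_⟩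
  intro m J F c n M ar MB q₀ Q x p e su s qe o z g gc gT g₀ A G T H TH Ht CL Cp V V' v v' ξ np Pt
    e' p' W hQ hC hJ2 hA hIm htf he h1 h2
  have hQ0 : (0 : ℝ) ≤ Q := Nat.cast_nonneg Q
  have hδ1 : δ * Q ≤ Q := by
    have := hδε.trans (min_le_right ε 1)
    nlinarith
  have hN : (0 : ℝ) ≤ (x : ℝ) + 1 := by positivity
  have hCN : ((C₂ + C₃ + 4 : ℕ) : ℝ) * ((x : ℝ) + 1) ≤ δ * Q := hC
  have hk : ∀ {k : ℕ}, k ≤ C₂ + C₃ + 4 → ((k * (x + 1) : ℕ) : ℝ) ≤ δ * Q := by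
    intro k hk
    have h3 : (k : ℝ) ≤ ((C₂ + C₃ + 4 : ℕ) : ℝ) := by exact_mod_cast hk
    push_cast at h3 hCN ⊢
    exact (mul_le_mul_of_nonneg_right h3 hN).trans hCN
  have hkQ : ∀ {k : ℕ}, k ≤ C₂ + C₃ + 4 → k * (x + 1) ≤ Q := by
    intro k hk'
    exact_mod_cast (hk hk').trans hδ1
  have hkδ : ∀ {k : ℕ}, k ≤ C₂ + C₃ + 4 → (2 : ℝ) ^ (k * (x + 1)) ≤ 2 ^ (δ * Q) := by
    intro k hk'
    rw [← Real.rpow_natCast]
    exact Real.rpow_le_rpow_of_exponent_le (by norm_num) (hk hk')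
  have hx4 : 4 * x ≤ Q := by
    have := hkQ (k := 4) (by omega)
    omega
  obtain ⟨e₁, he₁⟩ : ∃ e₁, e₁ = e + C₂ * (x + 1) + (p' - g₀ 1 (r + 1)) := ⟨_, rfl⟩
  have he₁' : e₁ ≤ e + (C₂ + C₃ + 4) * (x + 1) + (p' - g₀ 1 (r + 1)) := by
    have : C₂ * (x + 1) ≤ (C₂ + C₃ + 4) * (x + 1) := Nat.mul_le_mul_right _ (by omega)
    omega
  obtain ⟨g1, g2, g3, g4, g5⟩ := hen W hx4 ((hkQ (k := C₂) (by omega)).trans W.QM) e₁ (by omega)
  obtain ⟨ω₀, hω₀⟩ : ∃ ω, A ω := by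
    by_contra hne
    push Not at hne
    have : Pe F.p A = 0 := by
      classical
      unfold Pe
      exact Finset.sum_eq_zero fun ω _ => if_neg fun h => hne ω (of_eq_true h)
    linarith
  have ht := htl W.toNwD v v' (fun _ : LnT F => v ω₀) D' hD'
  have hεQ := mul_le_mul_of_nonneg_right (min_le_left ε 1) hQ0
  have h1' : (p' : ℝ) + (2 * x * K * r + C₀ : ℕ) + min ε 1 * Q ≤ s r + MB := by
    push_cast at h1 ⊢
    linarith
  have hx1 : p' + (x + 1) ≤ s r + MB := by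
    have h3 : ((p' + (2 * x * K * r + (C₀ + 1)) : ℕ) : ℝ) ≤ ((s r + MB : ℕ) : ℝ) := by
      have h4 : 0 ≤ ε * Q := mul_nonneg hε.le hQ0
      push_cast at h1 ⊢
      linarith
    have h4 : p' + (2 * x * K * r + (C₀ + 1)) ≤ s r + MB := by exact_mod_cast h3
    have h5 : x ≤ 2 * x * K * r := by
      calc x ≤ 2 * x := by omega
        _ = 2 * x * 1 * 1 := by ring
        _ ≤ 2 * x * K * r := Nat.mul_le_mul (Nat.mul_le_mul_left _ hK) hr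
    omega
  have h2' : (e₁ : ℝ) + p' + (2 * x * K * r + C₀ + C₂ * (x + 1) : ℕ) + min ε 1 * Q ≤
      e' + s r := by
    have h4 : (e₁ : ℝ) ≤ ((e + (C₂ + C₃ + 4) * (x + 1) + (p' - g₀ 1 (r + 1)) : ℕ) : ℝ) := by
      exact_mod_cast he₁'
    have h5 : ((2 * x * K * r + C₀ + C₂ * (x + 1) : ℕ) : ℝ) ≤
        ((2 * x * K * r + (C₀ + 1) + (C₂ + C₃ + 4) * (x + 1) : ℕ) : ℝ) := by
      have : C₂ * (x + 1) ≤ (C₂ + C₃ + 4) * (x + 1) := Nat.mul_le_mul_right _ (by omega)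
      exact_mod_cast (by omega : 2 * x * K * r + C₀ + C₂ * (x + 1) ≤
        2 * x * K * r + (C₀ + 1) + (C₂ + C₃ + 4) * (x + 1))
    linarith
  refine hend (k := fun ω i => (crF F c s r (o 1) Q (G 0) ω i : ℝ)) (p := p') hQ W.QM hJ2 hA W.hc1
    g1 ht.dgf
    (fun ω hω _ β => (ht.bdf ω hω β).trans (hkδ (by omega))) (fun ω hω _ i => ht.s1 ω hω i)
    (fun ω hω _ => ?_)
    (fun ω hω _ i => (g5 ω hω i).trans (div_le_div_of_nonneg_right (hkδ (by omega))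
      (by positivity))) hIm htf g2 (fun ω hω => W.cl1 ω hω r (Nat.le_succ r))
    (fun y => (W.dCp y).trans (by nlinarith)) W.pCp (fun L => (W.dCL L).trans (by nlinarith))
    W.pCL W.clC (fun L => (W.dH 1 L (r + 1)).trans (by nlinarith)) (fun L => W.pH 1 L (r + 1))
    (fun ω hω => ?_) g3 (g4 p' (by omega)) le_rfl (by omega) h1' h2'
  · rw [nw_pfz W.toNwD v v' ω, W.toNwD.frd.fr hω, ← W.clB hω]
    have e1 : nW c r (H 1 (slam F (o 1) ω)) (CL (slam F (o 1) ω)) =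
        nW c r (G 1 (ptr F J ω)) (Cp (ptr F J ω)) := by
      unfold nW nfw
      rw [W.cl1 ω hω r (Nat.le_succ r), W.cl1 ω hω (r + 1) le_rfl, W.clC ω hω]
    rw [e1]
    rfl
  · have h3 := W.toNwD.pos hω
    rw [eval_adW]
    have e1 : F.x ω (c (r + 1)) - (eval (bt F ω) (nW c r (G 2 (ptr F J ω)) (Cp (ptr F J ω))) +
        eval (bt F ω) (Cp (ptr F J ω))) =
        nwy F c r Cp ω - eval (bt F ω) (nW c r (G 2 (ptr F J ω)) (Cp (ptr F J ω))) := by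
      unfold nwy
      ring
    rw [e1]
    refine h3.trans ?_
    rw [div_le_div_iff₀ (by positivity) (by positivity), one_mul, ← pow_add]
    exact pow_le_pow_right₀ (by norm_num) (by omega)

end Pool.V1E
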