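import Pool.Agent.H92.D2.Nwd
import Pool.Agent.H92.D2.Him

/-!
# The paths are straight, for a frame

`fr_tls`: the structure `TlS` from `FrD`. `WN.res`: smaller events.
-/

set_option autoImplicit false

namespace Pool.V1E

open Finset Real MvPolynomial
open Pool.KA Pool.KSAT Pool.PB Pool.GEN Pool.D2R Pool.D2G30 Pool.ISO Pool.CHT Pool.CHX
open Pool.PB.Trl (rt rt_mem t_rt)
open Pool.Agent.H49.Ent Pool.Agent.H32.Dense Pool.STK Pool.K2S Pool.LA91 Pool.OWN68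
open Pool.UNJ (ceI)
open Pool.S6C Pool.RCD Pool.D2Con

/-- **The paths are straight** in the window. -/
theorem fr_tls (D r : ℕ) : ∃ C : ℕ, ∀ {m J : ℕ} {F : Fam m J} {c : ℕ → Fin m}
    {MB q₀ Q x : ℕ} {s : ℕ → ℕ} {qe : Fin r → ℕ} {o gf g2 : ℕ → ℕ} {B : F.Ω → Prop}
    {Gf G2 : PtT F → ℕ → MvPolynomial (Option (Fin m)) ℝ}
    {Hf : LnT F → ℕ → MvPolynomial (Option (Fin m)) ℝ} {k : ℕ},
    FrD F c r D MB q₀ Q x s qe o gf g2 B Gf G2 Hf →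
    Q + k + (C + x + x) ≤ q₀ → (∀ i, qe i + (C + x + x) ≤ q₀) → o 0 + (C + x) ≤ J →
    TlS F B c s r (o 1) Q k qe Gf (2 ^ (C + x + x) / 2 ^ q₀) := by
  obtain ⟨C₃, hC₃, hhl⟩ := hL_near D
  obtain ⟨C₄, hC₄⟩ := pow_unbounded_of_one_lt C₃ (one_lt_two (α := ℝ))
  refine ⟨C₄ + 1, ?_⟩
  intro m J F c MB q₀ Q x s qe o gf g2 B Gf G2 Hf k W hk hqe hJ
  have h1J : o 1 ≤ J := by have := W.oJ; have := W.o2; omega
  have key : ∀ ω, B ω → ∀ i : Fin r,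
      |(Polynomial.derivative (hL c s r (o 1) (trn r (Gf (ptr F J ω))) (slam F (o 1) ω)
        (some i))).eval (rt F (o 1) ω)| ≤ 2 ^ C₄ * (2 ^ s i * (2 ^ x / 2 ^ gf i) / 2 ^ q₀) ∧
      |(Polynomial.derivative (hL c s r (o 1) (trn r (Gf (ptr F J ω))) (slam F (o 1) ω)
        (some i))).eval (rt F (o 1) ω) -
        (Polynomial.derivative (hL c s r (o 1) (trn r (Gf (ptr F J ω))) (slam F (o 1) ω)
          (some i))).eval 0| ≤ 2 ^ (C₄ + x + x) / 2 ^ q₀ ∧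
      |(hL c s r (o 1) (trn r (Gf (ptr F J ω))) (slam F (o 1) ω) (some i)).eval (rt F (o 1) ω) -
        (hL c s r (o 1) (trn r (Gf (ptr F J ω))) (slam F (o 1) ω) (some i)).eval 0 -
        rt F (o 1) ω * (Polynomial.derivative (hL c s r (o 1) (trn r (Gf (ptr F J ω)))
          (slam F (o 1) ω) (some i))).eval 0| ≤ 2 ^ (C₄ + x + x) / 2 ^ q₀ := by
    intro ω hω i
    have hfr := W.fr hω
    obtain ⟨L, hL'⟩ : ∃ L, L = slam F (o 1) ω := ⟨_, rfl⟩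
    have hco : co q₀ L = slam F (o 0) ω := by
      have h2 := co_slam F (w := o 0) (a := o 1) (by rw [W.o1]; omega) h1J ω
      rw [hL']
      rwa [W.o1, Nat.add_sub_cancel_left, ← W.o1] at h2
    obtain ⟨a1, a2, a3⟩ := hhl (c := c) (s := s) (d := r) (wb := o 0) (q₀ := q₀) (H₀ := Hf)
      (L := L) (M := 2 ^ x / 2 ^ gf i) (i := i) (W.dH0 _ _) (fun τ hτ => by
        rw [hco]
        exact W.own0 ω hω i i.2 τ hτ) _ (rt_mem F (o 1) ω)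
    rw [← W.o1, hL', hfr] at a1 a2 a3
    have hX : C₃ * (2 ^ s i * (2 ^ x / 2 ^ gf i) / 2 ^ q₀) / 2 ^ q₀ ≤
        2 ^ (C₄ + x + x) / 2 ^ q₀ := by
      refine div_le_div_of_nonneg_right ?_ (by positivity)
      have h2 : (2 : ℝ) ^ s i / 2 ^ (gf i + q₀) ≤ 2 ^ x := p2_div (W.n0 i i.2)
      have e1 : C₃ * (2 ^ s i * (2 ^ x / 2 ^ gf i) / 2 ^ q₀) =
          C₃ * (2 ^ x * ((2 : ℝ) ^ s i / 2 ^ (gf i + q₀))) := by
        rw [pow_add 2 (gf i)]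
        field_simp
      rw [e1]
      calc C₃ * (2 ^ x * ((2 : ℝ) ^ s i / 2 ^ (gf i + q₀))) ≤ 2 ^ C₄ * (2 ^ x * 2 ^ x) := by
            refine mul_le_mul hC₄.le (mul_le_mul_of_nonneg_left h2 (by positivity))
              (by positivity) (by positivity)
        _ = 2 ^ (C₄ + x + x) := by rw [pow_add, pow_add]; ring
    refine ⟨a1.trans (mul_le_mul_of_nonneg_right hC₄.le (by positivity)), a2.trans hX,
      a3.trans hX⟩
  have hδ : 2 * ((2 : ℝ) ^ (C₄ + x + x) / 2 ^ q₀) = 2 ^ (C₄ + 1 + x + x) / 2 ^ q₀ := by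
    have : (2 : ℝ) ^ (C₄ + 1 + x + x) = 2 * 2 ^ (C₄ + x + x) := by
      rw [show C₄ + 1 + x + x = (C₄ + x + x) + 1 by ring, pow_succ]
      ring
    rw [this]
    ring
  have hX0 : (0 : ℝ) ≤ 2 ^ (C₄ + x + x) / 2 ^ q₀ := by positivity
  refine ⟨fun ω hω i => ?_, fun ω hω i => ?_, ?_, fun i => ?_, fun ω hω i hi => ?_⟩
  · obtain ⟨-, a2, a3⟩ := key ω hω i
    rw [← hδ]
    have hu := rt_mem F (o 1) ω
    obtain ⟨h0, hh0⟩ : ∃ y, y = (hL c s r (o 1) (trn r (Gf (ptr F J ω))) (slam F (o 1) ω)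
      (some i)).eval 0 := ⟨_, rfl⟩
    obtain ⟨hr1, hhr1⟩ : ∃ y, y = (hL c s r (o 1) (trn r (Gf (ptr F J ω))) (slam F (o 1) ω)
      (some i)).eval (rt F (o 1) ω) := ⟨_, rfl⟩
    obtain ⟨d0, hd0⟩ : ∃ y, y = (Polynomial.derivative (hL c s r (o 1) (trn r (Gf (ptr F J ω)))
      (slam F (o 1) ω) (some i))).eval 0 := ⟨_, rfl⟩
    obtain ⟨d1, hd1⟩ : ∃ y, y = (Polynomial.derivative (hL c s r (o 1) (trn r (Gf (ptr F J ω)))
      (slam F (o 1) ω) (some i))).eval (rt F (o 1) ω) := ⟨_, rfl⟩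
    rw [← hd0, ← hd1] at a2
    rw [← hh0, ← hhr1, ← hd0] at a3
    rw [← hh0, ← hhr1, ← hd1]
    have e1 : hr1 - h0 - rt F (o 1) ω * d1 = (hr1 - h0 - rt F (o 1) ω * d0) -
        rt F (o 1) ω * (d1 - d0) := by ring
    rw [e1]
    refine (abs_sub _ _).trans ?_
    have e2 : |rt F (o 1) ω * (d1 - d0)| ≤ 1 * (2 ^ (C₄ + x + x) / 2 ^ q₀) := by
      rw [abs_mul, abs_of_nonneg hu.1]
      exact mul_le_mul hu.2 a2 (abs_nonneg _) zero_le_one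
    linarith
  · obtain ⟨-, a2, -⟩ := key ω hω i
    rw [← hδ]
    linarith
  · rw [mul_div_assoc', div_le_one (by positivity), ← pow_add]
    exact pow_le_pow_right₀ (by norm_num) (by omega)
  · rw [mul_div_assoc', div_le_one (by positivity), ← pow_add]
    exact pow_le_pow_right₀ (by norm_num) (hqe i)
  · obtain ⟨a1, -, -⟩ := key ω hω ⟨i, hi⟩
    rw [hv_eq h1J ⟨i, hi⟩ ω] at a1
    have hs : (0 : ℝ) < 2 ^ s i := by positivity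
    have e1 : |(2 : ℝ) ^ s i * (1 / 2 ^ o 1 * ojet F (c i) 1 (Gf (ptr F J ω) i) ω)| =
        2 ^ s i * (1 / 2 ^ o 1 * |ojet F (c i) 1 (Gf (ptr F J ω) i) ω|) := by
      rw [abs_mul, abs_mul, abs_of_pos hs, abs_of_pos (show (0 : ℝ) < 1 / 2 ^ o 1 by positivity)]
    have a1' : (2 : ℝ) ^ s i * (1 / 2 ^ o 1 * |ojet F (c i) 1 (Gf (ptr F J ω) i) ω|) ≤
        2 ^ C₄ * (2 ^ s i * (2 ^ x / 2 ^ gf i) / 2 ^ q₀) := by
      rw [← e1]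
      exact a1
    have e2 : (2 : ℝ) ^ C₄ * (2 ^ s i * (2 ^ x / 2 ^ gf i) / 2 ^ q₀) =
        2 ^ s i * (1 / 2 ^ o 1 * (2 ^ (C₄ + x + o 0) / 2 ^ gf i)) := by
      rw [W.o1, pow_add 2 (o 0), pow_add 2 (C₄ + x), pow_add 2 C₄]
      field_simp
    rw [e2] at a1'
    have h3 := le_of_mul_le_mul_left (le_of_mul_le_mul_left a1' hs) (by positivity)
    refine h3.trans ?_
    have h4 : (2 : ℝ) ^ (C₄ + x + o 0) ≤ 2 ^ J := pow_le_pow_right₀ (by norm_num) (by omega)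
    refine (div_le_self (by positivity) (one_le_pow₀ (by norm_num))).trans h4

/-- Smaller events. -/
theorem WN.res {m : ℕ} {c : ℕ → Fin m} {r D Dw Dr N N₂ : ℕ} {R : ℕ → Prop}
    {C a Eb ε₀ η₀ χ mb : ℝ}
    {Pt : ℝ → ℝ → ℝ} {o : ℕ → ℝ} {lv be : ℕ → ℕ → ℝ} {J : ℕ} {F : Fam m J} {b : ℕ → ℕ → ℝ} {κ : ℝ}
    {z : ℕ → ℕ → ℕ} {qe : Fin r → ℕ} {B : F.Ω → Prop} {gc gT g₀ : ℕ → ℕ → ℕ}
    {G : ℕ → PtT F → ℕ → MvPolynomial (Option (Fin m)) ℝ}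
    {H : ℕ → LnT F → ℕ → MvPolynomial (Option (Fin m)) ℝ}
    {T : ℕ → PtT F → ℕ → MvPolynomial (Option (Fin m)) ℝ}
    {TH : ℕ → LnT F → ℕ → MvPolynomial (Option (Fin m)) ℝ}
    {Gt : ℕ → PtT F → MvPolynomial (Option (Fin m)) ℝ}
    {Ht : ℕ → LnT F → MvPolynomial (Option (Fin m)) ℝ}
    {CL : LnT F → MvPolynomial (Option (Fin m)) ℝ} {Cp : PtT F → MvPolynomial (Option (Fin m)) ℝ}
    (W : WN c r D Dw Dr N N₂ R C a Eb ε₀ η₀ χ mb Pt o lv be F b κ z qe B gc gT g₀ G H T TH Gt Ht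
      CL Cp) {B' : F.Ω → Prop} {κ₁ κ₂ : ℝ} (hB : Sub B' B) (hP : κ₁ * Pe F.p B ≤ Pe F.p B')
    (h2 : 0 ≤ κ₂) (hκ : κ ≤ κ₂ * κ₁) :
    WN c r D Dw Dr N N₂ R C a Eb ε₀ η₀ χ mb Pt o lv be F b κ₂ z qe B' gc gT g₀ G H T TH Gt Ht
      CL Cp :=
  ⟨W.n1, W.n3, W.DD, W.wg.res hB hP h2 hκ, W.nw.toNvP.sub hB, W.nw.toNwC.mono hB le_rfl le_rfl⟩

end Pool.V1E
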