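import Pool.Agent.H62.OWN.LabI

/-!
# Quadratic polynomials around a point

`qdp c θ B b`: the polynomial `c + θ (x - b) + B (x - b) (x - b) / 2`.
-/

set_option autoImplicit false

namespace Pool.QDL

open Finset MvPolynomial

variable {m : ℕ}

/-- The quadratic polynomial around the point `b`. -/
noncomputable def qdp (c : ℝ) (θ : Option (Fin m) → ℝ) (B : Option (Fin m) → Option (Fin m) → ℝ)
    (b : Option (Fin m) → ℝ) : MvPolynomial (Option (Fin m)) ℝ :=
  C c + (∑ o, C (θ o) * (X o - C (b o)) +
    ∑ o, ∑ o', C (B o o' / 2) * ((X o - C (b o)) * (X o' - C (b o'))))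

theorem eval_qdp (c : ℝ) (θ : Option (Fin m) → ℝ) (B : Option (Fin m) → Option (Fin m) → ℝ)
    (b x : Option (Fin m) → ℝ) : eval x (qdp c θ B b) = c + (∑ o, θ o * (x o - b o) +
      ∑ o, ∑ o', B o o' / 2 * ((x o - b o) * (x o' - b o'))) := by
  unfold qdp
  simp only [map_add, map_mul, map_sum, map_sub, eval_C, eval_X]

theorem deg_lin (r : ℝ) (o : Option (Fin m)) :
    (X o - C r : MvPolynomial (Option (Fin m)) ℝ).totalDegree ≤ 1 := by
  refine (totalDegree_sub _ _).trans (max_le ?_ ?_)
  · rw [totalDegree_X]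
  · rw [totalDegree_C]
    exact Nat.zero_le _

theorem deg_qdp (c : ℝ) (θ : Option (Fin m) → ℝ) (B : Option (Fin m) → Option (Fin m) → ℝ)
    (b : Option (Fin m) → ℝ) : (qdp c θ B b).totalDegree ≤ 2 := by
  unfold qdp
  refine (totalDegree_add _ _).trans (max_le ?_ ((totalDegree_add _ _).trans (max_le ?_ ?_)))
  · rw [totalDegree_C]
    exact Nat.zero_le _
  · refine totalDegree_finsetSum_le fun o _ => (totalDegree_mul _ _).trans ?_
    rw [totalDegree_C, zero_add]
    exact (deg_lin _ _).trans (by norm_num)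
  · refine totalDegree_finsetSum_le fun o _ => totalDegree_finsetSum_le fun o' _ =>
      (totalDegree_mul _ _).trans ?_
    rw [totalDegree_C, zero_add]
    refine (totalDegree_mul _ _).trans ?_
    have h1 := deg_lin (b o) o
    have h2 := deg_lin (b o') o'
    omega

theorem pd_lin (r : ℝ) (o j : Option (Fin m)) (x : Option (Fin m) → ℝ) :
    eval x (pderiv j (X o - C r : MvPolynomial (Option (Fin m)) ℝ)) = if o = j then 1 else 0 := by
  classical
  rw [map_sub, pderiv_C, sub_zero]
  split_ifs with h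
  · subst h
    rw [pderiv_X_self, map_one]
  · rw [pderiv_X_of_ne h, map_zero]

theorem pd_qdp (c : ℝ) (θ : Option (Fin m) → ℝ) (B : Option (Fin m) → Option (Fin m) → ℝ)
    (hB : ∀ o o', B o o' = B o' o) (b x : Option (Fin m) → ℝ) (j : Option (Fin m)) :
    eval x (pderiv j (qdp c θ B b)) = θ j + ∑ o, B j o * (x o - b o) := by
  classical
  unfold qdp
  have h1 : eval x (pderiv j (∑ o, C (θ o) * (X o - C (b o)) : MvPolynomial (Option (Fin m)) ℝ)) =
      θ j := by
    rw [map_sum, map_sum, Finset.sum_eq_single j]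
    · rw [pderiv_C_mul, map_mul, eval_C, pd_lin, if_pos rfl, mul_one]
    · intro o _ ho
      rw [pderiv_C_mul, map_mul, eval_C, pd_lin, if_neg ho, mul_zero]
    · intro h
      exact absurd (mem_univ j) h
  have h2 : eval x (pderiv j (∑ o, ∑ o', C (B o o' / 2) * ((X o - C (b o)) * (X o' - C (b o'))) :
      MvPolynomial (Option (Fin m)) ℝ)) = ∑ o, ∑ o', B o o' / 2 *
        ((if o = j then 1 else 0) * (x o' - b o') + (x o - b o) * (if o' = j then 1 else 0)) := by
    rw [map_sum, map_sum]
    refine Finset.sum_congr rfl fun o _ => ?_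
    rw [map_sum, map_sum]
    refine Finset.sum_congr rfl fun o' _ => ?_
    rw [pderiv_C_mul, map_mul, eval_C, Derivation.leibniz, map_add, smul_eq_mul, smul_eq_mul,
      map_mul, map_mul, pd_lin, pd_lin, map_sub, map_sub, eval_X, eval_C, eval_X, eval_C]
    ring
  rw [map_add, map_add, pderiv_C, map_zero, zero_add, map_add, map_add, h1, h2]
  congr 1
  have h3 : ∀ o o', B o o' / 2 * ((if o = j then (1 : ℝ) else 0) * (x o' - b o') +
      (x o - b o) * (if o' = j then 1 else 0)) =
      (if o = j then B o o' / 2 * (x o' - b o') else 0) +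
        (if o' = j then B o o' / 2 * (x o - b o) else 0) := by
    intro o o'
    split_ifs <;> ring
  simp only [h3, Finset.sum_add_distrib]
  have h4 : ∑ o, ∑ o', (if o = j then B o o' / 2 * (x o' - b o') else 0) =
      ∑ o', B j o' / 2 * (x o' - b o') := by
    rw [Finset.sum_eq_single j]
    · exact Finset.sum_congr rfl fun o' _ => if_pos rfl
    · intro o _ ho
      exact Finset.sum_eq_zero fun o' _ => if_neg ho
    · intro h
      exact absurd (mem_univ j) h
  have h5 : ∑ o, ∑ o', (if o' = j then B o o' / 2 * (x o - b o) else 0) =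
      ∑ o, B j o / 2 * (x o - b o) := by
    refine Finset.sum_congr rfl fun o _ => ?_
    rw [Finset.sum_ite_eq' univ j, if_pos (mem_univ j), hB o j]
  rw [h4, h5, ← Finset.sum_add_distrib]
  exact Finset.sum_congr rfl fun o _ => by ring

/-- The difference of the values of a symmetric quadratic polynomial. -/
theorem qd_diff (B : Option (Fin m) → Option (Fin m) → ℝ) (hB : ∀ o o', B o o' = B o' o)
    (β γ : Option (Fin m) → ℝ) :
    ∑ o, ∑ o', B o o' / 2 * (β o * β o') - ∑ o, ∑ o', B o o' / 2 * (γ o * γ o') =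
      ∑ o, (β o - γ o) * ((∑ o', B o o' * β o' + ∑ o', B o o' * γ o') / 2) := by
  have h1 : ∀ o, (β o - γ o) * ((∑ o', B o o' * β o' + ∑ o', B o o' * γ o') / 2) =
      ∑ o', (B o o' / 2 * (β o * β o') - B o o' / 2 * (γ o * γ o') +
        (B o o' / 2 * (β o * γ o') - B o o' / 2 * (γ o * β o'))) := by
    intro o
    rw [← Finset.sum_add_distrib, Finset.sum_div, Finset.mul_sum]
    exact Finset.sum_congr rfl fun o' _ => by ring
  rw [Finset.sum_congr rfl fun o _ => h1 o]
  simp only [Finset.sum_add_distrib, Finset.sum_sub_distrib]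
  have h2 : ∑ o, ∑ o', B o o' / 2 * (γ o * β o') = ∑ o, ∑ o', B o o' / 2 * (β o * γ o') := by
    rw [Finset.sum_comm]
    refine Finset.sum_congr rfl fun o _ => Finset.sum_congr rfl fun o' _ => ?_
    rw [hB o' o]
    ring
  rw [h2]
  ring

end Pool.QDL
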