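import Pool.Agent.H68.OWN.Jn
import Pool.Agent.H68.OWN.Jw
import Pool.Agent.H83.OWN.AddC
import Pool.Agent.H92.D2.Tfm

/-!
# V1 empty: the rows of the own path

`hh0_of`: the height to `p + q` digits is few bits given the ball, for any natural digits of the base.
`rows_cls`: the rows of the own height, for all the precisions and blocks of `tube_fam`, on all large
parts of an event. `rows_fam`: in the units of `tube_fam`.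
-/

set_option autoImplicit false

namespace Pool.V1E

open Finset Real MvPolynomial
open Pool.Agent.H49.Ent Pool.Agent.H32.Dense Pool.STK Pool.KA Pool.KSAT Pool.K2S Pool.PB Pool.GEN
open Pool.S6C Pool.RCD Pool.LA91 Pool.OWN68
open Pool.GRD (LbP)

/-- A floor at a neighbouring scale. -/
theorem CH_fl2 {Ω T : Type} [Fintype Ω] {p : Ω → ℝ} (hp : IsLaw p) (X : Ω → ℝ) {s t : ℝ} {N : ℕ}
    (hs : 0 ≤ s) (hst : s ≤ t * N) (Z : Ω → T)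
    (hZ : ∀ ω ω', 0 < p ω → 0 < p ω' → Z ω = Z ω' → ⌊t * X ω⌋ = ⌊t * X ω'⌋) :
    CH p (fun ω => ⌊s * X ω⌋) Z ≤ Real.log (2 * ((N + 1 : ℕ) : ℝ) + 1) := by
  refine CH_pair hp _ Z fun ω ω' hω hω' e => floor_sub_le ?_
  have h1 := (Int.abs_sub_lt_one_of_floor_eq_floor (hZ ω ω' hω hω' e)).le
  have hN : (0 : ℝ) ≤ N := Nat.cast_nonneg N
  rw [← mul_sub, abs_mul] at h1
  rw [← mul_sub, abs_mul, abs_of_nonneg hs]
  calc s * |X ω - X ω'| ≤ t * N * |X ω - X ω'| := mul_le_mul_of_nonneg_right hst (abs_nonneg _)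
    _ ≤ |t| * N * |X ω - X ω'| := by
        refine mul_le_mul_of_nonneg_right ?_ (abs_nonneg _)
        exact mul_le_mul_of_nonneg_right (le_abs_self t) hN
    _ = N * (|t| * |X ω - X ω'|) := by ring
    _ ≤ N * 1 := mul_le_mul_of_nonneg_left h1 hN
    _ = N := mul_one _

/-- A row at neighbouring scales. -/
theorem CH_rsc {Ω T : Type} [Fintype Ω] {p : Ω → ℝ} (hp : IsLaw p) (X : Ω → ℝ) {s s' t t' : ℝ}
    {N : ℕ} (hs : 0 ≤ s) (ht' : 0 ≤ t') (h1 : s ≤ s' * N) (h2 : t' ≤ t * N) (Y : Ω → T) :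
    CH p (fun ω => ⌊s * X ω⌋) (fun ω => (⌊t * X ω⌋, Y ω)) ≤
      CH p (fun ω => ⌊s' * X ω⌋) (fun ω => (⌊t' * X ω⌋, Y ω)) +
        2 * Real.log (2 * ((N + 1 : ℕ) : ℝ) + 1) := by
  have h0 := hp.nonneg
  have c1 := CH_le_add h0 (fun ω => ⌊s * X ω⌋) (fun ω => ⌊s' * X ω⌋)
    (fun ω => (⌊t * X ω⌋, Y ω))
  have c2 := CH_le_add h0 (fun ω => ⌊s' * X ω⌋) (fun ω => ⌊t' * X ω⌋)
    (fun ω => (⌊t * X ω⌋, Y ω))
  have c3 : CH p (fun ω => ⌊s' * X ω⌋) (fun ω => (⌊t' * X ω⌋, (⌊t * X ω⌋, Y ω))) ≤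
      CH p (fun ω => ⌊s' * X ω⌋) (fun ω => (⌊t' * X ω⌋, Y ω)) :=
    CH_mono_cond h0 fun ω ω' _ _ h => by
      simp only [Prod.mk.injEq] at h ⊢
      exact ⟨h.1, h.2.2⟩
  have c4 := CH_fl2 hp X hs h1 (fun ω => (⌊s' * X ω⌋, (⌊t * X ω⌋, Y ω)))
    (fun ω ω' _ _ h => (Prod.ext_iff.1 h).1)
  have c5 := CH_fl2 hp X ht' h2 (fun ω => (⌊t * X ω⌋, Y ω))
    (fun ω ω' _ _ h => (Prod.ext_iff.1 h).1)
  linarith

variable {m : ℕ}

/-- **The height to `N` digits is few bits given the ball and the point over `I`.** -/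
theorem hh0_of {S : PCl m} {C₀ : ℝ} (htm : TmC S C₀) {I : Finset (Fin m)} {κ : Fin m}
    {w a p Pa r N U u₀ ρ : ℝ} (hwa : w ≤ a) (ha0 : 0 ≤ a) (ha1 : a < 1) (hr : 0 ≤ r)
    (hatt : Att S I κ a Pa r) (hau : a ≤ u₀) (huU : u₀ < U) (hU : U ≤ 1)
    (hful : ∀ u : ℝ, u₀ < u → u < 1 → Ful S I a u) (hρ : 0 < ρ) (hN : N + ρ ≤ Pa)
    (hN' : N + ρ ≤ min Pa p + (U - u₀)) {h : ℝ} (hh : 0 < h) :
    F0 S (fun J F => ptr F J) (vg a) (fun J F ω => (bI I U J F ω, F.W ω))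
      (qJet m I κ 0 w p N) (ρ / 4) h := by
  have e1 := few0_room htm (I := I) (k := κ) (j := 0) ha0 ha1 hρ (p := Pa) (N := N)
    (by rw [Nat.cast_zero, zero_mul, add_zero]; exact hN) (fun J F => ptr F J) (vg a)
    (fun J F ω => (bI I U J F ω, F.W ω)) (h := h / 2) (half_pos hh)
  have e2 := few_jet0 (y := fun J F ω => (bI I U J F ω, F.W ω)) htm (I := I) (k := κ) (w := a)
    (w₁ := a) (w₂ := w) (p₁ := Pa) (p₂ := p) (N₁ := N) (N₂ := N) (p₀ := U) (u₀ := u₀) le_rfl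
    hwa ha1.le hau (ha0.trans hau) huU hU hful (f := fun J F => ptr F J)
    (fun J F => ⟨fun x => x, fun _ => rfl⟩) (kn0_bI I U) le_rfl hρ hN' (h := h / 2) (half_pos hh)
  have e3 := F0.trans htm (exs_jet hr hatt) (by positivity) e1 e2
  have e4 : h / 2 + h / 2 = h := by ring
  rwa [e4] at e3

/-- The rows of the own height over a label of the window `w`, between the digits `p + x` and
`p + q`. -/
def RwL (I : Finset (Fin m)) (κ : Fin m) (w p q x r U h δ e : ℝ) (K : ℕ) : Stat m :=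
  fun J F A => ∀ (V : Type) (z : PtT F → V) (z' : LnT F → V)
    (G : V → MvPolynomial (Option (Fin m)) ℝ),
    LbOK F I κ K ⌊e * J⌋₊ J ⌊w * J⌋₊ ⌊(r + e) * J⌋₊ ⌊(p - e) * J⌋₊ A z z' G →
    CH (Pool.Agent.H49.Ent.cond F.p A True)
      (fun ω => ⌊(2 : ℝ) ^ ((p + q) * J) * ojet F κ 0 (G (z' (slam F ⌊w * J⌋₊ ω))) ω⌋)
      (fun ω => (⌊(2 : ℝ) ^ ((p + x) * J) * ojet F κ 0 (G (z' (slam F ⌊w * J⌋₊ ω))) ω⌋,
        (z' (slam F ⌊w * J⌋₊ ω), (bI I U J F ω, F.W ω)))) ≤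
      ((1 - h) * (q - x) * Real.log 2 + δ) * J

/-- **The rows for all the precisions and blocks**, on all large parts of an event. -/
theorem rows_cls {S : PCl m} {I : Finset (Fin m)} {κ : Fin m} {w p r U h δ μ : ℝ} (hμ : 0 ≤ μ)
    {CM N₁ : ℕ} (hN₁ : 0 < N₁)
    (hnf : ∀ q : ℝ, 0 ≤ q → q ≤ CM * μ → NfH S I κ w p q r h δ (bI I U)) :
    ∃ e₀ : ℝ, 0 < e₀ ∧ ∀ e : ℝ, 0 < e → e ≤ e₀ → ∀ (K : ℕ) (c₀ : ℝ), 0 < c₀ →
      Bas S (fun J F A => ∀ B : F.Ω → Prop, Sub B A → c₀ * Pe F.p A ≤ Pe F.p B →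
        ∀ M' < CM + 1, ∀ i < N₁ + 1, ∀ j < N₁ + 1, 1 ≤ M' → i ≤ j →
          RwL I κ w p (M' * μ - μ * i / N₁) (M' * μ - μ * j / N₁) r U h δ e K J F B) := by
  have hN : (0 : ℝ) < N₁ := by exact_mod_cast hN₁
  have hle : ∀ i : ℕ, i ≤ N₁ → μ * i / N₁ ≤ μ := fun i hi => by
    rw [div_le_iff₀ hN]
    exact mul_le_mul_of_nonneg_left (by exact_mod_cast hi) hμ
  have hq : ∀ M' i : ℕ, 1 ≤ M' → M' ≤ CM → i ≤ N₁ → 0 ≤ M' * μ - μ * i / N₁ ∧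
      M' * μ - μ * i / N₁ ≤ CM * μ := fun M' i h1 h2 h3 => by
    have e1 := hle i h3
    have e2 : (1 : ℝ) * μ ≤ M' * μ := mul_le_mul_of_nonneg_right (by exact_mod_cast h1) hμ
    have e3 : (M' : ℝ) * μ ≤ CM * μ := mul_le_mul_of_nonneg_right (by exact_mod_cast h2) hμ
    have e4 : 0 ≤ μ * i / N₁ := by positivity
    constructor <;> linarith
  -- one number for all the blocks
  have hex : ∀ x : ℕ × ℕ, ∃ e₀ : ℝ, 0 < e₀ ∧ (1 ≤ x.1 → x.1 ≤ CM → x.2 ≤ N₁ →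
      ∀ e : ℝ, 0 < e → e ≤ e₀ → ∀ (K : ℕ) (y : ℝ), 0 ≤ y → y ≤ x.1 * μ - μ * x.2 / N₁ →
        Bas S (RwL I κ w p (x.1 * μ - μ * x.2 / N₁) y r U h δ e K)) := by
    intro x
    by_cases hx : 1 ≤ x.1 ∧ x.1 ≤ CM ∧ x.2 ≤ N₁
    · obtain ⟨h1, h2⟩ := hq x.1 x.2 hx.1 hx.2.1 hx.2.2
      obtain ⟨e₀, h3, h4⟩ := hnf _ h1 h2
      exact ⟨e₀, h3, fun _ _ _ e he hle K y y0 y1 => h4 e he hle K y y0 y1⟩
    · exact ⟨1, one_pos, fun a b c => absurd ⟨a, b, c⟩ hx⟩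
  choose f hf0 hf using hex
  obtain ⟨s, hs⟩ : ∃ s : Finset (ℕ × ℕ), s = Finset.range (CM + 1) ×ˢ Finset.range (N₁ + 1) :=
    ⟨_, rfl⟩
  have hsne : s.Nonempty := ⟨(0, 0), by rw [hs]; simp⟩
  obtain ⟨x₀, hx₀, hmin⟩ := Finset.exists_min_image s f hsne
  refine ⟨f x₀, hf0 x₀, fun e he hle' K c₀ hc₀ => ?_⟩
  have key : ∀ M' < CM + 1, ∀ i < N₁ + 1, ∀ j < N₁ + 1, Bas S (fun J F A => 1 ≤ M' → i ≤ j →
      RwL I κ w p (M' * μ - μ * i / N₁) (M' * μ - μ * j / N₁) r U h δ e K J F A) := by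
    intro M' hM' i hi j hj
    by_cases hx : 1 ≤ M' ∧ i ≤ j
    · have hm : (M', i) ∈ s := by
        rw [hs, Finset.mem_product, Finset.mem_range, Finset.mem_range]
        exact ⟨hM', hi⟩
      have h1 := hmin _ hm
      have hij : μ * i / N₁ ≤ μ * j / N₁ :=
        div_le_div_of_nonneg_right (mul_le_mul_of_nonneg_left (by exact_mod_cast hx.2) hμ) hN.le
      refine Bas.mono 0 (hf (M', i) hx.1 (by omega) (by omega) e he (hle'.trans h1) K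
        (M' * μ - μ * j / N₁) (hq M' j hx.1 (by omega) (by omega)).1 (by
          show (M' : ℝ) * μ - μ * j / N₁ ≤ M' * μ - μ * i / N₁
          linarith)) ?_
      intro J _ F A h2 _ _
      exact h2
    · exact Bas.mono 0 (Pool.S6C.Bas.all 0 (Φ := fun _ _ _ _ => True) (by omega))
        fun J _ F A _ a b => absurd ⟨a, b⟩ hx
  refine Pool.OWN83.bas_ev (Bas.all (CM + 1) (Φ := fun M' J F A => ∀ i < N₁ + 1, ∀ j < N₁ + 1, 1 ≤ M' →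
    i ≤ j → RwL I κ w p (M' * μ - μ * i / N₁) (M' * μ - μ * j / N₁) r U h δ e K J F A)
    fun M' hM' => Bas.all (N₁ + 1) (Φ := fun i J F A => ∀ j < N₁ + 1, 1 ≤ M' →
      i ≤ j → RwL I κ w p (M' * μ - μ * i / N₁) (M' * μ - μ * j / N₁) r U h δ e K J F A)
      fun i hi => Bas.all (N₁ + 1) (Φ := fun j J F A => 1 ≤ M' →
        i ≤ j → RwL I κ w p (M' * μ - μ * i / N₁) (M' * μ - μ * j / N₁) r U h δ e K J F A)
        fun j hj => key M' hM' i hi j hj) hc₀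

/-- `NfH` for all the blocks, from the rows of the point, the fullness of the base and the labels of
the ball. -/
theorem nfh_all {S : PCl m} {C₀ : ℝ} (htm : TmC S C₀) {I : Finset (Fin m)} {κ : Fin m}
    {w a p Pa r q₁ U u₀ ρ h δ₁ δ : ℝ} (hw0 : 0 ≤ w) (hwa : w ≤ a) (ha1 : a < 1) (hp : 0 ≤ p)
    (hpq : p + q₁ < 1) (hr0 : 0 ≤ r) (hr : r < 1) (hh : h ≤ 1)
    (hatt : Att S I κ a Pa r) (hau : a ≤ u₀) (huU : u₀ < U) (hU : U < 1)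
    (hful : ∀ u : ℝ, u₀ < u → u < 1 → Ful S I a u) (hρ : 0 < ρ) (hN : p + q₁ + ρ ≤ Pa)
    (hN' : q₁ + ρ ≤ U - u₀) (hpP : p ≤ Pa) (hδ : δ₁ < δ)
    (hraw : ∀ q : ℝ, 0 ≤ q → q ≤ q₁ → RawN S I κ p q h δ₁) :
    ∀ q : ℝ, 0 ≤ q → q ≤ q₁ → NfH S I κ w p q r h δ (bI I U) := by
  intro q hq0 hq
  have hmin : min Pa p = p := min_eq_right hpP
  have h1 := hh0_of htm (κ := κ) (N := p + q) hwa (hw0.trans hwa) ha1 hr0 hatt hau huU hU.le hful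
    hρ (by linarith) (by rw [hmin]; linarith) (h := (δ - δ₁) / 2) (by linarith)
  exact nfh_of htm hw0 hwa ha1.le hp hq0 (by linarith) hr0 hr hU.le hh (hraw q hq0 hq)
    (hful U huU hU) (by positivity) h1 (by linarith)

/-- **The rows in the units of `tube_fam`**, for one family. -/
theorem rows_fam {J : ℕ} {F : Fam m J} {B : F.Ω → Prop} (hB : 0 < Pe F.p B)
    {I : Finset (Fin m)} {κ : Fin m} {w p r U h δ₀ e μ σ δ : ℝ} {K sd M' i j N₁ : ℕ}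
    (hμ : 0 ≤ μ) (hN₁ : 0 < N₁) (hσ : 0 ≤ σ) {V : Type} {z : PtT F → V} {z' : LnT F → V}
    {G : V → MvPolynomial (Option (Fin m)) ℝ}
    (hlb : LbOK F I κ K ⌊e * J⌋₊ J ⌊w * J⌋₊ ⌊(r + e) * J⌋₊ ⌊(p - e) * J⌋₊ B z z' G)
    (hrw : RwL I κ w p (M' * μ - μ * i / N₁) (M' * μ - μ * j / N₁) r U h δ₀ e K J F B)
    (hs1 : (sd : ℝ) ≤ p * J) (hs2 : p * J - σ * J - 1 ≤ sd) {n : LnT F → Polynomial ℝ}
    (hn : ∀ ω, B ω → (n (slam F ⌊w * J⌋₊ ω)).eval (uu (2 ^ (J - ⌊w * J⌋₊)) (Tm F ⌊w * J⌋₊) ω) =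
      2 ^ sd * ojet F κ 0 (G (z' (slam F ⌊w * J⌋₊ ω))) ω)
    {β : Type} {b : F.Ω → β} {t : ℝ}
    (hb : CH (Pool.Agent.H49.Ent.cond F.p B True)
      (fun ω => (z' (slam F ⌊w * J⌋₊ ω), bI I U J F ω)) (fun ω => (b ω, F.W ω)) ≤ t)
    (hnum : δ₀ * J + 2 * ((σ * J + 1 + M') * Real.log 2 + Real.log 7) + t ≤ δ * μ * J) :
    CH (Pool.Agent.H49.Ent.cond F.p B True)
      (fun ω => ⌊2 ^ (M' * ⌊μ * J⌋₊) * (n (slam F ⌊w * J⌋₊ ω)).eval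
        (uu (2 ^ (J - ⌊w * J⌋₊)) (Tm F ⌊w * J⌋₊) ω) / 2 ^ ((μ * i / N₁) * J)⌋)
      (fun ω => (⌊2 ^ (M' * ⌊μ * J⌋₊) * (n (slam F ⌊w * J⌋₊ ω)).eval
        (uu (2 ^ (J - ⌊w * J⌋₊)) (Tm F ⌊w * J⌋₊) ω) / 2 ^ ((μ * j / N₁) * J)⌋,
        (b ω, F.W ω))) ≤
      ((1 - h) * (μ * j / N₁ - μ * i / N₁) * Real.log 2 + δ * μ) * J := by
  have hcl := isLaw_cond F.isLaw hB
  have h0 := hcl.nonneg
  have hpos : ∀ ω, 0 < Pool.Agent.H49.Ent.cond F.p B True ω → B ω := fun ω hω =>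
    of_eq_true ((cond_pos_iff F.isLaw.nonneg B True ω).1 hω).2
  have hJ0 : (0 : ℝ) ≤ J := Nat.cast_nonneg J
  have hN : (0 : ℝ) < N₁ := by exact_mod_cast hN₁
  have hM0 : (0 : ℝ) ≤ M' := Nat.cast_nonneg M'
  obtain ⟨Q, hQ⟩ : ∃ Q, Q = ⌊μ * J⌋₊ := ⟨_, rfl⟩
  have hQ1 : (Q : ℝ) ≤ μ * J := by rw [hQ]; exact Nat.floor_le (mul_nonneg hμ hJ0)
  have hQ2 : μ * J - 1 ≤ Q := by rw [hQ]; linarith [Nat.lt_floor_add_one (μ * J)]
  rw [← hQ]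
  obtain ⟨H, hH⟩ : ∃ H : F.Ω → ℝ, H = fun ω => ojet F κ 0 (G (z' (slam F ⌊w * J⌋₊ ω))) ω :=
    ⟨_, rfl⟩
  obtain ⟨x, hx⟩ : ∃ x : ℕ → ℝ, x = fun k : ℕ => μ * (k : ℝ) / N₁ * J := ⟨_, rfl⟩
  -- the scales
  have hsc : ∀ k : ℕ, ∀ ω, 0 < Pool.Agent.H49.Ent.cond F.p B True ω →
      2 ^ (M' * Q) * (n (slam F ⌊w * J⌋₊ ω)).eval
        (uu (2 ^ (J - ⌊w * J⌋₊)) (Tm F ⌊w * J⌋₊) ω) / 2 ^ ((μ * k / N₁) * J) =
      (2 : ℝ) ^ ((M' * Q + sd : ℕ) - x k) * H ω := by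
    intro k ω hω
    rw [hn ω (hpos ω hω), hH, hx, Real.rpow_sub (by norm_num), Real.rpow_natCast, pow_add]
    ring
  obtain ⟨N, hNe⟩ : ∃ N : ℕ, N = ⌈(2 : ℝ) ^ (σ * J + 1 + M')⌉₊ := ⟨_, rfl⟩
  have hexp0 : 0 ≤ σ * J + 1 + M' := by positivity
  have hNlo : (2 : ℝ) ^ (σ * J + 1 + M') ≤ N := by rw [hNe]; exact Nat.le_ceil _
  have hN1 : (1 : ℝ) ≤ N := (Real.one_le_rpow (by norm_num) hexp0).trans hNlo
  have hNhi : 2 * ((N + 1 : ℕ) : ℝ) + 1 ≤ 7 * 2 ^ (σ * J + 1 + M') := by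
    have h1 := Nat.ceil_lt_add_one (Real.rpow_nonneg (by norm_num : (0 : ℝ) ≤ 2)
      (σ * J + 1 + M'))
    have h2 : (1 : ℝ) ≤ 2 ^ (σ * J + 1 + M') := Real.one_le_rpow (by norm_num) hexp0
    rw [← hNe] at h1
    push_cast
    linarith
  have hlog : Real.log (2 * ((N + 1 : ℕ) : ℝ) + 1) ≤
      (σ * J + 1 + M') * Real.log 2 + Real.log 7 := by
    refine (Real.log_le_log (by positivity) hNhi).trans (le_of_eq ?_)
    rw [Real.log_mul (by norm_num) (by positivity), Real.log_rpow (by norm_num)]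
    ring
  have hr1 : CH (Pool.Agent.H49.Ent.cond F.p B True)
      (fun ω => ⌊2 ^ (M' * Q) * (n (slam F ⌊w * J⌋₊ ω)).eval
        (uu (2 ^ (J - ⌊w * J⌋₊)) (Tm F ⌊w * J⌋₊) ω) / 2 ^ ((μ * i / N₁) * J)⌋)
      (fun ω => (⌊2 ^ (M' * Q) * (n (slam F ⌊w * J⌋₊ ω)).eval
        (uu (2 ^ (J - ⌊w * J⌋₊)) (Tm F ⌊w * J⌋₊) ω) / 2 ^ ((μ * j / N₁) * J)⌋,
        (b ω, F.W ω))) ≤
      CH (Pool.Agent.H49.Ent.cond F.p B True)
        (fun ω => ⌊(2 : ℝ) ^ ((M' * Q + sd : ℕ) - x i) * H ω⌋)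
        (fun ω => (⌊(2 : ℝ) ^ ((M' * Q + sd : ℕ) - x j) * H ω⌋, (b ω, F.W ω))) := by
    refine (CH_mono_left h0 fun ω ω' hω hω' e => ?_).trans
      (CH_mono_cond h0 fun ω ω' hω hω' e => ?_)
    · obtain ⟨e1, e2⟩ := Prod.ext_iff.1 e
      show ⌊_⌋ = ⌊_⌋
      rw [hsc i ω hω, hsc i ω' hω']
      exact e1
    · obtain ⟨e1, e2⟩ := Prod.ext_iff.1 e
      refine Prod.ext ?_ e2
      show ⌊_⌋ = ⌊_⌋
      have e3 : ⌊2 ^ (M' * Q) * (n (slam F ⌊w * J⌋₊ ω)).eval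
          (uu (2 ^ (J - ⌊w * J⌋₊)) (Tm F ⌊w * J⌋₊) ω) / 2 ^ ((μ * j / N₁) * J)⌋ =
          ⌊2 ^ (M' * Q) * (n (slam F ⌊w * J⌋₊ ω')).eval
          (uu (2 ^ (J - ⌊w * J⌋₊)) (Tm F ⌊w * J⌋₊) ω') / 2 ^ ((μ * j / N₁) * J)⌋ := e1
      rw [hsc j ω hω, hsc j ω' hω'] at e3
      exact e3
  have hMQ1 : ((M' * Q : ℕ) : ℝ) ≤ M' * μ * J := by
    push_cast
    calc (M' : ℝ) * Q ≤ M' * (μ * J) := mul_le_mul_of_nonneg_left hQ1 hM0
      _ = M' * μ * J := by ring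
  have hMQ2 : M' * μ * J - M' ≤ ((M' * Q : ℕ) : ℝ) := by
    push_cast
    calc (M' : ℝ) * μ * J - M' = M' * (μ * J - 1) := by ring
      _ ≤ M' * Q := mul_le_mul_of_nonneg_left hQ2 hM0
  have hup : ∀ k : ℕ, (((M' * Q + sd : ℕ) : ℝ) - x k) ≤ (p + (M' * μ - μ * k / N₁)) * J := by
    intro k
    rw [hx]
    rw [Nat.cast_add]
    have : (p + (M' * μ - μ * k / N₁)) * J = M' * μ * J + p * J - μ * k / N₁ * J := by ring
    rw [this]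
    show ((M' * Q : ℕ) : ℝ) + sd - μ * k / N₁ * J ≤ _
    linarith
  have hlo : ∀ k : ℕ, (p + (M' * μ - μ * k / N₁)) * J ≤
      (((M' * Q + sd : ℕ) : ℝ) - x k) + (σ * J + 1 + M') := by
    intro k
    rw [hx]
    rw [Nat.cast_add]
    have : (p + (M' * μ - μ * k / N₁)) * J = M' * μ * J + p * J - μ * k / N₁ * J := by ring
    rw [this]
    show _ ≤ ((M' * Q : ℕ) : ℝ) + sd - μ * k / N₁ * J + _
    linarith
  have hs : (2 : ℝ) ^ ((M' * Q + sd : ℕ) - x i) ≤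
      2 ^ ((p + (M' * μ - μ * i / N₁)) * J) * N := by
    calc (2 : ℝ) ^ ((M' * Q + sd : ℕ) - x i) ≤ 2 ^ ((p + (M' * μ - μ * i / N₁)) * J) * 1 := by
          rw [mul_one]
          exact Real.rpow_le_rpow_of_exponent_le (by norm_num) (hup i)
      _ ≤ 2 ^ ((p + (M' * μ - μ * i / N₁)) * J) * N :=
          mul_le_mul_of_nonneg_left hN1 (Real.rpow_nonneg (by norm_num) _)
  have ht : (2 : ℝ) ^ ((p + (M' * μ - μ * j / N₁)) * J) ≤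
      2 ^ ((M' * Q + sd : ℕ) - x j) * N := by
    calc (2 : ℝ) ^ ((p + (M' * μ - μ * j / N₁)) * J) ≤
          2 ^ ((((M' * Q + sd : ℕ) : ℝ) - x j) + (σ * J + 1 + M')) :=
          Real.rpow_le_rpow_of_exponent_le (by norm_num) (hlo j)
      _ = 2 ^ ((M' * Q + sd : ℕ) - x j) * 2 ^ (σ * J + 1 + M') :=
          Real.rpow_add (by norm_num) _ _
      _ ≤ 2 ^ ((M' * Q + sd : ℕ) - x j) * N :=
          mul_le_mul_of_nonneg_left hNlo (Real.rpow_nonneg (by norm_num) _)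
  have hr2 := CH_rsc hcl H (Real.rpow_nonneg (by norm_num) _) (Real.rpow_nonneg (by norm_num) _)
    hs ht (fun ω => (b ω, F.W ω))
  -- the label and the point
  obtain ⟨X, hX⟩ : ∃ X : F.Ω → ℤ, X = fun ω => ⌊(2 : ℝ) ^ ((p + (M' * μ - μ * i / N₁)) * J) *
    H ω⌋ := ⟨_, rfl⟩
  obtain ⟨Y, hY⟩ : ∃ Y : F.Ω → ℤ, Y = fun ω => ⌊(2 : ℝ) ^ ((p + (M' * μ - μ * j / N₁)) * J) *
    H ω⌋ := ⟨_, rfl⟩
  obtain ⟨L, hL⟩ : ∃ L, L = fun ω => (z' (slam F ⌊w * J⌋₊ ω), bI I U J F ω) := ⟨_, rfl⟩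
  have c1 : CH (Pool.Agent.H49.Ent.cond F.p B True) X (fun ω => (Y ω, (b ω, F.W ω))) ≤
      CH (Pool.Agent.H49.Ent.cond F.p B True) L (fun ω => (Y ω, (b ω, F.W ω))) +
      CH (Pool.Agent.H49.Ent.cond F.p B True) X (fun ω => (L ω, (Y ω, (b ω, F.W ω)))) :=
    CH_le_add h0 X L (fun ω => (Y ω, (b ω, F.W ω)))
  have c2 : CH (Pool.Agent.H49.Ent.cond F.p B True) L (fun ω => (Y ω, (b ω, F.W ω))) ≤
      CH (Pool.Agent.H49.Ent.cond F.p B True) L (fun ω => (b ω, F.W ω)) :=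
    CH_mono_cond h0 fun ω ω' _ _ h => by
      simp only [Prod.mk.injEq] at h ⊢
      exact ⟨h.2.1, h.2.2⟩
  have c3 : CH (Pool.Agent.H49.Ent.cond F.p B True) X (fun ω => (L ω, (Y ω, (b ω, F.W ω)))) ≤
      CH (Pool.Agent.H49.Ent.cond F.p B True) X
        (fun ω => (Y ω, (z' (slam F ⌊w * J⌋₊ ω), (bI I U J F ω, F.W ω)))) :=
    CH_mono_cond h0 fun ω ω' _ _ h => by
      rw [hL] at h
      simp only [Prod.mk.injEq] at h ⊢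
      exact ⟨h.2.1, h.1.1, h.1.2, h.2.2.2⟩
  have c4 : CH (Pool.Agent.H49.Ent.cond F.p B True) X
        (fun ω => (Y ω, (z' (slam F ⌊w * J⌋₊ ω), (bI I U J F ω, F.W ω)))) ≤
      ((1 - h) * ((M' * μ - μ * i / N₁) - (M' * μ - μ * j / N₁)) * Real.log 2 + δ₀) * J := by
    rw [hX, hY, hH]
    exact hrw V z z' G hlb
  have c5 : CH (Pool.Agent.H49.Ent.cond F.p B True) L (fun ω => (b ω, F.W ω)) ≤ t := by
    rw [hL]
    exact hb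
  have c6 : CH (Pool.Agent.H49.Ent.cond F.p B True)
        (fun ω => ⌊(2 : ℝ) ^ ((M' * Q + sd : ℕ) - x i) * H ω⌋)
        (fun ω => (⌊(2 : ℝ) ^ ((M' * Q + sd : ℕ) - x j) * H ω⌋, (b ω, F.W ω))) ≤
      CH (Pool.Agent.H49.Ent.cond F.p B True) X (fun ω => (Y ω, (b ω, F.W ω))) +
        2 * Real.log (2 * ((N + 1 : ℕ) : ℝ) + 1) := by
    rw [hX, hY]
    exact hr2
  have e1 : ((1 - h) * ((M' * μ - μ * i / N₁) - (M' * μ - μ * j / N₁)) * Real.log 2 + δ₀) * J =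
      (1 - h) * (μ * j / N₁ - μ * i / N₁) * Real.log 2 * J + δ₀ * J := by ring
  have e2 : ((1 - h) * (μ * j / N₁ - μ * i / N₁) * Real.log 2 + δ * μ) * J =
      (1 - h) * (μ * j / N₁ - μ * i / N₁) * Real.log 2 * J + δ * μ * J := by ring
  rw [e1] at c4
  rw [e2]
  linarith

end Pool.V1E
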