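import Pool.Agent.H73.D2.Tlo
import Pool.Agent.H73.D2.Tli
import Pool.Agent.H91.D2.Tlc3
import Pool.Agent.H92.D2.Rws

/-!
# The exchange for the rows over charts with different natural digits

`CH_shf`: a row over a shifted quantity. `row_exch`: the exchange. `pos_cnt`: the exact point over
the heights.
-/

set_option autoImplicit false

namespace Pool.V1E

open Finset Real MvPolynomial
open Pool.Agent.H49.Ent Pool.Agent.H32.Dense Pool.STK Pool.KA Pool.KSAT Pool.K2S Pool.PB Pool.GEN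
open Pool.OWN68 Pool.LA91

/-- **A row over a shifted quantity.** -/
theorem CH_shf {Ω T : Type} [Fintype Ω] {p : Ω → ℝ} (hp : IsLaw p) (X Y : Ω → ℝ) {s t : ℝ}
    (ht : 0 ≤ t) (hts : t ≤ s) (Z : Ω → T)
    (hZ : ∀ ω ω', 0 < p ω → 0 < p ω' → Z ω = Z ω' → s * |(Y ω - X ω) - (Y ω' - X ω')| ≤ 1) :
    CH p (fun ω => ⌊s * Y ω⌋) (fun ω => (⌊t * Y ω⌋, Z ω)) ≤
      CH p (fun ω => ⌊s * X ω⌋) (fun ω => (⌊t * X ω⌋, Z ω)) + 2 * Real.log 7 := by
  have h0 := hp.nonneg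
  have hs : 0 ≤ s := ht.trans hts
  have c1 := CH_le_add h0 (fun ω => ⌊s * Y ω⌋) (fun ω => ⌊s * X ω⌋) (fun ω => (⌊t * Y ω⌋, Z ω))
  have c2 := CH_le_add h0 (fun ω => ⌊s * X ω⌋) (fun ω => ⌊t * X ω⌋) (fun ω => (⌊t * Y ω⌋, Z ω))
  have c3 : CH p (fun ω => ⌊s * X ω⌋) (fun ω => (⌊t * X ω⌋, (⌊t * Y ω⌋, Z ω))) ≤
      CH p (fun ω => ⌊s * X ω⌋) (fun ω => (⌊t * X ω⌋, Z ω)) :=
    CH_mono_cond h0 fun ω ω' _ _ h => by
      simp only [Prod.mk.injEq] at h ⊢
      exact ⟨h.1, h.2.2⟩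
  have e7 : Real.log (2 * ((3 : ℕ) : ℝ) + 1) = Real.log 7 := by norm_num
  have key : ∀ r : ℝ, 0 ≤ r → r ≤ s → ∀ a b a' b' : ℝ, s * |(b - a) - (b' - a')| ≤ 1 →
      |r * b - r * b'| ≤ |r * a - r * a'| + 1 := by
    intro r hr hrs a b a' b' h
    have h1 : r * b - r * b' = (r * a - r * a') + r * ((b - a) - (b' - a')) := by ring
    rw [h1]
    refine (abs_add_le _ _).trans (add_le_add le_rfl ?_)
    rw [abs_mul, abs_of_nonneg hr]
    exact (mul_le_mul_of_nonneg_right hrs (abs_nonneg _)).trans h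
  have c4 : CH p (fun ω => ⌊s * Y ω⌋) (fun ω => (⌊s * X ω⌋, (⌊t * Y ω⌋, Z ω))) ≤ Real.log 7 := by
    rw [← e7]
    refine CH_pair hp _ _ fun ω ω' hω hω' e => floor_sub_le ?_
    simp only [Prod.mk.injEq] at e
    have h1 := (Int.abs_sub_lt_one_of_floor_eq_floor e.1).le
    have h2 := key s hs le_rfl (X ω) (Y ω) (X ω') (Y ω') (hZ ω ω' hω hω' e.2.2)
    push_cast
    linarith
  have c5 : CH p (fun ω => ⌊t * X ω⌋) (fun ω => (⌊t * Y ω⌋, Z ω)) ≤ Real.log 7 := by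
    rw [← e7]
    refine CH_pair hp _ _ fun ω ω' hω hω' e => floor_sub_le ?_
    simp only [Prod.mk.injEq] at e
    have h1 := (Int.abs_sub_lt_one_of_floor_eq_floor e.1).le
    have h2 := key t ht hts (Y ω) (X ω) (Y ω') (X ω') (by
      have h3 := hZ ω ω' hω hω' e.2
      have h4 : (X ω - Y ω) - (X ω' - Y ω') = -((Y ω - X ω) - (Y ω' - X ω')) := by ring
      rw [h4, abs_neg]
      exact h3)
    push_cast
    linarith
  linarith

/-- A coarser floor. -/
theorem CH_crs {Ω : Type} [Fintype Ω] {p : Ω → ℝ} (hp : IsLaw p) (X : Ω → ℝ) {s t : ℝ}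
    (ht : 0 ≤ t) (hts : t ≤ s) :
    CH p (fun ω => ⌊t * X ω⌋) (fun ω => ⌊s * X ω⌋) ≤ Real.log 5 := by
  have e5 : Real.log (2 * ((2 : ℕ) : ℝ) + 1) = Real.log 5 := by norm_num
  rw [← e5]
  refine CH_pair hp _ _ fun ω ω' hω hω' e => floor_sub_le ?_
  have h1 := (Int.abs_sub_lt_one_of_floor_eq_floor e).le
  have hs : 0 ≤ s := ht.trans hts
  rw [← mul_sub, abs_mul, abs_of_nonneg hs] at h1
  rw [← mul_sub, abs_mul, abs_of_nonneg ht]
  push_cast
  exact (mul_le_mul_of_nonneg_right hts (abs_nonneg _)).trans h1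

/-- **The exchange**: `P` the exact point, `b` = the heights, `k` = the codes, `z` = the closed
record of the ball, `w` = the time. -/
theorem row_exch {Ω α β γ κ ζ τ : Type} [Fintype Ω] {p : Ω → ℝ} (hp : ∀ ω, 0 ≤ p ω) (H : Ω → α)
    (R : Ω → β) (P : Ω → γ) (k : Ω → κ) (b : Ω → τ) (z : Ω → ζ) {ω' : Type} (w : Ω → ω')
    (hk : ∀ a a', 0 < p a → 0 < p a' → z a = z a' → k a = k a') {E U L D₁ D₂ D₃ : ℝ}
    (hE : CH p H (fun a => (R a, (P a, (k a, (b a, w a))))) ≤ E)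
    (hU : CH p P (fun a => (k a, (b a, w a))) ≤ U)
    (hL : L ≤ CH p P (fun a => (z a, w a)))
    (hD₁ : CH p b (fun a => (z a, w a)) ≤ D₁)
    (hD₂ : CH p H (fun a => (b a, (z a, w a))) ≤ D₂)
    (hD₃ : CH p R H ≤ D₃) :
    CH p H (fun a => (R a, (k a, (b a, w a)))) ≤ E + U - L + (D₁ + D₂ + D₃) := by
  have h1 := CH_exch hp H P (fun a => (R a, (k a, (b a, w a))))
  have h2 : CH p P (fun a => (R a, (k a, (b a, w a)))) ≤ CH p P (fun a => (k a, (b a, w a))) :=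
    CH_mono_cond hp fun a a' _ _ h => (Prod.ext_iff.1 h).2
  have h3 : CH p H (fun a => (P a, (R a, (k a, (b a, w a))))) ≤
      CH p H (fun a => (R a, (P a, (k a, (b a, w a))))) :=
    CH_mono_cond hp fun a a' _ _ h => by
      simp only [Prod.mk.injEq] at h ⊢
      exact ⟨h.2.1, h.1, h.2.2⟩
  -- the exact point given everything
  have h4 : CH p P (fun a => (((H a, R a), b a), (z a, w a))) ≤
      CH p P (fun a => (H a, (R a, (k a, (b a, w a))))) :=
    CH_mono_cond hp fun a a' ha ha' h => by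
      simp only [Prod.mk.injEq] at h ⊢
      obtain ⟨⟨⟨g1, g2⟩, g3⟩, g4, g5⟩ := h
      exact ⟨g1, g2, hk a a' ha ha' g4, g3, g5⟩
  have h5 := CH_le_add hp P (fun a => ((H a, R a), b a)) (fun a => (z a, w a))
  have h6 := CH_chain hp (fun a => (H a, R a)) b (fun a => (z a, w a))
  have h7 : CH p (fun a => (H a, R a)) (fun a => (b a, (z a, w a))) ≤
      CH p H (fun a => (b a, (z a, w a))) + CH p R H := by
    have g1 := CH_chain hp R H (fun a => (b a, (z a, w a)))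
    have g2 : CH p (fun a => (H a, R a)) (fun a => (b a, (z a, w a))) ≤
        CH p (fun a => (R a, H a)) (fun a => (b a, (z a, w a))) :=
      CH_mono_left hp fun a a' _ _ h => by
        simp only [Prod.mk.injEq] at h ⊢
        exact ⟨h.1.2, h.1.1⟩
    have g3 : CH p R (fun a => (H a, (b a, (z a, w a)))) ≤ CH p R H :=
      CH_mono_cond hp fun a a' _ _ h => (Prod.ext_iff.1 h).1
    linarith
  linarith

section

variable {m J : ℕ}

/-- **The exact point over the heights** is few bits behind the digits of the heights. -/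
theorem pos_cnt (D d : ℕ) : ∃ C : ℕ, 1 ≤ C ∧ ∀ {m J : ℕ} {F : Fam m J} {c : ℕ → Fin m}
    {a w e M : ℕ} {g N : ℕ → ℕ} {A : F.Ω → Prop}
    {G : PtT F → ℕ → MvPolynomial (Option (Fin m)) ℝ}
    {H : LnT F → ℕ → MvPolynomial (Option (Fin m)) ℝ} {q : F.Ω → ℝ} {β : Type} {Y : F.Ω → β},
    IsLaw q → (∀ ω, 0 < q ω → A ω) → Set.InjOn c (Set.Iio d) →
    ChOK F c d (fun _ => D) a w e g A G H → (∀ l < d, g l ≤ M) → e + M + C ≤ J →
    (∀ i < d, C + e + M + N i ≤ J + g i) → (∀ i < d, N i ≤ J) →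
    (∀ ω ω', 0 < q ω → 0 < q ω' → Y ω = Y ω' → F.T ω = F.T ω') →
    (∀ ω ω', 0 < q ω → 0 < q ω' → Y ω = Y ω' → ∀ i < d,
      |(F.x ω (c i) - eval (bt F ω) (G (ptr F J ω) i)) -
        (F.x ω' (c i) - eval (bt F ω') (G (ptr F J ω) i))| ≤ 1 / 2 ^ N i) →
    CH q (fun ω (l : Fin d) => F.X J ω (c l)) Y ≤
      ∑ i ∈ range d, (((J : ℝ) - N i) * Real.log 2 + Real.log 9) := by
  classical
  obtain ⟨C, hC, hlip⟩ := lip_two D d
  refine ⟨C, hC, ?_⟩
  intro m J F c a w e M g N A G H q β Y hq hqA hc hch hM hJ hN hNJ hT hY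
  have h0 := hq.nonneg
  rw [CH_finch h0 (fun i ω => F.X J ω (c i)) Y d]
  refine Finset.sum_le_sum fun i hi => ?_
  have hid := Finset.mem_range.1 hi
  have hNp : (0 : ℝ) < 2 ^ N i := by positivity
  have hx1 : (1 : ℝ) ≤ 2 ^ (J - N i) := one_le_pow₀ (by norm_num)
  have hJN : (2 : ℝ) ^ J = 2 ^ (J - N i) * 2 ^ N i := by
    rw [← pow_add, Nat.sub_add_cancel (hNJ i hid)]
  have k1 := CH_le_int h0 hq.sum_one (fun ω => F.X J ω (c i))
    (fun ω => ((fun l : Fin i => F.X J ω (c l)), Y ω))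
    (fun _ => 2 * 2 ^ (J - N i) + 1) (by
      intro ω ω' hω hω' hh
      simp only [Prod.mk.injEq] at hh
      obtain ⟨g1, g2⟩ := hh
      have g7 := hlip hc hch hM hJ ω ω' (hqA ω hω) (hT ω ω' hω hω' g2) i hid
        (fun l hl => congrFun g1 ⟨l, hl⟩)
      have g8 : (2 : ℝ) ^ (C + e + M) / 2 ^ J / 2 ^ g i ≤ 1 / 2 ^ N i := by
        rw [div_div, div_le_div_iff₀ (by positivity) (by positivity), one_mul, ← pow_add,
          ← pow_add]
        exact pow_le_pow_right₀ (by norm_num) (hN i hid)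
      have g9 : |F.x ω (c i) - F.x ω' (c i)| ≤ 2 / 2 ^ N i := by
        have e1 : F.x ω (c i) - F.x ω' (c i) = (F.x ω (c i) -
            eval (bt F ω) (G (ptr F J ω) i) - (F.x ω' (c i) -
            eval (bt F ω') (G (ptr F J ω) i))) + (eval (bt F ω) (G (ptr F J ω) i) -
            eval (bt F ω') (G (ptr F J ω) i)) := by ring
        rw [e1]
        refine (abs_add_le _ _).trans ?_
        have e3 : (2 : ℝ) / 2 ^ N i = 1 / 2 ^ N i + 1 / 2 ^ N i := by ring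
        rw [e3]
        exact add_le_add (hY ω ω' hω hω' g2 i hid) (g7.trans g8)
      have e4 : |(2 : ℝ) ^ J * F.x ω (c i) - 2 ^ J * F.x ω' (c i)| ≤ 2 * 2 ^ (J - N i) := by
        rw [← mul_sub, abs_mul, abs_of_pos (by positivity : (0 : ℝ) < 2 ^ J)]
        refine (mul_le_mul_of_nonneg_left g9 (by positivity)).trans (le_of_eq ?_)
        rw [hJN]
        field_simp
      have f1 := Int.floor_le ((2 : ℝ) ^ J * F.x ω (c i))
      have f2 := Int.lt_floor_add_one ((2 : ℝ) ^ J * F.x ω (c i))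
      have f3 := Int.floor_le ((2 : ℝ) ^ J * F.x ω' (c i))
      have f4 := Int.lt_floor_add_one ((2 : ℝ) ^ J * F.x ω' (c i))
      show |((⌊(2 : ℝ) ^ J * F.x ω (c i)⌋ - ⌊(2 : ℝ) ^ J * F.x ω' (c i)⌋ : ℤ) : ℝ)| ≤ _
      push_cast
      rw [abs_le] at e4 ⊢
      constructor <;> linarith [e4.1, e4.2])
  refine k1.trans ?_
  rw [Ex_const hq.sum_one]
  have k2 : Real.log (2 * (2 * 2 ^ (J - N i) + 1) + 1) ≤ Real.log (2 ^ (J - N i) * 9) :=
    Real.log_le_log (by positivity) (by linarith)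
  refine k2.trans (le_of_eq ?_)
  rw [Real.log_mul (by positivity) (by norm_num), Real.log_pow, Nat.cast_sub (hNJ i hid)]

end

end Pool.V1E
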