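import Pool.Agent.H92.D2.Rwa
import Pool.Agent.H73.D2.Tlj

/-!
# The heights of the base in the four windows

`W_hgt`: the heights over the old frame vary little in the ball. `W_hgb`: the heights from the code
of the tube, the time and the position in the tube. `W_yn`: the height of the target from the record
of the ball and the heights.
-/

set_option autoImplicit false

namespace Pool.V1E

open Finset Real MvPolynomial
open Pool.KA Pool.KSAT Pool.PB Pool.GEN Pool.D2R Pool.D2G30 Pool.ISO Pool.CHT Pool.CHX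
open Pool.PB.Trl (rt rt_mem t_rt)
open Pool.Agent.H49.Ent Pool.Agent.H32.Dense Pool.STK Pool.K2S Pool.LA91

/-- A polynomial at two near points. -/
theorem poly_lip {K d : ℕ} (hK : 1 ≤ K) (R : MvPolynomial (Fin d) ℝ) (hR : R.totalDegree ≤ K)
    {Y δ : ℝ} (hY : ∀ β : Gr K d, |eval (nd K β) R| ≤ Y) {x y : Fin d → ℝ}
    (h0 : ∀ i, -1 ≤ x i) (h1 : ∀ i, x i ≤ 2) (k0 : ∀ i, -1 ≤ y i) (k1 : ∀ i, y i ≤ 2)
    (hδ : 0 ≤ δ) (h : ∀ i, |x i - y i| ≤ δ) :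
    |eval x R - eval y R| ≤ (K + 1) ^ d * (d * K ^ 2 * lgC K ^ (d + 1)) * (δ * Y) := by
  have e : ∀ z : Fin d → ℝ, eval z R = itp (fun β : Gr K d => eval (nd K β) R) z := fun z =>
    ell_interp hK R hR z
  rw [e x, e y]
  exact itp_pt hY h0 h1 k0 k1 hδ h

section

variable {m J : ℕ} {F : Fam m J} {c : ℕ → Fin m} {r D n M ar MB q₀ Q x u p e : ℕ}
  {s : ℕ → ℕ} {qe : Fin r → ℕ} {o : ℕ → ℕ} {z g gc gT g₀ : ℕ → ℕ → ℕ} {B : F.Ω → Prop}
  {G T : ℕ → PtT F → ℕ → MvPolynomial (Option (Fin m)) ℝ}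
  {H TH : ℕ → LnT F → ℕ → MvPolynomial (Option (Fin m)) ℝ}
  {Ht : LnT F → MvPolynomial (Option (Fin m)) ℝ}

/-- The height of the sample. -/
noncomputable def hg (F : Fam m J) (c : ℕ → Fin m)
    (G : PtT F → ℕ → MvPolynomial (Option (Fin m)) ℝ) (i : ℕ) (ω : F.Ω) : ℝ :=
  F.x ω (c i) - eval (bt F ω) (G (ptr F J ω) i)

theorem yp_hg (c : ℕ → Fin m) (s : ℕ → ℕ) (r : ℕ)
    (G : PtT F → ℕ → MvPolynomial (Option (Fin m)) ℝ) (i : Fin r) (ω : F.Ω) :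
    yp c s r (trn r (G (ptr F J ω))) (bt F ω) (some i) = 2 ^ s i * hg F c G i ω := by
  show 2 ^ s i * (bt F ω (some (c i)) - eval (bt F ω) (trn r (G (ptr F J ω)) i)) = _
  rw [trn_eq i.2]
  rfl

/-- **The heights over the old frame vary little in the ball.** -/
theorem W_hgt (W : Wdat F c r D n M ar MB q₀ Q x u p e s qe o z g gc gT g₀ B G T H TH Ht)
    {ω ω' : F.Ω} (hω : B ω) (hω' : B ω') (hT : F.T ω = F.T ω')
    (h2 : ∀ l < r, G 2 (ptr F J ω) l = G 2 (ptr F J ω') l)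
    (h0 : ∀ l < r, G 0 (ptr F J ω) l = G 0 (ptr F J ω') l) {i : ℕ} (hi : i < r) :
    |hg F c (G 0) i ω - hg F c (G 0) i ω'| ≤ 2 ^ (u + 2 * x + 2) / 2 ^ (s i + Q) := by
  have ht : F.t ω = F.t ω' := by
    unfold Fam.t
    rw [hT]
  obtain ⟨κ, hκ⟩ : ∃ κ : F.Ω → ℝ, ∀ ω b, eval b (Gno (c i) J J (fun y => G 0 y i) (ptr F J ω)) =
      eval b (G 0 (ptr F J ω) i) + κ ω := by
    refine ⟨fun ω => ((ptr F J ω).1 (c i) : ℝ) / 2 ^ J -
      eval (bho J J (ptr F J ω)) (G 0 (ptr F J ω) i), fun ω b => ?_⟩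
    unfold Gno
    rw [map_add, eval_C]
  have hpos : ∀ ω, B ω → |hg F c (G 0) i ω - κ ω| ≤ 1 / 2 ^ (g 0 i + (o 2 - o 0)) := by
    intro ω hω
    have h3 := W.pos0 ω hω i hi
    rw [hκ] at h3
    have e1 : hg F c (G 0) i ω - κ ω = F.x ω (c i) - (eval (bt F ω) (G 0 (ptr F J ω) i) + κ ω) := by
      unfold hg
      ring
    rw [e1]
    exact h3
  have hn := W.n3
  have ho12 := W.o2
  have ho01 := W.o1
  obtain ⟨q, hq, hz⟩ := W.z02
  have hbal : ∀ ω', B ω' → F.t ω = F.t ω' → (∀ l < r, G 2 (ptr F J ω) l = G 2 (ptr F J ω') l) →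
      |eval (bt F ω) (G 0 (ptr F J ω') i) + κ ω' - eval (bt F ω) (G 2 (ptr F J ω') i)| ≤
        2 ^ u / 2 ^ min (g 0 i + (o 2 - o 0)) (g₀ 2 i) := by
    intro ω' hω' ht hG
    have h3 := W.bal.bal 0 (by omega) 2 (by omega) q hq (by omega) hz ω' hω' i hi.le (bt F ω) (by
      refine ⟨?_, fun l hl => ?_⟩
      · show |F.t ω - F.t ω'| ≤ _
        rw [ht, sub_self, abs_zero]
        positivity
      · rw [← hG l (by omega)]
        exact W.ch2.pos ω hω l (by omega))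
    rw [hκ] at h3
    exact h3
  have b1 := hbal ω hω rfl fun _ _ => rfl
  have b2 := hbal ω' hω' ht h2
  rw [← h0 i hi, ← h2 i hi] at b2
  have a1 := hpos ω hω
  have a2 := hpos ω' hω'
  have c1 := W.n2b i hi
  have c2 := W.n2c i hi
  have e1 : (1 : ℝ) / 2 ^ (g 0 i + (o 2 - o 0)) ≤ 2 ^ (2 * x) / 2 ^ (s i + Q) := by
    rw [div_le_div_iff₀ (by positivity) (by positivity), one_mul, ← pow_add]
    exact pow_le_pow_right₀ (by norm_num) (by omega)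
  have e2 : (2 : ℝ) ^ u / 2 ^ min (g 0 i + (o 2 - o 0)) (g₀ 2 i) ≤
      2 ^ u * (2 ^ (2 * x) / 2 ^ (s i + Q)) := by
    rw [div_eq_mul_one_div]
    refine mul_le_mul_of_nonneg_left ?_ (by positivity)
    rw [div_le_div_iff₀ (by positivity) (by positivity), one_mul, ← pow_add]
    exact pow_le_pow_right₀ (by norm_num) (by omega)
  obtain ⟨w, hw⟩ : ∃ w : ℝ, w = 2 ^ (2 * x) / 2 ^ (s i + Q) := ⟨_, rfl⟩
  have hw0 : 0 ≤ w := by rw [hw]; positivity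
  rw [← hw] at e1 e2
  have hU : (1 : ℝ) ≤ 2 ^ u := one_le_pow₀ (by norm_num)
  have e3 : (2 : ℝ) ^ (u + 2 * x + 2) / 2 ^ (s i + Q) = 4 * (2 ^ u * w) := by
    rw [hw, pow_add, pow_add]
    ring
  rw [e3]
  have e4 : w ≤ 2 ^ u * w := le_mul_of_one_le_left hw0 hU
  rw [abs_le] at a1 a2 b1 b2 ⊢
  constructor <;> linarith [a1.1, a1.2, a2.1, a2.2, b1.1, b1.2, b2.1, b2.2]

end

/-- **The heights** from the code of the tube, the time and the position in the tube. -/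
theorem W_hgb (D : ℕ) : ∃ C : ℕ, ∀ {m J : ℕ} {F : Fam m J} {c : ℕ → Fin m}
    {r n M ar MB q₀ Q x u p e : ℕ} {s : ℕ → ℕ} {qe : Fin r → ℕ} {o : ℕ → ℕ}
    {z g gc gT g₀ : ℕ → ℕ → ℕ} {B : F.Ω → Prop}
    {G T : ℕ → PtT F → ℕ → MvPolynomial (Option (Fin m)) ℝ}
    {H TH : ℕ → LnT F → ℕ → MvPolynomial (Option (Fin m)) ℝ}
    {Ht : LnT F → MvPolynomial (Option (Fin m)) ℝ} {V : Type} {vL : LnT F → V} {k : ℕ},
    Wdat F c r D n M ar MB q₀ Q x u p e s qe o z g gc gT g₀ B G T H TH Ht → MB ≤ k →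
    ∀ ω ω', B ω → B ω' → F.T ω = F.T ω' →
    ctF F c s r (o 1) q₀ Q qe (H 0) (fun L => H 1 L r) vL (slam F (o 1) ω) =
      ctF F c s r (o 1) q₀ Q qe (H 0) (fun L => H 1 L r) vL (slam F (o 1) ω') →
    xd k (slam F (o 1)) (fun L => xL c s r (o 1) Q (frH F r q₀ (H 0) L) L) ω =
      xd k (slam F (o 1)) (fun L => xL c s r (o 1) Q (frH F r q₀ (H 0) L) L) ω' →
    ∀ i : Fin r, |hg F c (G 0) i ω - hg F c (G 0) i ω'| ≤
      2 ^ (C * (u + x + 1)) / 2 ^ (s i + Q + MB) := by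
  obtain ⟨C, htu⟩ := W_tube D
  refine ⟨C + 2, ?_⟩
  intro m J F c r n M ar MB q₀ Q x u p e s qe o z g gc gT g₀ B G T H TH Ht V vL k W hk ω ω' hω hω'
    hT hct hxd i
  have h1J : o 1 ≤ J := by have := W.oJ; have := W.o3; have := W.o2; omega
  have hrt : rt F (o 1) ω = rt F (o 1) ω' := by
    unfold rt
    rw [hT]
  have hu := rt_mem F (o 1) ω
  have hv : |rt F (o 1) ω| ≤ 2 := by
    rw [abs_le]
    constructor <;> linarith [hu.1, hu.2]
  have a1 := (htu W ω hω i).1 (rt F (o 1) ω) hv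
  have a2 := (htu W ω' hω' i).1 (rt F (o 1) ω') (by rw [← hrt]; exact hv)
  unfold ctF at hct
  simp only [Prod.mk.injEq] at hct
  obtain ⟨-, -, k6, k7⟩ := hct
  rw [W.fr hω] at a1 k6 k7
  rw [W.fr hω'] at a2 k6 k7
  rw [hL_yp h1J, yp_hg] at a1 a2
  rw [← hrt, ← congrFun k6 i, ← congrFun k7 i] at a2
  -- the positions
  have hx : |xL c s r (o 1) Q (trn r (G 0 (ptr F J ω))) (slam F (o 1) ω) i -
      xL c s r (o 1) Q (trn r (G 0 (ptr F J ω'))) (slam F (o 1) ω') i| ≤ 1 / 2 ^ MB := by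
    have h3 := congrFun hxd i
    unfold xd at h3
    simp only at h3
    rw [W.fr hω, W.fr hω'] at h3
    have p1 : 0 ≤ xL c s r (o 1) Q (trn r (G 0 (ptr F J ω))) (slam F (o 1) ω) i :=
      Int.fract_nonneg _
    have p2 : 0 ≤ xL c s r (o 1) Q (trn r (G 0 (ptr F J ω'))) (slam F (o 1) ω') i :=
      Int.fract_nonneg _
    generalize xL c s r (o 1) Q (trn r (G 0 (ptr F J ω))) (slam F (o 1) ω) i = a at h3 p1 ⊢
    generalize xL c s r (o 1) Q (trn r (G 0 (ptr F J ω'))) (slam F (o 1) ω') i = b at h3 p2 ⊢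
    have q1 := Nat.floor_le (show 0 ≤ (2 : ℝ) ^ k * a by positivity)
    have q2 := Nat.lt_floor_add_one ((2 : ℝ) ^ k * a)
    have q3 := Nat.floor_le (show 0 ≤ (2 : ℝ) ^ k * b by positivity)
    have q4 := Nat.lt_floor_add_one ((2 : ℝ) ^ k * b)
    rw [← h3] at q3 q4
    have hp : (0 : ℝ) < 2 ^ k := by positivity
    have q5 : |(2 : ℝ) ^ k * (a - b)| ≤ 1 := by
      rw [abs_le]
      constructor <;> linarith
    rw [abs_mul, abs_of_pos hp] at q5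
    have q6 : |a - b| ≤ 1 / 2 ^ k := by
      rw [le_div_iff₀ hp]
      linarith
    exact q6.trans (one_div_le_one_div_of_le (by positivity)
      (pow_le_pow_right₀ (by norm_num) hk))
  obtain ⟨w, hw⟩ : ∃ w : ℝ, w = 2 ^ (C * (u + x + 1)) / 2 ^ MB := ⟨_, rfl⟩
  rw [← hw] at a1 a2
  have hw1 : 1 / 2 ^ MB ≤ w := by
    rw [hw]
    exact div_le_div_of_nonneg_right (one_le_pow₀ (by norm_num)) (by positivity)
  have h5 : |2 ^ Q * (2 ^ s i * hg F c (G 0) i ω) - 2 ^ Q * (2 ^ s i * hg F c (G 0) i ω')| ≤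
      3 * w := by
    rw [abs_le] at a1 a2 hx ⊢
    constructor <;> linarith [a1.1, a1.2, a2.1, a2.2, hx.1, hx.2]
  rw [← mul_sub, ← mul_sub, abs_mul, abs_mul, abs_of_pos (by positivity : (0 : ℝ) < 2 ^ Q),
    abs_of_pos (by positivity : (0 : ℝ) < 2 ^ (s i : ℕ))] at h5
  rw [le_div_iff₀ (by positivity)]
  have e5 : |hg F c (G 0) i ω - hg F c (G 0) i ω'| * 2 ^ (s i + Q + MB) =
      2 ^ Q * (2 ^ s i * |hg F c (G 0) i ω - hg F c (G 0) i ω'|) * 2 ^ MB := by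
    rw [pow_add, pow_add]
    ring
  have e6 : w * 2 ^ MB = 2 ^ (C * (u + x + 1)) := by
    rw [hw]
    field_simp
  rw [e5]
  calc _ ≤ 3 * w * 2 ^ MB := mul_le_mul_of_nonneg_right h5 (by positivity)
    _ = 3 * 2 ^ (C * (u + x + 1)) := by rw [mul_assoc, e6]
    _ ≤ 2 ^ 2 * 2 ^ (C * (u + x + 1)) := mul_le_mul_of_nonneg_right (by norm_num) (by positivity)
    _ = 2 ^ (2 + C * (u + x + 1)) := by rw [← pow_add]
    _ ≤ _ := pow_le_pow_right₀ (by norm_num) (by nlinarith)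

/-- **The height of the target** from the record of the ball and the heights. -/
theorem W_yn (D r : ℕ) : ∃ C : ℕ, ∀ {m J : ℕ} {F : Fam m J} {c : ℕ → Fin m}
    {n M ar MB q₀ Q x u p e : ℕ} {s : ℕ → ℕ} {qe : Fin r → ℕ} {o : ℕ → ℕ}
    {z g gc gT g₀ : ℕ → ℕ → ℕ} {B : F.Ω → Prop}
    {G T : ℕ → PtT F → ℕ → MvPolynomial (Option (Fin m)) ℝ}
    {H TH : ℕ → LnT F → ℕ → MvPolynomial (Option (Fin m)) ℝ}
    {Ht : LnT F → MvPolynomial (Option (Fin m)) ℝ},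
    Wdat F c r D n M ar MB q₀ Q x u p e s qe o z g gc gT g₀ B G T H TH Ht →
    ∀ ω ω', B ω → B ω' → F.T ω = F.T ω' → trn r (G 0 (ptr F J ω)) = trn r (G 0 (ptr F J ω')) →
    G 1 (ptr F J ω) r = G 1 (ptr F J ω') r → G 2 (ptr F J ω) r = G 2 (ptr F J ω') r →
    (∀ i : Fin r, ⌊(2 : ℝ) ^ (s i + Q + MB) * hg F c (G 0) i ω⌋ =
      ⌊(2 : ℝ) ^ (s i + Q + MB) * hg F c (G 0) i ω'⌋) →
    |2 ^ s r * hg F c (G 1) r ω - 2 ^ s r * hg F c (G 1) r ω'| ≤
      2 ^ (C * (u + x + 1)) / 2 ^ MB := by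
  obtain ⟨C, hbd⟩ := W_bd D r
  obtain ⟨K, hK⟩ : ∃ K : ℕ, K = D * (D + 1) ^ r + 1 := ⟨_, rfl⟩
  obtain ⟨C₂, hC₂⟩ := pow_unbounded_of_one_lt (((K : ℝ) + 1) ^ r * (r * K ^ 2 * lgC K ^ (r + 1)))
    (one_lt_two (α := ℝ))
  refine ⟨C + C₂ + 3, ?_⟩
  intro m J F c n M ar MB q₀ Q x u p e s qe o z g gc gT g₀ B G T H TH Ht W ω ω' hω hω' hT h0 h1 h2 hN
  have ht : bt F ω none = bt F ω' none := by
    show F.t ω = F.t ω'
    unfold Fam.t
    rw [hT]
  have h1J : o 1 ≤ J := by have := W.oJ; have := W.o3; have := W.o2; omega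
  have hval : ∀ ω, B ω → (nL c s r (o 1) (H 1 (slam F (o 1) ω) r) (slam F (o 1) ω)).eval
      (rt F (o 1) ω) = 2 ^ s r * hg F c (G 1) r ω := by
    intro ω hω
    have e : (fun o' => (lc (o 1) (slam F (o 1) ω) o').eval (rt F (o 1) ω)) = bt F ω :=
      funext fun o' => eval_lc F h1J ω o'
    unfold nL
    rw [Polynomial.eval_mul, Polynomial.eval_C, Polynomial.eval_sub, Pool.D2G30.eval_aev, e,
      eval_lc F h1J ω, ← W.cl1 ω hω]
    rfl
  have a1 := W_val W hω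
  have a2 := W_val W hω'
  rw [hval ω hω] at a1
  rw [hval ω' hω'] at a2
  -- the corners
  have hsq : ∀ (i : Fin r) (ω : F.Ω), (2 : ℝ) ^ Q *
      yp c s r (trn r (G 0 (ptr F J ω))) (bt F ω) (some i) =
      2 ^ (s i + Q) * hg F c (G 0) i ω := by
    intro i ω
    rw [yp_hg, pow_add]
    ring
  have hNs : ∀ (i : Fin r) (ω : F.Ω), (2 : ℝ) ^ (s i + Q + MB) * hg F c (G 0) i ω =
      2 ^ MB * (2 ^ (s i + Q) * hg F c (G 0) i ω) := by
    intro i ω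
    rw [pow_add]
    ring
  have hcr : ∀ i : Fin r, ⌊2 ^ Q * yp c s r (trn r (G 0 (ptr F J ω))) (bt F ω) (some i)⌋ =
      ⌊2 ^ Q * yp c s r (trn r (G 0 (ptr F J ω'))) (bt F ω') (some i)⌋ := by
    intro i
    rw [hsq, hsq]
    have h3 := hN i
    rw [hNs, hNs] at h3
    have h4 : ∀ y : ℝ, ⌊y⌋ = ⌊(2 : ℝ) ^ MB * y⌋ / ((2 ^ MB : ℕ) : ℤ) := by
      intro y
      have h5 : y = 2 ^ MB * y / ((2 ^ MB : ℕ) : ℝ) := by
        push_cast
        field_simp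
      rw [← Int.floor_div_natCast, ← h5]
    rw [h4, h4 (2 ^ (s i + Q) * hg F c (G 0) i ω'), h3]
  have hfr : ∀ i : Fin r, |frc c s r Q (trn r (G 0 (ptr F J ω))) (bt F ω) i -
      frc c s r Q (trn r (G 0 (ptr F J ω'))) (bt F ω') i| ≤ 1 / 2 ^ MB := by
    intro i
    have h3 := Int.floor_add_fract ((2 : ℝ) ^ Q * yp c s r (trn r (G 0 (ptr F J ω))) (bt F ω)
      (some i))
    have h4 := Int.floor_add_fract ((2 : ℝ) ^ Q * yp c s r (trn r (G 0 (ptr F J ω'))) (bt F ω')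
      (some i))
    rw [hcr i] at h3
    have h5 : frc c s r Q (trn r (G 0 (ptr F J ω))) (bt F ω) i -
        frc c s r Q (trn r (G 0 (ptr F J ω'))) (bt F ω') i =
        2 ^ (s i + Q) * hg F c (G 0) i ω - 2 ^ (s i + Q) * hg F c (G 0) i ω' := by
      rw [← hsq, ← hsq]
      show Int.fract _ - Int.fract _ = _
      linarith
    rw [h5]
    have h6 := hN i
    rw [hNs, hNs] at h6
    have h7 := (Int.abs_sub_lt_one_of_floor_eq_floor h6).le
    rw [← mul_sub, abs_mul, abs_of_pos (by positivity : (0 : ℝ) < 2 ^ MB)] at h7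
    rw [le_div_iff₀ (by positivity)]
    linarith
  obtain ⟨R, hR⟩ : ∃ R, R = PfR c s r Q (bt F ω none)
      (fun i => ⌊2 ^ Q * yp c s r (trn r (G 0 (ptr F J ω))) (bt F ω) (some i)⌋)
      (trn r (G 0 (ptr F J ω))) (G 2 (ptr F J ω) r - G 1 (ptr F J ω) r) := ⟨_, rfl⟩
  have hR' : PfR c s r Q (bt F ω' none)
      (fun i => ⌊2 ^ Q * yp c s r (trn r (G 0 (ptr F J ω'))) (bt F ω') (some i)⌋)
      (trn r (G 0 (ptr F J ω'))) (G 2 (ptr F J ω') r - G 1 (ptr F J ω') r) = R := by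
    rw [hR, ← ht, ← h1, ← h2]
    have e2 : (fun i => ⌊2 ^ Q * yp c s r (trn r (G 0 (ptr F J ω'))) (bt F ω') (some i)⌋) =
        fun i => ⌊2 ^ Q * yp c s r (trn r (G 0 (ptr F J ω))) (bt F ω) (some i)⌋ :=
      funext fun i => (hcr i).symm
    rw [e2, h0]
  rw [hR'] at a2
  rw [← hR] at a1
  have hRd : R.totalDegree ≤ K := by
    rw [hR, hK]
    refine (pf_deg (trn_deg (W.dG 0 _)) ?_).trans (Nat.le_succ _)
    exact (totalDegree_sub _ _).trans (max_le (W.dG 2 _ _) (W.dG 1 _ _))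
  have hK1 : 1 ≤ K := by omega
  have hnode : ∀ β : Gr K r, |eval (nd K β) R| ≤ 2 ^ (C * (u + x + 1)) := by
    intro β
    rw [hR]
    refine (hbd W ω hω (nd K β) (fun i => ?_) fun i => ?_).1
    · unfold nd
      positivity
    · unfold nd
      rw [div_le_one (by exact_mod_cast hK1)]
      have : ((β i : ℕ)) ≤ K := Nat.lt_succ_iff.1 (β i).2
      exact_mod_cast this
  have hf01 : ∀ (ω : F.Ω) (i : Fin r), 0 ≤ frc c s r Q (trn r (G 0 (ptr F J ω))) (bt F ω) i ∧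
      frc c s r Q (trn r (G 0 (ptr F J ω))) (bt F ω) i ≤ 1 := fun ω i =>
    ⟨Int.fract_nonneg _, (Int.fract_lt_one _).le⟩
  have hlip := poly_lip hK1 R hRd hnode (fun i => by linarith [(hf01 ω i).1])
    (fun i => by linarith [(hf01 ω i).2]) (fun i => by linarith [(hf01 ω' i).1])
    (fun i => by linarith [(hf01 ω' i).2]) (by positivity) hfr
  have hlip2 : ((K : ℝ) + 1) ^ r * (r * K ^ 2 * lgC K ^ (r + 1)) *
      (1 / 2 ^ MB * 2 ^ (C * (u + x + 1))) ≤ 2 ^ (C₂ + C * (u + x + 1)) / 2 ^ MB := by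
    have e4 : (2 : ℝ) ^ (C₂ + C * (u + x + 1)) / 2 ^ MB =
        2 ^ C₂ * (1 / 2 ^ MB * 2 ^ (C * (u + x + 1))) := by
      rw [pow_add (2 : ℝ) C₂]
      field_simp
    rw [e4]
    exact mul_le_mul_of_nonneg_right hC₂.le (by positivity)
  obtain ⟨w, hw⟩ : ∃ w : ℝ, w = 2 ^ (C₂ + C * (u + x + 1) + x) / 2 ^ MB := ⟨_, rfl⟩
  have w1 : (2 : ℝ) ^ x / 2 ^ MB ≤ w := by
    rw [hw]
    exact div_le_div_of_nonneg_right (pow_le_pow_right₀ (by norm_num) (by omega)) (by positivity)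
  have w2 : (2 : ℝ) ^ (C₂ + C * (u + x + 1)) / 2 ^ MB ≤ w := by
    rw [hw]
    exact div_le_div_of_nonneg_right (pow_le_pow_right₀ (by norm_num) (by omega)) (by positivity)
  have w3 : 3 * w ≤ 2 ^ ((C + C₂ + 3) * (u + x + 1)) / 2 ^ MB := by
    rw [hw, ← mul_div_assoc]
    refine div_le_div_of_nonneg_right ?_ (by positivity)
    calc (3 : ℝ) * 2 ^ (C₂ + C * (u + x + 1) + x) ≤ 2 ^ 2 * 2 ^ (C₂ + C * (u + x + 1) + x) :=
          mul_le_mul_of_nonneg_right (by norm_num) (by positivity)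
      _ = 2 ^ (2 + (C₂ + C * (u + x + 1) + x)) := by rw [← pow_add]
      _ ≤ _ := pow_le_pow_right₀ (by norm_num) (by nlinarith)
  refine le_trans ?_ w3
  have h9 := hlip.trans (hlip2.trans w2)
  have a3 := a1.trans w1
  have a4 := a2.trans w1
  rw [abs_le] at a3 a4 h9 ⊢
  constructor <;> linarith [a3.1, a3.2, a4.1, a4.2, h9.1, h9.2]

end Pool.V1E
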