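import Pool.Agent.H92.D2.Rwb

/-!
# The rows of the own height in the four windows, one law

`row_wd`: the rows of the height of the target over the closed chart of the window, given the code of
the tube, the position in the tube and the time, from the rows of the coordinate given the exact
point of the base, and from the fullness of the base given the closed record of the ball. The natural
digits of the coordinates of the base may be different.
-/

set_option autoImplicit false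

namespace Pool.V1E

open Finset Real MvPolynomial
open Pool.KA Pool.KSAT Pool.PB Pool.GEN Pool.D2R Pool.D2G30 Pool.ISO Pool.CHT Pool.CHX
open Pool.PB.Trl (rt rt_mem t_rt)
open Pool.Agent.H49.Ent Pool.Agent.H32.Dense Pool.STK Pool.K2S Pool.LA91 Pool.OWN68

theorem chok_take {m J : ℕ} {F : Fam m J} {c : ℕ → Fin m} {r r' : ℕ} {K : ℕ → ℕ} {a w e : ℕ}
    {g : ℕ → ℕ} {A : F.Ω → Prop} {G : PtT F → ℕ → MvPolynomial (Option (Fin m)) ℝ}
    {H : LnT F → ℕ → MvPolynomial (Option (Fin m)) ℝ} (h : ChOK F c r K a w e g A G H)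
    (hr : r' ≤ r) : ChOK F c r' K a w e g A G H :=
  ⟨h.degG, h.degH, h.depG, h.depH, fun ω hω i hi => h.pos ω hω i (hi.trans_le hr),
    fun ω hω i hi => h.agr ω hω i (hi.trans_le hr), fun ω hω i hi => h.lip ω hω i (hi.trans_le hr)⟩

/-- The number of the values. -/
theorem log_num {N : ℕ} {x : ℝ} (hx : 0 ≤ x) (h : x ≤ 2 ^ N) :
    Real.log (2 * (x + 1) + 1) ≤ (N + 3) * Real.log 2 := by
  have h1 : (1 : ℝ) ≤ 2 ^ N := one_le_pow₀ (by norm_num)
  have h2 : 2 * (x + 1) + 1 ≤ 2 ^ (N + 3) := by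
    rw [pow_add]
    linarith
  calc Real.log (2 * (x + 1) + 1) ≤ Real.log (2 ^ (N + 3)) := Real.log_le_log (by linarith) h2
    _ = _ := by
        rw [Real.log_pow]
        push_cast
        ring

theorem row_wd (D r : ℕ) : ∃ C : ℕ, ∀ {m J : ℕ} {F : Fam m J} {c : ℕ → Fin m}
    {n M ar MB q₀ Q x u p e : ℕ} {s : ℕ → ℕ} {qe : Fin r → ℕ} {o : ℕ → ℕ}
    {z g gc gT g₀ : ℕ → ℕ → ℕ} {B : F.Ω → Prop}
    {G T : ℕ → PtT F → ℕ → MvPolynomial (Option (Fin m)) ℝ}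
    {H TH : ℕ → LnT F → ℕ → MvPolynomial (Option (Fin m)) ℝ}
    {Ht : LnT F → MvPolynomial (Option (Fin m)) ℝ} {V ζ : Type} {vL : LnT F → V} {k M₁ : ℕ}
    {q : F.Ω → ℝ} {zB : F.Ω → ζ} {f : ℕ → ℝ} {P P' : ℝ},
    Wdat F c r D n M ar MB q₀ Q x u p e s qe o z g gc gT g₀ B G T H TH Ht → IsLaw q →
    (∀ ω, 0 < q ω → B ω) → MB ≤ k →
    (∀ ω ω', 0 < q ω → 0 < q ω' → zB ω = zB ω' →
      (∀ l < r + 1, G 2 (ptr F J ω) l = G 2 (ptr F J ω') l) ∧
      trn r (G 0 (ptr F J ω)) = trn r (G 0 (ptr F J ω')) ∧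
      G 1 (ptr F J ω) r = G 1 (ptr F J ω') r) →
    (∀ i < r, f i ≤ CH q (fun ω => F.X J ω (c i))
      (fun ω => ((fun l : Fin i => F.X J ω (c l)), (zB ω, F.W ω)))) →
    (∀ l < r + 1, g₀ 1 l ≤ M₁) → (∀ l < r, g 0 l + (o 2 - o 0) ≤ M₁) →
    C + e + M₁ + MB + 2 * x ≤ J → (∀ i < r, s i + Q + MB ≤ J) → P ≤ P' → P' ≤ s r + MB →
    CH q (fun ω => ⌊(2 : ℝ) ^ P' * hg F c (G 1) r ω⌋)
      (fun ω => (⌊(2 : ℝ) ^ P * hg F c (G 1) r ω⌋,
        ((xd k (slam F (o 1)) (fun L => xL c s r (o 1) Q (frH F r q₀ (H 0) L) L) ω,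
          ctF F c s r (o 1) q₀ Q qe (H 0) (fun L => H 1 L r) vL (slam F (o 1) ω)), F.W ω))) ≤
    CH q (fun ω => ⌊(2 : ℝ) ^ P' * F.x ω (c r)⌋)
      (fun ω => (⌊(2 : ℝ) ^ P * F.x ω (c r)⌋, ((fun l : Fin r => F.X J ω (c l)), F.W ω))) +
    ∑ i ∈ range r, (((J : ℝ) - (s i + Q : ℕ)) * Real.log 2 - f i) + C * (u + x + 1) := by
  obtain ⟨C₁, hC₁, hcnt⟩ := pos_cnt D r
  obtain ⟨C₂, hC₂, hlip⟩ := lip_two D (r + 1)
  obtain ⟨C₃, hgb⟩ := W_hgb D
  obtain ⟨C₄, hyn⟩ := W_yn D r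
  refine ⟨C₁ + C₂ + r * (C₃ + 3) + C₄ + 3 + r * 12 + 20, ?_⟩
  intro m J F c n M ar MB q₀ Q x u p e s qe o z g gc gT g₀ B G T H TH Ht V ζ vL k M₁ q zB f P P'
    W hq hqB hk hz hf hM1 hM2 hJ hN hPP hP'
  have h0 := hq.nonneg
  have h1J : o 1 ≤ J := by have := W.oJ; have := W.o3; have := W.o2; omega
  have hl2 : 0 < Real.log 2 := Real.log_pos one_lt_two
  have hl21 : Real.log 2 ≤ 1 := by
    have := Real.log_two_lt_d9
    linarith
  obtain ⟨kc, hkc⟩ : ∃ kc : F.Ω → (ℕ → MvPolynomial (Option (Fin m)) ℝ) ×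
      MvPolynomial (Option (Fin m)) ℝ, kc = fun ω =>
    (trn r (G 0 (ptr F J ω)), G 1 (ptr F J ω) r) := ⟨_, rfl⟩
  obtain ⟨b, hb⟩ : ∃ b : F.Ω → Fin r → ℤ, b = fun ω (i : Fin r) =>
    ⌊(2 : ℝ) ^ (s i + Q + MB) * hg F c (G 0) i ω⌋ := ⟨_, rfl⟩
  obtain ⟨Pt, hPt⟩ : ∃ Pt : F.Ω → Fin r → ℤ, Pt = fun ω (l : Fin r) => F.X J ω (c l) := ⟨_, rfl⟩
  obtain ⟨y, hy⟩ : ∃ y : F.Ω → ℝ, y = hg F c (G 1) r := ⟨_, rfl⟩
  have hy' : ∀ ω, hg F c (G 1) r ω = y ω := fun ω => by rw [hy]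
  simp only [hy']
  obtain ⟨bb, hbb⟩ : ∃ bb : F.Ω → (Fin r → ℕ) × (KwT m V × (ℕ × ((Fin r → ℤ) × (Fin r → ℤ)))),
    bb = fun ω => (xd k (slam F (o 1)) (fun L => xL c s r (o 1) Q (frH F r q₀ (H 0) L) L) ω,
          ctF F c s r (o 1) q₀ Q qe (H 0) (fun L => H 1 L r) vL (slam F (o 1) ω)) := ⟨_, rfl⟩
  have hbb' : (fun ω => (⌊(2 : ℝ) ^ P * y ω⌋,
        ((xd k (slam F (o 1)) (fun L => xL c s r (o 1) Q (frH F r q₀ (H 0) L) L) ω,
          ctF F c s r (o 1) q₀ Q qe (H 0) (fun L => H 1 L r) vL (slam F (o 1) ω)), F.W ω))) =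
      fun ω => (⌊(2 : ℝ) ^ P * y ω⌋, (bb ω, F.W ω)) := by rw [hbb]
  rw [hbb']
  have hWT : ∀ ω ω', F.W ω = F.W ω' → F.T ω = F.T ω' := fun ω ω' h => (Prod.ext_iff.1 h).1
  have hPn : (2 : ℝ) ^ P' ≤ 2 ^ (s r + MB) := by
    rw [← Real.rpow_natCast]
    refine Real.rpow_le_rpow_of_exponent_le (by norm_num) ?_
    push_cast
    exact hP'
  have hPp : (0 : ℝ) < 2 ^ P := Real.rpow_pos_of_pos (by norm_num) _
  have hPp' : (0 : ℝ) < 2 ^ P' := Real.rpow_pos_of_pos (by norm_num) _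
  have hPP' : (2 : ℝ) ^ P ≤ 2 ^ P' := Real.rpow_le_rpow_of_exponent_le (by norm_num) hPP
  -- (E)
  have hE : CH q (fun ω => ⌊(2 : ℝ) ^ P' * y ω⌋)
      (fun ω => (⌊(2 : ℝ) ^ P * y ω⌋, (Pt ω, (kc ω, (b ω, F.W ω))))) ≤
      CH q (fun ω => ⌊(2 : ℝ) ^ P' * F.x ω (c r)⌋)
        (fun ω => (⌊(2 : ℝ) ^ P * F.x ω (c r)⌋, (Pt ω, F.W ω))) + 2 * Real.log 7 := by
    have h1 := CH_shf hq (fun ω => F.x ω (c r)) y hPp.le hPP'
      (fun ω => (Pt ω, (kc ω, (b ω, F.W ω)))) (by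
        intro ω ω' hω hω' hh
        simp only [Prod.mk.injEq] at hh
        obtain ⟨g1, g2, -, g4⟩ := hh
        rw [hkc] at g2
        simp only [Prod.mk.injEq] at g2
        rw [hPt] at g1
        have h2 := hlip W.hc W.ch1 hM1 (by omega) ω ω' (hqB ω hω) (hWT _ _ g4) r
          (Nat.lt_succ_self r) (fun l hl => congrFun g1 ⟨l, hl⟩)
        have h3 : y ω - F.x ω (c r) - (y ω' - F.x ω' (c r)) =
            -(eval (bt F ω) (G 1 (ptr F J ω) r) - eval (bt F ω') (G 1 (ptr F J ω) r)) := by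
          rw [hy]
          unfold hg
          rw [← g2.2]
          ring
        rw [h3, abs_neg]
        have h4 := W.m1'
        calc (2 : ℝ) ^ P' * _ ≤ 2 ^ (s r + MB) * (2 ^ (C₂ + e + M₁) / 2 ^ J / 2 ^ g₀ 1 r) :=
              mul_le_mul hPn h2 (abs_nonneg _) (by positivity)
          _ = 2 ^ (s r + MB + (C₂ + e + M₁)) / 2 ^ (J + g₀ 1 r) := by
              rw [pow_add 2 (s r + MB), pow_add 2 J]
              field_simp
          _ ≤ 1 := by
              rw [div_le_one (by positivity)]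
              exact pow_le_pow_right₀ (by norm_num) (by omega))
    refine h1.trans (add_le_add (CH_mono_cond h0 fun ω ω' _ _ hh => ?_) le_rfl)
    simp only [Prod.mk.injEq] at hh ⊢
    exact ⟨hh.1, hh.2.1, hh.2.2.2.2⟩
  -- (U)
  have hU : CH q Pt (fun ω => (kc ω, (b ω, F.W ω))) ≤
      ∑ i ∈ range r, (((J : ℝ) - (s i + Q + MB : ℕ)) * Real.log 2 + Real.log 9) := by
    rw [hPt]
    have hxg : ∀ i < r, s i + Q ≤ g 0 i + (o 2 - o 0) + 2 * x := fun i hi => by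
      have := W.n2b i hi
      have := W.n2c i hi
      omega
    refine hcnt hq hqB W.hcr (chok_take W.rad0 (Nat.le_succ r)) (N := fun i => s i + Q + MB) hM2
      (by omega) (fun i hi => by
        have := hxg i hi
        show C₁ + e + M₁ + (s i + Q + MB) ≤ J + (g 0 i + (o 2 - o 0))
        omega) hN
      (fun ω ω' _ _ hh => hWT _ _ (by
        simp only [Prod.mk.injEq] at hh
        exact hh.2.2)) ?_
    intro ω ω' _ _ hh i hi
    simp only [Prod.mk.injEq] at hh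
    obtain ⟨g1, g2, -⟩ := hh
    rw [hkc] at g1
    simp only [Prod.mk.injEq] at g1
    have g3 := congrFun g1.1 i
    rw [trn_eq hi, trn_eq hi] at g3
    rw [hb] at g2
    have g4 := (Int.abs_sub_lt_one_of_floor_eq_floor (congrFun g2 ⟨i, hi⟩)).le
    simp only at g4
    have g5 : ∀ b', eval b' (Gno (c i) J J (fun y => G 0 y i) (ptr F J ω)) =
        eval b' (G 0 (ptr F J ω) i) + (((ptr F J ω).1 (c i) : ℝ) / 2 ^ J -
      eval (bho J J (ptr F J ω)) (G 0 (ptr F J ω) i)) := by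
      intro b'
      unfold Gno
      rw [map_add, eval_C]
    rw [g5, g5]
    rw [← mul_sub, abs_mul, abs_of_pos (by positivity : (0 : ℝ) < 2 ^ (s i + Q + MB))] at g4
    have g6 : F.x ω (c i) - (eval (bt F ω) (G 0 (ptr F J ω) i) + (((ptr F J ω).1 (c i) : ℝ) /
        2 ^ J - eval (bho J J (ptr F J ω)) (G 0 (ptr F J ω) i))) -
        (F.x ω' (c i) - (eval (bt F ω') (G 0 (ptr F J ω) i) + (((ptr F J ω).1 (c i) : ℝ) /
        2 ^ J - eval (bho J J (ptr F J ω)) (G 0 (ptr F J ω) i)))) =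
        hg F c (G 0) i ω - hg F c (G 0) i ω' := by
      unfold hg
      rw [← g3]
      ring
    rw [g6, le_div_iff₀ (by positivity), mul_comm]
    exact g4
  -- (L)
  have hL : ∑ i ∈ range r, f i ≤ CH q Pt (fun ω => (zB ω, F.W ω)) := by
    rw [hPt, CH_finch h0 (fun i ω => F.X J ω (c i)) (fun ω => (zB ω, F.W ω)) r]
    exact Finset.sum_le_sum fun i hi => hf i (Finset.mem_range.1 hi)
  -- (D1)
  have hD₁ : CH q b (fun ω => (zB ω, F.W ω)) ≤
      r * (((MB + (u + 2 * x + 2) : ℕ) + 3) * Real.log 2) := by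
    have h1 := CH_le_vec h0 hq.sum_one b (fun ω => (zB ω, F.W ω))
      (fun _ => 2 ^ (MB + (u + 2 * x + 2)) + 1) (by
        intro ω ω' hω hω' hh i
        simp only [Prod.mk.injEq] at hh
        obtain ⟨g1, g2, -⟩ := hz ω ω' hω hω' hh.1
        have g3 := W_hgt W (hqB ω hω) (hqB ω' hω') (hWT _ _ hh.2)
          (fun l hl => g1 l (by omega)) (fun l hl => by
            have := congrFun g2 l
            rwa [trn_eq hl, trn_eq hl] at this) i.2
        rw [hb]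
        refine (floor_diff _ _).trans (add_le_add ?_ le_rfl)
        rw [← mul_sub, abs_mul, abs_of_pos (by positivity : (0 : ℝ) < 2 ^ (s i + Q + MB))]
        calc (2 : ℝ) ^ (s i + Q + MB) * _ ≤ 2 ^ (s i + Q + MB) *
              (2 ^ (u + 2 * x + 2) / 2 ^ (s i + Q)) :=
              mul_le_mul_of_nonneg_left g3 (by positivity)
          _ = _ := by
              rw [pow_add 2 (s i + Q), pow_add 2 MB]
              field_simp)
    refine h1.trans ?_
    rw [Ex_const hq.sum_one]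
    exact mul_le_mul_of_nonneg_left (log_num (by positivity) le_rfl) (Nat.cast_nonneg r)
  -- (D2)
  have hD₂ : CH q (fun ω => ⌊(2 : ℝ) ^ P' * y ω⌋) (fun ω => (b ω, (zB ω, F.W ω))) ≤
      ((C₄ * (u + x + 1) : ℕ) + 3) * Real.log 2 := by
    have h1 := CH_pair hq (fun ω => ⌊(2 : ℝ) ^ P' * y ω⌋) (fun ω => (b ω, (zB ω, F.W ω)))
      (D := 2 ^ (C₄ * (u + x + 1)) + 1) (by
        intro ω ω' hω hω' hh
        simp only [Prod.mk.injEq] at hh
        obtain ⟨g0, g1, g2⟩ := hh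
        obtain ⟨k1, k2, k3⟩ := hz ω ω' hω hω' g1
        rw [hb] at g0
        have g3 := hyn W ω ω' (hqB ω hω) (hqB ω' hω') (hWT _ _ g2) k2 k3
          (k1 r (Nat.lt_succ_self r)) (fun i => congrFun g0 i)
        rw [← mul_sub, abs_mul, abs_of_pos (by positivity : (0 : ℝ) < 2 ^ s r), hy', hy'] at g3
        refine floor_sub_le ?_
        rw [← mul_sub, abs_mul, abs_of_pos hPp']
        push_cast
        calc (2 : ℝ) ^ P' * |y ω - y ω'| ≤ 2 ^ (s r + MB) * |y ω - y ω'| :=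
              mul_le_mul_of_nonneg_right hPn (abs_nonneg _)
          _ = 2 ^ MB * (2 ^ s r * |y ω - y ω'|) := by
              rw [pow_add]
              ring
          _ ≤ 2 ^ MB * (2 ^ (C₄ * (u + x + 1)) / 2 ^ MB) :=
              mul_le_mul_of_nonneg_left g3 (by positivity)
          _ = 2 ^ (C₄ * (u + x + 1)) := by field_simp)
    refine h1.trans ?_
    push_cast
    have h2 := log_num (N := C₄ * (u + x + 1)) (x := 2 ^ (C₄ * (u + x + 1))) (by positivity) le_rfl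
    push_cast at h2
    exact h2
  have hD₃ := CH_crs hq y hPp.le hPP'
  have hex := row_exch h0 (fun ω => ⌊(2 : ℝ) ^ P' * y ω⌋) (fun ω => ⌊(2 : ℝ) ^ P * y ω⌋) Pt kc b zB
    F.W (fun ω ω' hω hω' hh => by
      obtain ⟨-, k2, k3⟩ := hz ω ω' hω hω' hh
      rw [hkc]
      exact Prod.ext k2 k3) hE hU hL hD₁ hD₂ hD₃
  -- the heights from the code
  have hbc : CH q (fun ω => (kc ω, b ω)) (fun ω => (⌊(2 : ℝ) ^ P * y ω⌋, (bb ω, F.W ω))) ≤
      r * (((C₃ * (u + x + 1) : ℕ) + 3) * Real.log 2) := by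
    have h1 : CH q (fun ω => (kc ω, b ω)) (fun ω => (⌊(2 : ℝ) ^ P * y ω⌋, (bb ω, F.W ω))) ≤
        CH q b (fun ω => (⌊(2 : ℝ) ^ P * y ω⌋, (bb ω, F.W ω))) := by
      refine CH_mono_left h0 fun ω ω' hω hω' hh => ?_
      simp only [Prod.mk.injEq] at hh
      obtain ⟨g1, -, g3, -⟩ := hh
      rw [hbb] at g3
      simp only [Prod.mk.injEq] at g3
      have g4 := g3.2
      unfold ctF at g4
      simp only [Prod.mk.injEq] at g4
      obtain ⟨⟨-, k1, k2⟩, -⟩ := g4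
      refine Prod.ext ?_ g1
      rw [hkc]
      refine Prod.ext ?_ ?_
      · rw [W.fr (hqB ω hω), W.fr (hqB ω' hω')] at k1
        exact k1
      · show G 1 (ptr F J ω) r = G 1 (ptr F J ω') r
        rw [W.cl1 ω (hqB ω hω), W.cl1 ω' (hqB ω' hω')]
        exact k2
    refine h1.trans ?_
    have h2 := CH_le_vec h0 hq.sum_one b (fun ω => (⌊(2 : ℝ) ^ P * y ω⌋, (bb ω, F.W ω)))
      (fun _ => 2 ^ (C₃ * (u + x + 1)) + 1) (by
        intro ω ω' hω hω' hh i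
        simp only [Prod.mk.injEq] at hh
        obtain ⟨-, g3, g4⟩ := hh
        rw [hbb] at g3
        simp only [Prod.mk.injEq] at g3
        have g5 := hgb W hk ω ω' (hqB ω hω) (hqB ω' hω') (hWT _ _ g4) g3.2 g3.1 i
        rw [hb]
        refine (floor_diff _ _).trans (add_le_add ?_ le_rfl)
        rw [← mul_sub, abs_mul, abs_of_pos (by positivity : (0 : ℝ) < 2 ^ (s i + Q + MB))]
        calc (2 : ℝ) ^ (s i + Q + MB) * _ ≤ 2 ^ (s i + Q + MB) *
              (2 ^ (C₃ * (u + x + 1)) / 2 ^ (s i + Q + MB)) :=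
              mul_le_mul_of_nonneg_left g5 (by positivity)
          _ = _ := by field_simp)
    refine h2.trans ?_
    rw [Ex_const hq.sum_one]
    exact mul_le_mul_of_nonneg_left (log_num (by positivity) le_rfl) (Nat.cast_nonneg r)
  have hfin := CH_le_add h0 (fun ω => ⌊(2 : ℝ) ^ P' * y ω⌋) (fun ω => (kc ω, b ω))
    (fun ω => (⌊(2 : ℝ) ^ P * y ω⌋, (bb ω, F.W ω)))
  have hfin2 : CH q (fun ω => ⌊(2 : ℝ) ^ P' * y ω⌋)
      (fun ω => ((kc ω, b ω), (⌊(2 : ℝ) ^ P * y ω⌋, (bb ω, F.W ω)))) ≤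
      CH q (fun ω => ⌊(2 : ℝ) ^ P' * y ω⌋)
        (fun ω => (⌊(2 : ℝ) ^ P * y ω⌋, (kc ω, (b ω, F.W ω)))) :=
    CH_mono_cond h0 fun ω ω' _ _ hh => by
      simp only [Prod.mk.injEq] at hh ⊢
      exact ⟨hh.2.1, hh.1.1, hh.1.2, hh.2.2.2⟩
  -- the numbers
  have hr0 : (0 : ℝ) ≤ r := Nat.cast_nonneg r
  have e1 : ∑ i ∈ range r, (((J : ℝ) - (s i + Q + MB : ℕ)) * Real.log 2 + Real.log 9) =
      ∑ i ∈ range r, (((J : ℝ) - (s i + Q : ℕ)) * Real.log 2) -
        r * (MB * Real.log 2) + r * Real.log 9 := by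
    have e2 : ∀ i ∈ range r, (((J : ℝ) - (s i + Q + MB : ℕ)) * Real.log 2 + Real.log 9) =
        ((J : ℝ) - (s i + Q : ℕ)) * Real.log 2 + (Real.log 9 - MB * Real.log 2) := by
      intro i _
      push_cast
      ring
    rw [Finset.sum_congr rfl e2, Finset.sum_add_distrib, Finset.sum_const, Finset.card_range,
      nsmul_eq_mul]
    ring
  have e3 : ∑ i ∈ range r, (((J : ℝ) - (s i + Q : ℕ)) * Real.log 2 - f i) =
      ∑ i ∈ range r, (((J : ℝ) - (s i + Q : ℕ)) * Real.log 2) - ∑ i ∈ range r, f i :=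
    Finset.sum_sub_distrib _ _
  rw [e1] at hex
  rw [e3]
  have l5 : Real.log 5 ≤ 3 := by
    have : Real.log 5 ≤ Real.log (2 ^ 3) := Real.log_le_log (by norm_num) (by norm_num)
    rw [Real.log_pow] at this
    push_cast at this
    linarith
  have l7 : Real.log 7 ≤ 3 := by
    have : Real.log 7 ≤ Real.log (2 ^ 3) := Real.log_le_log (by norm_num) (by norm_num)
    rw [Real.log_pow] at this
    push_cast at this
    linarith
  have l9 : Real.log 9 ≤ 4 := by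
    have : Real.log 9 ≤ Real.log (2 ^ 4) := Real.log_le_log (by norm_num) (by norm_num)
    rw [Real.log_pow] at this
    push_cast at this
    linarith
  obtain ⟨N, hNe⟩ : ∃ N : ℝ, N = (u : ℝ) + x + 1 := ⟨_, rfl⟩
  have hu0 : (0 : ℝ) ≤ u := Nat.cast_nonneg u
  have hx0 : (0 : ℝ) ≤ x := Nat.cast_nonneg x
  have hN1 : 1 ≤ N := by rw [hNe]; linarith
  have huN : (u : ℝ) + 2 * x ≤ 2 * N := by rw [hNe]; linarith
  push_cast at hex hbc
  rw [← hNe] at hex hbc ⊢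
  have t1 : (r : ℝ) * ((C₃ * N + 3) * Real.log 2) ≤ r * ((C₃ + 3) * N) := by
    refine mul_le_mul_of_nonneg_left ?_ hr0
    have h1 : (C₃ * N + 3) * Real.log 2 ≤ C₃ * N + 3 :=
      mul_le_of_le_one_right (by positivity) hl21
    nlinarith
  have t2 : ((C₄ : ℝ) * N + 3) * Real.log 2 ≤ (C₄ + 3) * N := by
    have h1 : (C₄ * N + 3) * Real.log 2 ≤ C₄ * N + 3 :=
      mul_le_of_le_one_right (by positivity) hl21
    nlinarith
  have t3 : (r : ℝ) * ((MB + (u + 2 * x + 2) + 3) * Real.log 2) ≤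
      r * (MB * Real.log 2) + r * (7 * N) := by
    rw [← mul_add]
    refine mul_le_mul_of_nonneg_left ?_ hr0
    have h1 : ((u : ℝ) + 2 * x + 5) * Real.log 2 ≤ (u : ℝ) + 2 * x + 5 :=
      mul_le_of_le_one_right (by positivity) hl21
    nlinarith
  have t4 : (r : ℝ) * Real.log 9 ≤ r * (4 * N) :=
    mul_le_mul_of_nonneg_left (by linarith) hr0
  have hNr : 0 ≤ (r : ℝ) * N := by positivity
  have hC0 : 0 ≤ ((C₁ : ℝ) + C₂) * N := by positivity
  push_cast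
  rw [hPt] at hex
  nlinarith [hfin, hfin2, hex, hbc, t1, t2, t3, t4, l5, l7]

end Pool.V1E
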