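import Pool.Agent.H92.D2.Rwc
import Pool.Agent.H68.OWN.Nf

/-!
# The rows in the units of the labels of the tubes, one family

`row_fam`: the rows `FHq.rows`, from the rows of the coordinate given the exact point of the base and
the fullness of the base at the ball.
-/

set_option autoImplicit false

namespace Pool.V1E

open Finset Real MvPolynomial
open Pool.KA Pool.KSAT Pool.PB Pool.GEN Pool.D2R Pool.D2G30 Pool.ISO Pool.CHT Pool.CHX
open Pool.PB.Trl (rt rt_mem t_rt)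
open Pool.Agent.H49.Ent Pool.Agent.H32.Dense Pool.STK Pool.K2S Pool.LA91 Pool.OWN68
open Pool.UNJ (ceI)

/-- The rows of a coordinate at neighbouring scales. -/
theorem raw_conv {m J : ℕ} {F : Fam m J} {q : F.Ω → ℝ} (hq : IsLaw q) {c : ℕ → Fin m} {r : ℕ}
    {P P' : ℝ} {a b n₀ : ℕ} (h1 : P' ≤ a + n₀) (h2 : (b : ℝ) ≤ P + n₀) :
    CH q (fun ω => ⌊(2 : ℝ) ^ P' * F.x ω (c r)⌋)
      (fun ω => (⌊(2 : ℝ) ^ P * F.x ω (c r)⌋, ((fun l : Fin r => F.X J ω (c l)), F.W ω))) ≤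
    CH q (fun ω => F.X a ω (c r)) (fun ω => (F.X b ω (c r),
      (ceI ((range r).image c) (fun _ => J) (F.x ω), F.W ω))) + 2 * ((n₀ + 3) * Real.log 2) := by
  have h0 := hq.nonneg
  have key := CH_rsc hq (fun ω => F.x ω (c r)) (s := (2 : ℝ) ^ P') (s' := (2 : ℝ) ^ a)
    (t := (2 : ℝ) ^ P) (t' := (2 : ℝ) ^ b) (N := 2 ^ n₀)
    (Real.rpow_nonneg (by norm_num) _) (by positivity) (by
      push_cast
      rw [← pow_add, ← Real.rpow_natCast]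
      refine Real.rpow_le_rpow_of_exponent_le (by norm_num) ?_
      push_cast
      exact h1) (by
      push_cast
      rw [← Real.rpow_natCast, ← Real.rpow_natCast, ← Real.rpow_add (by norm_num)]
      exact Real.rpow_le_rpow_of_exponent_le (by norm_num) h2)
    (fun ω => ((fun l : Fin r => F.X J ω (c l)), F.W ω))
  have h3 : Real.log (2 * ((2 ^ n₀ + 1 : ℕ) : ℝ) + 1) ≤ (n₀ + 3) * Real.log 2 := by
    have := log_num (N := n₀) (x := 2 ^ n₀) (by positivity) le_rfl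
    push_cast
    exact this
  refine key.trans (add_le_add ?_ (mul_le_mul_of_nonneg_left h3 (by norm_num)))
  refine CH_mono_cond h0 fun ω ω' _ _ hh => ?_
  simp only [Prod.mk.injEq] at hh ⊢
  exact ⟨hh.1, ceI_tup le_rfl fun l hl => congrFun hh.2.1 ⟨l, hl⟩, hh.2.2⟩

theorem uu_rt {m J : ℕ} (F : Fam m J) (w : ℕ) (ω : F.Ω) :
    uu (2 ^ (J - w)) (Tm F w) ω = rt F w ω := by
  unfold uu Tm rt
  push_cast
  rfl

theorem nL_hg {m J : ℕ} {F : Fam m J} {c : ℕ → Fin m} {r D n M ar MB q₀ Q x u p e : ℕ}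
    {s : ℕ → ℕ} {qe : Fin r → ℕ} {o : ℕ → ℕ} {z g gc gT g₀ : ℕ → ℕ → ℕ} {B : F.Ω → Prop}
    {G T : ℕ → PtT F → ℕ → MvPolynomial (Option (Fin m)) ℝ}
    {H TH : ℕ → LnT F → ℕ → MvPolynomial (Option (Fin m)) ℝ}
    {Ht : LnT F → MvPolynomial (Option (Fin m)) ℝ}
    (W : Wdat F c r D n M ar MB q₀ Q x u p e s qe o z g gc gT g₀ B G T H TH Ht) {ω : F.Ω}
    (hω : B ω) : (nL c s r (o 1) (H 1 (slam F (o 1) ω) r) (slam F (o 1) ω)).eval
      (rt F (o 1) ω) = 2 ^ s r * hg F c (G 1) r ω := by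
  have h1J : o 1 ≤ J := by have := W.oJ; have := W.o3; have := W.o2; omega
  have e : (fun o' => (lc (o 1) (slam F (o 1) ω) o').eval (rt F (o 1) ω)) = bt F ω :=
    funext fun o' => eval_lc F h1J ω o'
  unfold nL
  rw [Polynomial.eval_mul, Polynomial.eval_C, Polynomial.eval_sub, Pool.D2G30.eval_aev, e,
    eval_lc F h1J ω, ← W.cl1 ω hω]
  rfl

/-- The closed record of the ball. -/
noncomputable def zB {m J : ℕ} (F : Fam m J) (r : ℕ)
    (G : ℕ → PtT F → ℕ → MvPolynomial (Option (Fin m)) ℝ) (y : PtT F) :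
    (ℕ → MvPolynomial (Option (Fin m)) ℝ) × ((ℕ → MvPolynomial (Option (Fin m)) ℝ) ×
      MvPolynomial (Option (Fin m)) ℝ) :=
  (trn (r + 1) (G 2 y), (trn r (G 0 y), G 1 y r))

/-- The closed record of the ball, on the lines. -/
noncomputable def zBL {m J : ℕ} (F : Fam m J) (r : ℕ) (o : ℕ → ℕ)
    (H : ℕ → LnT F → ℕ → MvPolynomial (Option (Fin m)) ℝ) (L : LnT F) :
    (ℕ → MvPolynomial (Option (Fin m)) ℝ) × ((ℕ → MvPolynomial (Option (Fin m)) ℝ) ×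
      MvPolynomial (Option (Fin m)) ℝ) :=
  (trn (r + 1) (H 2 L), (trn r (H 0 (co (o 2 - o 0) L)), H 1 (co (o 2 - o 1) L) r))

theorem zB_cl {m J : ℕ} {F : Fam m J} {c : ℕ → Fin m} {r D n M ar MB q₀ Q x u p e : ℕ}
    {s : ℕ → ℕ} {qe : Fin r → ℕ} {o : ℕ → ℕ} {z g gc gT g₀ : ℕ → ℕ → ℕ} {B : F.Ω → Prop}
    {G T : ℕ → PtT F → ℕ → MvPolynomial (Option (Fin m)) ℝ}
    {H TH : ℕ → LnT F → ℕ → MvPolynomial (Option (Fin m)) ℝ}
    {Ht : LnT F → MvPolynomial (Option (Fin m)) ℝ}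
    (W : Wdat F c r D n M ar MB q₀ Q x u p e s qe o z g gc gT g₀ B G T H TH Ht)
    (hcl2 : ∀ ω, B ω → ∀ l < r + 1, G 2 (ptr F J ω) l = H 2 (slam F (o 2) ω) l) {ω : F.Ω}
    (hω : B ω) : zB F r G (ptr F J ω) = zBL F r o H (slam F (o 2) ω) := by
  have h2J : o 2 ≤ J := by have := W.oJ; have := W.o3; omega
  have h12 : o 1 ≤ o 2 := by have := W.o2; omega
  have h02 : o 0 ≤ o 2 := by have := W.o2; have := W.o1; omega
  unfold zB zBL
  rw [co_slam F h02 h2J ω, co_slam F h12 h2J ω, ← W.cl1 ω hω]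
  refine Prod.ext (funext fun l => ?_) (Prod.ext (funext fun l => ?_) rfl)
  · show trn (r + 1) (G 2 (ptr F J ω)) l = trn (r + 1) (H 2 (slam F (o 2) ω)) l
    unfold trn
    split_ifs with hl
    · exact hcl2 ω hω l hl
    · rfl
  · show trn r (G 0 (ptr F J ω)) l = trn r (H 0 (slam F (o 0) ω)) l
    unfold trn
    split_ifs with hl
    · exact W.cl0 ω hω l hl
    · rfl

/-- **The rows in the units of the labels of the tubes.** -/
theorem row_fam (D r : ℕ) : ∃ C : ℕ, ∀ {m J : ℕ} {F : Fam m J} {c : ℕ → Fin m}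
    {n M ar MB q₀ Q x u p e : ℕ} {s : ℕ → ℕ} {qe : Fin r → ℕ} {o : ℕ → ℕ}
    {z g gc gT g₀ : ℕ → ℕ → ℕ} {B : F.Ω → Prop}
    {G T : ℕ → PtT F → ℕ → MvPolynomial (Option (Fin m)) ℝ}
    {H TH : ℕ → LnT F → ℕ → MvPolynomial (Option (Fin m)) ℝ}
    {Ht : LnT F → MvPolynomial (Option (Fin m)) ℝ} {V : Type} {vL : LnT F → V} {k M₁ : ℕ}
    {f : ℕ → ℝ} {M' a b n₀ : ℕ} {y y' : ℝ},
    Wdat F c r D n M ar MB q₀ Q x u p e s qe o z g gc gT g₀ B G T H TH Ht → 0 < Pe F.p B →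
    (∀ ω, B ω → ∀ l < r + 1, G 2 (ptr F J ω) l = H 2 (slam F (o 2) ω) l) → MB ≤ k →
    (∀ i < r, f i ≤ CH (Pool.Agent.H49.Ent.cond F.p B True) (fun ω => F.X J ω (c i))
      (fun ω => ((fun l : Fin i => F.X J ω (c l)), zBL F r o H (slam F (o 2) ω), F.W ω))) →
    (∀ l < r + 1, g₀ 1 l ≤ M₁) → (∀ l < r, g 0 l + (o 2 - o 0) ≤ M₁) →
    C + e + M₁ + MB + 2 * x ≤ J → (∀ i < r, s i + Q + MB ≤ J) → M' * Q ≤ MB → 0 ≤ y' →
    y' ≤ y → ((s r + M' * Q : ℕ) : ℝ) - y' ≤ a + n₀ → (b : ℝ) ≤ ((s r + M' * Q : ℕ) : ℝ) - y + n₀ →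
    CH (Pool.Agent.H49.Ent.cond F.p B True)
      (fun ω => ⌊2 ^ (M' * Q) * (nL c s r (o 1) (H 1 (slam F (o 1) ω) r) (slam F (o 1) ω)).eval
        (uu (2 ^ (J - o 1)) (Tm F (o 1)) ω) / 2 ^ y'⌋)
      (fun ω => (⌊2 ^ (M' * Q) * (nL c s r (o 1) (H 1 (slam F (o 1) ω) r)
        (slam F (o 1) ω)).eval (uu (2 ^ (J - o 1)) (Tm F (o 1)) ω) / 2 ^ y⌋,
        ((xd k (slam F (o 1)) (fun L => xL c s r (o 1) Q (frH F r q₀ (H 0) L) L) ω,
          ctF F c s r (o 1) q₀ Q qe (H 0) (fun L => H 1 L r) vL (slam F (o 1) ω)), F.W ω))) ≤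
    CH (Pool.Agent.H49.Ent.cond F.p B True) (fun ω => F.X a ω (c r)) (fun ω => (F.X b ω (c r),
      (ceI ((range r).image c) (fun _ => J) (F.x ω), F.W ω))) +
    ∑ i ∈ range r, (((J : ℝ) - (s i + Q : ℕ)) * Real.log 2 - f i) + C * (u + x + 1) +
      2 * ((n₀ + 3) * Real.log 2) := by
  obtain ⟨C, hrow⟩ := row_wd D r
  refine ⟨C, ?_⟩
  intro m J F c n M ar MB q₀ Q x u p e s qe o z g gc gT g₀ B G T H TH Ht V vL k M₁ f M' a b n₀
    y y' W hB hcl2 hk hf hM1 hM2 hJ hN hMQ hy0 hyy h1 h2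
  have hq := isLaw_cond F.isLaw hB
  have h0 := hq.nonneg
  have hpos : ∀ ω, 0 < Pool.Agent.H49.Ent.cond F.p B True ω → B ω := fun ω hω =>
    of_eq_true ((cond_pos_iff F.isLaw.nonneg B True ω).1 hω).2
  have key := hrow (vL := vL) (zB := fun ω => zB F r G (ptr F J ω)) (f := f)
    (P := ((s r + M' * Q : ℕ) : ℝ) - y) (P' := ((s r + M' * Q : ℕ) : ℝ) - y') W hq hpos hk (by
      intro ω ω' _ _ hh
      unfold zB at hh
      simp only [Prod.mk.injEq] at hh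
      refine ⟨fun l hl => ?_, hh.2.1, hh.2.2⟩
      have := congrFun hh.1 l
      rwa [trn_eq hl, trn_eq hl] at this) (by
      intro i hi
      refine (hf i hi).trans (CH_mono_cond h0 fun ω ω' hω hω' hh => ?_)
      simp only [Prod.mk.injEq] at hh ⊢
      refine ⟨hh.1, ?_, hh.2.2⟩
      rw [zB_cl W hcl2 (hpos ω hω), zB_cl W hcl2 (hpos ω' hω')]
      exact hh.2.1) hM1 hM2 hJ hN (by linarith) (by
      push_cast
      have h5 : ((M' * Q : ℕ) : ℝ) ≤ MB := by exact_mod_cast hMQ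
      push_cast at h5
      linarith)
  have hsc : ∀ t : ℝ, ∀ ω, 0 < Pool.Agent.H49.Ent.cond F.p B True ω →
      2 ^ (M' * Q) * (nL c s r (o 1) (H 1 (slam F (o 1) ω) r) (slam F (o 1) ω)).eval
        (uu (2 ^ (J - o 1)) (Tm F (o 1)) ω) / 2 ^ t =
      (2 : ℝ) ^ (((s r + M' * Q : ℕ) : ℝ) - t) * hg F c (G 1) r ω := by
    intro t ω hω
    rw [uu_rt, nL_hg W (hpos ω hω), Real.rpow_sub (by norm_num), Real.rpow_natCast, pow_add]
    ring
  obtain ⟨bb, hbb⟩ : ∃ bb : F.Ω → (Fin r → ℕ) × (KwT m V × (ℕ × ((Fin r → ℤ) × (Fin r → ℤ)))),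
    bb = fun ω => (xd k (slam F (o 1)) (fun L => xL c s r (o 1) Q (frH F r q₀ (H 0) L) L) ω,
          ctF F c s r (o 1) q₀ Q qe (H 0) (fun L => H 1 L r) vL (slam F (o 1) ω)) := ⟨_, rfl⟩
  have hbb' : ∀ ω, (xd k (slam F (o 1)) (fun L => xL c s r (o 1) Q (frH F r q₀ (H 0) L) L) ω,
          ctF F c s r (o 1) q₀ Q qe (H 0) (fun L => H 1 L r) vL (slam F (o 1) ω)) = bb ω :=
    fun ω => by rw [hbb]
  simp only [hbb'] at key ⊢
  have e1 : CH (Pool.Agent.H49.Ent.cond F.p B True)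
      (fun ω => ⌊2 ^ (M' * Q) * (nL c s r (o 1) (H 1 (slam F (o 1) ω) r) (slam F (o 1) ω)).eval
        (uu (2 ^ (J - o 1)) (Tm F (o 1)) ω) / 2 ^ y'⌋)
      (fun ω => (⌊2 ^ (M' * Q) * (nL c s r (o 1) (H 1 (slam F (o 1) ω) r)
        (slam F (o 1) ω)).eval (uu (2 ^ (J - o 1)) (Tm F (o 1)) ω) / 2 ^ y⌋,
        (bb ω, F.W ω))) ≤
      CH (Pool.Agent.H49.Ent.cond F.p B True)
        (fun ω => ⌊(2 : ℝ) ^ (((s r + M' * Q : ℕ) : ℝ) - y') * hg F c (G 1) r ω⌋)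
        (fun ω => (⌊(2 : ℝ) ^ (((s r + M' * Q : ℕ) : ℝ) - y) * hg F c (G 1) r ω⌋,
          (bb ω, F.W ω))) := by
    refine (CH_mono_left h0 fun ω ω' hω hω' e => ?_).trans
      (CH_mono_cond h0 fun ω ω' hω hω' e => ?_)
    · obtain ⟨e1, e2⟩ := Prod.ext_iff.1 e
      show ⌊_⌋ = ⌊_⌋
      rw [hsc y' ω hω, hsc y' ω' hω']
      exact e1
    · obtain ⟨e1, e2⟩ := Prod.ext_iff.1 e
      refine Prod.ext ?_ e2
      show ⌊_⌋ = ⌊_⌋
      have e3 : ⌊2 ^ (M' * Q) * (nL c s r (o 1) (H 1 (slam F (o 1) ω) r)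
          (slam F (o 1) ω)).eval (uu (2 ^ (J - o 1)) (Tm F (o 1)) ω) / 2 ^ y⌋ =
          ⌊2 ^ (M' * Q) * (nL c s r (o 1) (H 1 (slam F (o 1) ω') r)
          (slam F (o 1) ω')).eval (uu (2 ^ (J - o 1)) (Tm F (o 1)) ω') / 2 ^ y⌋ := e1
      rw [hsc y ω hω, hsc y ω' hω'] at e3
      exact e3
  have e2 := raw_conv hq (F := F) (c := c) (r := r) (P := ((s r + M' * Q : ℕ) : ℝ) - y)
    (P' := ((s r + M' * Q : ℕ) : ℝ) - y') (a := a) (b := b) (n₀ := n₀) (by linarith) h2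
  linarith

end Pool.V1E
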