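import Pool.Agent.H92.D2.Cpg
import Pool.Agent.H73.D2.Lag

/-!
# V1 empty: the velocity at the nodes of the tube

`shift_near`: the values of a polynomial at the nodes of a grid, from the values at the nodes of a
shifted grid. `vel_few`: the velocities `G β` at the nodes of the tube are near `P β` (outside a small
event), `P` few bits given `(E, A)`; then the velocities at the nodes of the corner grid are few bits
given `(E, A)`.
-/

set_option autoImplicit false

namespace Pool.V1E

open Finset Real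
open Pool.Agent.H49.Ent Pool.Agent.H32.Dense Pool.STK Pool.D2A Pool.D2Con
open Pool.BFL (Pb)
open Pool.D2G30

/-- The constant of the interpolation. -/
noncomputable def iC (K d : ℕ) : ℝ := (K + 1) ^ d * lgC K ^ d

theorem one_le_iC (K d : ℕ) : 1 ≤ iC K d := by
  have h1 := one_le_lgC K
  have hK : (0 : ℝ) ≤ K := Nat.cast_nonneg K
  unfold iC
  have h2 : (1 : ℝ) ≤ (K + 1) ^ d := one_le_pow₀ (by linarith)
  have h3 : (1 : ℝ) ≤ lgC K ^ d := one_le_pow₀ h1
  nlinarith

theorem tdeg_comp {d : ℕ} (P : MvPolynomial (Fin d) ℝ) (s : Fin d → ℝ) :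
    (MvPolynomial.aeval (fun i => MvPolynomial.C (s i) + MvPolynomial.X i :
      Fin d → MvPolynomial (Fin d) ℝ) P).totalDegree ≤ P.totalDegree := by
  classical
  conv_lhs => rw [P.as_sum]
  rw [map_sum]
  refine (MvPolynomial.totalDegree_finsetSum _ _).trans ?_
  refine Finset.sup_le fun u hu => ?_
  rw [MvPolynomial.aeval_monomial]
  refine (MvPolynomial.totalDegree_mul _ _).trans ?_
  have h1 : (algebraMap ℝ (MvPolynomial (Fin d) ℝ) (P.coeff u)).totalDegree = 0 := by
    rw [MvPolynomial.algebraMap_eq, MvPolynomial.totalDegree_C]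
  rw [h1, zero_add]
  refine le_trans ?_ (MvPolynomial.le_totalDegree hu)
  unfold Finsupp.prod Finsupp.sum
  refine (MvPolynomial.totalDegree_finsetProd _ _).trans ?_
  refine Finset.sum_le_sum fun i _ => ?_
  refine (MvPolynomial.totalDegree_pow _ _).trans ?_
  have h2 : (MvPolynomial.C (s i) + MvPolynomial.X i : MvPolynomial (Fin d) ℝ).totalDegree ≤ 1 := by
    refine (MvPolynomial.totalDegree_add _ _).trans ?_
    rw [MvPolynomial.totalDegree_C, MvPolynomial.totalDegree_X]
    simp
  calc u i * _ ≤ u i * 1 := Nat.mul_le_mul_left _ h2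
    _ = u i := mul_one _

theorem eval_comp {d : ℕ} (P : MvPolynomial (Fin d) ℝ) (s x : Fin d → ℝ) :
    MvPolynomial.eval x (MvPolynomial.aeval (fun i => MvPolynomial.C (s i) + MvPolynomial.X i :
      Fin d → MvPolynomial (Fin d) ℝ) P) = MvPolynomial.eval (fun i => s i + x i) P := by
  induction P using MvPolynomial.induction_on with
  | C r => simp
  | add p q hp hq => rw [map_add, map_add, hp, hq, map_add]
  | mul_X p i hp => rw [map_mul, map_mul, hp, map_mul, MvPolynomial.aeval_X]; simp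

/-- **Shift of the grid**: the value at a point from the values at the shifted nodes. -/
theorem shift_eval {K d : ℕ} (hK : 1 ≤ K) (P : MvPolynomial (Fin d) ℝ) (hP : P.totalDegree ≤ K)
    (s x : Fin d → ℝ) :
    MvPolynomial.eval x P = ∑ β : Fin d → Fin (K + 1), ell K β (fun i => x i - s i) *
      MvPolynomial.eval (fun i => s i + nd K β i) P := by
  have h1 := ell_interp hK (MvPolynomial.aeval (fun i => MvPolynomial.C (s i) +
    MvPolynomial.X i : Fin d → MvPolynomial (Fin d) ℝ) P) ((tdeg_comp P s).trans hP)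
    (fun i => x i - s i)
  rw [eval_comp] at h1
  have h2 : (fun i => s i + (x i - s i)) = x := by
    funext i
    ring
  rw [h2] at h1
  rw [h1]
  exact Finset.sum_congr rfl fun β _ => by rw [eval_comp]

theorem nd_nonneg {K d : ℕ} (β : Fin d → Fin (K + 1)) (i : Fin d) : 0 ≤ nd K β i := by
  unfold nd
  positivity

theorem nd_le_one {K d : ℕ} (β : Fin d → Fin (K + 1)) (i : Fin d) : nd K β i ≤ 1 := by
  unfold nd
  rcases Nat.eq_zero_or_pos K with h | h
  · subst h
    simp
  · rw [div_le_one (by exact_mod_cast h)]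
    have := (β i).2
    exact_mod_cast Nat.lt_succ_iff.1 this

/-- Two combinations. -/
theorem ell_sum_near {K d : ℕ} (a a' : (Fin d → Fin (K + 1)) → ℝ) {δ : ℝ}
    (h : ∀ β, |a β - a' β| ≤ δ) {x : Fin d → ℝ} (h0 : ∀ i, -1 ≤ x i) (h1 : ∀ i, x i ≤ 2) :
    |∑ β, ell K β x * a β - ∑ β, ell K β x * a' β| ≤ iC K d * δ := by
  have hC := one_le_lgC K
  rw [← Finset.sum_sub_distrib]
  refine (Finset.abs_sum_le_sum_abs _ _).trans ?_
  calc ∑ β : Fin d → Fin (K + 1), |ell K β x * a β - ell K β x * a' β|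
      ≤ ∑ _β : Fin d → Fin (K + 1), lgC K ^ d * δ := by
        refine Finset.sum_le_sum fun β _ => ?_
        rw [← mul_sub, abs_mul]
        exact mul_le_mul (ell_bd β h0 h1) (h β) (abs_nonneg _) (by positivity)
    _ = _ := by
        rw [Finset.sum_const, Finset.card_univ, card_grid, nsmul_eq_mul]
        unfold iC
        push_cast
        ring

section few

variable {Ω ε α κ : Type} [Fintype Ω] {K d n : ℕ}

/-- **The velocities at the nodes of the corner grid.** `G ω`: the velocity as a polynomial; `s`: the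
shift of the tube; `Pd`: the velocities of the closed polynomials. -/
theorem vel_few {q : Ω → ℝ} (hq : IsLaw q) (hK : 1 ≤ K) (E : Ω → ε) (A : Ω → α) (c : Ω → κ)
    (s : Ω → Fin d → ℝ) (G : Ω → MvPolynomial (Fin d) ℝ) (Pd : Ω → (Fin d → Fin (K + 1)) → ℝ)
    {σ D₀ η M e₁ : ℝ} (hD₀ : 0 ≤ D₀) (hM : 0 ≤ M)
    (hdeg : ∀ ω, (G ω).totalDegree ≤ K)
    (hs : Det q (fun ω => (c ω, (E ω, A ω))) s)
    (hs1 : ∀ ω, 0 < q ω → ∀ i, |s ω i| ≤ 1)
    (hbd : ∀ ω, 0 < q ω → ∀ β, |σ * MvPolynomial.eval (nd K β) (G ω)| ≤ M)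
    (hread : Pb q (fun ω => ∃ β, D₀ < |σ * MvPolynomial.eval (fun i => s ω i + nd K β i) (G ω) -
      σ * Pd ω β|) ≤ η)
    (hP : CH q (fun ω => (c ω, fun β => ⌊σ * Pd ω β⌋)) (fun ω => (E ω, A ω)) ≤ e₁) :
    CH q (fun ω β => ⌊σ * MvPolynomial.eval (nd K β) (G ω)⌋) (fun ω => (E ω, A ω)) ≤
      e₁ + (Real.log 2 + (K + 1) ^ d * (Real.log (2 * (iC K d * (2 * D₀ + 1) + 1) + 1) +
        η * Real.log (4 * (M + 1) + 1))) := by
  classical
  have h0 := hq.nonneg
  have hiC := one_le_iC K d
  have h1 := CH_le_add h0 (fun ω β => ⌊σ * MvPolynomial.eval (nd K β) (G ω)⌋)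
    (fun ω => (c ω, fun β => ⌊σ * Pd ω β⌋)) (fun ω => (E ω, A ω))
  have h2 := CH_vecb hq (fun ω (β : Fin d → Fin (K + 1)) =>
      ⌊σ * MvPolynomial.eval (nd K β) (G ω)⌋)
    (fun ω => ((c ω, fun β => ⌊σ * Pd ω β⌋), (E ω, A ω)))
    (fun ω => ∃ β, D₀ < |σ * MvPolynomial.eval (fun i => s ω i + nd K β i) (G ω) -
      σ * Pd ω β|) (M := M + 1) (D := iC K d * (2 * D₀ + 1) + 1) hread (by linarith)
    (by nlinarith)
    (by
      intro ω hω β
      have h3 := hbd ω hω β
      have h4 := Int.floor_le (σ * MvPolynomial.eval (nd K β) (G ω))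
      have h5 := Int.lt_floor_add_one (σ * MvPolynomial.eval (nd K β) (G ω))
      rw [abs_le] at h3 ⊢
      constructor <;> linarith [h3.1, h3.2])
    (by
      intro ω ω' hω hω' hg hg' h γ
      simp only [Prod.mk.injEq] at h
      obtain ⟨⟨e1, e2⟩, e3, e4⟩ := h
      have es : s ω = s ω' := hs ω ω' hω hω' (by
        show (c ω, (E ω, A ω)) = (c ω', (E ω', A ω'))
        rw [e1, e3, e4])
      push Not at hg hg'
      refine (floor_diff _ _).trans (add_le_add ?_ le_rfl)
      have a1 := shift_eval hK (G ω) (hdeg ω) (s ω) (nd K γ)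
      have a2 := shift_eval hK (G ω') (hdeg ω') (s ω') (nd K γ)
      have b1 : ∀ x : Ω, σ * ∑ β : Fin d → Fin (K + 1), ell K β (fun i => nd K γ i - s x i) *
          MvPolynomial.eval (fun i => s x i + nd K β i) (G x) =
          ∑ β : Fin d → Fin (K + 1), ell K β (fun i => nd K γ i - s x i) *
            (σ * MvPolynomial.eval (fun i => s x i + nd K β i) (G x)) := by
        intro x
        rw [Finset.mul_sum]
        exact Finset.sum_congr rfl fun β _ => by ring
      rw [a1, a2, b1, b1, ← es]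
      refine ell_sum_near _ _ (fun β => ?_) (fun i => ?_) (fun i => ?_)
      · have c1 := hg β
        have c2 := hg' β
        rw [← es] at c2
        have c3 : |σ * Pd ω β - σ * Pd ω' β| ≤ 1 :=
          (Int.abs_sub_lt_one_of_floor_eq_floor (congrFun e2 β)).le
        rw [abs_le] at c1 c2 c3 ⊢
        constructor <;> linarith [c1.1, c1.2, c2.1, c2.2, c3.1, c3.2]
      · have c1 := abs_le.1 (hs1 ω hω i)
        have c2 := nd_nonneg γ i
        linarith [c1.2]
      · have c1 := abs_le.1 (hs1 ω hω i)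
        have c2 := nd_le_one γ i
        linarith [c1.1])
  have h3 : (Fintype.card (Fin d → Fin (K + 1)) : ℝ) = (K + 1) ^ d := by
    rw [card_grid]
    push_cast
    ring
  rw [h3] at h2
  linarith

end few

end Pool.V1E
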