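import Mathlib

/-!
# Steep intervals of a monotone function

`vit_mono`: a set of points with arbitrarily small steep intervals of a monotone function is small.
`vit_all`: a set is a null set if at almost every of its points `g`, for infinitely many scales, the
points of the set near `g` have arbitrarily small steep intervals of a monotone function with small
variation.
-/

set_option autoImplicit false

namespace Pool.RCD

open MeasureTheory Set Filter Topology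

/-- The left limit of the right limits. -/
theorem left_st {f : ℝ → ℝ} (hf : Monotone f) (a : ℝ) :
    Function.leftLim (⇑hf.stieltjesFunction) a ≤ f a := by
  rw [hf.stieltjesFunction.mono.leftLim_eq_sSup]
  refine csSup_le ⟨_, ⟨a - 1, by simp, rfl⟩⟩ ?_
  rintro x ⟨y, hy, rfl⟩
  rw [hf.stieltjesFunction_eq]
  exact hf.rightLim_le hy

/-- **Points with steep intervals.** -/
theorem vit_mono {f : ℝ → ℝ} (hf : Monotone f) {s : Set ℝ} {c α β : ℝ} (hc : 0 < c)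
    (hs : s ⊆ Ioo α β)
    (h : ∀ x ∈ s, ∀ ρ : ℝ, 0 < ρ → ∃ r : ℝ, 0 < r ∧ r < ρ ∧ c * r ≤ f (x + r) - f (x - r)) :
    volume s ≤ ENNReal.ofReal (2 / c * (f β - f α)) := by
  obtain ⟨ν, hν⟩ : ∃ ν : Measure ℝ, ν = hf.stieltjesFunction.measure := ⟨_, rfl⟩
  have hloc : IsLocallyFiniteMeasure ν := by
    rw [hν]
    infer_instance
  obtain ⟨ρ, hρ⟩ : ∃ ρ : Measure ℝ, ρ = ENNReal.ofReal (c / 2) • (volume : Measure ℝ) := ⟨_, rfl⟩
  have h1 : ρ s ≤ ν s := by
    refine (Besicovitch.vitaliFamily (volume : Measure ℝ)).measure_le_of_frequently_le ν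
      (ρ := ρ) ?_ s fun x hx => ?_
    · rw [hρ]
      exact Measure.smul_absolutelyContinuous
    · refine (Besicovitch.tendsto_filterAt (volume : Measure ℝ) x).frequently ?_
      rw [frequently_iff]
      intro U hU
      rw [mem_nhdsGT_iff_exists_Ioo_subset] at hU
      obtain ⟨u, hu, hU⟩ := hU
      obtain ⟨r, hr, hru, h2⟩ := h x hx u hu
      refine ⟨r, hU ⟨hr, hru⟩, ?_⟩
      rw [hρ, hν, Measure.smul_apply, Real.volume_closedBall, smul_eq_mul, Real.closedBall_eq_Icc,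
        StieltjesFunction.measure_Icc, ← ENNReal.ofReal_mul (by positivity)]
      refine ENNReal.ofReal_le_ofReal ?_
      rw [hf.stieltjesFunction_eq]
      have h3 := hf.le_rightLim (le_refl (x + r))
      have h5 : c / 2 * (2 * r) = c * r := by ring
      rw [h5]
      have h6 := left_st hf (x - r)
      linarith
  have h2 : ν s ≤ ENNReal.ofReal (f β - f α) := by
    refine (measure_mono hs).trans ?_
    rw [hν, StieltjesFunction.measure_Ioo]
    refine ENNReal.ofReal_le_ofReal ?_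
    have h3 := left_st hf β
    have h4 : f α ≤ hf.stieltjesFunction α := by
      rw [hf.stieltjesFunction_eq]
      exact hf.le_rightLim (le_refl α)
    linarith
  have h3 : volume s = ENNReal.ofReal (2 / c) * ρ s := by
    rw [hρ, Measure.smul_apply, smul_eq_mul, ← mul_assoc, ← ENNReal.ofReal_mul (by positivity)]
    have : 2 / c * (c / 2) = 1 := by field_simp
    rw [this, ENNReal.ofReal_one, one_mul]
  rw [h3, ENNReal.ofReal_mul (by positivity)]
  exact mul_le_mul_right (h1.trans h2) _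

/-- A function on the rational numbers of an interval, as a monotone function. -/
theorem rat_ext {Φ : ℚ → ℝ} {a b : ℝ}
    (h : ∀ v v' : ℚ, a ≤ v → v ≤ v' → (v' : ℝ) ≤ b → Φ v' ≤ Φ v) (hb : ∃ M : ℝ, ∀ v : ℚ,
      a ≤ v → (v : ℝ) ≤ b → |Φ v| ≤ M) :
    ∃ f : ℝ → ℝ, Monotone f ∧ ∀ v : ℚ, a ≤ v → (v : ℝ) ≤ b → f v = -Φ v := by
  classical
  obtain ⟨M, hM⟩ := hb
  obtain ⟨F, hF⟩ : ∃ F : ℝ → ℝ, ∀ v : ℚ, F v = -Φ v := by
    refine ⟨fun x => if hx : ∃ v : ℚ, (v : ℝ) = x then -Φ hx.choose else 0, fun v => ?_⟩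
    have hx : ∃ v' : ℚ, (v' : ℝ) = (v : ℝ) := ⟨v, rfl⟩
    have e1 : hx.choose = v := by exact_mod_cast hx.choose_spec
    simp only [dif_pos hx, e1]
  obtain ⟨s, hs⟩ : ∃ s : Set ℝ, s = {x | ∃ v : ℚ, (v : ℝ) = x ∧ a ≤ v ∧ (v : ℝ) ≤ b} := ⟨_, rfl⟩
  have hmo : MonotoneOn F s := by
    rintro x hx y hy hxy
    rw [hs] at hx hy
    obtain ⟨v, rfl, hv1, hv2⟩ := hx
    obtain ⟨v', rfl, hv3, hv4⟩ := hy
    rw [hF, hF]
    have := h v v' hv1 (by exact_mod_cast hxy) hv4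
    linarith
  have hbd : ∀ y ∈ F '' s, |y| ≤ M := by
    rintro y ⟨x, hx, rfl⟩
    rw [hs] at hx
    obtain ⟨v, rfl, hv1, hv2⟩ := hx
    rw [hF, abs_neg]
    exact hM v hv1 hv2
  obtain ⟨f, hf, hE⟩ := hmo.exists_monotone_extension
    ⟨-M, fun y hy => (abs_le.1 (hbd y hy)).1⟩ ⟨M, fun y hy => (abs_le.1 (hbd y hy)).2⟩
  refine ⟨f, hf, fun v hv1 hv2 => ?_⟩
  rw [← hF]
  refine (hE ?_).symm
  rw [hs]
  exact ⟨v, rfl, hv1, hv2⟩

/-- Near `g₀ + lam r`, `r = 2 ^ (-k)`, there is an antitone function on the rational numbers, of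
variation at most `κ' r`, and the points of `s` have arbitrarily small steep intervals. -/
def Steep (s : Set ℝ) (lam κ C κ' : ℝ) (k : ℕ) (g₀ : ℝ) : Prop :=
  ∃ Φ : ℚ → ℝ, (∀ v v' : ℚ, g₀ + lam * (1 / 2) ^ k - (1 / 2) ^ k ≤ v → v ≤ v' →
      (v' : ℝ) ≤ g₀ + lam * (1 / 2) ^ k + (1 / 2) ^ k →
      Φ v' ≤ Φ v ∧ Φ v - Φ v' ≤ κ' * (1 / 2) ^ k) ∧
    ∀ g ∈ s, g₀ + lam * (1 / 2) ^ k - (1 / 2) ^ k / 2 ≤ g →
      g ≤ g₀ + lam * (1 / 2) ^ k + (1 / 2) ^ k / 2 → ∀ ρ : ℝ, 0 < ρ →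
      ∃ r : ℝ, 0 < r ∧ r < ρ ∧ ∃ v v' : ℚ, g - C * r ≤ v ∧ v ≤ v' ∧ (v' : ℝ) ≤ g + C * r ∧
        κ * r ≤ Φ v - Φ v'

/-- **A criterion for null sets.** -/
theorem vit_all {s : Set ℝ} {lam κ C : ℝ} (hlam : 0 ≤ lam) (hκ : 0 < κ) (hC : 0 < C)
    (h : ∀ᵐ g₀ : ℝ, g₀ ∈ s → ∀ κ' : ℝ, 0 < κ' → ∀ K : ℕ, ∃ k ≥ K, Steep s lam κ C κ' k g₀) :
    volume s = 0 := by
  by_contra hne
  obtain ⟨κ', hκ'⟩ : ∃ κ' : ℝ, κ' = κ / (8 * C) := ⟨_, rfl⟩
  have hκ'0 : 0 < κ' := by rw [hκ']; positivity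
  obtain ⟨θ, hθ⟩ : ∃ θ : ℝ, θ = 1 / (4 * (lam + 1)) := ⟨_, rfl⟩
  have hθ0 : 0 < θ := by rw [hθ]; positivity
  have hθ1 : θ * (2 * (lam + 1)) = 1 / 2 := by
    rw [hθ]
    field_simp
    norm_num
  -- a point of density
  obtain ⟨t, ht1, ht2, ht3⟩ := exists_measurable_superset_of_null
    (ae_iff.1 (Besicovitch.ae_tendsto_measure_inter_div (volume : Measure ℝ) s))
  rw [Measure.restrict_apply ht2] at ht3
  have hex : ∃ g₀ ∈ s, g₀ ∉ t ∧ (g₀ ∈ s → ∀ κ' : ℝ, 0 < κ' → ∀ K : ℕ, ∃ k ≥ K,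
      Steep s lam κ C κ' k g₀) := by
    by_contra hcon
    refine hne (le_antisymm ?_ bot_le)
    have h2 : s ⊆ (t ∩ s) ∪ {g₀ | ¬ (g₀ ∈ s → ∀ κ' : ℝ, 0 < κ' → ∀ K : ℕ, ∃ k ≥ K,
        Steep s lam κ C κ' k g₀)} := by
      intro x hx
      by_cases hxt : x ∈ t
      · exact Or.inl ⟨hxt, hx⟩
      · exact Or.inr fun hcc => hcon ⟨x, hx, hxt, hcc⟩
    refine (measure_mono h2).trans ((measure_union_le _ _).trans (le_of_eq ?_))
    rw [ht3, zero_add]
    exact ae_iff.1 h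
  obtain ⟨g₀, hg₀, hgt, hg⟩ := hex
  have hten : Tendsto (fun r => volume (s ∩ Metric.closedBall g₀ r) /
      volume (Metric.closedBall g₀ r)) (𝓝[>] 0) (𝓝 1) := by
    by_contra hcon
    exact hgt (ht1 hcon)
  -- the scale
  have hlt : ENNReal.ofReal (1 - θ) < 1 := by
    rw [← ENNReal.ofReal_one]
    exact (ENNReal.ofReal_lt_ofReal_iff one_pos).2 (by linarith)
  have hev := hten.eventually_const_lt hlt
  rw [eventually_nhdsWithin_iff, Metric.eventually_nhds_iff] at hev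
  obtain ⟨δ, hδ, hev⟩ := hev
  obtain ⟨K₀, hK₀⟩ := exists_pow_lt_of_lt_one (show 0 < δ / (lam + 1) by positivity)
    (show (1 / 2 : ℝ) < 1 by norm_num)
  obtain ⟨k, hk, Φ, h1, h2⟩ := hg hg₀ κ' hκ'0 K₀
  obtain ⟨r, hr⟩ : ∃ r : ℝ, r = (1 / 2) ^ k := ⟨_, rfl⟩
  rw [← hr] at h1 h2
  have hr0 : 0 < r := by rw [hr]; positivity
  have hrδ : (lam + 1) * r < δ := by
    have h3 : r ≤ (1 / 2) ^ K₀ := by
      rw [hr]
      exact pow_le_pow_of_le_one (by norm_num) (by norm_num) hk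
    have h4 := h3.trans_lt hK₀
    rw [lt_div_iff₀ (by positivity)] at h4
    linarith
  obtain ⟨R, hR⟩ : ∃ R : ℝ, R = (lam + 1) * r := ⟨_, rfl⟩
  have hR0 : 0 < R := by rw [hR]; positivity
  have h3 := hev (y := R) (by
    rw [Real.dist_eq, sub_zero, abs_of_pos hR0, hR]
    exact hrδ) hR0
  -- the interval
  obtain ⟨x₁, hx₁⟩ : ∃ x₁ : ℝ, x₁ = g₀ + lam * r - r / 2 := ⟨_, rfl⟩
  obtain ⟨x₂, hx₂⟩ : ∃ x₂ : ℝ, x₂ = g₀ + lam * r + r / 2 := ⟨_, rfl⟩
  have hx12 : x₁ ≤ x₂ := by rw [hx₁, hx₂]; linarith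
  have hlr : 0 ≤ lam * r := mul_nonneg hlam hr0.le
  have h4 : ENNReal.ofReal (r / 2) ≤ volume (s ∩ Icc x₁ x₂) := by
    have e1 : volume (Metric.closedBall g₀ R) = ENNReal.ofReal (2 * R) := Real.volume_closedBall _ _
    have e2 : ENNReal.ofReal (1 - θ) * ENNReal.ofReal (2 * R) ≤
        volume (s ∩ Metric.closedBall g₀ R) := by
      have h5 := h3.le
      rw [e1] at h5
      rw [ENNReal.le_div_iff_mul_le (Or.inl (by
        rw [Ne, ENNReal.ofReal_eq_zero, not_le]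
        positivity)) (Or.inl ENNReal.ofReal_ne_top)] at h5
      exact h5
    have e3 : s ∩ Metric.closedBall g₀ R ⊆ (s ∩ Icc x₁ x₂) ∪ (Icc (g₀ - R) x₁ ∪ Icc x₂ (g₀ + R)) := by
      rintro x ⟨hx, hxR⟩
      rw [Real.closedBall_eq_Icc] at hxR
      rcases le_total x x₁ with h6 | h6
      · exact Or.inr (Or.inl ⟨hxR.1, h6⟩)
      · rcases le_total x x₂ with h7 | h7
        · exact Or.inl ⟨hx, h6, h7⟩
        · exact Or.inr (Or.inr ⟨h7, hxR.2⟩)
    have e4 : volume (Icc (g₀ - R) x₁ ∪ Icc x₂ (g₀ + R)) ≤ ENNReal.ofReal (2 * R - r) := by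
      refine (measure_union_le _ _).trans ?_
      rw [Real.volume_Icc, Real.volume_Icc, ← ENNReal.ofReal_add]
      · refine ENNReal.ofReal_le_ofReal ?_
        rw [hx₁, hx₂]
        linarith
      · rw [hx₁, hR]
        linarith
      · rw [hx₂, hR]
        linarith
    have e5 := (e2.trans (measure_mono e3)).trans ((measure_union_le _ _).trans
      (add_le_add_right e4 _))
    rw [← ENNReal.ofReal_mul (by
      have : θ ≤ 1 := by
        rw [hθ, div_le_one (by positivity)]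
        linarith
      linarith)] at e5
    have e6 : (1 - θ) * (2 * R) = r / 2 + (2 * R - r) := by
      have : θ * (2 * R) = 1 / 2 * r := by
        rw [← hθ1, hR]
        ring
      linarith
    have e7 : 0 ≤ 2 * R - r := by
      rw [hR]
      linarith
    rw [e6, ENNReal.ofReal_add (by positivity) e7] at e5
    exact (ENNReal.add_le_add_iff_right ENNReal.ofReal_ne_top).1 e5
  -- the function
  obtain ⟨a, ha1, ha2⟩ := exists_rat_btwn (show g₀ + lam * r - r < x₁ by rw [hx₁]; linarith)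
  obtain ⟨b, hb1, hb2⟩ := exists_rat_btwn (show x₂ < g₀ + lam * r + r by rw [hx₂]; linarith)
  obtain ⟨f, hf, hfΦ⟩ := rat_ext (Φ := Φ) (a := a) (b := b) (fun v v' c1 c2 c3 =>
    (h1 v v' (ha1.le.trans c1) c2 (c3.trans hb2.le)).1) ⟨|Φ a| + |Φ b|, fun v c1 c2 => by
      have c3 := (h1 a v ha1.le (by exact_mod_cast c1) (c2.trans hb2.le)).1
      have c4 := (h1 v b (ha1.le.trans c1) (by exact_mod_cast c2) hb2.le).1
      have c5 := le_abs_self (Φ a)
      have c6 := neg_abs_le (Φ b)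
      have c7 := abs_nonneg (Φ a)
      have c8 := abs_nonneg (Φ b)
      rw [abs_le]
      constructor <;> linarith⟩
  have hab : (a : ℝ) ≤ b := (ha2.le.trans hx12).trans hb1.le
  have h5 := vit_mono hf (s := s ∩ Icc x₁ x₂) (c := κ / C) (α := a) (β := b) (by positivity)
    (fun x hx => ⟨ha2.trans_le hx.2.1, hx.2.2.trans_lt hb1⟩) (by
    rintro x ⟨hx, hxI⟩ ρ hρ
    obtain ⟨r', c1, c2, v, v', c3, c4, c5, c6⟩ := h2 x hx (by rw [← hx₁]; exact hxI.1)
      (by rw [← hx₂]; exact hxI.2) (min (ρ / C) (min ((x - a) / C) ((b - x) / C)))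
      (lt_min (by positivity) (lt_min (div_pos (by linarith [hxI.1]) hC)
        (div_pos (by linarith [hxI.2]) hC)))
    have d1 := c2.trans_le (min_le_left _ _)
    have d2 := (c2.trans_le (min_le_right _ _)).trans_le (min_le_left _ _)
    have d3 := (c2.trans_le (min_le_right _ _)).trans_le (min_le_right _ _)
    rw [lt_div_iff₀ hC] at d1 d2 d3
    refine ⟨C * r', by positivity, by linarith, ?_⟩
    have e1 : κ / C * (C * r') = κ * r' := by field_simp
    rw [e1]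
    have c4' : (v : ℝ) ≤ v' := by exact_mod_cast c4
    have e2 := hfΦ v (by linarith) (by linarith)
    have e3 := hfΦ v' (by linarith) (by linarith)
    have e4 := hf c3
    have e5 := hf c5
    linarith)
  have h6 := h4.trans h5
  rw [hfΦ a le_rfl hab, hfΦ b hab le_rfl] at h6
  have h7 := (h1 a b ha1.le (by exact_mod_cast hab) hb2.le)
  have h8 : 2 / (κ / C) * (-Φ b - -Φ a) ≤ r / 4 := by
    have e1 : -Φ b - -Φ a = Φ a - Φ b := by ring
    rw [e1]
    calc 2 / (κ / C) * (Φ a - Φ b) ≤ 2 / (κ / C) * (κ' * r) :=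
          mul_le_mul_of_nonneg_left h7.2 (by positivity)
      _ = r / 4 := by
          rw [hκ']
          field_simp
          norm_num
  have h9 := h6.trans (ENNReal.ofReal_le_ofReal h8)
  rw [ENNReal.ofReal_le_ofReal_iff (by positivity)] at h9
  linarith

end Pool.RCD
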